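import Pool.Agent.H4.Joh.Defs

/-!
# Interval families

JOB.  (1) `nbr_itv`: a vertex `u` has a neighbour in `Itv N i t C D` if `|C ∩ u| ≤ i`, `|C \ u| ≤ t`,
`|D ∩ u| ≤ t`, `|D \ u| ≤ s`: take `p = C ∪ P1 ∪ P2`, `P1 ⊆ (u \ D) \ C` of size `i - |C ∩ u|`
(room: `|u| - |D ∩ u| - |C ∩ u| ≥ i - |C ∩ u|`) and `P2 ⊆ ((N \ u) \ D) \ C` of size `t - |C \ u|`
(room: `|N \ u| = t + s`).

(2) `itv_reach`: the family is connected if `|C| ≤ i`, `|D| ≤ s` and (`|C| + |D| + 1 ≤ i + s` or
`t = 1`).  Proof: induction on `|A \ B|`.  If `A ≠ B` choose `a ∈ A \ B`, `b ∈ B \ A`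
(`a ∉ C`, `b ∉ D`), `A' = insert b (A.erase a)`, which is in the family and `|A' \ B| = |A \ B| - 1`.
So it is enough to reach `A'` from `A`.  `K = A.erase a`, `|K| = i + t - 1`, `C ⊆ K`,
`|N \ (A ∪ {b})| = t + s - 1`.
* If `|D| + 1 ≤ s` (and `|C| ≤ i`): common neighbour `E = I ∪ T`, `C ⊆ I ⊆ K`, `|I| = i`
  (`i ≤ i + t - 1`), `T ⊆ N \ (A ∪ {b}) \ D`, `|T| = t` (room `t + s - 1 - |D| ≥ t`).
* Else `|D| = s` and `|C| + 1 ≤ i` (if `|C| + |D| + 1 ≤ i + s`): `E = {a, b} ∪ I ∪ T`,
  `C ⊆ I ⊆ K`, `|I| = i - 1`, `T ⊆ N \ (A ∪ {b}) \ D`, `|T| = t - 1` (room `t + s - 1 - |D|`).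
* If `t = 1`: `A` and `A'` are adjacent, `|A ∩ A'| = |K| = i`.
(`E` is adjacent to both `A` and `A'`: `|E ∩ A| = i = |E ∩ A'|`; it lies in the family.)
-/

namespace Pool.Agent.H4.Joh

variable {α : Type*} [DecidableEq α] {N C D A B u : Finset α} {i s t : ℕ}

theorem nbr_itv (hN : N.card = 2 * t + i + s) (hu : Vtx N i t u) (hC : C ⊆ N) (hD : D ⊆ N)
    (hCD : Disjoint C D) (h1 : (C ∩ u).card ≤ i) (h2 : (C \ u).card ≤ t)
    (h3 : (D ∩ u).card ≤ t) (h4 : (D \ u).card ≤ s) :
    ∃ p ∈ Itv N i t C D, (u ∩ p).card = i := by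
  obtain ⟨huN, huc⟩ := hu
  have hU1 : i - (C ∩ u).card ≤ (u \ (C ∪ D)).card := by
    have h := Finset.card_sdiff_add_card_inter u (C ∪ D)
    have h' : (u ∩ (C ∪ D)).card ≤ (C ∩ u).card + (D ∩ u).card := by
      rw [Finset.inter_union_distrib_left, Finset.inter_comm u C, Finset.inter_comm u D]
      exact Finset.card_union_le _ _
    omega
  obtain ⟨P1, hP1, hP1c⟩ := Finset.exists_subset_card_eq hU1
  have hU2 : t - (C \ u).card ≤ ((N \ u) \ (C ∪ D)).card := by
    have h := Finset.card_sdiff_add_card_inter (N \ u) (C ∪ D)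
    have h' : ((N \ u) ∩ (C ∪ D)).card ≤ (C \ u).card + (D \ u).card := by
      calc ((N \ u) ∩ (C ∪ D)).card ≤ ((C \ u) ∪ (D \ u)).card := by
            apply Finset.card_le_card
            intro z
            simp only [Finset.mem_inter, Finset.mem_sdiff, Finset.mem_union]
            tauto
        _ ≤ _ := Finset.card_union_le _ _
    have h'' : (N \ u).card + u.card = N.card := Finset.card_sdiff_add_card_eq_card huN
    omega
  obtain ⟨P2, hP2, hP2c⟩ := Finset.exists_subset_card_eq hU2
  have e1 : ∀ z ∈ P1, z ∈ u ∧ z ∉ C ∧ z ∉ D := by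
    intro z hz
    have := hP1 hz
    simp only [Finset.mem_sdiff, Finset.mem_union] at this
    tauto
  have e2 : ∀ z ∈ P2, z ∈ N ∧ z ∉ u ∧ z ∉ C ∧ z ∉ D := by
    intro z hz
    have := hP2 hz
    simp only [Finset.mem_sdiff, Finset.mem_union] at this
    tauto
  have hCu : (C \ u).card + (C ∩ u).card = C.card := Finset.card_sdiff_add_card_inter C u
  have d12 : Disjoint P1 P2 := by
    rw [Finset.disjoint_left]
    intro z hz1 hz2
    exact (e2 z hz2).2.1 (e1 z hz1).1
  have dC : Disjoint C (P1 ∪ P2) := by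
    rw [Finset.disjoint_left]
    intro z hz1 hz2
    rcases Finset.mem_union.mp hz2 with h | h
    · exact (e1 z h).2.1 hz1
    · exact (e2 z h).2.2.1 hz1
  refine ⟨C ∪ (P1 ∪ P2), ⟨⟨?_, ?_⟩, ?_, ?_⟩, ?_⟩
  · intro z hz
    simp only [Finset.mem_union] at hz
    rcases hz with h | h | h
    · exact hC h
    · exact huN (e1 z h).1
    · exact (e2 z h).1
  · rw [Finset.card_union_of_disjoint dC, Finset.card_union_of_disjoint d12]
    omega
  · exact Finset.subset_union_left
  · rw [Finset.disjoint_left]
    intro z hz hzD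
    simp only [Finset.mem_union] at hz
    rcases hz with h | h | h
    · exact (Finset.disjoint_left.mp hCD) h hzD
    · exact (e1 z h).2.2 hzD
    · exact (e2 z h).2.2.2 hzD
  · have hE : u ∩ (C ∪ (P1 ∪ P2)) = (C ∩ u) ∪ P1 := by
      ext z
      simp only [Finset.mem_inter, Finset.mem_union]
      constructor
      · rintro ⟨hzu, h | h | h⟩
        · exact Or.inl ⟨h, hzu⟩
        · exact Or.inr h
        · exact absurd hzu (e2 z h).2.1
      · rintro (⟨h, hzu⟩ | h)
        · exact ⟨hzu, Or.inl h⟩
        · exact ⟨(e1 z h).1, Or.inr (Or.inl h)⟩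
    have dd : Disjoint (C ∩ u) P1 := by
      rw [Finset.disjoint_left]
      intro z hz1 hz2
      exact (e1 z hz2).2.1 (Finset.mem_inter.mp hz1).1
    rw [hE, Finset.card_union_of_disjoint dd]
    omega

private theorem itv_step (hN : N.card = 2 * t + i + s) (ht : 1 ≤ t)
    (h1 : C.card ≤ i) (h2 : D.card ≤ s)
    (h3 : C.card + D.card + 1 ≤ i + s ∨ t = 1)
    (hA : A ∈ Itv N i t C D) {a b : α} (ha : a ∈ A) (haC : a ∉ C) (hb : b ∈ N) (hbA : b ∉ A)
    (hbD : b ∉ D) (haN : a ∉ D) :
    insert b (A.erase a) ∈ Itv N i t C D ∧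
      Reach i (Itv N i t C D) A (insert b (A.erase a)) := by
  obtain ⟨⟨hAN, hAc⟩, hCA, hAD⟩ := hA
  have hKc : (A.erase a).card = i + t - 1 := by rw [Finset.card_erase_of_mem ha, hAc]
  have hbK : b ∉ A.erase a := fun h => hbA (Finset.mem_of_mem_erase h)
  have hab : a ≠ b := fun h => hbA (h ▸ ha)
  have hCK : C ⊆ A.erase a := by
    intro z hz
    exact Finset.mem_erase.mpr ⟨fun h => haC (h ▸ hz), hCA hz⟩
  have hA' : insert b (A.erase a) ∈ Itv N i t C D := by
    refine ⟨⟨?_, ?_⟩, ?_, ?_⟩
    · intro z hz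
      rcases Finset.mem_insert.mp hz with h | h
      · rw [h]; exact hb
      · exact hAN (Finset.mem_of_mem_erase h)
    · rw [Finset.card_insert_of_notMem hbK, hKc]
      omega
    · exact hCK.trans (Finset.subset_insert _ _)
    · rw [Finset.disjoint_left]
      intro z hz hzD
      rcases Finset.mem_insert.mp hz with h | h
      · exact hbD (h ▸ hzD)
      · exact (Finset.disjoint_left.mp hAD) (Finset.mem_of_mem_erase h) hzD
  refine ⟨hA', ?_⟩
  by_cases ht1 : t = 1
  · refine Relation.ReflTransGen.single ⟨?_, hA'⟩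
    have hE : A ∩ insert b (A.erase a) = A.erase a := by
      ext z
      simp only [Finset.mem_inter, Finset.mem_insert, Finset.mem_erase]
      constructor
      · rintro ⟨hz, h | h⟩
        · exact absurd (h ▸ hz) hbA
        · exact h
      · rintro ⟨h, hz⟩
        exact ⟨hz, Or.inr ⟨h, hz⟩⟩
    rw [hE, hKc]
    omega
  have h3' : C.card + D.card + 1 ≤ i + s := by
    rcases h3 with h | h
    · exact h
    · exact absurd h ht1
  -- room outside
  have hroom : t + s - 1 - D.card ≤ ((N \ A).erase b \ D).card := by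
    have e1 : (N \ A).card + A.card = N.card := Finset.card_sdiff_add_card_eq_card hAN
    have e2 : ((N \ A).erase b).card = (N \ A).card - 1 :=
      Finset.card_erase_of_mem (Finset.mem_sdiff.mpr ⟨hb, hbA⟩)
    have e3 := Finset.le_card_sdiff D ((N \ A).erase b)
    omega
  by_cases hDs : D.card + 1 ≤ s
  · obtain ⟨I, hCI, hIK, hIc⟩ := Finset.exists_subsuperset_card_eq hCK h1
      (show i ≤ (A.erase a).card by omega)
    obtain ⟨T, hT, hTc⟩ := Finset.exists_subset_card_eq
      (show t ≤ ((N \ A).erase b \ D).card by omega)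
    have eT : ∀ z ∈ T, z ∈ N ∧ z ∉ A ∧ z ≠ b ∧ z ∉ D := by
      intro z hz
      have := hT hz
      simp only [Finset.mem_sdiff, Finset.mem_erase] at this
      tauto
    have eI : ∀ z ∈ I, z ∈ A ∧ z ≠ a := by
      intro z hz
      have := hIK hz
      simp only [Finset.mem_erase] at this
      tauto
    have dIT : Disjoint I T := by
      rw [Finset.disjoint_left]
      intro z hz1 hz2
      exact (eT z hz2).2.1 (eI z hz1).1
    have hE : I ∪ T ∈ Itv N i t C D := by
      refine ⟨⟨?_, ?_⟩, ?_, ?_⟩
      · intro z hz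
        rcases Finset.mem_union.mp hz with h | h
        · exact hAN (eI z h).1
        · exact (eT z h).1
      · rw [Finset.card_union_of_disjoint dIT]
        omega
      · exact hCI.trans Finset.subset_union_left
      · rw [Finset.disjoint_left]
        intro z hz hzD
        rcases Finset.mem_union.mp hz with h | h
        · exact (Finset.disjoint_left.mp hAD) (eI z h).1 hzD
        · exact (eT z h).2.2.2 hzD
    have hAE : A ∩ (I ∪ T) = I := by
      ext z
      simp only [Finset.mem_inter, Finset.mem_union]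
      constructor
      · rintro ⟨hz, h | h⟩
        · exact h
        · exact absurd hz (eT z h).2.1
      · intro h
        exact ⟨(eI z h).1, Or.inl h⟩
    have hEA : (I ∪ T) ∩ insert b (A.erase a) = I := by
      ext z
      simp only [Finset.mem_inter, Finset.mem_union, Finset.mem_insert, Finset.mem_erase]
      constructor
      · rintro ⟨h | h, h'⟩
        · exact h
        · rcases h' with h' | h'
          · exact absurd h' (eT z h).2.2.1
          · exact absurd h'.2 (eT z h).2.1
      · intro h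
        exact ⟨Or.inl h, Or.inr ⟨(eI z h).2, (eI z h).1⟩⟩
    refine Relation.ReflTransGen.head (b := I ∪ T) ⟨?_, hE⟩
      (Relation.ReflTransGen.single ⟨?_, hA'⟩)
    · rw [hAE, hIc]
    · rw [hEA, hIc]
  · have hi1 : C.card ≤ i - 1 := by omega
    have hi0 : 1 ≤ i := by omega
    obtain ⟨I, hCI, hIK, hIc⟩ := Finset.exists_subsuperset_card_eq hCK hi1
      (show i - 1 ≤ (A.erase a).card by omega)
    obtain ⟨T, hT, hTc⟩ := Finset.exists_subset_card_eq
      (show t - 1 ≤ ((N \ A).erase b \ D).card by omega)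
    have eT : ∀ z ∈ T, z ∈ N ∧ z ∉ A ∧ z ≠ b ∧ z ∉ D := by
      intro z hz
      have := hT hz
      simp only [Finset.mem_sdiff, Finset.mem_erase] at this
      tauto
    have eI : ∀ z ∈ I, z ∈ A ∧ z ≠ a := by
      intro z hz
      have := hIK hz
      simp only [Finset.mem_erase] at this
      tauto
    have dIT : Disjoint I T := by
      rw [Finset.disjoint_left]
      intro z hz1 hz2
      exact (eT z hz2).2.1 (eI z hz1).1
    have hbIT : b ∉ I ∪ T := by
      intro h
      rcases Finset.mem_union.mp h with h | h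
      · exact hbA (eI b h).1
      · exact (eT b h).2.2.1 rfl
    have haIT : a ∉ insert b (I ∪ T) := by
      intro h
      rcases Finset.mem_insert.mp h with h | h
      · exact hab h
      rcases Finset.mem_union.mp h with h | h
      · exact (eI a h).2 rfl
      · exact (eT a h).2.1 ha
    have hE : insert a (insert b (I ∪ T)) ∈ Itv N i t C D := by
      refine ⟨⟨?_, ?_⟩, ?_, ?_⟩
      · intro z hz
        simp only [Finset.mem_insert, Finset.mem_union] at hz
        rcases hz with h | h | h | h
        · rw [h]; exact hAN ha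
        · rw [h]; exact hb
        · exact hAN (eI z h).1
        · exact (eT z h).1
      · rw [Finset.card_insert_of_notMem haIT, Finset.card_insert_of_notMem hbIT,
          Finset.card_union_of_disjoint dIT]
        omega
      · intro z hz
        simp only [Finset.mem_insert, Finset.mem_union]
        exact Or.inr (Or.inr (Or.inl (hCI hz)))
      · rw [Finset.disjoint_left]
        intro z hz hzD
        simp only [Finset.mem_insert, Finset.mem_union] at hz
        rcases hz with h | h | h | h
        · exact haN (h ▸ hzD)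
        · exact hbD (h ▸ hzD)
        · exact (Finset.disjoint_left.mp hAD) (eI z h).1 hzD
        · exact (eT z h).2.2.2 hzD
    have haI : a ∉ I := fun h => (eI a h).2 rfl
    have hbI : b ∉ I := fun h => hbA (eI b h).1
    have hAE : A ∩ insert a (insert b (I ∪ T)) = insert a I := by
      ext z
      simp only [Finset.mem_inter, Finset.mem_insert, Finset.mem_union]
      constructor
      · rintro ⟨hz, h | h | h | h⟩
        · exact Or.inl h
        · exact absurd (h ▸ hz) hbA
        · exact Or.inr h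
        · exact absurd hz (eT z h).2.1
      · rintro (h | h)
        · exact ⟨h ▸ ha, Or.inl h⟩
        · exact ⟨(eI z h).1, Or.inr (Or.inr (Or.inl h))⟩
    have hEA : insert a (insert b (I ∪ T)) ∩ insert b (A.erase a) = insert b I := by
      ext z
      simp only [Finset.mem_inter, Finset.mem_insert, Finset.mem_union, Finset.mem_erase]
      constructor
      · rintro ⟨h | h | h | h, h'⟩
        · rcases h' with h' | h'
          · exact Or.inl h'
          · exact absurd h h'.1
        · exact Or.inl h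
        · exact Or.inr h
        · rcases h' with h' | h'
          · exact Or.inl h'
          · exact absurd h'.2 (eT z h).2.1
      · rintro (h | h)
        · exact ⟨Or.inr (Or.inl h), Or.inl h⟩
        · exact ⟨Or.inr (Or.inr (Or.inl h)), Or.inr ⟨(eI z h).2, (eI z h).1⟩⟩
    refine Relation.ReflTransGen.head (b := insert a (insert b (I ∪ T))) ⟨?_, hE⟩
      (Relation.ReflTransGen.single ⟨?_, hA'⟩)
    · rw [hAE, Finset.card_insert_of_notMem haI, hIc]
      omega
    · rw [hEA, Finset.card_insert_of_notMem hbI, hIc]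
      omega

theorem itv_reach (hN : N.card = 2 * t + i + s) (ht : 1 ≤ t) (hC : C ⊆ N) (hD : D ⊆ N)
    (hCD : Disjoint C D) (h1 : C.card ≤ i) (h2 : D.card ≤ s)
    (h3 : C.card + D.card + 1 ≤ i + s ∨ t = 1)
    (hA : A ∈ Itv N i t C D) (hB : B ∈ Itv N i t C D) : Reach i (Itv N i t C D) A B := by
  suffices H : ∀ (k : ℕ) (A : Finset α), A ∈ Itv N i t C D → (A \ B).card = k →
      Reach i (Itv N i t C D) A B from H _ A hA rfl
  intro k
  induction k with
  | zero =>
    intro A hA hk
    have hsub : A ⊆ B := Finset.sdiff_eq_empty_iff_subset.mp (Finset.card_eq_zero.mp hk)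
    have : A = B := Finset.eq_of_subset_of_card_le hsub (by rw [hA.1.2, hB.1.2])
    rw [this]
    exact Relation.ReflTransGen.refl
  | succ k ih =>
    intro A hA hk
    have hne : (A \ B).Nonempty := by
      rw [← Finset.card_pos]
      omega
    obtain ⟨a, ha⟩ := hne
    have hk' : (B \ A).card = k + 1 := by
      rw [← hk]
      exact Finset.card_sdiff_comm (by rw [hA.1.2, hB.1.2])
    have hne' : (B \ A).Nonempty := by
      rw [← Finset.card_pos]
      omega
    obtain ⟨b, hb⟩ := hne'
    rw [Finset.mem_sdiff] at ha hb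
    have haC : a ∉ C := fun h => ha.2 (hB.2.1 h)
    have haD : a ∉ D := fun h => (Finset.disjoint_left.mp hA.2.2) ha.1 h
    have hbD : b ∉ D := fun h => (Finset.disjoint_left.mp hB.2.2) hb.1 h
    obtain ⟨hA', hr⟩ := itv_step hN ht h1 h2 h3 hA ha.1 haC (hB.1.1 hb.1) hb.2 hbD haD
    refine Relation.ReflTransGen.trans hr (ih _ hA' ?_)
    have hE : insert b (A.erase a) \ B = (A \ B).erase a := by
      ext z
      simp only [Finset.mem_sdiff, Finset.mem_insert, Finset.mem_erase]
      constructor
      · rintro ⟨h | h, hz⟩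
        · exact absurd (h ▸ hb.1) hz
        · exact ⟨h.1, h.2, hz⟩
      · rintro ⟨h, hz, hzB⟩
        exact ⟨Or.inr ⟨h, hz⟩, hzB⟩
    rw [hE, Finset.card_erase_of_mem (Finset.mem_sdiff.mpr ha), hk]
    omega

end Pool.Agent.H4.Joh
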