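import Pool.Agent.H4.Joh.Defs

/-!
# Kneser families

JOB.  `Kns N i t V C D` (with `|V| = i`, `V, C, D` pairwise disjoint, `|C|, |D| ≤ t`, `s ≥ 1`) is
connected.  Call `A` even if `V ∪ C ⊆ A` and `A` avoids `D`; odd if `V ∪ D ⊆ A`, `A` avoids `C`.
`R = N \ (V ∪ C ∪ D)`, `|R| = 2t + s - |C| - |D|`.  Even: `A = V ∪ C ∪ S`, `S ⊆ R`,
`|S| = t - |C|`; odd: `B = V ∪ D ∪ T`, `T ⊆ R`, `|T| = t - |D|`; `A ∩ B = V ∪ (S ∩ T)`, so `A`, `B`
are adjacent iff `S ∩ T = ∅`.
(a) Every even `A` has an odd neighbour (`|R \ S| = t + s - |D| ≥ t - |D|`), every odd one an even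
neighbour.
(b) Two even sets `A, A'` are connected: induction on `|A \ A'|`; one exchange step `A' = A - a + b`
(`a, b ∈ R`): a common odd neighbour: `T ⊆ R \ (S ∪ {b})`, room `|R| - |S| - 1 = t + s - |D| - 1
≥ t - |D|` as `s ≥ 1`.
(c) By symmetry (`Kns V C D = Kns V D C`) two odd sets are connected; an even `A` and an odd `B`:
`A` to an even neighbour `A'` of `B` by (b), then `A' ~ B`.
-/

namespace Pool.Agent.H4.Joh

variable {α : Type*} [DecidableEq α] {N V C D A B : Finset α} {i s t : ℕ}

/-- a common neighbour of two even sets which are equal or one exchange step apart -/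
theorem kns_common {A' : Finset α} (hN : N.card = 2 * t + i + s) (hs : 1 ≤ s)
    (hV : V ⊆ N) (hD : D ⊆ N) (hVC : Disjoint V C) (hVD : Disjoint V D) (hCD : Disjoint C D)
    (hVi : V.card = i) (hDt : D.card ≤ t)
    (hA : A ∈ Itv N i t (V ∪ C) D) (hA' : A' ∈ Itv N i t (V ∪ C) D)
    (hAA : (A ∪ A').card ≤ i + t + 1) :
    ∃ B ∈ Itv N i t (V ∪ D) C, (A ∩ B).card = i ∧ (A' ∩ B).card = i := by
  obtain ⟨⟨hAN, hAc⟩, hAVC, hAD⟩ := hA
  obtain ⟨⟨hAN', hAc'⟩, hAVC', hAD'⟩ := hA'
  have h1 : (A ∪ A' ∪ D).card ≤ i + t + 1 + D.card :=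
    (Finset.card_union_le _ _).trans (Nat.add_le_add_right hAA _)
  have hsub : A ∪ A' ∪ D ⊆ N := Finset.union_subset (Finset.union_subset hAN hAN') hD
  have h2 : t - D.card ≤ (N \ (A ∪ A' ∪ D)).card := by
    rw [Finset.card_sdiff_of_subset hsub]
    omega
  obtain ⟨T, hT, hTc⟩ := Finset.exists_subset_card_eq h2
  have hTm : ∀ x ∈ T, x ∈ N ∧ x ∉ A ∧ x ∉ A' ∧ x ∉ D := by
    intro x hx
    have := hT hx
    simp only [Finset.mem_sdiff, Finset.mem_union, not_or] at this
    exact ⟨this.1, this.2.1.1, this.2.1.2, this.2.2⟩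
  have hVA : V ⊆ A := Finset.union_subset_left hAVC
  have hCA : C ⊆ A := Finset.union_subset_right hAVC
  have hVA' : V ⊆ A' := Finset.union_subset_left hAVC'
  have hdT : Disjoint (V ∪ D) T := by
    rw [Finset.disjoint_left]
    intro x hx hxT
    rcases Finset.mem_union.1 hx with h | h
    · exact (hTm x hxT).2.1 (hVA h)
    · exact (hTm x hxT).2.2.2 h
  have key : ∀ X : Finset α, V ⊆ X → Disjoint X D → (∀ x ∈ T, x ∉ X) →
      (X ∩ (V ∪ D ∪ T)).card = i := by
    intro X h1 h2 h3
    have : X ∩ (V ∪ D ∪ T) = V := by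
      ext x
      simp only [Finset.mem_inter, Finset.mem_union]
      constructor
      · rintro ⟨hx, (hx' | hx') | hx'⟩
        · exact hx'
        · exact absurd hx' (Finset.disjoint_left.1 h2 hx)
        · exact absurd hx (h3 x hx')
      · intro hx
        exact ⟨h1 hx, Or.inl (Or.inl hx)⟩
    rw [this, hVi]
  refine ⟨V ∪ D ∪ T, ⟨⟨?_, ?_⟩, ?_, ?_⟩, key A hVA hAD (fun x hx => (hTm x hx).2.1),
    key A' hVA' hAD' (fun x hx => (hTm x hx).2.2.1)⟩
  · exact Finset.union_subset (Finset.union_subset hV hD) (fun x hx => (hTm x hx).1)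
  · rw [Finset.card_union_of_disjoint hdT, Finset.card_union_of_disjoint hVD, hTc, hVi]
    omega
  · exact Finset.subset_union_left
  · rw [Finset.disjoint_left]
    intro x hx hxC
    rcases Finset.mem_union.1 hx with hx | hx
    · rcases Finset.mem_union.1 hx with hx | hx
      · exact Finset.disjoint_left.1 hVC hx hxC
      · exact Finset.disjoint_left.1 hCD hxC hx
    · exact (hTm x hx).2.1 (hCA hxC)

theorem kns_even_even {A' : Finset α} (hN : N.card = 2 * t + i + s) (hs : 1 ≤ s)
    (hV : V ⊆ N) (hD : D ⊆ N) (hVC : Disjoint V C) (hVD : Disjoint V D) (hCD : Disjoint C D)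
    (hVi : V.card = i) (hDt : D.card ≤ t)
    (hA : A ∈ Itv N i t (V ∪ C) D) (hA' : A' ∈ Itv N i t (V ∪ C) D) :
    Reach i (Kns N i t V C D) A A' := by
  have main : ∀ (n : ℕ) (A : Finset α), (A \ A').card = n → A ∈ Itv N i t (V ∪ C) D →
      Reach i (Kns N i t V C D) A A' := by
    intro n
    induction n with
    | zero =>
      intro A hn hA
      have hsub : A ⊆ A' := by
        rw [← Finset.sdiff_eq_empty_iff_subset]
        exact Finset.card_eq_zero.1 hn
      have heq : A = A' := Finset.eq_of_subset_of_card_le hsub (by rw [hA.1.2, hA'.1.2])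
      rw [heq]
      exact Relation.ReflTransGen.refl
    | succ n ih =>
      intro A hn hA
      have hcard : A.card = A'.card := by rw [hA.1.2, hA'.1.2]
      have hn' : (A' \ A).card = n + 1 := by
        have h1 := Finset.card_sdiff_add_card_inter A A'
        have h2 := Finset.card_sdiff_add_card_inter A' A
        rw [Finset.inter_comm A' A] at h2
        omega
      obtain ⟨a, ha⟩ := Finset.card_pos.1 (show 0 < (A \ A').card by omega)
      obtain ⟨b, hb⟩ := Finset.card_pos.1 (show 0 < (A' \ A).card by omega)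
      rw [Finset.mem_sdiff] at ha hb
      have hab : a ≠ b := fun h => ha.2 (h ▸ hb.1)
      have hbA : b ∉ A.erase a := fun h => hb.2 (Finset.mem_of_mem_erase h)
      have hA'' : insert b (A.erase a) ∈ Itv N i t (V ∪ C) D := by
        refine ⟨⟨?_, ?_⟩, ?_, ?_⟩
        · intro x hx
          rcases Finset.mem_insert.1 hx with rfl | hx
          · exact hA'.1.1 hb.1
          · exact hA.1.1 (Finset.mem_of_mem_erase hx)
        · rw [Finset.card_insert_of_notMem hbA, Finset.card_erase_of_mem ha.1]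
          have := Finset.card_pos.2 ⟨a, ha.1⟩
          rw [hA.1.2] at this ⊢
          omega
        · intro x hx
          refine Finset.mem_insert_of_mem (Finset.mem_erase.2 ⟨?_, hA.2.1 hx⟩)
          rintro rfl
          exact ha.2 (hA'.2.1 hx)
        · rw [Finset.disjoint_left]
          intro x hx hxD
          rcases Finset.mem_insert.1 hx with rfl | hx
          · exact Finset.disjoint_left.1 hA'.2.2 hb.1 hxD
          · exact Finset.disjoint_left.1 hA.2.2 (Finset.mem_of_mem_erase hx) hxD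
      have hun : (A ∪ insert b (A.erase a)).card ≤ i + t + 1 := by
        have h1 : A ∪ insert b (A.erase a) ⊆ insert b A := by
          intro x hx
          rcases Finset.mem_union.1 hx with hx | hx
          · exact Finset.mem_insert_of_mem hx
          · rcases Finset.mem_insert.1 hx with rfl | hx
            · exact Finset.mem_insert_self _ _
            · exact Finset.mem_insert_of_mem (Finset.mem_of_mem_erase hx)
        refine (Finset.card_le_card h1).trans ?_
        refine (Finset.card_insert_le _ _).trans ?_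
        rw [hA.1.2]
      obtain ⟨B, hB, h1, h2⟩ := kns_common hN hs hV hD hVC hVD hCD hVi hDt hA hA'' hun
      have h3 : (insert b (A.erase a) \ A').card = n := by
        have h4 : insert b (A.erase a) \ A' = (A \ A').erase a := by
          ext x
          simp only [Finset.mem_sdiff, Finset.mem_insert, Finset.mem_erase]
          constructor
          · rintro ⟨rfl | ⟨h5, h6⟩, h7⟩
            · exact absurd hb.1 h7
            · exact ⟨h5, h6, h7⟩
          · rintro ⟨h5, h6, h7⟩
            exact ⟨Or.inr ⟨h5, h6⟩, h7⟩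
        rw [h4, Finset.card_erase_of_mem (Finset.mem_sdiff.2 ha), hn]
        rfl
      refine Relation.ReflTransGen.head (b := B) ⟨h1, Or.inr hB⟩ ?_
      refine Relation.ReflTransGen.head (b := insert b (A.erase a)) ⟨?_, Or.inl hA''⟩
        (ih _ h3 hA'')
      rw [Finset.inter_comm]
      exact h2
  exact main _ A rfl hA

theorem kns_even_odd (hN : N.card = 2 * t + i + s) (hs : 1 ≤ s)
    (hV : V ⊆ N) (hC : C ⊆ N) (hD : D ⊆ N)
    (hVC : Disjoint V C) (hVD : Disjoint V D) (hCD : Disjoint C D)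
    (hVi : V.card = i) (hCt : C.card ≤ t) (hDt : D.card ≤ t)
    (hA : A ∈ Itv N i t (V ∪ C) D) (hB : B ∈ Itv N i t (V ∪ D) C) :
    Reach i (Kns N i t V C D) A B := by
  obtain ⟨A', hA', h1, _⟩ := kns_common hN hs hV hC hVD hVC hCD.symm hVi hCt hB hB (by
    rw [Finset.union_self, hB.1.2]
    omega)
  refine Relation.ReflTransGen.tail (kns_even_even hN hs hV hD hVC hVD hCD hVi hDt hA hA')
    ⟨?_, Or.inr hB⟩
  rw [Finset.inter_comm]
  exact h1

theorem kns_comm : Kns N i t V C D = Kns N i t V D C := by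
  unfold Kns
  rw [Set.union_comm]

theorem kns_reach (hN : N.card = 2 * t + i + s) (ht : 1 ≤ t) (hs : 1 ≤ s)
    (hV : V ⊆ N) (hC : C ⊆ N) (hD : D ⊆ N)
    (hVC : Disjoint V C) (hVD : Disjoint V D) (hCD : Disjoint C D)
    (hVi : V.card = i) (hCt : C.card ≤ t) (hDt : D.card ≤ t)
    (hA : A ∈ Kns N i t V C D) (hB : B ∈ Kns N i t V C D) : Reach i (Kns N i t V C D) A B := by
  rcases hA with hA | hA <;> rcases hB with hB | hB
  · exact kns_even_even hN hs hV hD hVC hVD hCD hVi hDt hA hB
  · exact kns_even_odd hN hs hV hC hD hVC hVD hCD hVi hCt hDt hA hB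
  · rw [kns_comm]
    exact kns_even_odd hN hs hV hD hC hVD hVC hCD.symm hVi hDt hCt hA hB
  · rw [kns_comm]
    exact kns_even_even hN hs hV hC hVD hVC hCD.symm hVi hCt hA hB

end Pool.Agent.H4.Joh
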