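import Pool.Agent.H4.Joh.Glue
import Pool.Agent.H4.Joh.ConnI
import Pool.Agent.H4.Joh.ConnK

/-!
# `w` adjacent to `x`, `1 ≤ i < t`, `x ∩ y ∩ w = ∅`; general facts on Kneser families

JOB.  `V = x ∩ w` (`|V| = i`, disjoint from `y`), `τ ≠ z` two elements of `x \ w` (`|x \ w| = t ≥ 2`).
`glue` with `P = {x}` and `Q = {y} ∪ Kns V {τ} {z}` (even members contain `V ∪ {τ}` and avoid `z`, odd
members contain `V ∪ {z}` and avoid `τ`).  `w` is adjacent to `x` and has an even neighbour
(`nbr_itv` with `C = V ∪ {τ}`, `D = {z}`: `|C ∩ w| = i`, `|C \ w| = 1 ≤ t`, `|D ∩ w| = 0`,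
`|D \ w| = 1 ≤ s`).  `y` has an even neighbour: `|C ∩ y| ≤ 1 ≤ i`, `|C \ y| ≤ i + 1 ≤ t`,
`|D ∩ y| ≤ 1 ≤ t`, `|D \ y| ≤ 1 ≤ s`.  The family is connected by `kns_reach`.
Separation: `x` contains `V, τ, z`, so it meets each member in at least `i + 1` elements and is not a
member; `x`, `y` are distinct and non-adjacent.  `w` is not a member as `τ, z ∉ w`.

The first lemma is a version of `nbr_itv` for Kneser families, to be used in all later cases.
-/

namespace Pool.Agent.H4.Joh

variable {α : Type*} [DecidableEq α] {N x y w : Finset α} {i s t : ℕ}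

/-- a vertex `u` has a neighbour in `Kns N i t V C D` of the even kind -/
theorem nbr_kns {u V C D : Finset α} (hN : N.card = 2 * t + i + s) (hu : Vtx N i t u)
    (hV : V ⊆ N) (hC : C ⊆ N) (hD : D ⊆ N)
    (hVD : Disjoint V D) (hCD : Disjoint C D) (h1 : ((V ∪ C) ∩ u).card ≤ i)
    (h2 : ((V ∪ C) \ u).card ≤ t) (h3 : (D ∩ u).card ≤ t) (h4 : (D \ u).card ≤ s) :
    ∃ p ∈ Kns N i t V C D, (u ∩ p).card = i := by
  obtain ⟨p, hp, hup⟩ := nbr_itv hN hu (Finset.union_subset hV hC) hD
    (Finset.disjoint_union_left.2 ⟨hVD, hCD⟩) h1 h2 h3 h4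
  exact ⟨p, Or.inl hp, hup⟩

theorem kns_symm (V C D : Finset α) : Kns N i t V C D = Kns N i t V D C := by
  exact kns_comm

theorem kns_vtx {V C D A : Finset α} (h : A ∈ Kns N i t V C D) : Vtx N i t A := by
  rcases h with h | h
  · exact h.1
  · exact h.1

theorem adjCase (h : Cfg N i s t x y w) (hi : 1 ≤ i) (hit : i + 1 ≤ t) (hs : 1 ≤ s)
    (hD : x ∩ y ∩ w = ∅) (hb : (x ∩ w).card = i) : IndPath N i t x y w := by
  have hxN : x ⊆ N := h.hx.1
  have hcx : (x \ w).card = t := by
    have h1 := Finset.card_sdiff_add_card_inter x w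
    have h2 := h.hx.2
    omega
  obtain ⟨τ, z, hτ, hz, hτz⟩ := Finset.one_lt_card_iff.1 (show 1 < (x \ w).card by omega)
  rw [Finset.mem_sdiff] at hτ hz
  obtain ⟨V, hVdef⟩ : ∃ V, V = x ∩ w := ⟨_, rfl⟩
  have hVi : V.card = i := by rw [hVdef, hb]
  have hVx : V ⊆ x := hVdef ▸ Finset.inter_subset_left
  have hVw : V ⊆ w := hVdef ▸ Finset.inter_subset_right
  have hVy : ∀ a ∈ V, a ∉ y := by
    intro a ha hay
    have : a ∈ x ∩ y ∩ w :=
      Finset.mem_inter.2 ⟨Finset.mem_inter.2 ⟨hVx ha, hay⟩, hVw ha⟩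
    rw [hD] at this
    exact absurd this (Finset.notMem_empty a)
  have hτV : τ ∉ V := fun ha => hτ.2 (hVw ha)
  have hzV : z ∉ V := fun ha => hz.2 (hVw ha)
  have hVN : V ⊆ N := hVx.trans hxN
  have hτN : ({τ} : Finset α) ⊆ N := Finset.singleton_subset_iff.2 (hxN hτ.1)
  have hzN : ({z} : Finset α) ⊆ N := Finset.singleton_subset_iff.2 (hxN hz.1)
  have hVτ : Disjoint V {τ} := Finset.disjoint_singleton_right.2 hτV
  have hVz : Disjoint V {z} := Finset.disjoint_singleton_right.2 hzV
  have hτz' : Disjoint ({τ} : Finset α) {z} := Finset.disjoint_singleton.2 hτz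
  have hd1 : ∀ a : α, ∀ u : Finset α, (({a} : Finset α) ∩ u).card ≤ 1 := by
    intro a u
    exact (Finset.card_le_card Finset.inter_subset_left).trans (by rw [Finset.card_singleton])
  have hd2 : ∀ a : α, ∀ u : Finset α, (({a} : Finset α) \ u).card ≤ 1 := by
    intro a u
    exact (Finset.card_le_card Finset.sdiff_subset).trans (by rw [Finset.card_singleton])
  have hconn : ∀ A ∈ Kns N i t V {τ} {z}, ∀ B ∈ Kns N i t V {τ} {z},
      Reach i (Kns N i t V {τ} {z}) A B := by
    intro A hA B hB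
    exact kns_reach h.cN h.t1 hs hVN hτN hzN hVτ hVz hτz' hVi
      (by rw [Finset.card_singleton]; omega) (by rw [Finset.card_singleton]; omega) hA hB
  have hwnb : ∃ p ∈ Kns N i t V {τ} {z}, (w ∩ p).card = i := by
    apply nbr_kns h.cN h.hw hVN hτN hzN hVz hτz'
    · have h1 : (V ∪ {τ}) ∩ w ⊆ V := by
        intro a ha
        rw [Finset.mem_inter, Finset.mem_union, Finset.mem_singleton] at ha
        rcases ha with ⟨h1 | rfl, h2⟩
        · exact h1
        · exact absurd h2 hτ.2
      have := Finset.card_le_card h1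
      omega
    · have h1 : (V ∪ {τ}) \ w ⊆ {τ} := by
        intro a ha
        rw [Finset.mem_sdiff, Finset.mem_union, Finset.mem_singleton] at ha
        rw [Finset.mem_singleton]
        rcases ha with ⟨h1 | h1, h2⟩
        · exact absurd (hVw h1) h2
        · exact h1
      have := Finset.card_le_card h1
      rw [Finset.card_singleton] at this
      omega
    · have := hd1 z w
      omega
    · have := hd2 z w
      omega
  have hynb : ∃ p ∈ Kns N i t V {τ} {z}, (y ∩ p).card = i := by
    apply nbr_kns h.cN h.hy hVN hτN hzN hVz hτz'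
    · have h1 : (V ∪ {τ}) ∩ y ⊆ {τ} := by
        intro a ha
        rw [Finset.mem_inter, Finset.mem_union, Finset.mem_singleton] at ha
        rw [Finset.mem_singleton]
        rcases ha with ⟨h1 | h1, h2⟩
        · exact absurd h2 (hVy a h1)
        · exact h1
      have := Finset.card_le_card h1
      rw [Finset.card_singleton] at this
      omega
    · have h1 : ((V ∪ {τ}) \ y).card ≤ (V ∪ {τ}).card := Finset.card_le_card Finset.sdiff_subset
      have h2 := Finset.card_union_le V {τ}
      rw [Finset.card_singleton] at h2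
      omega
    · have := hd1 z y
      omega
    · have := hd2 z y
      omega
  have hxS : ∀ B ∈ Kns N i t V {τ} {z}, x ≠ B ∧ (x ∩ B).card ≠ i := by
    have hgen : ∀ a b : α, a ∈ x → b ∈ x → a ∉ V → ∀ B ∈ Itv N i t (V ∪ {a}) {b},
        x ≠ B ∧ (x ∩ B).card ≠ i := by
      intro a b ha hb' haV B hB
      constructor
      · rintro rfl
        exact Finset.disjoint_singleton_right.1 hB.2.2 hb'
      · have h1 : insert a V ⊆ x ∩ B := by
          intro c hc
          rw [Finset.mem_insert] at hc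
          rw [Finset.mem_inter]
          rcases hc with rfl | hc
          · exact ⟨ha, hB.2.1 (Finset.mem_union_right _ (Finset.mem_singleton_self _))⟩
          · exact ⟨hVx hc, hB.2.1 (Finset.mem_union_left _ hc)⟩
        have h2 := Finset.card_le_card h1
        rw [Finset.card_insert_of_notMem haV] at h2
        omega
    rintro B (hB | hB)
    · exact hgen τ z hτ.1 hz.1 hτV B hB
    · exact hgen z τ hz.1 hτ.1 hzV B hB
  have hwS : w ∉ Kns N i t V {τ} {z} := by
    rintro (hw | hw)
    · exact hτ.2 (hw.2.1 (Finset.mem_union_right _ (Finset.mem_singleton_self _)))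
    · exact hz.2 (hw.2.1 (Finset.mem_union_right _ (Finset.mem_singleton_self _)))
  refine glue h {x} (insert y (Kns N i t V {τ} {z})) ?_ ?_ ?_ ?_ ?_ ?_
    (reach_via hconn hwnb (Or.inr hynb))
  · rintro A rfl
    exact h.hx
  · rintro A (rfl | hA)
    · exact h.hy
    · exact kns_vtx hA
  · exact h.wx
  · rintro (hw | hw)
    · exact h.wy hw
    · exact hwS hw
  · rintro A rfl B (rfl | hB)
    · exact ⟨h.xy, h.nadj⟩
    · exact hxS B hB
  · refine Relation.ReflTransGen.single ⟨?_, rfl⟩
    rw [Finset.inter_comm, hb]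

end Pool.Agent.H4.Joh
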