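import Pool.Agent.H4.Joh.Glue
import Pool.Agent.H4.Joh.ConnI

/-!
# Region A (`i, s ≥ t + 1`), far pairs: cases A1 and A2

JOB.  Write `r = i + t`.  `Itv N i t C D` is the family of vertices containing `C` and avoiding `D`;
tools: `nbr_itv`, `itv_reach`, `glue_conn`, `glue`.

**A1** (`x \ y` meets `w` and is not contained in `w`).  Choose `Z ⊆ x \ y`, `|Z| = t + 1`, with an
element in `w` and an element outside `w`.  `glue_conn` with `S = Itv Z ∅`, `T = Itv ∅ Z`:
`x ∈ S`, `y ∈ T`, `w ∉ S`, `w ∉ T`.  Connected: `|Z| = t + 1 ≤ i`, `≤ s`, `t + 2 ≤ i + s`.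
Neighbours of `w`: `|Z ∩ w| ≤ t`, `|Z \ w| ≤ t`.  Separation: `A ⊇ Z`, `B ∩ Z = ∅` gives
`|A ∩ B| ≤ r - (t + 1) = i - 1`, and `A ≠ B` as `Z ≠ ∅`.  The same estimate gives the conditions on
`x` against `T` and on `y` against `S`.

**A2** (`x \ y` and `y \ x` both disjoint from `w`).  Choose `Z ⊆ x \ y`, `|Z| = t + 1`, `z0 ∈ Z`,
`Z' = Z.erase z0`, `e ∈ w \ (x ∪ y)` (exists: otherwise `w ⊆ x ∩ y`, but `|x ∩ y| < r`),
`T ⊆ w.erase e` with `|T| = t`, `p = (w \ T) ∪ Z'` (`|p| = i + t`, `|w ∩ p| = i`).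
`glue` with `P = {p} ∪ Itv Z ∅` and `Q = Itv ∅ (Z ∪ {e})`.  `w → p`; `p` has a neighbour in
`Itv Z ∅` (`|Z ∩ p| = t ≤ i`, `|Z \ p| = 1 ≤ t`), and `x ∈ Itv Z ∅`.  `Q` is connected:
`|Z ∪ {e}| = t + 2 ≤ s`, because `|x ∪ y ∪ w| = |x ∪ y| + |w \ (x ∪ y)| ≥ (i + t + γ) + γ`
where `γ = |x \ y| ≥ t + 1` (`w \ (x ∪ y) = w \ (x ∩ y)` has at least `r - |x ∩ y| = γ` elements)
and this is `≤ 2t + i + s`, so `s ≥ 2γ - t ≥ t + 2`.  Also `t + 3 ≤ i + s`.
`w` has a neighbour in `Q`: `|D ∩ w| = 1`, `|D \ w| = t + 1 ≤ s` for `D = Z ∪ {e}`.  `y ∈ Q`.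
Separation: `p` contains the `t + 1` elements `Z' ∪ {e}` of `D`, and `A ∈ Itv Z ∅` contains `Z ⊆ D`;
`B ∈ Q` avoids `D`, so the intersections have at most `i - 1` elements.
`w ∉ P`: `|w ∩ p| = i < r` and `w ∩ Z = ∅`; `w ∉ Q` as `e ∈ w`.
-/

namespace Pool.Agent.H4.Joh

variable {α : Type*} [DecidableEq α] {N x y w : Finset α} {i s t : ℕ}

private theorem caseA12_sep {i t : ℕ} {A B Z : Finset α} (hA : A.card = i + t) (hZ : Z ⊆ A)
    (hB : Disjoint B Z) (hc : t + 1 ≤ Z.card) : A ≠ B ∧ (A ∩ B).card ≠ i := by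
  have h1 : (A ∩ B) ∪ Z ⊆ A := Finset.union_subset Finset.inter_subset_left hZ
  have h2 : Disjoint (A ∩ B) Z := hB.mono_left Finset.inter_subset_right
  have h3 := Finset.card_le_card h1
  rw [Finset.card_union_of_disjoint h2] at h3
  refine ⟨fun e => ?_, by omega⟩
  rw [e, Finset.inter_self] at h3
  rw [e] at hA
  omega

theorem caseA1 (h : Cfg N i s t x y w) (hi : t + 1 ≤ i) (hs : t + 1 ≤ s)
    (hg : t + 1 ≤ (x \ y).card) (h1 : ((x \ y) ∩ w).Nonempty) (h2 : ((x \ y) \ w).Nonempty) :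
    IndPath N i t x y w := by
  obtain ⟨e1, he1⟩ := h1
  obtain ⟨e2, he2⟩ := h2
  rw [Finset.mem_inter] at he1
  rw [Finset.mem_sdiff] at he2
  have ht := h.t1
  obtain ⟨Z, hZ1, hZ2, hZc⟩ := Finset.exists_subsuperset_card_eq (s := {e1, e2}) (t := x \ y)
    (n := t + 1) (by
      intro e he
      rw [Finset.mem_insert, Finset.mem_singleton] at he
      rcases he with rfl | rfl
      · exact he1.1
      · exact he2.1) (by have := Finset.card_le_two (a := e1) (b := e2); omega) hg
  have hZe1 : e1 ∈ Z := hZ1 (by simp)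
  have hZe2 : e2 ∈ Z := hZ1 (by simp)
  have hZx : Z ⊆ x := hZ2.trans Finset.sdiff_subset
  have hZy : Disjoint y Z := by
    rw [Finset.disjoint_left]
    intro e he he'
    exact (Finset.mem_sdiff.1 (hZ2 he')).2 he
  have hZN : Z ⊆ N := hZx.trans h.hx.1
  have hE : (∅ : Finset α) ⊆ N := Finset.empty_subset N
  have hsum : (Z \ w).card + (Z ∩ w).card = Z.card := Finset.card_sdiff_add_card_inter Z w
  have c1 : 1 ≤ (Z ∩ w).card := Finset.card_pos.2 ⟨e1, Finset.mem_inter.2 ⟨hZe1, he1.2⟩⟩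
  have c2 : 1 ≤ (Z \ w).card := Finset.card_pos.2 ⟨e2, Finset.mem_sdiff.2 ⟨hZe2, he2.2⟩⟩
  refine glue_conn h (Itv N i t Z ∅) (Itv N i t ∅ Z) (fun A hA => hA.1) (fun A hA => hA.1)
    ?_ ?_ ?_ ?_ ?_ ?_ ?_ ?_ ?_ ?_ ?_
  · intro A hA B hB
    exact itv_reach h.cN h.t1 hZN hE (Finset.disjoint_empty_right _) (by omega) (by simp)
      (Or.inl (by rw [Finset.card_empty]; omega)) hA hB
  · intro A hA B hB
    exact itv_reach h.cN h.t1 hE hZN (Finset.disjoint_empty_left _) (by simp) (by omega)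
      (Or.inl (by rw [Finset.card_empty]; omega)) hA hB
  · rintro ⟨-, h3, -⟩
    exact he2.2 (h3 hZe2)
  · rintro ⟨-, -, h3⟩
    exact Finset.disjoint_left.1 h3 he1.2 hZe1
  · exact nbr_itv h.cN h.hw hZN hE (Finset.disjoint_empty_right _) (by omega) (by omega)
      (by simp) (by simp)
  · exact nbr_itv h.cN h.hw hE hZN (Finset.disjoint_empty_left _) (by simp) (by simp)
      (by omega) (by omega)
  · exact Or.inl ⟨h.hx, hZx, Finset.disjoint_empty_right _⟩
  · exact Or.inl ⟨h.hy, Finset.empty_subset _, hZy⟩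
  · rintro B ⟨-, -, hB⟩
    exact caseA12_sep h.hx.2 hZx hB (by omega)
  · rintro A ⟨hA, hA', -⟩
    exact caseA12_sep hA.2 hA' hZy (by omega)
  · rintro A ⟨hA, hA', -⟩ B ⟨-, -, hB⟩
    exact caseA12_sep hA.2 hA' hB (by omega)

theorem caseA2 (h : Cfg N i s t x y w) (hi : t + 1 ≤ i) (hs : t + 1 ≤ s)
    (hg : t + 1 ≤ (x \ y).card) (h1 : Disjoint (x \ y) w) (h2 : Disjoint (y \ x) w) :
    IndPath N i t x y w := by
  have ht := h.t1
  have hxc := h.hx.2
  have hyc := h.hy.2
  have hwc := h.hw.2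
  have hNc := h.cN
  -- counting
  have k1 : (x \ y).card + (x ∩ y).card = x.card := Finset.card_sdiff_add_card_inter x y
  have k2 : (x ∪ y).card + (x ∩ y).card = x.card + y.card := Finset.card_union_add_card_inter x y
  have k3 : (w \ (x ∪ y)).card + (w ∩ (x ∪ y)).card = w.card :=
    Finset.card_sdiff_add_card_inter w (x ∪ y)
  have k4 : (w ∩ (x ∪ y)).card ≤ (x ∩ y).card := by
    apply Finset.card_le_card
    intro e he
    rw [Finset.mem_inter, Finset.mem_union] at he
    rw [Finset.mem_inter]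
    rcases he.2 with he' | he'
    · refine ⟨he', ?_⟩
      by_contra hn
      exact Finset.disjoint_left.1 h1 (Finset.mem_sdiff.2 ⟨he', hn⟩) he.1
    · refine ⟨?_, he'⟩
      by_contra hn
      exact Finset.disjoint_left.1 h2 (Finset.mem_sdiff.2 ⟨he', hn⟩) he.1
  have k5 : (x ∪ y).card + (w \ (x ∪ y)).card ≤ N.card := by
    rw [← Finset.card_union_of_disjoint Finset.disjoint_sdiff]
    exact Finset.card_le_card (Finset.union_subset (Finset.union_subset h.hx.1 h.hy.1)
      (Finset.sdiff_subset.trans h.hw.1))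
  have hs2 : t + 2 ≤ s := by omega
  obtain ⟨e, he⟩ : (w \ (x ∪ y)).Nonempty := Finset.card_pos.1 (by omega)
  rw [Finset.mem_sdiff, Finset.mem_union, not_or] at he
  obtain ⟨hew, hex, hey⟩ := he
  obtain ⟨Z, hZ2, hZc⟩ := Finset.exists_subset_card_eq hg
  obtain ⟨z0, hz0⟩ : Z.Nonempty := Finset.card_pos.1 (by omega)
  obtain ⟨T, hT, hTc⟩ := Finset.exists_subset_card_eq (s := w.erase e) (n := t)
    (by rw [Finset.card_erase_of_mem hew]; omega)
  have hZx : Z ⊆ x := hZ2.trans Finset.sdiff_subset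
  have hZy : Disjoint y Z := by
    rw [Finset.disjoint_left]
    intro a ha ha'
    exact (Finset.mem_sdiff.1 (hZ2 ha')).2 ha
  have hZw : Disjoint w Z := (h1.mono_left hZ2).symm
  have hZN : Z ⊆ N := hZx.trans h.hx.1
  have heZ : e ∉ Z := fun h' => hex (hZx h')
  have heN : e ∈ N := h.hw.1 hew
  have hTw : T ⊆ w := hT.trans (Finset.erase_subset _ _)
  have heT : e ∉ T := fun h' => (Finset.mem_erase.1 (hT h')).1 rfl
  have hE : (∅ : Finset α) ⊆ N := Finset.empty_subset N
  have hZ'c : (Z.erase z0).card = t := by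
    rw [Finset.card_erase_of_mem hz0]
    omega
  have hpd : Disjoint (w \ T) (Z.erase z0) :=
    (hZw.mono_left Finset.sdiff_subset).mono_right (Finset.erase_subset _ _)
  have hwT : (w \ T).card = i := by
    have := Finset.card_sdiff_add_card_eq_card hTw
    omega
  set p : Finset α := (w \ T) ∪ Z.erase z0 with hp
  have hpv : Vtx N i t p := by
    refine ⟨Finset.union_subset (Finset.sdiff_subset.trans h.hw.1)
      ((Finset.erase_subset _ _).trans hZN), ?_⟩
    rw [hp, Finset.card_union_of_disjoint hpd]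
    omega
  have hwp : w ∩ p = w \ T := by
    ext a
    rw [hp, Finset.mem_inter, Finset.mem_union]
    constructor
    · rintro ⟨h3, h4 | h4⟩
      · exact h4
      · exact absurd (Finset.mem_of_mem_erase h4) (Finset.disjoint_left.1 hZw h3)
    · intro h3
      exact ⟨(Finset.mem_sdiff.1 h3).1, Or.inl h3⟩
  have hZp : (Z \ p).card ≤ 1 := by
    have h3 : Z \ p ⊆ {z0} := by
      intro a ha
      rw [Finset.mem_sdiff] at ha
      rw [Finset.mem_singleton]
      by_contra hn
      exact ha.2 (Finset.mem_union_right _ (Finset.mem_erase.2 ⟨hn, ha.1⟩))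
    simpa using Finset.card_le_card h3
  have hD : insert e Z ⊆ N := Finset.insert_subset heN hZN
  have hDc : (insert e Z).card = t + 2 := by
    rw [Finset.card_insert_of_notMem heZ]
    omega
  have hyQ : y ∈ Itv N i t ∅ (insert e Z) := by
    refine ⟨h.hy, Finset.empty_subset _, ?_⟩
    rw [Finset.disjoint_insert_right]
    exact ⟨hey, hZy⟩
  have hxP : x ∈ Itv N i t Z ∅ := ⟨h.hx, hZx, Finset.disjoint_empty_right _⟩
  refine glue h (insert p (Itv N i t Z ∅)) (Itv N i t ∅ (insert e Z)) ?_ (fun A hA => hA.1)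
    ?_ ?_ ?_ ?_ ?_
  · rintro A (rfl | hA)
    · exact hpv
    · exact hA.1
  · rintro (h3 | h3)
    · rw [← h3, Finset.inter_self] at hwp
      rw [← hwp] at hwT
      omega
    · exact Finset.disjoint_left.1 hZw (h3.2.1 hz0) hz0
  · rintro ⟨-, -, h3⟩
    exact Finset.disjoint_left.1 h3 hew (Finset.mem_insert_self e Z)
  · rintro A (rfl | hA) B ⟨-, -, hB⟩
    · refine caseA12_sep (Z := insert e (Z.erase z0)) hpv.2 ?_ ?_ ?_
      · apply Finset.insert_subset
        · exact Finset.mem_union_left _ (Finset.mem_sdiff.2 ⟨hew, heT⟩)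
        · exact Finset.subset_union_right
      · exact hB.mono_right (Finset.insert_subset_insert e (Finset.erase_subset _ _))
      · rw [Finset.card_insert_of_notMem (fun h' => heZ (Finset.mem_of_mem_erase h'))]
        omega
    · exact caseA12_sep hA.1.2 hA.2.1 (hB.mono_right (Finset.subset_insert e Z)) (by omega)
  · obtain ⟨q, hq, hqp⟩ := nbr_itv h.cN hpv hZN hE (Finset.disjoint_empty_right _)
      (by have := Finset.card_le_card (Finset.inter_subset_left (s₁ := Z) (s₂ := p)); omega)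
      (by omega) (by simp) (by simp)
    have r1 : Reach i (insert p (Itv N i t Z ∅)) w p :=
      Relation.ReflTransGen.single ⟨by rw [hwp]; exact hwT, Set.mem_insert _ _⟩
    have r2 : Reach i (insert p (Itv N i t Z ∅)) w q :=
      Relation.ReflTransGen.tail r1 ⟨hqp, Set.mem_insert_of_mem _ hq⟩
    have r3 : Reach i (Itv N i t Z ∅) q x :=
      itv_reach h.cN h.t1 hZN hE (Finset.disjoint_empty_right _) (by omega) (by simp)
        (Or.inl (by rw [Finset.card_empty]; omega)) hq hxP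
    exact Relation.ReflTransGen.trans r2 (r3.mono (Set.subset_insert _ _))
  · obtain ⟨q, hq, hqp⟩ := nbr_itv h.cN h.hw hE hD (Finset.disjoint_empty_left _)
      (by simp) (by simp) (by
        have h3 : insert e Z ∩ w ⊆ {e} := by
          intro a ha
          rw [Finset.mem_inter, Finset.mem_insert] at ha
          rw [Finset.mem_singleton]
          rcases ha.1 with h4 | h4
          · exact h4
          · exact absurd h4 (Finset.disjoint_left.1 hZw ha.2)
        have h4 := Finset.card_le_card h3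
        rw [Finset.card_singleton] at h4
        omega)
      (by have := Finset.card_le_card (Finset.sdiff_subset (s := insert e Z) (t := w)); omega)
    have r1 : Reach i (Itv N i t ∅ (insert e Z)) w q := Relation.ReflTransGen.single ⟨hqp, hq⟩
    exact Relation.ReflTransGen.trans r1 (itv_reach h.cN h.t1 hE hD
      (Finset.disjoint_empty_left _) (by simp) (by omega)
      (Or.inl (by rw [Finset.card_empty]; omega)) hq hyQ)

end Pool.Agent.H4.Joh
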