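import Pool.Agent.H4.Joh.Glue
import Pool.Agent.H4.Joh.ConnI

/-!
# Region A, far pairs, `x \ y ⊆ w` and `y \ x` disjoint from `w`

JOB.  Write `r = i + t`.  Tools: `nbr_itv`, `itv_reach`, `glue`.  In all cases choose `Z ⊆ x \ y`,
`|Z| = t + 1`, `z0 ∈ Z`, `Z' = Z.erase z0` (`|Z'| = t`), and `e ∈ (x ∩ y) \ w` (exists:
`x \ y ⊆ w` and `x ⊄ w`, since `|x| = |w|`, `x ≠ w`).  Note `Z ⊆ w`, `e ∈ x`, `e ∈ y`.

**A3a** (`i ≥ t + 2`).  `q = (w \ Z') ∪ T` with `T ⊆ (N \ w).erase e`, `|T| = t` (room
`|N \ w| - 1 = t + s - 1`), so `|q| = r`, `|w ∩ q| = i`, `z0 ∈ q`.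
`P = Itv (insert e Z) ∅`, `Q = {q} ∪ Itv ∅ Z`.  `x ∈ P`, `P` connected (`t + 2 ≤ i`),
`w` has a neighbour in `P` (`|C ∩ w| = t + 1 ≤ i`, `|C \ w| = 1 ≤ t`), `w ∉ P` (`e ∉ w`).
`w → q`, `q` has a neighbour in `Itv ∅ Z` (`|Z ∩ q| = 1 ≤ t`, `|Z \ q| = t ≤ s`), `Itv ∅ Z` is
connected (`t + 1 ≤ s`) and contains `y`; `w ∉ Itv ∅ Z`.  Separation: `A ∈ P` contains
`Z' ∪ {e}` (`t + 1` elements), which `q` avoids, and contains `Z`, which `B ∈ Itv ∅ Z` avoids:
intersections have at most `i - 1` elements (and `A ≠ q`, `A ≠ B`).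

**A3c** (`i = s = t + 1`).  `|(x ∩ y) \ w| ≤ |x ∩ y| ≤ r - (t + 1) = t`.
* If `|(x ∩ y) \ w| = t`: then `|x ∩ w| = r - t = i`, `x` is adjacent to `w`.  `q` as above,
  `P = {x}`, `Q = {q} ∪ Itv ∅ Z`.  `x` against `q`: `x ⊇ Z' ∪ {e}`.
* If `|(x ∩ y) \ w| < t`: choose `V ⊆ N \ (x ∪ w)`, `|V| = t`
  (room: `|N \ (x ∪ w)| = s - i + |x ∩ w| = |x ∩ w| = r - |x \ w| ≥ i ≥ t`, as
  `x \ w = (x ∩ y) \ w`), `p = Z ∪ V` (`|p| = 2t + 1 = r`, `|p ∩ w| = |p ∩ x| = t + 1 = i`).
  `q = (w \ Z') ∪ V'`, `V' ⊆ (N \ w).erase e`, `|V'| = t`, `V' ≠ V` (possible as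
  `|(N \ w).erase e| = 2t > t`: e.g. take an element `v` outside `V` and `V'` containing `v`).
  `P = {x, p}`, `Q = {q} ∪ Itv ∅ Z`: `w → p → x`, and `w → q → Itv ∅ Z ∋ y`.
  Separation: `|p ∩ q| ≤ 1 + |V ∩ V'| ≤ t < i`; `p ⊇ Z` against `Itv ∅ Z`; `x` as before.
  `p ≠ w`, `q ≠ w` as the intersections have `i < r` elements; `p ≠ q` as `|p ∩ q| ≤ t < r`.
-/

namespace Pool.Agent.H4.Joh

variable {α : Type*} [DecidableEq α] {N x y w : Finset α} {i s t : ℕ}

/-- a set of size `t + 1` inside `A` and outside `B` separates the vertices `A`, `B` -/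
theorem CaseA3.sep {A B C : Finset α} (hA : A.card = i + t) (hCA : C ⊆ A) (hCB : Disjoint C B)
    (hC : t + 1 ≤ C.card) : A ≠ B ∧ (A ∩ B).card ≠ i := by
  have h1 : A ∩ B ⊆ A \ C := by
    intro z hz
    rw [Finset.mem_inter] at hz
    rw [Finset.mem_sdiff]
    exact ⟨hz.1, fun hzC => (Finset.disjoint_left.1 hCB hzC) hz.2⟩
  have h2 := Finset.card_le_card h1
  have h3 := Finset.card_sdiff_add_card_eq_card hCA
  refine ⟨?_, by omega⟩
  intro hAB
  rw [hAB, Finset.inter_self, ← hAB] at h2
  omega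

/-- the common situation -/
theorem CaseA3.setup (h : Cfg N i s t x y w) (hg : t + 1 ≤ (x \ y).card) (h1 : x \ y ⊆ w) :
    ∃ (Z : Finset α) (z0 e : α), Z ⊆ x \ y ∧ Z.card = t + 1 ∧ z0 ∈ Z ∧ e ∈ x ∧ e ∈ y ∧ e ∉ w := by
  obtain ⟨Z, hZ, hZc⟩ := Finset.exists_subset_card_eq hg
  have hne : Z.Nonempty := by
    rw [← Finset.card_pos]
    omega
  obtain ⟨z0, hz0⟩ := hne
  have hxw : ¬ x ⊆ w := by
    intro hsub
    have := Finset.eq_of_subset_of_card_le hsub (by rw [h.hx.2, h.hw.2])
    exact h.wx this.symm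
  obtain ⟨e, hex, hew⟩ := Finset.not_subset.1 hxw
  have hey : e ∈ y := by
    by_contra hey
    exact hew (h1 (Finset.mem_sdiff.2 ⟨hex, hey⟩))
  exact ⟨Z, z0, e, hZ, hZc, hz0, hex, hey, hew⟩

/-- the vertex `q` and everything about the `y` side -/
theorem CaseA3.qside (h : Cfg N i s t x y w) (hi : 1 ≤ i) (hs : t + 1 ≤ s) (h1 : x \ y ⊆ w)
    {Z T : Finset α} {z0 e : α} (hZ : Z ⊆ x \ y) (hZc : Z.card = t + 1) (hz0 : z0 ∈ Z)
    (hex : e ∈ x) (hey : e ∈ y) (hew : e ∉ w) (hT : T ⊆ (N \ w).erase e) (hTc : T.card = t) :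
    (∀ B ∈ insert ((w \ Z.erase z0) ∪ T) (Itv N i t ∅ Z), Vtx N i t B) ∧
    w ∉ insert ((w \ Z.erase z0) ∪ T) (Itv N i t ∅ Z) ∧
    Reach i (insert ((w \ Z.erase z0) ∪ T) (Itv N i t ∅ Z)) w y ∧
    (∀ A, Vtx N i t A → insert e Z ⊆ A →
      ∀ B ∈ insert ((w \ Z.erase z0) ∪ T) (Itv N i t ∅ Z), A ≠ B ∧ (A ∩ B).card ≠ i) := by
  have ht := h.t1
  have hZw : Z ⊆ w := hZ.trans h1
  have hZN : Z ⊆ N := hZw.trans h.hw.1
  have hTw : Disjoint w T := by
    rw [Finset.disjoint_left]
    intro z hz hzT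
    have := hT hzT
    rw [Finset.mem_erase, Finset.mem_sdiff] at this
    exact this.2.2 hz
  have heT : e ∉ T := fun he => by
    have := hT he
    rw [Finset.mem_erase] at this
    exact this.1 rfl
  have hZ'c : (Z.erase z0).card = t := by
    rw [Finset.card_erase_of_mem hz0, hZc]
    rfl
  have hZ'w : Z.erase z0 ⊆ w := (Finset.erase_subset _ _).trans hZw
  have hwZ' : (w \ Z.erase z0).card = i := by
    have := Finset.card_sdiff_add_card_eq_card hZ'w
    have h3 := h.hw.2
    omega
  have hwq : w ∩ ((w \ Z.erase z0) ∪ T) = w \ Z.erase z0 := by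
    ext z
    simp only [Finset.mem_inter, Finset.mem_union, Finset.mem_sdiff]
    constructor
    · rintro ⟨hz, hz' | hz'⟩
      · exact hz'
      · exact absurd hz' (Finset.disjoint_left.1 hTw hz)
    · intro hz
      exact ⟨hz.1, Or.inl hz⟩
  have hwqc : (w ∩ ((w \ Z.erase z0) ∪ T)).card = i := by rw [hwq, hwZ']
  have hqV : Vtx N i t ((w \ Z.erase z0) ∪ T) := by
    constructor
    · apply Finset.union_subset
      · exact Finset.sdiff_subset.trans h.hw.1
      · intro z hz
        have := hT hz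
        rw [Finset.mem_erase, Finset.mem_sdiff] at this
        exact this.2.1
    · rw [Finset.card_union_of_disjoint, hwZ', hTc]
      exact Disjoint.mono_left Finset.sdiff_subset hTw
  have hZq : Z ∩ ((w \ Z.erase z0) ∪ T) ⊆ {z0} := by
    intro z hz
    simp only [Finset.mem_inter, Finset.mem_union, Finset.mem_sdiff, Finset.mem_erase] at hz
    rw [Finset.mem_singleton]
    by_contra hzz
    rcases hz.2 with hz' | hz'
    · exact hz'.2 ⟨hzz, hz.1⟩
    · exact Finset.disjoint_left.1 hTw (hZw hz.1) hz'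
  have hZq' : Z \ ((w \ Z.erase z0) ∪ T) ⊆ Z.erase z0 := by
    intro z hz
    simp only [Finset.mem_union, Finset.mem_sdiff, Finset.mem_erase, not_or, not_and] at hz ⊢
    by_contra hcon
    exact hz.2.1 (hZw hz.1) (fun h3 h4 => hcon ⟨h3, h4⟩)
  have hyI : y ∈ Itv N i t ∅ Z := by
    refine ⟨h.hy, Finset.empty_subset _, ?_⟩
    rw [Finset.disjoint_left]
    intro z hz hzZ
    exact (Finset.mem_sdiff.1 (hZ hzZ)).2 hz
  refine ⟨?_, ?_, ?_, ?_⟩
  · intro B hB
    rcases hB with rfl | hB
    · exact hqV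
    · exact hB.1
  · intro hw
    rcases hw with hw | hw
    · have := hwqc
      rw [← hw, Finset.inter_self, h.hw.2] at this
      omega
    · exact Finset.disjoint_left.1 hw.2.2 (hZw hz0) hz0
  · obtain ⟨p, hp, hpq⟩ := nbr_itv (C := ∅) (D := Z) (u := (w \ Z.erase z0) ∪ T) h.cN hqV
      (Finset.empty_subset _) hZN (Finset.disjoint_empty_left _) (by simp) (by simp)
      ((Finset.card_le_card hZq).trans (by simpa using ht))
      ((Finset.card_le_card hZq').trans (by omega))
    have hr := itv_reach (C := ∅) (D := Z) h.cN ht (Finset.empty_subset _) hZN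
      (Finset.disjoint_empty_left _) (by simp) (by omega)
      (Or.inl (by rw [Finset.card_empty]; omega)) hp hyI
    have hr' : Reach i (insert ((w \ Z.erase z0) ∪ T) (Itv N i t ∅ Z)) p y :=
      Reach.mono (Set.subset_insert _ _) hr
    refine Relation.ReflTransGen.head (b := (w \ Z.erase z0) ∪ T) ⟨hwqc, Set.mem_insert _ _⟩ ?_
    exact Relation.ReflTransGen.head ⟨hpq, Set.mem_insert_of_mem _ hp⟩ hr'
  · intro A hA hsub B hB
    have heZ : e ∉ Z := fun he => (Finset.mem_sdiff.1 (hZ he)).2 hey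
    rcases hB with rfl | hB
    · refine CaseA3.sep hA.2 (C := insert e (Z.erase z0)) ?_ ?_ ?_
      · exact (Finset.insert_subset_insert _ (Finset.erase_subset _ _)).trans hsub
      · rw [Finset.disjoint_left]
        intro z hz hz'
        simp only [Finset.mem_insert, Finset.mem_union, Finset.mem_sdiff, Finset.mem_erase]
          at hz hz'
        rcases hz with rfl | hz
        · rcases hz' with hz' | hz'
          · exact hew hz'.1
          · exact heT hz'
        · rcases hz' with hz' | hz'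
          · exact hz'.2 hz
          · exact Finset.disjoint_left.1 hTw (hZw hz.2) hz'
      · rw [Finset.card_insert_of_notMem, hZ'c]
        intro he
        exact heZ (Finset.mem_of_mem_erase he)
    · refine CaseA3.sep hA.2 (C := Z) ((Finset.subset_insert _ _).trans hsub) hB.2.2.symm ?_
      omega

theorem caseA3a (h : Cfg N i s t x y w) (hi : t + 2 ≤ i) (hs : t + 1 ≤ s)
    (hg : t + 1 ≤ (x \ y).card) (h1 : x \ y ⊆ w) (h2 : Disjoint (y \ x) w) :
    IndPath N i t x y w := by
  obtain ⟨Z, z0, e, hZ, hZc, hz0, hex, hey, hew⟩ := CaseA3.setup h hg h1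
  have ht := h.t1
  have hZw : Z ⊆ w := hZ.trans h1
  have hZN : Z ⊆ N := hZw.trans h.hw.1
  have hNw : (N \ w).card = t + s := by
    have := Finset.card_sdiff_add_card_eq_card h.hw.1
    have h3 := h.cN
    have h4 := h.hw.2
    omega
  have heNw : e ∈ N \ w := Finset.mem_sdiff.2 ⟨h.hx.1 hex, hew⟩
  have hroom : t ≤ ((N \ w).erase e).card := by
    rw [Finset.card_erase_of_mem heNw, hNw]
    omega
  obtain ⟨T, hT, hTc⟩ := Finset.exists_subset_card_eq hroom
  obtain ⟨hQV, hwQ, hQr, hsep⟩ := CaseA3.qside h (by omega) hs h1 hZ hZc hz0 hex hey hew hT hTc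
  have hCN : insert e Z ⊆ N := Finset.insert_subset (h.hx.1 hex) hZN
  have hCx : insert e Z ⊆ x := Finset.insert_subset hex (hZ.trans Finset.sdiff_subset)
  have hCc : (insert e Z).card ≤ t + 2 := (Finset.card_insert_le _ _).trans (by omega)
  refine glue h (Itv N i t (insert e Z) ∅) _ (fun A hA => hA.1) hQV ?_ hwQ
    (fun A hA => hsep A hA.1 hA.2.1) ?_ hQr
  · intro hw
    exact hew (hw.2.1 (Finset.mem_insert_self _ _))
  · have hCw : (insert e Z) ∩ w ⊆ Z := by
      intro z hz
      simp only [Finset.mem_inter, Finset.mem_insert] at hz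
      rcases hz.1 with rfl | hz'
      · exact absurd hz.2 hew
      · exact hz'
    have hCw' : (insert e Z) \ w ⊆ {e} := by
      intro z hz
      simp only [Finset.mem_sdiff, Finset.mem_insert] at hz
      rw [Finset.mem_singleton]
      rcases hz.1 with rfl | hz'
      · rfl
      · exact absurd (hZw hz') hz.2
    obtain ⟨p, hp, hpq⟩ := nbr_itv (C := insert e Z) (D := ∅) (u := w) h.cN h.hw
      hCN (Finset.empty_subset _) (Finset.disjoint_empty_right _)
      ((Finset.card_le_card hCw).trans (by omega))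
      ((Finset.card_le_card hCw').trans (by simpa using ht)) (by simp) (by simp)
    have hr := itv_reach (C := insert e Z) (D := ∅) (B := x) h.cN ht hCN (Finset.empty_subset _)
      (Finset.disjoint_empty_right _) (by omega) (by simp)
      (Or.inl (by rw [Finset.card_empty]; omega)) hp
      ⟨h.hx, hCx, Finset.disjoint_empty_right _⟩
    exact Relation.ReflTransGen.head ⟨hpq, hp⟩ hr

theorem caseA3c (h : Cfg N (t + 1) (t + 1) t x y w)
    (hg : t + 1 ≤ (x \ y).card) (h1 : x \ y ⊆ w) (h2 : Disjoint (y \ x) w) :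
    IndPath N (t + 1) t x y w := by
  obtain ⟨Z, z0, e, hZ, hZc, hz0, hex, hey, hew⟩ := CaseA3.setup h hg h1
  have ht := h.t1
  have hZw : Z ⊆ w := hZ.trans h1
  have hZN : Z ⊆ N := hZw.trans h.hw.1
  have hZx : Z ⊆ x := hZ.trans Finset.sdiff_subset
  have hNw : (N \ w).card = t + (t + 1) := by
    have := Finset.card_sdiff_add_card_eq_card h.hw.1
    have h3 := h.cN
    have h4 := h.hw.2
    omega
  have heNw : e ∈ N \ w := Finset.mem_sdiff.2 ⟨h.hx.1 hex, hew⟩
  have hroom : ((N \ w).erase e).card = 2 * t := by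
    rw [Finset.card_erase_of_mem heNw, hNw]
    omega
  have hCx : insert e Z ⊆ x := Finset.insert_subset hex (hZ.trans Finset.sdiff_subset)
  have hxy : (x ∩ y).card ≤ t := by
    have := Finset.card_sdiff_add_card_inter x y
    have h4 := h.hx.2
    omega
  have hxw : x \ w = (x ∩ y) \ w := by
    ext z
    simp only [Finset.mem_sdiff, Finset.mem_inter]
    constructor
    · rintro ⟨hz, hzw⟩
      refine ⟨⟨hz, ?_⟩, hzw⟩
      by_contra hzy
      exact hzw (h1 (Finset.mem_sdiff.2 ⟨hz, hzy⟩))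
    · rintro ⟨⟨hz, _⟩, hzw⟩
      exact ⟨hz, hzw⟩
  have hxwc : (x \ w).card ≤ t := by
    rw [hxw]
    exact (Finset.card_le_card Finset.sdiff_subset).trans hxy
  have hsum := Finset.card_sdiff_add_card_inter x w
  have hxc := h.hx.2
  by_cases hcase : (x \ w).card = t
  · have hadj : (w ∩ x).card = t + 1 := by
      rw [Finset.inter_comm]
      omega
    obtain ⟨T, hT, hTc⟩ := Finset.exists_subset_card_eq (s := (N \ w).erase e) (n := t) (by omega)
    obtain ⟨hQV, hwQ, hQr, hsep⟩ := CaseA3.qside h (by omega) le_rfl h1 hZ hZc hz0 hex hey hew hT hTc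
    refine glue h {x} _ ?_ hQV ?_ hwQ ?_ ?_ hQr
    · rintro A rfl
      exact h.hx
    · intro hw
      exact h.wx hw
    · rintro A rfl
      exact hsep A h.hx hCx
    · exact Relation.ReflTransGen.single ⟨hadj, rfl⟩
  · have hroomV : t ≤ (N \ (x ∪ w)).card := by
      have h3 := Finset.card_sdiff_add_card_eq_card (Finset.union_subset h.hx.1 h.hw.1)
      have h4 := Finset.card_union_add_card_inter x w
      have h5 := h.cN
      have h6 := h.hw.2
      omega
    obtain ⟨V, hV, hVc⟩ := Finset.exists_subset_card_eq hroomV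
    have hVw : ∀ z ∈ V, z ∉ w := fun z hz hzw => by
      have := hV hz
      rw [Finset.mem_sdiff, Finset.mem_union] at this
      exact this.2 (Or.inr hzw)
    have hVx : ∀ z ∈ V, z ∉ x := fun z hz hzw => by
      have := hV hz
      rw [Finset.mem_sdiff, Finset.mem_union] at this
      exact this.2 (Or.inl hzw)
    have hex' : ∃ v ∈ (N \ w).erase e, v ∉ V := by
      by_contra hcon
      push Not at hcon
      have := Finset.card_le_card (show (N \ w).erase e ⊆ V from hcon)
      omega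
    obtain ⟨v, hv, hvV⟩ := hex'
    obtain ⟨V', hvV', hV', hV'c⟩ := Finset.exists_subsuperset_card_eq
      (Finset.singleton_subset_iff.2 hv) (by simpa using ht) (show t ≤ _ by omega)
    have hvV'' : v ∈ V' := Finset.singleton_subset_iff.1 hvV'
    obtain ⟨hQV, hwQ, hQr, hsep⟩ := CaseA3.qside h (by omega) le_rfl h1 hZ hZc hz0 hex hey hew hV' hV'c
    have hV'w : ∀ z ∈ V', z ∉ w := fun z hz hzw => by
      have := hV' hz
      rw [Finset.mem_erase, Finset.mem_sdiff] at this
      exact this.2.2 hzw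
    have hZV : Disjoint Z V := by
      rw [Finset.disjoint_left]
      intro z hz hzV
      exact hVw z hzV (hZw hz)
    have hpV : Vtx N (t + 1) t (Z ∪ V) := by
      constructor
      · exact Finset.union_subset hZN (hV.trans Finset.sdiff_subset)
      · rw [Finset.card_union_of_disjoint hZV, hZc, hVc]
    have hpw : (w ∩ (Z ∪ V)).card = t + 1 := by
      have : w ∩ (Z ∪ V) = Z := by
        ext z
        simp only [Finset.mem_inter, Finset.mem_union]
        constructor
        · rintro ⟨hz, hz' | hz'⟩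
          · exact hz'
          · exact absurd hz (hVw z hz')
        · intro hz
          exact ⟨hZw hz, Or.inl hz⟩
      rw [this, hZc]
    have hpx : ((Z ∪ V) ∩ x).card = t + 1 := by
      have : (Z ∪ V) ∩ x = Z := by
        ext z
        simp only [Finset.mem_inter, Finset.mem_union]
        constructor
        · rintro ⟨hz' | hz', hz⟩
          · exact hz'
          · exact absurd hz (hVx z hz')
        · intro hz
          exact ⟨Or.inl hz, hZx hz⟩
      rw [this, hZc]
    have hpq : ((Z ∪ V) ∩ ((w \ Z.erase z0) ∪ V')).card ≤ t := by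
      have hsub : (Z ∪ V) ∩ ((w \ Z.erase z0) ∪ V') ⊆ insert z0 (V' \ {v}) := by
        intro z hz
        simp only [Finset.mem_inter, Finset.mem_union, Finset.mem_sdiff, Finset.mem_erase,
          not_and] at hz
        simp only [Finset.mem_insert, Finset.mem_sdiff, Finset.mem_singleton]
        by_cases hzz : z = z0
        · exact Or.inl hzz
        · right
          rcases hz with ⟨hz1 | hz1, hz2 | hz2⟩
          · exact absurd hz1 (hz2.2 hzz)
          · exact absurd (hZw hz1) (hV'w z hz2)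
          · exact absurd hz2.1 (hVw z hz1)
          · refine ⟨hz2, ?_⟩
            rintro rfl
            exact hvV hz1
      refine (Finset.card_le_card hsub).trans ((Finset.card_insert_le _ _).trans ?_)
      have := Finset.card_sdiff_add_card_eq_card (Finset.singleton_subset_iff.2 hvV'')
      rw [Finset.card_singleton] at this
      omega
    refine glue h {x, Z ∪ V} _ ?_ hQV ?_ hwQ ?_ ?_ hQr
    · rintro A (rfl | rfl)
      · exact h.hx
      · exact hpV
    · rintro (hw | hw)
      · exact h.wx hw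
      · have := hpw
        rw [← hw, Finset.inter_self, h.hw.2] at this
        omega
    · rintro A (rfl | rfl)
      · exact hsep A h.hx hCx
      · intro B hB
        rcases hB with rfl | hB
        · refine ⟨?_, by omega⟩
          intro hEq
          have := hpq
          rw [← hEq, Finset.inter_self, hpV.2] at this
          omega
        · exact CaseA3.sep hpV.2 (C := Z) Finset.subset_union_left hB.2.2.symm (by omega)
    · refine Relation.ReflTransGen.head (b := Z ∪ V) ⟨hpw, ?_⟩
        (Relation.ReflTransGen.single ⟨hpx, ?_⟩)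
      · exact Or.inr rfl
      · exact Or.inl rfl

end Pool.Agent.H4.Joh
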