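import Pool.Agent.H4.Joh.Defs

/-!
# Symmetries: swap and complement

JOB.
* `swap`: reverse the path, `f' a = f (k - a)`, `j' = k - j`.
* `compl`: `f' a = N \ f a`; `|A ∪ B| = 2(i+t) - |A ∩ B|`, so
  `|(N \ A) ∩ (N \ B)| = 2t + i + s - 2(i+t) + |A ∩ B|`, which is `s` iff `|A ∩ B| = i`
  (and `|N \ A| = s + t`).
-/

namespace Pool.Agent.H4.Joh

variable {α : Type*} [DecidableEq α] {N x y w : Finset α} {i s t : ℕ}

theorem Cfg.swap (h : Cfg N i s t x y w) : Cfg N i s t y x w :=
  { cN := h.cN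
    t1 := h.t1
    hx := h.hy
    hy := h.hx
    hw := h.hw
    xy := h.xy.symm
    wx := h.wy
    wy := h.wx
    nadj := by rw [Finset.inter_comm]; exact h.nadj }

theorem IndPath.swap (h : IndPath N i t y x w) : IndPath N i t x y w := by
  obtain ⟨k, j, f, hj, h0, hjw, hk, hv, hne, hadj⟩ := h
  refine ⟨k, k - j, fun a => f (k - a), by omega, ?_, ?_, ?_, ?_, ?_, ?_⟩
  · simpa using hk
  · have h1 : k - (k - j) = j := by omega
    simp only [h1, hjw]
  · simpa using h0
  · intro a _
    exact hv _ (by omega)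
  · intro a b hab hb
    exact (hne (k - b) (k - a) (by omega) (by omega)).symm
  · intro a b hab hb
    rw [Finset.inter_comm, hadj (k - b) (k - a) (by omega) (by omega)]
    omega

theorem SymA.vtx_compl (hN : N.card = 2 * t + i + s) {A : Finset α} (hA : Vtx N i t A) :
    Vtx N s t (N \ A) := by
  refine ⟨Finset.sdiff_subset, ?_⟩
  have h1 := Finset.card_sdiff_add_card_eq_card hA.1
  have h2 := hA.2
  omega

theorem SymA.card_compl (hN : N.card = 2 * t + i + s) {A B : Finset α} (hA : Vtx N i t A)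
    (hB : Vtx N i t B) : ((N \ A) ∩ (N \ B)).card = s ↔ (A ∩ B).card = i := by
  have h0 : (N \ A) ∩ (N \ B) = N \ (A ∪ B) := by
    ext e
    simp only [Finset.mem_inter, Finset.mem_sdiff, Finset.mem_union]
    tauto
  have h1 := Finset.card_sdiff_add_card_eq_card (Finset.union_subset hA.1 hB.1)
  have h2 := Finset.card_union_add_card_inter A B
  have h3 := hA.2
  have h4 := hB.2
  rw [h0]
  omega

theorem SymA.sdiff_inj {A B : Finset α} (hA : A ⊆ N) (hB : B ⊆ N) (h : N \ A = N \ B) :
    A = B := by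
  rw [← Finset.sdiff_sdiff_eq_self hA, h, Finset.sdiff_sdiff_eq_self hB]

theorem SymA.indPath_compl (hN : N.card = 2 * t + i + s) (hp : IndPath N i t x y w) :
    IndPath N s t (N \ x) (N \ y) (N \ w) := by
  obtain ⟨k, j, f, hj, h0, hjw, hk, hv, hne, hadj⟩ := hp
  refine ⟨k, j, fun a => N \ f a, hj, ?_, ?_, ?_, ?_, ?_, ?_⟩
  · simp only [h0]
  · simp only [hjw]
  · simp only [hk]
  · intro a ha
    exact SymA.vtx_compl hN (hv a ha)
  · intro a b hab hb he
    exact hne a b hab hb (SymA.sdiff_inj (hv a (by omega)).1 (hv b hb).1 he)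
  · intro a b hab hb
    rw [← hadj a b hab hb]
    exact SymA.card_compl hN (hv a (by omega)) (hv b hb)

theorem Cfg.compl (h : Cfg N i s t x y w) : Cfg N s i t (N \ x) (N \ y) (N \ w) :=
  { cN := by have := h.cN; omega
    t1 := h.t1
    hx := SymA.vtx_compl h.cN h.hx
    hy := SymA.vtx_compl h.cN h.hy
    hw := SymA.vtx_compl h.cN h.hw
    xy := fun he => h.xy (SymA.sdiff_inj h.hx.1 h.hy.1 he)
    wx := fun he => h.wx (SymA.sdiff_inj h.hw.1 h.hx.1 he)
    wy := fun he => h.wy (SymA.sdiff_inj h.hw.1 h.hy.1 he)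
    nadj := fun he => h.nadj ((SymA.card_compl h.cN h.hx h.hy).1 he) }

theorem IndPath.compl (h : Cfg N i s t x y w) (hp : IndPath N s t (N \ x) (N \ y) (N \ w)) :
    IndPath N i t x y w := by
  have hN : N.card = 2 * t + s + i := by have := h.cN; omega
  have h1 := SymA.indPath_compl hN hp
  rwa [Finset.sdiff_sdiff_eq_self h.hx.1, Finset.sdiff_sdiff_eq_self h.hy.1,
    Finset.sdiff_sdiff_eq_self h.hw.1] at h1

/-- complement for arbitrary vertices (used for the exceptional graphs) -/
theorem IndPath.compl' (hN : N.card = 2 * t + i + s) (hx : Vtx N i t x) (hy : Vtx N i t y)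
    (hw : Vtx N i t w) (hp : IndPath N i t x y w) :
    IndPath N s t (N \ x) (N \ y) (N \ w) := SymA.indPath_compl hN hp

theorem Good.compl (h : Good α s i t) : Good α i s t := by
  intro N x y w hc
  exact IndPath.compl hc (h N _ _ _ hc.compl)

end Pool.Agent.H4.Joh
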