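import Pool.Agent.H4.Joh.CaseO1
import Pool.Agent.H4.Joh.SymA

/-!
# Region A, close pairs (`|x \ y| ≤ t - 1`), `i + s ≥ 2t + 3`: choice of the sets for `caseO1`

JOB.  `γ = |x \ y| = |y \ x| ≥ 1`, `m = t + 1 - γ` (`2 ≤ m ≤ t`), `I = x ∩ y`, `|I| = i + t - γ`,
`O = N \ (x ∪ y)`, `|O| = t + s - γ`; `2m ≤ |I|` and `2m ≤ |O|` (as `i, s ≥ t + 1`, `γ ≥ 1`).
`caseO1` may be used for `(x, y)`, for `(y, x)` (`Cfg.swap`, `IndPath.swap`; then `U1`, `U2` are
exchanged) and in the complement (`Cfg.compl`, `IndPath.compl`; `N \ x \ (N \ y) = y \ x`,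
`(N \ x) ∩ (N \ y) = O`, `|(N \ w) ∩ Z| = |Z| - |w ∩ Z|` for `Z ⊆ N`, so `1 ≤ |w ∩ Z| ≤ t` is
preserved for `|Z| = t + 1` and `|w ∩ Z| ≤ t` becomes `|w ∩ Z| ≥ 1`).

In terms of disjoint `U1, U2 ⊆ I` of size `m`, `ZQ = (x \ y) ∪ U2`, `ZP = (y \ x) ∪ U1`, what is
needed is: `|w ∩ ZQ| ≤ t`, `|w ∩ ZP| ≤ t` (i.e. `ZQ ⊄ w`, `ZP ⊄ w`) and `w` meets `ZQ` or `ZP`
(if `w` meets `ZQ` use `caseO1` directly, if `w` meets `ZP` use the swapped version).
In the complement: disjoint `V1, V2 ⊆ O` of size `m`, `ZQ = (y \ x) ∪ V2`, `ZP = (x \ y) ∪ V1`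
with `1 ≤ |w ∩ ZQ| ≤ t` and `w ∩ ZP ≠ ∅`.

Case 1: `w ∩ (x ∪ y) = ∅`.  Complement: `w ⊆ O`, `|w| ≥ 2` (`i ≥ 2`): choose `V1` containing one
element of `w` and `V2` containing another one; `|w ∩ ZQ| ≤ |V2| = m ≤ t`.
Case 2: `x \ y ⊆ w`, `y \ x ⊆ w` and `|I \ w| = 1`.  Then `|w| ≥ 2γ + |I| - 1`, so
`i + t ≥ 2γ + i + t - γ - 1`, `γ = 1` and `w ∩ O = ∅`.  Complement with any disjoint `V1, V2 ⊆ O`:
`|w ∩ ZQ| = 1`, `|w ∩ ZP| = 1`.
Case 3: `w ∩ (x ∪ y) ≠ ∅` and not case 2.  If `x \ y ⊆ w` put an element `e2` of `I \ w` into `U2`;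
if `y \ x ⊆ w` put an element `e1` of `I \ w` into `U1` (`I \ w ≠ ∅` if `x \ y ⊆ w`, as `x ⊄ w`;
similarly if `y \ x ⊆ w`, as `y ⊄ w`; if both are contained in `w` then `|I \ w| ≥ 2` because we are
not in case 2, so take `e1 ≠ e2`).  This gives `ZQ ⊄ w`, `ZP ⊄ w`.  If `w` meets `x \ y` or `y \ x`
we are done: `w` meets `ZQ` or `ZP`.  Otherwise `w` meets `I` (and `x \ y`, `y \ x` are not contained in
`w` as they are nonempty): put an element of `w ∩ I` into `U2`.
-/

namespace Pool.Agent.H4.Joh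

variable {α : Type*} [DecidableEq α] {N x y w : Finset α} {i s t : ℕ}

/-- choice of two disjoint subsets of the same size with prescribed elements -/
theorem CaseA4.split {I E1 E2 : Finset α} {m : ℕ} (h1 : E1 ⊆ I) (h2 : E2 ⊆ I)
    (hd : Disjoint E1 E2) (hc1 : E1.card ≤ m) (hc2 : E2.card ≤ m) (hm : 2 * m ≤ I.card) :
    ∃ U1 U2 : Finset α, U1 ⊆ I ∧ U2 ⊆ I ∧ Disjoint U1 U2 ∧ U1.card = m ∧ U2.card = m ∧
      E1 ⊆ U1 ∧ E2 ⊆ U2 := by
  have ha : E1 ⊆ I \ E2 := fun z hz =>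
    Finset.mem_sdiff.2 ⟨h1 hz, fun hz2 => Finset.disjoint_left.1 hd hz hz2⟩
  have hb := Finset.card_sdiff_add_card_eq_card h2
  obtain ⟨U1, hU1, hU1', hU1c⟩ := Finset.exists_subsuperset_card_eq ha hc1 (by omega)
  have hU1I : U1 ⊆ I := hU1'.trans Finset.sdiff_subset
  have hc := Finset.card_sdiff_add_card_eq_card hU1I
  have hd' : E2 ⊆ I \ U1 := fun z hz => Finset.mem_sdiff.2 ⟨h2 hz, fun hz2 =>
    (Finset.mem_sdiff.1 (hU1' hz2)).2 hz⟩
  obtain ⟨U2, hU2, hU2', hU2c⟩ := Finset.exists_subsuperset_card_eq hd' hc2 (by omega)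
  refine ⟨U1, U2, hU1I, hU2'.trans Finset.sdiff_subset, ?_, hU1c, hU2c, hU1, hU2⟩
  rw [Finset.disjoint_left]
  intro z hz hz2
  exact (Finset.mem_sdiff.1 (hU2' hz2)).2 hz

theorem CaseA4.inter_lt {Z : Finset α} (hZ : Z.card = t + 1) {z : α} (hz : z ∈ Z) (hzw : z ∉ w) :
    (w ∩ Z).card ≤ t := by
  have h1 : w ∩ Z ⊆ Z.erase z := by
    intro u hu
    rw [Finset.mem_inter] at hu
    rw [Finset.mem_erase]
    refine ⟨?_, hu.2⟩
    rintro rfl
    exact hzw hu.1
  have h2 := Finset.card_le_card h1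
  rw [Finset.card_erase_of_mem hz] at h2
  omega

theorem CaseA4.one_le {Z : Finset α} {z : α} (hz : z ∈ Z) (hzw : z ∈ w) :
    1 ≤ (w ∩ Z).card := by
  rw [Nat.one_le_iff_ne_zero, Finset.card_ne_zero]
  exact ⟨z, Finset.mem_inter.2 ⟨hzw, hz⟩⟩

theorem CaseA4.cardU {A U I : Finset α} (hA : Disjoint A I) (hU : U ⊆ I) {n : ℕ}
    (h : U.card + A.card = n) : (A ∪ U).card = n := by
  rw [Finset.card_union_of_disjoint (hA.mono_right hU)]
  omega

/-- direct case -/
theorem CaseA4.viaI (h : Cfg N i s t x y w) (hi : t + 1 ≤ i) (hs : t + 1 ≤ s)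
    (his : 2 * t + 3 ≤ i + s) (hg : (x \ y).card + 1 ≤ t) {U1 U2 : Finset α}
    (hU1 : U1 ⊆ x ∩ y) (hU2 : U2 ⊆ x ∩ y) (hU : Disjoint U1 U2)
    (h1 : U1.card + (x \ y).card = t + 1) (h2 : U2.card + (x \ y).card = t + 1)
    (hQ : ∃ z ∈ (x \ y) ∪ U2, z ∉ w) (hP : ∃ z ∈ (y \ x) ∪ U1, z ∉ w)
    (hm : ∃ z ∈ w, z ∈ (x \ y) ∪ U2 ∨ z ∈ (y \ x) ∪ U1) : IndPath N i t x y w := by
  have hyx : (y \ x).card = (x \ y).card := by
    have ha := Finset.card_sdiff_add_card_inter x y
    have hb := Finset.card_sdiff_add_card_inter y x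
    rw [Finset.inter_comm] at hb
    have hc := h.hx.2
    have hd := h.hy.2
    omega
  have hZQ : ((x \ y) ∪ U2).card = t + 1 :=
    CaseA4.cardU (I := x ∩ y) (by
      rw [Finset.disjoint_left]
      intro z hz hz2
      rw [Finset.mem_sdiff] at hz
      rw [Finset.mem_inter] at hz2
      exact hz.2 hz2.2) hU2 h2
  have hZP : ((y \ x) ∪ U1).card = t + 1 :=
    CaseA4.cardU (I := x ∩ y) (by
      rw [Finset.disjoint_left]
      intro z hz hz2
      rw [Finset.mem_sdiff] at hz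
      rw [Finset.mem_inter] at hz2
      exact hz.2 hz2.1) hU1 (by omega)
  obtain ⟨a, ha, haw⟩ := hQ
  obtain ⟨b, hb, hbw⟩ := hP
  have hq := CaseA4.inter_lt hZQ ha haw
  have hp := CaseA4.inter_lt hZP hb hbw
  obtain ⟨c, hc, hc1 | hc1⟩ := hm
  · exact caseO1 h hi hs his hg hU1 hU2 hU h1 h2 (CaseA4.one_le hc1 hc) hq hp
  · refine IndPath.swap (caseO1 h.swap hi hs his (by omega) (U1 := U2) (U2 := U1)
      (by rw [Finset.inter_comm]; exact hU2) (by rw [Finset.inter_comm]; exact hU1) hU.symm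
      (by omega) (by omega) (CaseA4.one_le hc1 hc) hp hq)

/-- complementary case -/
theorem CaseA4.viaC (h : Cfg N i s t x y w) (hi : t + 1 ≤ i) (hs : t + 1 ≤ s)
    (his : 2 * t + 3 ≤ i + s) (hg : (x \ y).card + 1 ≤ t) {V1 V2 : Finset α}
    (hV1 : V1 ⊆ N \ (x ∪ y)) (hV2 : V2 ⊆ N \ (x ∪ y)) (hV : Disjoint V1 V2)
    (h1 : V1.card + (x \ y).card = t + 1) (h2 : V2.card + (x \ y).card = t + 1)
    (hQ : ∃ z ∈ (y \ x) ∪ V2, z ∈ w) (hP : ∃ z ∈ (x \ y) ∪ V1, z ∈ w)
    (hm : ∃ z, z ∉ w ∧ (z ∈ (y \ x) ∪ V2 ∨ z ∈ (x \ y) ∪ V1)) : IndPath N i t x y w := by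
  have e1 : (N \ x) \ (N \ y) = y \ x := by
    ext z
    simp only [Finset.mem_sdiff, not_and, not_not]
    constructor
    · rintro ⟨⟨hz, hzx⟩, hzy⟩
      exact ⟨hzy hz, hzx⟩
    · rintro ⟨hzy, hzx⟩
      exact ⟨⟨h.hy.1 hzy, hzx⟩, fun _ => hzy⟩
  have e2 : (N \ y) \ (N \ x) = x \ y := by
    ext z
    simp only [Finset.mem_sdiff, not_and, not_not]
    constructor
    · rintro ⟨⟨hz, hzx⟩, hzy⟩
      exact ⟨hzy hz, hzx⟩
    · rintro ⟨hzy, hzx⟩
      exact ⟨⟨h.hx.1 hzy, hzx⟩, fun _ => hzy⟩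
  have e3 : (N \ x) ∩ (N \ y) = N \ (x ∪ y) := by
    ext z
    simp only [Finset.mem_sdiff, Finset.mem_inter, Finset.mem_union]
    tauto
  have hyx : (y \ x).card = (x \ y).card := by
    have ha := Finset.card_sdiff_add_card_inter x y
    have hb := Finset.card_sdiff_add_card_inter y x
    rw [Finset.inter_comm] at hb
    have hc := h.hx.2
    have hd := h.hy.2
    omega
  refine IndPath.compl h (CaseA4.viaI h.compl hs hi (by omega) (by rw [e1]; omega)
    (U1 := V1) (U2 := V2) (by rw [e3]; exact hV1) (by rw [e3]; exact hV2) hV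
    (by rw [e1]; omega) (by rw [e1]; omega) ?_ ?_ ?_)
  · obtain ⟨z, hz, hzw⟩ := hQ
    rw [e1]
    exact ⟨z, hz, fun hz' => (Finset.mem_sdiff.1 hz').2 hzw⟩
  · obtain ⟨z, hz, hzw⟩ := hP
    rw [e2]
    exact ⟨z, hz, fun hz' => (Finset.mem_sdiff.1 hz').2 hzw⟩
  · obtain ⟨z, hzw, hz⟩ := hm
    rw [e1, e2]
    refine ⟨z, Finset.mem_sdiff.2 ⟨?_, hzw⟩, hz⟩
    rcases hz with hz | hz
    · rcases Finset.mem_union.1 hz with hz | hz
      · exact h.hy.1 (Finset.mem_sdiff.1 hz).1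
      · exact (Finset.mem_sdiff.1 (hV2 hz)).1
    · rcases Finset.mem_union.1 hz with hz | hz
      · exact h.hx.1 (Finset.mem_sdiff.1 hz).1
      · exact (Finset.mem_sdiff.1 (hV1 hz)).1

theorem caseA4 (h : Cfg N i s t x y w) (hi : t + 1 ≤ i) (hs : t + 1 ≤ s) (his : 2 * t + 3 ≤ i + s)
    (hg : (x \ y).card + 1 ≤ t) : IndPath N i t x y w := by
  have hxc := h.hx.2
  have hyc := h.hy.2
  have hwc := h.hw.2
  have hNc := h.cN
  have cx := Finset.card_sdiff_add_card_inter x y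
  have cy := Finset.card_sdiff_add_card_inter y x
  rw [Finset.inter_comm] at cy
  have cu := Finset.card_union_add_card_inter x y
  have cO := Finset.card_sdiff_add_card_eq_card (Finset.union_subset h.hx.1 h.hy.1)
  have hxw : ¬ x ⊆ w := fun hsub =>
    h.wx (Finset.eq_of_subset_of_card_le hsub (by rw [h.hx.2, h.hw.2])).symm
  have hyw : ¬ y ⊆ w := fun hsub =>
    h.wy (Finset.eq_of_subset_of_card_le hsub (by rw [h.hy.2, h.hw.2])).symm
  have hxy : ¬ x ⊆ y := fun hsub =>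
    h.xy (Finset.eq_of_subset_of_card_le hsub (by rw [h.hx.2, h.hy.2]))
  obtain ⟨xa, hxa1, hxa2⟩ := Finset.not_subset.1 hxy
  have hxa : xa ∈ x \ y := Finset.mem_sdiff.2 ⟨hxa1, hxa2⟩
  have hγ : 1 ≤ (x \ y).card := by
    rw [Nat.one_le_iff_ne_zero, Finset.card_ne_zero]
    exact ⟨xa, hxa⟩
  have hyxne : (y \ x).Nonempty := by
    rw [← Finset.card_pos]
    omega
  obtain ⟨ya, hya⟩ := hyxne
  obtain ⟨m, hm⟩ : ∃ m, m + (x \ y).card = t + 1 := ⟨t + 1 - (x \ y).card, by omega⟩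
  have hI2 : 2 * m ≤ (x ∩ y).card := by omega
  have hO2 : 2 * m ≤ (N \ (x ∪ y)).card := by omega
  by_cases hcase : ∃ z ∈ w, z ∈ x ∪ y
  · by_cases hA : x \ y ⊆ w
    · by_cases hB : y \ x ⊆ w
      · -- both contained
        have hex : ∃ e ∈ (x ∩ y), e ∉ w := by
          obtain ⟨e, he, hew⟩ := Finset.not_subset.1 hxw
          refine ⟨e, Finset.mem_inter.2 ⟨he, ?_⟩, hew⟩
          by_contra hey
          exact hew (hA (Finset.mem_sdiff.2 ⟨he, hey⟩))
        by_cases hIw : 1 < ((x ∩ y) \ w).card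
        · obtain ⟨e1, he1, e2, he2, hne⟩ := Finset.one_lt_card.1 hIw
          rw [Finset.mem_sdiff] at he1 he2
          obtain ⟨U1, U2, hU1, hU2, hU, hc1, hc2, hE1, hE2⟩ := CaseA4.split
            (E1 := {e1}) (E2 := {e2}) (I := x ∩ y) (m := m)
            (Finset.singleton_subset_iff.2 he1.1) (Finset.singleton_subset_iff.2 he2.1)
            (by simpa using hne) (by rw [Finset.card_singleton]; omega)
            (by rw [Finset.card_singleton]; omega) hI2
          refine CaseA4.viaI h hi hs his hg hU1 hU2 hU (by omega) (by omega)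
            ⟨e2, Finset.mem_union_right _ (hE2 (Finset.mem_singleton_self _)), he2.2⟩
            ⟨e1, Finset.mem_union_right _ (hE1 (Finset.mem_singleton_self _)), he1.2⟩
            ⟨xa, hA hxa, Or.inl (Finset.mem_union_left _ hxa)⟩
        · -- case 2
          obtain ⟨V1, V2, hV1, hV2, hV, hc1, hc2, -, -⟩ := CaseA4.split
            (E1 := ∅) (E2 := ∅) (I := N \ (x ∪ y)) (m := m)
            (Finset.empty_subset _) (Finset.empty_subset _) (Finset.disjoint_empty_left _)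
            (by simp) (by simp) hO2
          have hV2ne : V2.Nonempty := by
            rw [← Finset.card_pos]
            omega
          obtain ⟨v, hv⟩ := hV2ne
          have hvw : v ∉ w := by
            intro hvw
            have hvO := Finset.mem_sdiff.1 (hV2 hv)
            have hsub : insert v ((x ∪ y) \ ((x ∩ y) \ w)) ⊆ w := by
              intro z hz
              simp only [Finset.mem_insert, Finset.mem_sdiff, Finset.mem_union, Finset.mem_inter,
                not_and, not_not] at hz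
              rcases hz with rfl | ⟨hz | hz, hz'⟩
              · exact hvw
              · by_cases hzy : z ∈ y
                · exact hz' ⟨hz, hzy⟩
                · exact hA (Finset.mem_sdiff.2 ⟨hz, hzy⟩)
              · by_cases hzx : z ∈ x
                · exact hz' ⟨hzx, hz⟩
                · exact hB (Finset.mem_sdiff.2 ⟨hz, hzx⟩)
            have hcard := Finset.card_le_card hsub
            rw [Finset.card_insert_of_notMem (fun hz => hvO.2 (Finset.mem_sdiff.1 hz).1)] at hcard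
            have hc3 := Finset.card_sdiff_add_card_eq_card
              (show (x ∩ y) \ w ⊆ x ∪ y from
                Finset.sdiff_subset.trans (Finset.inter_subset_left.trans
                  Finset.subset_union_left))
            omega
          refine CaseA4.viaC h hi hs his hg hV1 hV2 hV (by omega) (by omega)
            ⟨ya, Finset.mem_union_left _ hya, hB hya⟩
            ⟨xa, Finset.mem_union_left _ hxa, hA hxa⟩
            ⟨v, hvw, Or.inl (Finset.mem_union_right _ hv)⟩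
      · obtain ⟨e, he, hew⟩ := Finset.not_subset.1 hxw
        have hey : e ∈ y := by
          by_contra hey
          exact hew (hA (Finset.mem_sdiff.2 ⟨he, hey⟩))
        obtain ⟨b, hb, hbw⟩ := Finset.not_subset.1 hB
        obtain ⟨U1, U2, hU1, hU2, hU, hc1, hc2, -, hE2⟩ := CaseA4.split
          (E1 := ∅) (E2 := {e}) (I := x ∩ y) (m := m)
          (Finset.empty_subset _) (Finset.singleton_subset_iff.2 (Finset.mem_inter.2 ⟨he, hey⟩))
          (Finset.disjoint_empty_left _) (by simp)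
          (by rw [Finset.card_singleton]; omega) hI2
        exact CaseA4.viaI h hi hs his hg hU1 hU2 hU (by omega) (by omega)
          ⟨e, Finset.mem_union_right _ (hE2 (Finset.mem_singleton_self _)), hew⟩
          ⟨b, Finset.mem_union_left _ hb, hbw⟩
          ⟨xa, hA hxa, Or.inl (Finset.mem_union_left _ hxa)⟩
    · obtain ⟨a, ha, haw⟩ := Finset.not_subset.1 hA
      by_cases hB : y \ x ⊆ w
      · obtain ⟨e, he, hew⟩ := Finset.not_subset.1 hyw
        have hex : e ∈ x := by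
          by_contra hex
          exact hew (hB (Finset.mem_sdiff.2 ⟨he, hex⟩))
        obtain ⟨U1, U2, hU1, hU2, hU, hc1, hc2, hE1, -⟩ := CaseA4.split
          (E1 := {e}) (E2 := ∅) (I := x ∩ y) (m := m)
          (Finset.singleton_subset_iff.2 (Finset.mem_inter.2 ⟨hex, he⟩)) (Finset.empty_subset _)
          (Finset.disjoint_empty_right _) (by rw [Finset.card_singleton]; omega) (by simp) hI2
        exact CaseA4.viaI h hi hs his hg hU1 hU2 hU (by omega) (by omega)
          ⟨a, Finset.mem_union_left _ ha, haw⟩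
          ⟨e, Finset.mem_union_right _ (hE1 (Finset.mem_singleton_self _)), hew⟩
          ⟨ya, hB hya, Or.inr (Finset.mem_union_left _ hya)⟩
      · obtain ⟨b, hb, hbw⟩ := Finset.not_subset.1 hB
        obtain ⟨z, hzw, hz⟩ := hcase
        by_cases hzI : z ∈ x ∩ y
        · obtain ⟨U1, U2, hU1, hU2, hU, hc1, hc2, -, hE2⟩ := CaseA4.split
            (E1 := ∅) (E2 := {z}) (I := x ∩ y) (m := m)
            (Finset.empty_subset _) (Finset.singleton_subset_iff.2 hzI)
            (Finset.disjoint_empty_left _) (by simp)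
            (by rw [Finset.card_singleton]; omega) hI2
          exact CaseA4.viaI h hi hs his hg hU1 hU2 hU (by omega) (by omega)
            ⟨a, Finset.mem_union_left _ ha, haw⟩
            ⟨b, Finset.mem_union_left _ hb, hbw⟩
            ⟨z, hzw, Or.inl (Finset.mem_union_right _ (hE2 (Finset.mem_singleton_self _)))⟩
        · obtain ⟨U1, U2, hU1, hU2, hU, hc1, hc2, -, -⟩ := CaseA4.split
            (E1 := ∅) (E2 := ∅) (I := x ∩ y) (m := m)
            (Finset.empty_subset _) (Finset.empty_subset _) (Finset.disjoint_empty_left _)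
            (by simp) (by simp) hI2
          refine CaseA4.viaI h hi hs his hg hU1 hU2 hU (by omega) (by omega)
            ⟨a, Finset.mem_union_left _ ha, haw⟩
            ⟨b, Finset.mem_union_left _ hb, hbw⟩
            ⟨z, hzw, ?_⟩
          rw [Finset.mem_inter, not_and] at hzI
          rcases Finset.mem_union.1 hz with hz | hz
          · exact Or.inl (Finset.mem_union_left _ (Finset.mem_sdiff.2 ⟨hz, hzI hz⟩))
          · exact Or.inr (Finset.mem_union_left _
              (Finset.mem_sdiff.2 ⟨hz, fun hzx => hzI hzx hz⟩))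
  · -- case 1
    push Not at hcase
    have hw1 : 1 < w.card := by omega
    obtain ⟨a, ha, b, hb, hab⟩ := Finset.one_lt_card.1 hw1
    have haO : a ∈ N \ (x ∪ y) := Finset.mem_sdiff.2 ⟨h.hw.1 ha, hcase a ha⟩
    have hbO : b ∈ N \ (x ∪ y) := Finset.mem_sdiff.2 ⟨h.hw.1 hb, hcase b hb⟩
    obtain ⟨V1, V2, hV1, hV2, hV, hc1, hc2, hE1, hE2⟩ := CaseA4.split
      (E1 := {a}) (E2 := {b}) (I := N \ (x ∪ y)) (m := m)
      (Finset.singleton_subset_iff.2 haO) (Finset.singleton_subset_iff.2 hbO)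
      (by simpa using hab) (by rw [Finset.card_singleton]; omega)
      (by rw [Finset.card_singleton]; omega) hO2
    exact CaseA4.viaC h hi hs his hg hV1 hV2 hV (by omega) (by omega)
      ⟨b, Finset.mem_union_right _ (hE2 (Finset.mem_singleton_self _)), hb⟩
      ⟨a, Finset.mem_union_right _ (hE1 (Finset.mem_singleton_self _)), ha⟩
      ⟨ya, fun hyaw => hcase ya hyaw (Finset.mem_union_right _ (Finset.mem_sdiff.1 hya).1),
        Or.inl (Finset.mem_union_left _ hya)⟩

end Pool.Agent.H4.Joh
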