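import Pool.Agent.H4.Joh.Glue
import Pool.Agent.H4.Joh.ConnI
import Pool.Agent.H4.Joh.SymA

/-!
# Region A, close pairs, `i = s = t + 1`, covering triples

JOB.  `r = 2t + 1`, `|N| = 4t + 2`, `γ = |x \ y| ≤ t - 1`, `x ∪ y ∪ w = N`, `x ∩ y ∩ w = ∅`.
So `|x ∩ y| = r - γ ≥ t` (all outside `w`), `|w \ (x ∪ y)| = |N| - |x ∪ y| = 4t + 2 - (2t + 1 + γ)
= 2t + 1 - γ ≥ t`.  Since `|w| = 2t + 1 > 2t + 1 - γ`, `w` meets `x ∪ y`, say (by symmetry, `SymA`)
`f ∈ (x ∩ w) \ y` (it is not in `x ∩ y ∩ w`).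
`p = {f} ∪ A ∪ B` with `A ⊆ x ∩ y`, `|A| = t`, `B ⊆ w \ (x ∪ y)`, `|B| = t`; `|p| = 2t + 1 = r`,
`|p ∩ w| = 1 + t = i`, `|p ∩ x| = 1 + t = i`, `|p ∩ y| = t ≠ i`.  `Z = p ∩ x = {f} ∪ A`.
`glue` with `P = {x, p}`, `Q = {y} ∪ Itv ∅ Z`: `w → p → x`; `w` has a neighbour in `Itv ∅ Z`
(`|Z ∩ w| = 1 ≤ t`, `|Z \ w| = t ≤ s`), `y` has one (`|Z ∩ y| = t`, `|Z \ y| = 1 ≤ s`),
`Itv ∅ Z` is connected (`t + 1 ≤ s`, `t + 2 ≤ i + s`).  Separation: `x, p ⊇ Z`, `|Z| = t + 1`:
intersections with members of `Itv ∅ Z` have at most `i - 1` elements.  `w ∉ Itv ∅ Z` as `f ∈ w`.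
-/

namespace Pool.Agent.H4.Joh

variable {α : Type*} [DecidableEq α] {N x y w : Finset α} {t : ℕ}

private theorem caseA4c_sep {i t : ℕ} {A B Z : Finset α} (hA : A.card = i + t) (hZ : Z ⊆ A)
    (hB : Disjoint B Z) (hc : t + 1 ≤ Z.card) : A ≠ B ∧ (A ∩ B).card ≠ i := by
  have h1 : (A ∩ B) ∪ Z ⊆ A := Finset.union_subset Finset.inter_subset_left hZ
  have h2 : Disjoint (A ∩ B) Z := hB.mono_left Finset.inter_subset_right
  have h3 := Finset.card_le_card h1
  rw [Finset.card_union_of_disjoint h2] at h3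
  refine ⟨fun e => ?_, by omega⟩
  rw [e, Finset.inter_self] at h3
  rw [e] at hA
  omega

private theorem caseA4c_aux (h : Cfg N (t + 1) (t + 1) t x y w)
    (hg : (x \ y).card + 1 ≤ t) (hD : x ∩ y ∩ w = ∅) (hO : N ⊆ x ∪ y ∪ w) {f : α}
    (hfx : f ∈ x) (hfw : f ∈ w) (hfy : f ∉ y) :
    IndPath N (t + 1) t x y w := by
  have ht := h.t1
  have hxc := h.hx.2
  have hyc := h.hy.2
  have hwc := h.hw.2
  have hNc := h.cN
  have k1 : (x \ y).card + (x ∩ y).card = x.card := Finset.card_sdiff_add_card_inter x y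
  have k2 : (x ∪ y).card + (x ∩ y).card = x.card + y.card := Finset.card_union_add_card_inter x y
  have k5 : N.card ≤ (x ∪ y).card + (w \ (x ∪ y)).card := by
    rw [← Finset.card_union_of_disjoint Finset.disjoint_sdiff, Finset.union_sdiff_self_eq_union]
    exact Finset.card_le_card hO
  obtain ⟨A, hA, hAc⟩ := Finset.exists_subset_card_eq (s := x ∩ y) (n := t) (by omega)
  obtain ⟨B, hB, hBc⟩ := Finset.exists_subset_card_eq (s := w \ (x ∪ y)) (n := t) (by omega)
  have hAx : ∀ e ∈ A, e ∈ x := fun e he => (Finset.mem_inter.1 (hA he)).1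
  have hAy : ∀ e ∈ A, e ∈ y := fun e he => (Finset.mem_inter.1 (hA he)).2
  have hAw : ∀ e ∈ A, e ∉ w := by
    intro e he hew
    have h3 : e ∈ x ∩ y ∩ w := Finset.mem_inter.2 ⟨hA he, hew⟩
    rw [hD] at h3
    exact Finset.notMem_empty e h3
  have hBw : ∀ e ∈ B, e ∈ w := fun e he => (Finset.mem_sdiff.1 (hB he)).1
  have hBx : ∀ e ∈ B, e ∉ x := fun e he hx =>
    (Finset.mem_sdiff.1 (hB he)).2 (Finset.mem_union_left _ hx)
  have hBy : ∀ e ∈ B, e ∉ y := fun e he hy =>
    (Finset.mem_sdiff.1 (hB he)).2 (Finset.mem_union_right _ hy)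
  have hfA : f ∉ A := fun h' => hAw f h' hfw
  have hfB : f ∉ B := fun h' => hBx f h' hfx
  have hAB : Disjoint A B := by
    rw [Finset.disjoint_left]
    intro e he he'
    exact hBx e he' (hAx e he)
  set p : Finset α := insert f (A ∪ B) with hp
  have hpc : p.card = t + 1 + t := by
    rw [hp, Finset.card_insert_of_notMem (by rw [Finset.mem_union]; tauto),
      Finset.card_union_of_disjoint hAB]
    omega
  have hpN : p ⊆ N := by
    intro e he
    rw [hp, Finset.mem_insert, Finset.mem_union] at he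
    rcases he with rfl | he | he
    · exact h.hx.1 hfx
    · exact h.hx.1 (hAx e he)
    · exact h.hw.1 (hBw e he)
  have hpw : w ∩ p = insert f B := by
    ext e
    rw [hp, Finset.mem_inter, Finset.mem_insert, Finset.mem_union, Finset.mem_insert]
    constructor
    · rintro ⟨h3, h4 | h4 | h4⟩
      · exact Or.inl h4
      · exact absurd h3 (hAw e h4)
      · exact Or.inr h4
    · rintro (rfl | h4)
      · exact ⟨hfw, Or.inl rfl⟩
      · exact ⟨hBw e h4, Or.inr (Or.inr h4)⟩
  have hpx : p ∩ x = insert f A := by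
    ext e
    rw [hp, Finset.mem_inter, Finset.mem_insert, Finset.mem_union, Finset.mem_insert]
    constructor
    · rintro ⟨h4 | h4 | h4, h3⟩
      · exact Or.inl h4
      · exact Or.inr h4
      · exact absurd h3 (hBx e h4)
    · rintro (rfl | h4)
      · exact ⟨Or.inl rfl, hfx⟩
      · exact ⟨Or.inr (Or.inl h4), hAx e h4⟩
  have hpy : p ∩ y = A := by
    ext e
    rw [hp, Finset.mem_inter, Finset.mem_insert, Finset.mem_union]
    constructor
    · rintro ⟨h4 | h4 | h4, h3⟩
      · exact absurd (h4 ▸ h3) hfy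
      · exact h4
      · exact absurd h3 (hBy e h4)
    · intro h4
      exact ⟨Or.inr (Or.inl h4), hAy e h4⟩
  have hZc : (insert f A).card = t + 1 := by
    rw [Finset.card_insert_of_notMem hfA]
    omega
  have hZx : insert f A ⊆ x := Finset.insert_subset hfx fun e he => hAx e he
  have hZp : insert f A ⊆ p := by
    rw [← hpx]
    exact Finset.inter_subset_left
  have hZN : insert f A ⊆ N := hZx.trans h.hx.1
  have hE : (∅ : Finset α) ⊆ N := Finset.empty_subset N
  have hpw' : (w ∩ p).card = t + 1 := by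
    rw [hpw, Finset.card_insert_of_notMem hfB]
    omega
  refine glue h {x, p} (insert y (Itv N (t + 1) t ∅ (insert f A))) ?_ ?_ ?_ ?_ ?_ ?_ ?_
  · rintro C (rfl | rfl)
    · exact h.hx
    · exact ⟨hpN, hpc⟩
  · rintro C (rfl | hC)
    · exact h.hy
    · exact hC.1
  · rintro (h3 | h3)
    · exact h.wx h3
    · rw [← h3, Finset.inter_self] at hpw'
      omega
  · rintro (h3 | h3)
    · exact h.wy h3
    · exact Finset.disjoint_left.1 h3.2.2 hfw (Finset.mem_insert_self f A)
  · rintro C hC E (rfl | hE')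
    · rcases hC with rfl | rfl
      · exact ⟨h.xy, h.nadj⟩
      · refine ⟨fun e => hfy ?_, by rw [hpy]; omega⟩
        rw [← e]
        exact Finset.mem_insert_self f _
    · have hZC : insert f A ⊆ C := by
        rcases hC with rfl | rfl
        · exact hZx
        · exact hZp
      have hCc : C.card = t + 1 + t := by
        rcases hC with rfl | rfl
        · exact hxc
        · exact hpc
      exact caseA4c_sep hCc hZC hE'.2.2 (by omega)
  · have r1 : Reach (t + 1) ({x, p} : Set (Finset α)) w p :=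
      Relation.ReflTransGen.single ⟨hpw', Or.inr rfl⟩
    exact Relation.ReflTransGen.tail r1 ⟨by rw [hpx]; exact hZc, Or.inl rfl⟩
  · apply reach_via
    · intro C hC E hE'
      exact itv_reach h.cN h.t1 hE hZN (Finset.disjoint_empty_left _) (by simp) (by omega)
        (Or.inl (by rw [Finset.card_empty]; omega)) hC hE'
    · refine nbr_itv h.cN h.hw hE hZN (Finset.disjoint_empty_left _) (by simp) (by simp) ?_
        (by have := Finset.card_le_card (Finset.sdiff_subset (s := insert f A) (t := w)); omega)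
      have h3 : insert f A ∩ w ⊆ {f} := by
        intro a ha
        rw [Finset.mem_inter, Finset.mem_insert] at ha
        rw [Finset.mem_singleton]
        rcases ha.1 with h4 | h4
        · exact h4
        · exact absurd ha.2 (hAw a h4)
      have h4 := Finset.card_le_card h3
      rw [Finset.card_singleton] at h4
      omega
    · right
      refine nbr_itv h.cN h.hy hE hZN (Finset.disjoint_empty_left _) (by simp) (by simp) ?_
        (by have := Finset.card_le_card (Finset.sdiff_subset (s := insert f A) (t := y)); omega)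
      have h3 : insert f A ∩ y ⊆ A := by
        intro a ha
        rw [Finset.mem_inter, Finset.mem_insert] at ha
        rcases ha.1 with h4 | h4
        · exact absurd (h4 ▸ ha.2) hfy
        · exact h4
      have h4 := Finset.card_le_card h3
      omega

theorem caseA4c (h : Cfg N (t + 1) (t + 1) t x y w)
    (hg : (x \ y).card + 1 ≤ t) (hD : x ∩ y ∩ w = ∅) (hO : N ⊆ x ∪ y ∪ w) :
    IndPath N (t + 1) t x y w := by
  have hxc := h.hx.2
  have hyc := h.hy.2
  have hwc := h.hw.2
  have hNc := h.cN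
  have hg1 : 1 ≤ (x \ y).card := by
    rw [Nat.one_le_iff_ne_zero]
    intro h0
    rw [Finset.card_eq_zero, Finset.sdiff_eq_empty_iff_subset] at h0
    exact h.xy (Finset.eq_of_subset_of_card_le h0 (by omega))
  have k1 : (x \ y).card + (x ∩ y).card = x.card := Finset.card_sdiff_add_card_inter x y
  have k1' : (y \ x).card + (y ∩ x).card = y.card := Finset.card_sdiff_add_card_inter y x
  rw [Finset.inter_comm y x] at k1'
  have k2 : (x ∪ y).card + (x ∩ y).card = x.card + y.card := Finset.card_union_add_card_inter x y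
  have k3 : (w \ (x ∪ y)).card + (w ∩ (x ∪ y)).card = w.card :=
    Finset.card_sdiff_add_card_inter w (x ∪ y)
  have k5 : (x ∪ y).card + (w \ (x ∪ y)).card ≤ N.card := by
    rw [← Finset.card_union_of_disjoint Finset.disjoint_sdiff]
    exact Finset.card_le_card (Finset.union_subset (Finset.union_subset h.hx.1 h.hy.1)
      (Finset.sdiff_subset.trans h.hw.1))
  obtain ⟨f, hf⟩ : (w ∩ (x ∪ y)).Nonempty := Finset.card_pos.1 (by omega)
  rw [Finset.mem_inter, Finset.mem_union] at hf
  obtain ⟨hfw, hf⟩ := hf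
  have hno : ¬ (f ∈ x ∧ f ∈ y) := by
    rintro ⟨h3, h4⟩
    have h5 : f ∈ x ∩ y ∩ w := Finset.mem_inter.2 ⟨Finset.mem_inter.2 ⟨h3, h4⟩, hfw⟩
    rw [hD] at h5
    exact Finset.notMem_empty f h5
  rcases hf with hfx | hfy
  · exact caseA4c_aux h hg hD hO hfx hfw fun hfy => hno ⟨hfx, hfy⟩
  · apply IndPath.swap
    refine caseA4c_aux h.swap (by omega) ?_ ?_ hfy hfw fun hfx => hno ⟨hfx, hfy⟩
    · rw [Finset.inter_comm y x]
      exact hD
    · rw [Finset.union_comm y x]
      exact hO

end Pool.Agent.H4.Joh
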