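import Pool.Agent.H4.Joh.Glue

/-!
# Case B1ex: `x`, `y`, `w` pairwise disjoint, `t = 2i` (explicit seven-vertex path)

JOB.  `r = 3i`.  Choose disjoint `V1, V2 ⊆ w` of size `i`, `Px ⊆ x`, `Py ⊆ y` of size `2i`,
`X1 ⊆ Px`, `Y1 ⊆ Py` of size `i`, and `p1 = V1 ∪ Px`, `q1 = V2 ∪ Py`, `p2 = X1 ∪ Py`,
`q2 = Y1 ∪ Px` (all of size `3i`).  `glue` with `P = {x, p1, p2}`, `Q = {y, q1, q2}`:
`w → p1 → p2 → x` (`V1`; `p1 ∩ p2 = X1`; `p2 ∩ x = X1`), `w → q1 → q2 → y`.
Separation: `x ∩ q1 = ∅`, `x ∩ q2 = Px` (`2i`), `p1 ∩ q1 = ∅`, `p1 ∩ q2 = Px`, `p1 ∩ y = ∅`,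
`p2 ∩ q1 = Py`, `p2 ∩ q2 = X1 ∪ Y1` (`2i`), `p2 ∩ y = Py`; `i ≥ 1`; all these sizes are `≠ i` and
`≠ 3i`, so the sets are distinct and non-adjacent; `w` is different from `p1, p2, q1, q2` since it
meets them in at most `i < 3i` elements.
-/

namespace Pool.Agent.H4.Joh

variable {α : Type*} [DecidableEq α] {N x y w : Finset α} {i s : ℕ}

theorem caseB1ex (h : Cfg N i s (2 * i) x y w) (hi : 1 ≤ i)
    (hxy : x ∩ y = ∅) (hxw : x ∩ w = ∅) (hyw : y ∩ w = ∅) : IndPath N i (2 * i) x y w := by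
  have hx := h.hx.2
  have hy := h.hy.2
  have hw := h.hw.2
  obtain ⟨V1, hV1, hV1c⟩ := Finset.exists_subset_card_eq (show i ≤ w.card by omega)
  obtain ⟨V2, hV2, hV2c⟩ := Finset.exists_subset_card_eq (show i ≤ (w \ V1).card by
    rw [Finset.card_sdiff_of_subset hV1]; omega)
  obtain ⟨Px, hPx, hPxc⟩ := Finset.exists_subset_card_eq (show 2 * i ≤ x.card by omega)
  obtain ⟨Py, hPy, hPyc⟩ := Finset.exists_subset_card_eq (show 2 * i ≤ y.card by omega)
  obtain ⟨X1, hX1, hX1c⟩ := Finset.exists_subset_card_eq (show i ≤ Px.card by omega)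
  obtain ⟨Y1, hY1, hY1c⟩ := Finset.exists_subset_card_eq (show i ≤ Py.card by omega)
  have exy : ∀ a, a ∈ x → a ∉ y := fun a h1 h2 => by
    have : a ∈ x ∩ y := Finset.mem_inter.2 ⟨h1, h2⟩
    rw [hxy] at this
    exact absurd this (Finset.notMem_empty a)
  have exw : ∀ a, a ∈ x → a ∉ w := fun a h1 h2 => by
    have : a ∈ x ∩ w := Finset.mem_inter.2 ⟨h1, h2⟩
    rw [hxw] at this
    exact absurd this (Finset.notMem_empty a)
  have eyw : ∀ a, a ∈ y → a ∉ w := fun a h1 h2 => by
    have : a ∈ y ∩ w := Finset.mem_inter.2 ⟨h1, h2⟩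
    rw [hyw] at this
    exact absurd this (Finset.notMem_empty a)
  have eV1 : ∀ a, a ∈ V1 → a ∈ w := fun a ha => hV1 ha
  have eV2 : ∀ a, a ∈ V2 → a ∈ w ∧ a ∉ V1 := fun a ha => Finset.mem_sdiff.1 (hV2 ha)
  have ePx : ∀ a, a ∈ Px → a ∈ x := fun a ha => hPx ha
  have ePy : ∀ a, a ∈ Py → a ∈ y := fun a ha => hPy ha
  have eX1 : ∀ a, a ∈ X1 → a ∈ Px := fun a ha => hX1 ha
  have eY1 : ∀ a, a ∈ Y1 → a ∈ Py := fun a ha => hY1 ha
  have hxN : x ⊆ N := h.hx.1
  have hyN : y ⊆ N := h.hy.1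
  have hwN : w ⊆ N := h.hw.1
  -- pairwise intersections of the pieces
  have D : ∀ (A' B' A B : Finset α), A' ∩ B' = ∅ → A ⊆ A' → B ⊆ B' → A ∩ B = ∅ := by
    intro A' B' A B h0 h1 h2
    rw [← Finset.subset_empty, ← h0]
    exact Finset.inter_subset_inter h1 h2
  have hyx : y ∩ x = ∅ := by rw [Finset.inter_comm]; exact hxy
  have hwx : w ∩ x = ∅ := by rw [Finset.inter_comm]; exact hxw
  have hwy : w ∩ y = ∅ := by rw [Finset.inter_comm]; exact hyw
  have hV2w : V2 ⊆ w := hV2.trans Finset.sdiff_subset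
  have hX1x : X1 ⊆ x := hX1.trans hPx
  have hY1y : Y1 ⊆ y := hY1.trans hPy
  have hV12 : V1 ∩ V2 = ∅ := by
    rw [Finset.eq_empty_iff_forall_notMem]
    intro a ha
    rw [Finset.mem_inter] at ha
    exact (eV2 a ha.2).2 ha.1
  have m1 := Finset.inter_eq_right.2 hV1
  have m2 := Finset.inter_eq_right.2 hV2w
  have m3 := D w x w Px hwx subset_rfl hPx
  have m4 := D w y w Py hwy subset_rfl hPy
  have m5 := D w x w X1 hwx subset_rfl hX1x
  have m6 := D w y w Y1 hwy subset_rfl hY1y
  have m7 := D w x V1 X1 hwx hV1 hX1x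
  have m8 := D w y V1 Py hwy hV1 hPy
  have m9 := Finset.inter_eq_right.2 hX1
  have m10 := D x y Px Py hxy hPx hPy
  have m11 := Finset.inter_eq_left.2 hX1x
  have m12 := D y x Py x hyx hPy subset_rfl
  have m13 := D w y V2 Y1 hwy hV2w hY1y
  have m14 := D w x V2 Px hwx hV2w hPx
  have m15 := Finset.inter_eq_right.2 hY1
  have m16 := D y x Py Px hyx hPy hPx
  have m17 := Finset.inter_eq_left.2 hY1y
  have m18 := D x y Px y hxy hPx subset_rfl
  have m19 := D x w x V2 hxw subset_rfl hV2w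
  have m20 := D x y x Py hxy subset_rfl hPy
  have m21 := D x y x Y1 hxy subset_rfl hY1y
  have m22 := Finset.inter_eq_right.2 hPx
  have m23 := D w y V1 y hwy hV1 subset_rfl
  have m24 := D x w Px V2 hxw hPx hV2w
  have m25 := D w y V1 Y1 hwy hV1 hY1y
  have m26 := D w x V1 Px hwx hV1 hPx
  have m27 := D x y Px Y1 hxy hPx hY1y
  have m28 := D x y X1 y hxy hX1x subset_rfl
  have m29 := Finset.inter_eq_left.2 hPy
  have m30 := D x w X1 V2 hxw hX1x hV2w
  have m31 := D x y X1 Py hxy hX1x hPy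
  have m32 := D y w Py V2 hyw hPy hV2w
  have m33 := D x y X1 Y1 hxy hX1x hY1y
  have m34 := Finset.inter_eq_left.2 hX1
  -- a disjoint union of two sets
  have hun : ∀ A B : Finset α, (∀ a, a ∈ A → a ∉ B) → (A ∪ B).card = A.card + B.card := by
    intro A B hAB
    exact Finset.card_union_of_disjoint (Finset.disjoint_left.2 (fun a ha => hAB a ha))
  -- members
  have vp1 : Vtx N i (2 * i) (V1 ∪ Px) := by
    refine ⟨Finset.union_subset (hV1.trans hwN) (hPx.trans hxN), ?_⟩
    rw [hun _ _ (fun a h1 h2 => exw a (ePx a h2) (eV1 a h1))]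
    omega
  have vq1 : Vtx N i (2 * i) (V2 ∪ Py) := by
    refine ⟨Finset.union_subset ((hV2.trans Finset.sdiff_subset).trans hwN) (hPy.trans hyN), ?_⟩
    rw [hun _ _ (fun a h1 h2 => eyw a (ePy a h2) (eV2 a h1).1)]
    omega
  have vp2 : Vtx N i (2 * i) (X1 ∪ Py) := by
    refine ⟨Finset.union_subset ((hX1.trans hPx).trans hxN) (hPy.trans hyN), ?_⟩
    rw [hun _ _ (fun a h1 h2 => exy a (ePx a (eX1 a h1)) (ePy a h2))]
    omega
  have vq2 : Vtx N i (2 * i) (Y1 ∪ Px) := by
    refine ⟨Finset.union_subset ((hY1.trans hPy).trans hyN) (hPx.trans hxN), ?_⟩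
    rw [hun _ _ (fun a h1 h2 => exy a (ePx a h2) (ePy a (eY1 a h1)))]
    omega
  -- intersections
  have i1 : (w ∩ (V1 ∪ Px)).card = i := by
    rw [show w ∩ (V1 ∪ Px) = V1 by
      simp only [Finset.union_inter_distrib_right, Finset.inter_union_distrib_left,
        Finset.inter_self, Finset.union_empty, Finset.empty_union, hV12,
        m1, m2, m3, m4, m5, m6, m7, m8, m9, m10, m11, m12, m13, m14, m15, m16, m17,
        m18, m19, m20, m21, m22, m23, m24, m25, m26, m27, m28, m29, m30, m31, m32, m33, m34]]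
    exact hV1c
  have i2 : ((V1 ∪ Px) ∩ (X1 ∪ Py)).card = i := by
    rw [show (V1 ∪ Px) ∩ (X1 ∪ Py) = X1 by
      simp only [Finset.union_inter_distrib_right, Finset.inter_union_distrib_left,
        Finset.inter_self, Finset.union_empty, Finset.empty_union, hV12,
        m1, m2, m3, m4, m5, m6, m7, m8, m9, m10, m11, m12, m13, m14, m15, m16, m17,
        m18, m19, m20, m21, m22, m23, m24, m25, m26, m27, m28, m29, m30, m31, m32, m33, m34]]
    exact hX1c
  have i3 : ((X1 ∪ Py) ∩ x).card = i := by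
    rw [show (X1 ∪ Py) ∩ x = X1 by
      simp only [Finset.union_inter_distrib_right, Finset.inter_union_distrib_left,
        Finset.inter_self, Finset.union_empty, Finset.empty_union, hV12,
        m1, m2, m3, m4, m5, m6, m7, m8, m9, m10, m11, m12, m13, m14, m15, m16, m17,
        m18, m19, m20, m21, m22, m23, m24, m25, m26, m27, m28, m29, m30, m31, m32, m33, m34]]
    exact hX1c
  have j1 : (w ∩ (V2 ∪ Py)).card = i := by
    rw [show w ∩ (V2 ∪ Py) = V2 by
      simp only [Finset.union_inter_distrib_right, Finset.inter_union_distrib_left,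
        Finset.inter_self, Finset.union_empty, Finset.empty_union, hV12,
        m1, m2, m3, m4, m5, m6, m7, m8, m9, m10, m11, m12, m13, m14, m15, m16, m17,
        m18, m19, m20, m21, m22, m23, m24, m25, m26, m27, m28, m29, m30, m31, m32, m33, m34]]
    exact hV2c
  have j2 : ((V2 ∪ Py) ∩ (Y1 ∪ Px)).card = i := by
    rw [show (V2 ∪ Py) ∩ (Y1 ∪ Px) = Y1 by
      simp only [Finset.union_inter_distrib_right, Finset.inter_union_distrib_left,
        Finset.inter_self, Finset.union_empty, Finset.empty_union, hV12,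
        m1, m2, m3, m4, m5, m6, m7, m8, m9, m10, m11, m12, m13, m14, m15, m16, m17,
        m18, m19, m20, m21, m22, m23, m24, m25, m26, m27, m28, m29, m30, m31, m32, m33, m34]]
    exact hY1c
  have j3 : ((Y1 ∪ Px) ∩ y).card = i := by
    rw [show (Y1 ∪ Px) ∩ y = Y1 by
      simp only [Finset.union_inter_distrib_right, Finset.inter_union_distrib_left,
        Finset.inter_self, Finset.union_empty, Finset.empty_union, hV12,
        m1, m2, m3, m4, m5, m6, m7, m8, m9, m10, m11, m12, m13, m14, m15, m16, m17,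
        m18, m19, m20, m21, m22, m23, m24, m25, m26, m27, m28, m29, m30, m31, m32, m33, m34]]
    exact hY1c
  -- separated pairs
  have hsep : ∀ A B : Finset α, A.card = i + 2 * i → B.card = i + 2 * i →
      ((A ∩ B).card = 0 ∨ (A ∩ B).card = 2 * i) → A ≠ B ∧ (A ∩ B).card ≠ i := by
    intro A B hA hB hAB
    constructor
    · rintro rfl
      rw [Finset.inter_self] at hAB
      omega
    · omega
  have s1 : (x ∩ (V2 ∪ Py)).card = 0 := by
    rw [show x ∩ (V2 ∪ Py) = ∅ by
      simp only [Finset.union_inter_distrib_right, Finset.inter_union_distrib_left,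
        Finset.inter_self, Finset.union_empty, Finset.empty_union, hV12,
        m1, m2, m3, m4, m5, m6, m7, m8, m9, m10, m11, m12, m13, m14, m15, m16, m17,
        m18, m19, m20, m21, m22, m23, m24, m25, m26, m27, m28, m29, m30, m31, m32, m33, m34]]
    rfl
  have s2 : (x ∩ (Y1 ∪ Px)).card = 2 * i := by
    rw [show x ∩ (Y1 ∪ Px) = Px by
      simp only [Finset.union_inter_distrib_right, Finset.inter_union_distrib_left,
        Finset.inter_self, Finset.union_empty, Finset.empty_union, hV12,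
        m1, m2, m3, m4, m5, m6, m7, m8, m9, m10, m11, m12, m13, m14, m15, m16, m17,
        m18, m19, m20, m21, m22, m23, m24, m25, m26, m27, m28, m29, m30, m31, m32, m33, m34]]
    exact hPxc
  have s3 : ((V1 ∪ Px) ∩ y).card = 0 := by
    rw [show (V1 ∪ Px) ∩ y = ∅ by
      simp only [Finset.union_inter_distrib_right, Finset.inter_union_distrib_left,
        Finset.inter_self, Finset.union_empty, Finset.empty_union, hV12,
        m1, m2, m3, m4, m5, m6, m7, m8, m9, m10, m11, m12, m13, m14, m15, m16, m17,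
        m18, m19, m20, m21, m22, m23, m24, m25, m26, m27, m28, m29, m30, m31, m32, m33, m34]]
    rfl
  have s4 : ((V1 ∪ Px) ∩ (V2 ∪ Py)).card = 0 := by
    rw [show (V1 ∪ Px) ∩ (V2 ∪ Py) = ∅ by
      simp only [Finset.union_inter_distrib_right, Finset.inter_union_distrib_left,
        Finset.inter_self, Finset.union_empty, Finset.empty_union, hV12,
        m1, m2, m3, m4, m5, m6, m7, m8, m9, m10, m11, m12, m13, m14, m15, m16, m17,
        m18, m19, m20, m21, m22, m23, m24, m25, m26, m27, m28, m29, m30, m31, m32, m33, m34]]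
    rfl
  have s5 : ((V1 ∪ Px) ∩ (Y1 ∪ Px)).card = 2 * i := by
    rw [show (V1 ∪ Px) ∩ (Y1 ∪ Px) = Px by
      simp only [Finset.union_inter_distrib_right, Finset.inter_union_distrib_left,
        Finset.inter_self, Finset.union_empty, Finset.empty_union, hV12,
        m1, m2, m3, m4, m5, m6, m7, m8, m9, m10, m11, m12, m13, m14, m15, m16, m17,
        m18, m19, m20, m21, m22, m23, m24, m25, m26, m27, m28, m29, m30, m31, m32, m33, m34]]
    exact hPxc
  have s6 : ((X1 ∪ Py) ∩ y).card = 2 * i := by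
    rw [show (X1 ∪ Py) ∩ y = Py by
      simp only [Finset.union_inter_distrib_right, Finset.inter_union_distrib_left,
        Finset.inter_self, Finset.union_empty, Finset.empty_union, hV12,
        m1, m2, m3, m4, m5, m6, m7, m8, m9, m10, m11, m12, m13, m14, m15, m16, m17,
        m18, m19, m20, m21, m22, m23, m24, m25, m26, m27, m28, m29, m30, m31, m32, m33, m34]]
    exact hPyc
  have s7 : ((X1 ∪ Py) ∩ (V2 ∪ Py)).card = 2 * i := by
    rw [show (X1 ∪ Py) ∩ (V2 ∪ Py) = Py by
      simp only [Finset.union_inter_distrib_right, Finset.inter_union_distrib_left,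
        Finset.inter_self, Finset.union_empty, Finset.empty_union, hV12,
        m1, m2, m3, m4, m5, m6, m7, m8, m9, m10, m11, m12, m13, m14, m15, m16, m17,
        m18, m19, m20, m21, m22, m23, m24, m25, m26, m27, m28, m29, m30, m31, m32, m33, m34]]
    exact hPyc
  have s8 : ((X1 ∪ Py) ∩ (Y1 ∪ Px)).card = 2 * i := by
    rw [show (X1 ∪ Py) ∩ (Y1 ∪ Px) = Y1 ∪ X1 by
      simp only [Finset.union_inter_distrib_right, Finset.inter_union_distrib_left,
        Finset.inter_self, Finset.union_empty, Finset.empty_union, hV12,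
        m1, m2, m3, m4, m5, m6, m7, m8, m9, m10, m11, m12, m13, m14, m15, m16, m17,
        m18, m19, m20, m21, m22, m23, m24, m25, m26, m27, m28, m29, m30, m31, m32, m33, m34]]
    rw [hun _ _ (fun a h1 h2 => exy a (ePx a (eX1 a h2)) (ePy a (eY1 a h1)))]
    omega
  -- `w` is different from the new vertices
  have hwne : ∀ B : Finset α, (w ∩ B).card ≤ i → w ≠ B := by
    rintro B hB rfl
    rw [Finset.inter_self] at hB
    omega
  have w1 : (w ∩ (X1 ∪ Py)).card ≤ i := by
    rw [show w ∩ (X1 ∪ Py) = ∅ by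
      simp only [Finset.union_inter_distrib_right, Finset.inter_union_distrib_left,
        Finset.inter_self, Finset.union_empty, Finset.empty_union, hV12,
        m1, m2, m3, m4, m5, m6, m7, m8, m9, m10, m11, m12, m13, m14, m15, m16, m17,
        m18, m19, m20, m21, m22, m23, m24, m25, m26, m27, m28, m29, m30, m31, m32, m33, m34], Finset.card_empty]
    omega
  have w2 : (w ∩ (Y1 ∪ Px)).card ≤ i := by
    rw [show w ∩ (Y1 ∪ Px) = ∅ by
      simp only [Finset.union_inter_distrib_right, Finset.inter_union_distrib_left,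
        Finset.inter_self, Finset.union_empty, Finset.empty_union, hV12,
        m1, m2, m3, m4, m5, m6, m7, m8, m9, m10, m11, m12, m13, m14, m15, m16, m17,
        m18, m19, m20, m21, m22, m23, m24, m25, m26, m27, m28, m29, m30, m31, m32, m33, m34], Finset.card_empty]
    omega
  refine glue h {x, V1 ∪ Px, X1 ∪ Py} {y, V2 ∪ Py, Y1 ∪ Px} ?_ ?_ ?_ ?_ ?_ ?_ ?_
  · rintro A (rfl | rfl | rfl)
    · exact h.hx
    · exact vp1
    · exact vp2
  · rintro A (rfl | rfl | rfl)
    · exact h.hy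
    · exact vq1
    · exact vq2
  · rintro (h1 | h1 | h1)
    · exact h.wx h1
    · exact hwne _ i1.le h1
    · exact hwne _ w1 h1
  · rintro (h1 | h1 | h1)
    · exact h.wy h1
    · exact hwne _ j1.le h1
    · exact hwne _ w2 h1
  · rintro A (rfl | rfl | rfl) B (rfl | rfl | rfl)
    · exact ⟨h.xy, h.nadj⟩
    · exact hsep _ _ hx vq1.2 (Or.inl s1)
    · exact hsep _ _ hx vq2.2 (Or.inr s2)
    · exact hsep _ _ vp1.2 hy (Or.inl s3)
    · exact hsep _ _ vp1.2 vq1.2 (Or.inl s4)
    · exact hsep _ _ vp1.2 vq2.2 (Or.inr s5)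
    · exact hsep _ _ vp2.2 hy (Or.inr s6)
    · exact hsep _ _ vp2.2 vq1.2 (Or.inr s7)
    · exact hsep _ _ vp2.2 vq2.2 (Or.inr s8)
  · refine Relation.ReflTransGen.head ⟨i1, Or.inr (Or.inl rfl)⟩
      (Relation.ReflTransGen.head ⟨i2, Or.inr (Or.inr rfl)⟩
        (Relation.ReflTransGen.single ⟨i3, Or.inl rfl⟩))
  · refine Relation.ReflTransGen.head ⟨j1, Or.inr (Or.inl rfl)⟩
      (Relation.ReflTransGen.head ⟨j2, Or.inr (Or.inr rfl)⟩
        (Relation.ReflTransGen.single ⟨j3, Or.inl rfl⟩))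

end Pool.Agent.H4.Joh
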