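import Pool.Agent.H4.Joh.AdjCase

/-!
# The four-point construction and case C1

JOB.  `kgen`: for `V` of size `i` and four distinct points `z1, z2, u, τ` outside `V` put
`S = Kns V {z1, τ} {z2, u}`, `T = Kns V {z2, τ} {z1, u}`.  Every member of `S` meets every member of
`T` in `V` and one more point (`τ`, `z1`, `z2`, `u` respectively), and no set is in both: even members
of `S` contain `z1, τ` and avoid `z2, u`; odd ones contain `z2, u` and avoid `z1, τ`; even members of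
`T` contain `z2, τ` and avoid `z1, u`; odd ones contain `z1, u` and avoid `z2, τ`.  So `Sep i S T`.
Both are connected (`kns_reach`, `t ≥ 2`, `s ≥ 1`).  `x ∈ S` contains `V` and a point of each ..., so
directly use `glue` with `P = S`, `Q = T` (`x ∈ S`, `y ∈ T`).

`caseC1` (`|(x ∩ y) \ w| ≥ i + 1`, `1 ≤ i < t`): `V ⊆ (x ∩ y) \ w` of size `i`, `u` a further element
of `(x ∩ y) \ w`, `τ ∈ w \ (x ∪ y)`; `z2 ∈ x \ y`, in `w` if possible; `z1 ∈ y \ x`, in `w` if
possible.  `x` is an odd member of `S`, `y` an odd member of `T`.  `w` is in neither (`V ⊄ w`).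
`w` has an odd neighbour in `S` (`nbr_kns` after `kns_symm`): `C' = V ∪ {z2, u}`,
`|C' ∩ w| ≤ 1 ≤ i`, `|C' \ w| ≤ t` (it is `i + 1` if `z2 ∈ w` and `i + 2` otherwise), `D' = {z1, τ}`,
`|D' ∩ w| ≤ 2 ≤ t`, `|D' \ w| ≤ 1 ≤ s`.  Same for `T`.
-/

namespace Pool.Agent.H4.Joh

variable {α : Type*} [DecidableEq α] {N x y w : Finset α} {i s t : ℕ}

private lemma card_ne_of_common {V A B : Finset α} {e : α} (hVi : V.card = i) (heV : e ∉ V)
    (hVA : V ⊆ A) (hVB : V ⊆ B) (heA : e ∈ A) (heB : e ∈ B) : (A ∩ B).card ≠ i := by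
  have h1 : insert e V ⊆ A ∩ B := by
    intro a ha
    rw [Finset.mem_insert] at ha
    rw [Finset.mem_inter]
    rcases ha with rfl | ha
    · exact ⟨heA, heB⟩
    · exact ⟨hVA ha, hVB ha⟩
  have h2 := Finset.card_le_card h1
  rw [Finset.card_insert_of_notMem heV] at h2
  omega

private lemma pair_disj {V : Finset α} {a b : α} (ha : a ∉ V) (hb : b ∉ V) :
    Disjoint V {a, b} := by
  rw [Finset.disjoint_right]
  intro c hc
  rw [Finset.mem_insert, Finset.mem_singleton] at hc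
  rcases hc with rfl | rfl
  · exact ha
  · exact hb

private lemma pair_disj_pair {a b c d : α} (hac : a ≠ c) (had : a ≠ d) (hbc : b ≠ c)
    (hbd : b ≠ d) : Disjoint ({a, b} : Finset α) {c, d} := by
  rw [Finset.disjoint_left]
  intro e he he'
  rw [Finset.mem_insert, Finset.mem_singleton] at he he'
  rcases he with rfl | rfl <;> rcases he' with h | h
  · exact hac h
  · exact had h
  · exact hbc h
  · exact hbd h

private lemma pair_sub {a b : α} (ha : a ∈ N) (hb : b ∈ N) : ({a, b} : Finset α) ⊆ N := by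
  intro c hc
  rw [Finset.mem_insert, Finset.mem_singleton] at hc
  rcases hc with rfl | rfl
  · exact ha
  · exact hb

private lemma itv_mem {V C D A : Finset α} (h : A ∈ Itv N i t (V ∪ C) D) :
    V ⊆ A ∧ (∀ c ∈ C, c ∈ A) ∧ ∀ d ∈ D, d ∉ A :=
  ⟨Finset.subset_union_left.trans h.2.1, fun _ hc => h.2.1 (Finset.mem_union_right _ hc),
    fun _ hd ha => Finset.disjoint_left.1 h.2.2 ha hd⟩

theorem kgen (h : Cfg N i s t x y w) (ht : 2 ≤ t) (hs : 1 ≤ s) {V : Finset α} {z1 z2 u τ : α}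
    (hV : V ⊆ N) (hVi : V.card = i) (hz1 : z1 ∈ N) (hz2 : z2 ∈ N) (hu : u ∈ N) (hτ : τ ∈ N)
    (hz1V : z1 ∉ V) (hz2V : z2 ∉ V) (huV : u ∉ V) (hτV : τ ∉ V)
    (h12 : z1 ≠ z2) (h1u : z1 ≠ u) (h1τ : z1 ≠ τ) (h2u : z2 ≠ u) (h2τ : z2 ≠ τ) (huτ : u ≠ τ)
    (hx : x ∈ Kns N i t V {z1, τ} {z2, u}) (hy : y ∈ Kns N i t V {z2, τ} {z1, u})
    (hwS : w ∉ Kns N i t V {z1, τ} {z2, u}) (hwT : w ∉ Kns N i t V {z2, τ} {z1, u})
    (hwS' : ∃ p ∈ Kns N i t V {z1, τ} {z2, u}, (w ∩ p).card = i)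
    (hwT' : ∃ p ∈ Kns N i t V {z2, τ} {z1, u}, (w ∩ p).card = i) : IndPath N i t x y w := by
  obtain ⟨p, hpS, hp⟩ := hwS'
  obtain ⟨q, hqT, hq⟩ := hwT'
  refine glue h (Kns N i t V {z1, τ} {z2, u}) (Kns N i t V {z2, τ} {z1, u})
    (fun A hA => kns_vtx hA) (fun A hA => kns_vtx hA) hwS hwT ?_ ?_ ?_
  · -- separation
    intro A hA B hB
    rcases hA with hA | hA <;> rcases hB with hB | hB
    · obtain ⟨a1, a2, a3⟩ := itv_mem hA
      obtain ⟨b1, b2, b3⟩ := itv_mem hB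
      refine ⟨?_, card_ne_of_common (e := τ) hVi hτV a1 b1 (a2 τ (by simp)) (b2 τ (by simp))⟩
      rintro rfl
      exact b3 z1 (by simp) (a2 z1 (by simp))
    · obtain ⟨a1, a2, a3⟩ := itv_mem hA
      obtain ⟨b1, b2, b3⟩ := itv_mem hB
      refine ⟨?_, card_ne_of_common (e := z1) hVi hz1V a1 b1 (a2 z1 (by simp)) (b2 z1 (by simp))⟩
      rintro rfl
      exact b3 τ (by simp) (a2 τ (by simp))
    · obtain ⟨a1, a2, a3⟩ := itv_mem hA
      obtain ⟨b1, b2, b3⟩ := itv_mem hB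
      refine ⟨?_, card_ne_of_common (e := z2) hVi hz2V a1 b1 (a2 z2 (by simp)) (b2 z2 (by simp))⟩
      rintro rfl
      exact b3 u (by simp) (a2 u (by simp))
    · obtain ⟨a1, a2, a3⟩ := itv_mem hA
      obtain ⟨b1, b2, b3⟩ := itv_mem hB
      refine ⟨?_, card_ne_of_common (e := u) hVi huV a1 b1 (a2 u (by simp)) (b2 u (by simp))⟩
      rintro rfl
      exact b3 z2 (by simp) (a2 z2 (by simp))
  · refine (Relation.ReflTransGen.single ⟨hp, hpS⟩).trans ?_
    exact kns_reach h.cN (by omega) hs hV (pair_sub hz1 hτ) (pair_sub hz2 hu)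
      (pair_disj hz1V hτV) (pair_disj hz2V huV)
      (pair_disj_pair h12 h1u h2τ.symm huτ.symm) hVi
      ((Finset.card_le_two).trans ht) ((Finset.card_le_two).trans ht) hpS hx
  · refine (Relation.ReflTransGen.single ⟨hq, hqT⟩).trans ?_
    exact kns_reach h.cN (by omega) hs hV (pair_sub hz2 hτ) (pair_sub hz1 hu)
      (pair_disj hz2V hτV) (pair_disj hz1V huV)
      (pair_disj_pair h12.symm h2u h1τ.symm huτ.symm) hVi
      ((Finset.card_le_two).trans ht) ((Finset.card_le_two).trans ht) hqT hy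

private lemma exists_pref {A B w : Finset α} (h : (A \ B).Nonempty) :
    ∃ z ∈ A \ B, z ∈ w ∨ ¬ ((A ∩ w) \ B).Nonempty := by
  by_cases h1 : ((A ∩ w) \ B).Nonempty
  · obtain ⟨z, hz⟩ := h1
    rw [Finset.mem_sdiff, Finset.mem_inter] at hz
    exact ⟨z, Finset.mem_sdiff.2 ⟨hz.1.1, hz.2⟩, Or.inl hz.1.2⟩
  · obtain ⟨z, hz⟩ := h
    exact ⟨z, hz, Or.inr h1⟩

theorem caseC1 (h : Cfg N i s t x y w) (hi : 1 ≤ i) (hit : i + 1 ≤ t) (hs : 1 ≤ s)
    (ha : i + 1 ≤ ((x ∩ y) \ w).card) (hW : (w \ (x ∪ y)).Nonempty)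
    (hc : i + 2 ≤ t ∨ (((x ∩ w) \ y).Nonempty ∧ ((y ∩ w) \ x).Nonempty)) :
    IndPath N i t x y w := by
  obtain ⟨V', hV', hV'c⟩ := Finset.exists_subset_card_eq ha
  obtain ⟨u, hu⟩ : V'.Nonempty := Finset.card_pos.1 (by omega)
  obtain ⟨V, hVdef⟩ : ∃ V, V = V'.erase u := ⟨_, rfl⟩
  have hVsub : V ⊆ (x ∩ y) \ w := by
    rw [hVdef]
    exact (Finset.erase_subset _ _).trans hV'
  have hVi : V.card = i := by
    rw [hVdef, Finset.card_erase_of_mem hu]
    omega
  have huV : u ∉ V := by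
    rw [hVdef]
    simp
  have hu' := hV' hu
  rw [Finset.mem_sdiff, Finset.mem_inter] at hu'
  obtain ⟨⟨hux, huy⟩, huw⟩ := hu'
  have hVx : V ⊆ x := fun a ha => (Finset.mem_inter.1 (Finset.mem_sdiff.1 (hVsub ha)).1).1
  have hVy : V ⊆ y := fun a ha => (Finset.mem_inter.1 (Finset.mem_sdiff.1 (hVsub ha)).1).2
  have hVw : ∀ a ∈ V, a ∉ w := fun a ha => (Finset.mem_sdiff.1 (hVsub ha)).2
  obtain ⟨τ, hτ⟩ := hW
  rw [Finset.mem_sdiff, Finset.mem_union] at hτ
  obtain ⟨hτw, hτxy⟩ := hτ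
  have hτx : τ ∉ x := fun h1 => hτxy (Or.inl h1)
  have hτy : τ ∉ y := fun h1 => hτxy (Or.inr h1)
  have hxyne : (x \ y).Nonempty := by
    rw [Finset.nonempty_iff_ne_empty]
    intro h1
    rw [Finset.sdiff_eq_empty_iff_subset] at h1
    exact h.xy (Finset.eq_of_subset_of_card_le h1 (by rw [h.hx.2, h.hy.2]))
  have hyxne : (y \ x).Nonempty := by
    rw [Finset.nonempty_iff_ne_empty]
    intro h1
    rw [Finset.sdiff_eq_empty_iff_subset] at h1
    exact h.xy (Finset.eq_of_subset_of_card_le h1 (by rw [h.hx.2, h.hy.2])).symm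
  obtain ⟨z2, hz2, hz2w⟩ := exists_pref (w := w) hxyne
  obtain ⟨z1, hz1, hz1w⟩ := exists_pref (w := w) hyxne
  rw [Finset.mem_sdiff] at hz2 hz1
  have hxN : x ⊆ N := h.hx.1
  have hyN : y ⊆ N := h.hy.1
  have hwN : w ⊆ N := h.hw.1
  have h12 : z1 ≠ z2 := fun he => hz1.2 (he ▸ hz2.1)
  have h1u : z1 ≠ u := fun he => hz1.2 (he ▸ hux)
  have h1τ : z1 ≠ τ := fun he => hτy (he ▸ hz1.1)
  have h2u : z2 ≠ u := fun he => hz2.2 (he ▸ huy)
  have h2τ : z2 ≠ τ := fun he => hτx (he ▸ hz2.1)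
  have huτ : u ≠ τ := fun he => hτx (he ▸ hux)
  have hz1V : z1 ∉ V := fun he => hz1.2 (hVx he)
  have hz2V : z2 ∉ V := fun he => hz2.2 (hVy he)
  have hτV : τ ∉ V := fun he => hτx (hVx he)
  -- sizes
  have hVne : V.Nonempty := Finset.card_pos.1 (by omega)
  obtain ⟨v, hv⟩ := hVne
  have hwnot : ∀ C D : Finset α, w ∉ Kns N i t V C D := by
    intro C D hmem
    rcases hmem with hm | hm
    · exact hVw v hv (hm.2.1 (Finset.mem_union_left _ hv))
    · exact hVw v hv (hm.2.1 (Finset.mem_union_left _ hv))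
  -- neighbours of `w`
  have hnb : ∀ a b : α, a ∈ N → b ∈ N → a ∉ V → b ∉ V → a ≠ b → a ≠ u → b ≠ τ → b ≠ u → a ≠ τ →
      (a ∈ w ∨ i + 2 ≤ t) →
      ∃ p ∈ Kns N i t V {b, τ} {a, u}, (w ∩ p).card = i := by
    intro a b haN hbN haV hbV hab hau hbτ hbu haτ hor
    rw [kns_symm]
    have hint : (V ∪ {a, u}) ∩ w ⊆ {a} := by
      intro c hc
      rw [Finset.mem_inter, Finset.mem_union, Finset.mem_insert, Finset.mem_singleton] at hc
      rw [Finset.mem_singleton]
      rcases hc with ⟨h1 | h1 | h1, h2⟩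
      · exact absurd h2 (hVw c h1)
      · exact h1
      · exact absurd (h1 ▸ h2) huw
    have hcard : (V ∪ {a, u}).card = i + 2 := by
      rw [Finset.card_union_of_disjoint (pair_disj haV huV), hVi, Finset.card_pair hau]
    apply nbr_kns h.cN h.hw (hVx.trans hxN) (pair_sub haN (hxN hux)) (pair_sub hbN (hwN hτw))
      (pair_disj hbV hτV) (pair_disj_pair hab haτ hbu.symm huτ)
    · have := Finset.card_le_card hint
      rw [Finset.card_singleton] at this
      omega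
    · rcases hor with hor | hor
      · have h1 := Finset.card_sdiff_add_card_inter (V ∪ {a, u}) w
        have h2 : 1 ≤ ((V ∪ {a, u}) ∩ w).card := by
          rw [Nat.one_le_iff_ne_zero, ← Nat.pos_iff_ne_zero, Finset.card_pos]
          exact ⟨a, by simp [hor]⟩
        omega
      · have h1 := Finset.card_le_card (Finset.sdiff_subset : (V ∪ {a, u}) \ w ⊆ V ∪ {a, u})
        omega
    · have h1 : (({b, τ} : Finset α) ∩ w).card ≤ 2 :=
        (Finset.card_le_card Finset.inter_subset_left).trans Finset.card_le_two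
      omega
    · have h1 : ({b, τ} : Finset α) \ w ⊆ {b} := by
        intro c hc
        rw [Finset.mem_sdiff, Finset.mem_insert, Finset.mem_singleton] at hc
        rw [Finset.mem_singleton]
        rcases hc with ⟨h1 | h1, h2⟩
        · exact h1
        · exact absurd (h1 ▸ hτw) h2
      have := Finset.card_le_card h1
      rw [Finset.card_singleton] at this
      omega
  refine kgen h (by omega) hs (hVx.trans hxN) hVi (hyN hz1.1) (hxN hz2.1) (hxN hux) (hwN hτw)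
    hz1V hz2V huV hτV h12 h1u h1τ h2u h2τ huτ ?_ ?_ (hwnot _ _) (hwnot _ _) ?_ ?_
  · right
    refine ⟨h.hx, ?_, ?_⟩
    · intro c hc
      rw [Finset.mem_union, Finset.mem_insert, Finset.mem_singleton] at hc
      rcases hc with hc | rfl | rfl
      · exact hVx hc
      · exact hz2.1
      · exact hux
    · exact pair_disj hz1.2 hτx
  · right
    refine ⟨h.hy, ?_, ?_⟩
    · intro c hc
      rw [Finset.mem_union, Finset.mem_insert, Finset.mem_singleton] at hc
      rcases hc with hc | rfl | rfl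
      · exact hVy hc
      · exact hz1.1
      · exact huy
    · exact pair_disj hz2.2 hτy
  · apply hnb z2 z1 (hxN hz2.1) (hyN hz1.1) hz2V hz1V h12.symm h2u h1τ h1u h2τ
    rcases hz2w with h1 | h1
    · exact Or.inl h1
    · rcases hc with h2 | h2
      · exact Or.inr h2
      · exact absurd h2.1 h1
  · apply hnb z1 z2 (hyN hz1.1) (hxN hz2.1) hz1V hz2V h12 h1u h2τ h2u h1τ
    rcases hz1w with h1 | h1
    · exact Or.inl h1
    · rcases hc with h2 | h2
      · exact Or.inr h2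
      · exact absurd h2.2 h1

end Pool.Agent.H4.Joh
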