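import Pool.Agent.H4.Joh.Glue

/-!
# Case C1': `t = i + 1 = s + 1`, covering, `(x ∩ w) \ y = ∅`

JOB.  `|N| = 4i + 2`, `r = 2i + 1`, `x ∪ y ∪ w = N`, `x ∩ y ∩ w = ∅`, `(x ∩ w) \ y = ∅`, so
`x ∩ w = ∅` and `w = N \ x` (sizes).  Hence `y \ (x ∪ w) = ∅`.  Put `XY = x ∩ y` (`a = |XY| ≥ i + 1`,
disjoint from `w`), `X = x \ y` (disjoint from `w`; nonempty; `|X| = 2i + 1 - a`),
`W = w \ y` (`|W| = |w| - |y ∩ w| = 2i + 1 - (2i + 1 - a) = a`, as `y ⊆ x ∪ w`).
Choose `A ⊆ XY`, `|A| = i + 1`; `B ⊆ A`, `|B| = i`; `W1 ⊆ W2 ⊆ W`, `|W1| = i`, `|W2| = i + 1`;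
`x1 ∈ X`.
`p1 = A ∪ W1`, `p2 = (x \ A) ∪ W2`, `q = (insert x1 B) ∪ W1`, all of size `2i + 1`.
`glue` with `P = {x, p1, p2}`, `Q = {y, q}`; `w → p1 → p2 → x` (`p1 ∩ w = W1`, `p1 ∩ p2 = W1`,
`p2 ∩ x = x \ A` of size `i`), `w → q → y` (`q ∩ w = W1`,
`q ∩ y = B`).  Separation: `x ∩ q = insert x1 B` (`i + 1`), `x ∩ y` given, `p1 ∩ q = B ∪ W1`
(`2i ≠ i`), `p1 ∩ y = A` (`i + 1`), `p2 ∩ q = W1 ∪ {x1}` (`i + 1`), `p2 ∩ y = XY \ A`
(`a - i - 1 ≠ i` as `a < 2i + 1`, because `x ≠ y`).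
-/

namespace Pool.Agent.H4.Joh

variable {α : Type*} [DecidableEq α] {N x y w : Finset α} {i : ℕ}

private lemma c1p_aux (x y A : Finset α) : (x \ A) ∩ y = (x ∩ y) \ A := by
  ext a
  rw [Finset.mem_inter, Finset.mem_sdiff, Finset.mem_sdiff, Finset.mem_inter]
  exact ⟨fun h => ⟨⟨h.1.1, h.2⟩, h.1.2⟩, fun h => ⟨⟨h.1.1, h.2⟩, h.1.2⟩⟩

private lemma c1p_sep {A B : Finset α} {k : ℕ} (hA : A.card = i + (i + 1))
    (hk : k ≠ i ∧ k < 2 * i + 1) (hc : (A ∩ B).card = k) : A ≠ B ∧ (A ∩ B).card ≠ i := by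
  refine ⟨fun he => ?_, by omega⟩
  rw [← he, Finset.inter_self] at hc
  omega

private lemma c1p_wne {B : Finset α} (hi : 1 ≤ i) (hA : w.card = i + (i + 1))
    (hc : (w ∩ B).card ≤ i + 1) : w ≠ B := by
  intro he
  rw [← he, Finset.inter_self] at hc
  omega

theorem caseC1p (h : Cfg N i i (i + 1) x y w) (hi : 1 ≤ i) (hD : x ∩ y ∩ w = ∅)
    (hO : N ⊆ x ∪ y ∪ w) (hb : (x ∩ w) \ y = ∅) (ha : i + 1 ≤ ((x ∩ y) \ w).card) :
    IndPath N i (i + 1) x y w := by
  have hcN := h.cN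
  have hx := h.hx.2
  have hy := h.hy.2
  have hw := h.hw.2
  have hxN : x ⊆ N := h.hx.1
  have hyN : y ⊆ N := h.hy.1
  have hwN : w ⊆ N := h.hw.1
  have exw : ∀ a, a ∈ x → a ∉ w := by
    intro a h1 h2
    by_cases h3 : a ∈ y
    · have : a ∈ x ∩ y ∩ w := Finset.mem_inter.2 ⟨Finset.mem_inter.2 ⟨h1, h3⟩, h2⟩
      rw [hD] at this
      exact absurd this (Finset.notMem_empty a)
    · have : a ∈ (x ∩ w) \ y := Finset.mem_sdiff.2 ⟨Finset.mem_inter.2 ⟨h1, h2⟩, h3⟩
      rw [hb] at this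
      exact absurd this (Finset.notMem_empty a)
  have hxw : x ∩ w = ∅ := by
    rw [Finset.eq_empty_iff_forall_notMem]
    intro a ha
    rw [Finset.mem_inter] at ha
    exact exw a ha.1 ha.2
  have hwx : w ∩ x = ∅ := by rw [Finset.inter_comm]; exact hxw
  have hNxw : x ∪ w = N := by
    apply Finset.eq_of_subset_of_card_le (Finset.union_subset hxN hwN)
    rw [Finset.card_union_of_disjoint (Finset.disjoint_left.2 (fun a h1 => exw a h1))]
    omega
  -- a disjoint union of two sets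
  have hun : ∀ A B : Finset α, A ∩ B = ∅ → (A ∪ B).card = A.card + B.card := by
    intro A B hAB
    exact Finset.card_union_of_disjoint (Finset.disjoint_iff_inter_eq_empty.2 hAB)
  have D : ∀ (A' B' A B : Finset α), A' ∩ B' = ∅ → A ⊆ A' → B ⊆ B' → A ∩ B = ∅ := by
    intro A' B' A B h0 h1 h2
    rw [← Finset.subset_empty, ← h0]
    exact Finset.inter_subset_inter h1 h2
  have ha' : i + 1 ≤ (x ∩ y).card := ha.trans (Finset.card_le_card Finset.sdiff_subset)
  have hyc : (x ∩ y).card + (y ∩ w).card = 2 * i + 1 := by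
    have h1 : (x ∩ y) ∪ (y ∩ w) = y := by
      ext a
      rw [Finset.mem_union, Finset.mem_inter, Finset.mem_inter]
      constructor
      · rintro (h1 | h1)
        · exact h1.2
        · exact h1.1
      · intro h1
        have h2 : a ∈ x ∪ w := by
          rw [hNxw]
          exact hyN h1
        rw [Finset.mem_union] at h2
        rcases h2 with h2 | h2
        · exact Or.inl ⟨h2, h1⟩
        · exact Or.inr ⟨h1, h2⟩
    have h2 := hun (x ∩ y) (y ∩ w)
      (D x w _ _ hxw Finset.inter_subset_left Finset.inter_subset_right)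
    rw [h1] at h2
    omega
  have hWc : (w \ y).card = (x ∩ y).card := by
    have h1 := Finset.card_sdiff_add_card_inter w y
    rw [Finset.inter_comm w y] at h1
    omega
  have hxyne : (x \ y).Nonempty := by
    rw [Finset.nonempty_iff_ne_empty]
    intro h1
    rw [Finset.sdiff_eq_empty_iff_subset] at h1
    exact h.xy (Finset.eq_of_subset_of_card_le h1 (by rw [h.hx.2, h.hy.2]))
  have hac : (x ∩ y).card ≤ 2 * i := by
    have h1 := Finset.card_sdiff_add_card_inter x y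
    have h2 := Finset.card_pos.2 hxyne
    omega
  have k1 : i + 1 ≠ i ∧ i + 1 < 2 * i + 1 := by omega
  have k2 : 2 * i ≠ i ∧ 2 * i < 2 * i + 1 := by omega
  have k3 : (x ∩ y).card - (i + 1) ≠ i ∧ (x ∩ y).card - (i + 1) < 2 * i + 1 := by omega
  obtain ⟨A, hA, hAc⟩ := Finset.exists_subset_card_eq ha'
  obtain ⟨B, hB, hBc⟩ := Finset.exists_subset_card_eq (show i ≤ A.card by omega)
  obtain ⟨W2, hW2, hW2c⟩ := Finset.exists_subset_card_eq (show i + 1 ≤ (w \ y).card by omega)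
  obtain ⟨W1, hW1, hW1c⟩ := Finset.exists_subset_card_eq (show i ≤ W2.card by omega)
  obtain ⟨x1, hx1⟩ := hxyne
  rw [Finset.mem_sdiff] at hx1
  have hAx : A ⊆ x := hA.trans Finset.inter_subset_left
  have hAy : A ⊆ y := hA.trans Finset.inter_subset_right
  have hBx : B ⊆ x := hB.trans hAx
  have hBy : B ⊆ y := hB.trans hAy
  have hW2w : W2 ⊆ w := hW2.trans Finset.sdiff_subset
  have hW1w : W1 ⊆ w := hW1.trans hW2w
  have hW2y : W2 ∩ y = ∅ := by
    rw [Finset.eq_empty_iff_forall_notMem]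
    intro a ha
    rw [Finset.mem_inter] at ha
    exact (Finset.mem_sdiff.1 (hW2 ha.1)).2 ha.2
  have hsx : ({x1} : Finset α) ⊆ x := Finset.singleton_subset_iff.2 hx1.1
  have hsy : ({x1} : Finset α) ∩ y = ∅ := Finset.singleton_inter_of_notMem hx1.2
  have hsA : ({x1} : Finset α) ∩ A = ∅ := D _ y _ _ hsy subset_rfl hAy
  have hxA : x \ A ⊆ x := Finset.sdiff_subset
  have hxAA : (x \ A) ∩ A = ∅ := Finset.sdiff_inter_self A x
  have hxAA' : A ∩ (x \ A) = ∅ := by rw [Finset.inter_comm]; exact hxAA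
  have hxAc : (x \ A).card = i := by
    rw [Finset.card_sdiff_of_subset hAx]
    omega
  have hsxA : ({x1} : Finset α) ⊆ x \ A := by
    rw [Finset.singleton_subset_iff, Finset.mem_sdiff]
    exact ⟨hx1.1, fun h1 => hx1.2 (hAy h1)⟩
  -- pairwise intersections of the pieces
  have m1 := D w x w A hwx subset_rfl hAx
  have m2 := Finset.inter_eq_right.2 hW1w
  have m3 := D x w A W2 hxw hAx hW2w
  have m4 := D w x W1 (x \ A) hwx hW1w hxA
  have m5 := Finset.inter_eq_left.2 hW1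
  have m6 := Finset.inter_eq_left.2 hxA
  have m7 := D w x W2 x hwx hW2w subset_rfl
  have m8 := D w x w B hwx subset_rfl hBx
  have m9 := D w x w {x1} hwx subset_rfl hsx
  have m10 := Finset.inter_eq_left.2 hBy
  have m11 := D _ _ W1 y hW2y hW1 subset_rfl
  have m12 := Finset.inter_eq_right.2 hBx
  have m13 := Finset.inter_eq_right.2 hsx
  have m14 := D x w x W1 hxw subset_rfl hW1w
  have m15 := Finset.inter_eq_left.2 hAy
  have m16 := Finset.inter_eq_right.2 hB
  have m17 : A ∩ {x1} = ∅ := by rw [Finset.inter_comm]; exact hsA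
  have m18 := D x w A W1 hxw hAx hW1w
  have m19 := D w x W1 B hwx hW1w hBx
  have m20 := D w x W1 {x1} hwx hW1w hsx
  have m21 : (x \ A) ∩ B = ∅ := D _ _ _ _ hxAA subset_rfl hB
  have m22 := Finset.inter_eq_right.2 hsxA
  have m23 := D x w (x \ A) W1 hxw hxA hW1w
  have m24 := D w x W2 B hwx hW2w hBx
  have m25 := D w x W2 {x1} hwx hW2w hsx
  have m26 := Finset.inter_eq_right.2 hW1
  have m27 := D w x w (x \ A) hwx subset_rfl hxA
  have m28 := Finset.inter_eq_right.2 hW2w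
  have m29 := D x w (x \ A) W2 hxw hxA hW2w
  have m30 := D x w B W1 hxw hBx hW1w
  have m31 := D x w {x1} W1 hxw hsx hW1w
  have m32 : B ∩ {x1} = ∅ := D _ _ _ _ m17 hB subset_rfl
  -- members
  have vp1 : Vtx N i (i + 1) (A ∪ W1) := by
    refine ⟨Finset.union_subset (hAx.trans hxN) (hW1w.trans hwN), ?_⟩
    rw [hun _ _ m18]
    omega
  have vp2 : Vtx N i (i + 1) ((x \ A) ∪ W2) := by
    refine ⟨Finset.union_subset (hxA.trans hxN) (hW2w.trans hwN), ?_⟩
    rw [hun _ _ m29]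
    omega
  have hB1 : (B ∪ {x1}).card = i + 1 := by
    rw [hun _ _ m32, Finset.card_singleton]
    omega
  have hB1x : B ∪ {x1} ⊆ x := Finset.union_subset hBx hsx
  have vq : Vtx N i (i + 1) ((B ∪ {x1}) ∪ W1) := by
    refine ⟨Finset.union_subset (hB1x.trans hxN) (hW1w.trans hwN), ?_⟩
    rw [hun _ _ (D x w _ _ hxw hB1x hW1w)]
    omega
  -- intersections
  have i1 : (w ∩ (A ∪ W1)).card = i := by
    rw [show w ∩ (A ∪ W1) = W1 by
      simp only [Finset.inter_union_distrib_left, m1, m2, Finset.empty_union]]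
    exact hW1c
  have i2 : ((A ∪ W1) ∩ ((x \ A) ∪ W2)).card = i := by
    rw [show (A ∪ W1) ∩ ((x \ A) ∪ W2) = W1 by
      simp only [Finset.union_inter_distrib_right, Finset.inter_union_distrib_left,
        hxAA', m3, m4, m5, Finset.empty_union]]
    exact hW1c
  have i3 : (((x \ A) ∪ W2) ∩ x).card = i := by
    rw [show ((x \ A) ∪ W2) ∩ x = x \ A by
      simp only [Finset.union_inter_distrib_right, m6, m7, Finset.union_empty]]
    exact hxAc
  have j1 : (w ∩ ((B ∪ {x1}) ∪ W1)).card = i := by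
    rw [show w ∩ ((B ∪ {x1}) ∪ W1) = W1 by
      simp only [Finset.inter_union_distrib_left, m8, m9, m2, Finset.empty_union]]
    exact hW1c
  have j2 : (((B ∪ {x1}) ∪ W1) ∩ y).card = i := by
    rw [show ((B ∪ {x1}) ∪ W1) ∩ y = B by
      simp only [Finset.union_inter_distrib_right, m10, hsy, m11, Finset.union_empty]]
    exact hBc
  -- separated pairs
  have s1 : (x ∩ ((B ∪ {x1}) ∪ W1)).card = i + 1 := by
    rw [show x ∩ ((B ∪ {x1}) ∪ W1) = B ∪ {x1} by
      simp only [Finset.inter_union_distrib_left, m12, m13, m14, Finset.union_empty]]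
    exact hB1
  have s2 : ((A ∪ W1) ∩ y).card = i + 1 := by
    rw [show (A ∪ W1) ∩ y = A by
      simp only [Finset.union_inter_distrib_right, m15, m11, Finset.union_empty]]
    exact hAc
  have s3 : ((A ∪ W1) ∩ ((B ∪ {x1}) ∪ W1)).card = 2 * i := by
    rw [show (A ∪ W1) ∩ ((B ∪ {x1}) ∪ W1) = B ∪ W1 by
      simp only [Finset.union_inter_distrib_right, Finset.inter_union_distrib_left,
        m16, m17, m18, m19, m20, Finset.inter_self, Finset.union_empty, Finset.empty_union]]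
    rw [hun _ _ m30]
    omega
  have s4 : (((x \ A) ∪ W2) ∩ y).card = (x ∩ y).card - (i + 1) := by
    rw [show ((x \ A) ∪ W2) ∩ y = (x ∩ y) \ A by
      rw [Finset.union_inter_distrib_right, hW2y, Finset.union_empty]
      exact c1p_aux x y A]
    rw [Finset.card_sdiff_of_subset hA, hAc]
  have s5 : (((x \ A) ∪ W2) ∩ ((B ∪ {x1}) ∪ W1)).card = i + 1 := by
    rw [show ((x \ A) ∪ W2) ∩ ((B ∪ {x1}) ∪ W1) = {x1} ∪ W1 by
      simp only [Finset.union_inter_distrib_right, Finset.inter_union_distrib_left,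
        m21, m22, m23, m24, m25, m26, Finset.union_empty, Finset.empty_union]]
    rw [hun _ _ m31, Finset.card_singleton]
    omega
  -- `w` is different from the new vertices
  have w1 : (w ∩ ((x \ A) ∪ W2)).card ≤ i + 1 := by
    rw [show w ∩ ((x \ A) ∪ W2) = W2 by
      simp only [Finset.inter_union_distrib_left, m27, m28, Finset.empty_union]]
    exact hW2c.le
  refine glue h {x, A ∪ W1, (x \ A) ∪ W2} {y, (B ∪ {x1}) ∪ W1} ?_ ?_ ?_ ?_ ?_ ?_ ?_
  · rintro A (rfl | rfl | rfl)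
    · exact h.hx
    · exact vp1
    · exact vp2
  · rintro A (rfl | rfl)
    · exact h.hy
    · exact vq
  · rintro (h1 | h1 | h1)
    · exact h.wx h1
    · exact c1p_wne hi hw (i1.le.trans (Nat.le_succ i)) h1
    · exact c1p_wne hi hw w1 h1
  · rintro (h1 | h1)
    · exact h.wy h1
    · exact c1p_wne hi hw (j1.le.trans (Nat.le_succ i)) h1
  · rintro A' (rfl | rfl | rfl) B' (rfl | rfl)
    · exact ⟨h.xy, h.nadj⟩
    · exact c1p_sep hx k1 s1
    · exact c1p_sep vp1.2 k1 s2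
    · exact c1p_sep vp1.2 k2 s3
    · exact c1p_sep vp2.2 k3 s4
    · exact c1p_sep vp2.2 k1 s5
  · refine Relation.ReflTransGen.head ⟨i1, Or.inr (Or.inl rfl)⟩
      (Relation.ReflTransGen.head ⟨i2, Or.inr (Or.inr rfl)⟩
        (Relation.ReflTransGen.single ⟨i3, Or.inl rfl⟩))
  · refine Relation.ReflTransGen.head ⟨j1, Or.inr rfl⟩
        (Relation.ReflTransGen.single ⟨j2, Or.inl rfl⟩)

end Pool.Agent.H4.Joh
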