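import Pool.Agent.H4.Joh.CaseC1

/-!
# Kneser graphs (`i = 0`): cases K0, Kee, Koo, Keo

JOB.  Adjacent = disjoint.  Tools: `nbr_kns`, `kns_symm`, `kns_vtx`, `kns_reach`, `glue`, `kgen`
(all with `V = ∅`; `Kns N 0 t ∅ C D`: even members contain `C` and avoid `D`, odd ones contain `D` and
avoid `C`).

`caseK0` (`w` adjacent to `x`): if `y ∩ w = ∅` use `glue` with `P = {x}`, `Q = {y}`.  Otherwise
`u1 ∈ x ∩ y` (nonempty by `nadj`), `u2 ∈ x \ y`, `P = {x}`, `Q = Kns ∅ {u1} {u2}`: `y` is even,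
`w ∉ Q` (`u1, u2 ∉ w`), `w` has an even neighbour (`C = {u1}`: disjoint from `w`, `1 ≤ t`;
`D = {u2}`: `1 ≤ s`), `x` contains `u1` and `u2`, so it is not in `Q` and meets every member.

`kgen0`: `kgen` with `V = ∅` if `τ ∈ w` and `z1, z2, u ∉ w`: every member of `Kns {z1,τ} {z2,u}` and
of `Kns {z2,τ} {z1,u}` contains `z1` or `z2`, so `w` is not a member; odd neighbours: `C = {z2, u}`
is disjoint from `w`, `|C| = 2 ≤ t`, `D = {z1, τ}`, `|D ∩ w| = 1 ≤ t`, `|D \ w| = 1 ≤ s`; same for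
the second family with `C = {z1, u}`, `D = {z2, τ}`.

Kee: `z1 ∈ x \ (y ∪ w)`, `z2 ∈ y \ (x ∪ w)`, `u` outside, `τ` in all three sets; `x` even, `y` even.
Koo: `z1 ∈ y \ (x ∪ w)`, `z2 ∈ x \ (y ∪ w)`, `u ∈ (x ∩ y) \ w`, `τ ∈ w \ (x ∪ y)`; `x`, `y` odd.
Keo: `z1 ∈ (x ∩ y) \ w`, `z2` outside, `u ∈ y \ (x ∪ w)`, `τ ∈ (x ∩ w) \ y`; `x` even, `y` odd.
-/

namespace Pool.Agent.H4.Joh

variable {α : Type*} [DecidableEq α] {N x y w : Finset α} {s t : ℕ}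

private lemma k0_itv_mem {V C D A : Finset α} (h : A ∈ Itv N 0 t (V ∪ C) D) :
    (∀ c ∈ C, c ∈ A) ∧ ∀ d ∈ D, d ∉ A :=
  ⟨fun _ hc => h.2.1 (Finset.mem_union_right _ hc),
    fun _ hd ha => Finset.disjoint_left.1 h.2.2 ha hd⟩

private lemma k0_mem_even {a b c d : α} {A : Finset α} (hA : Vtx N 0 t A) (ha : a ∈ A) (hb : b ∈ A)
    (hc : c ∉ A) (hd : d ∉ A) : A ∈ Kns N 0 t ∅ {a, b} {c, d} := by
  left
  refine ⟨hA, ?_, ?_⟩
  · intro e he
    rw [Finset.empty_union, Finset.mem_insert, Finset.mem_singleton] at he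
    rcases he with rfl | rfl
    · exact ha
    · exact hb
  · rw [Finset.disjoint_right]
    intro e he
    rw [Finset.mem_insert, Finset.mem_singleton] at he
    rcases he with rfl | rfl
    · exact hc
    · exact hd

private lemma k0_mem_odd {a b c d : α} {A : Finset α} (hA : Vtx N 0 t A) (ha : a ∉ A) (hb : b ∉ A)
    (hc : c ∈ A) (hd : d ∈ A) : A ∈ Kns N 0 t ∅ {a, b} {c, d} := by
  rw [kns_symm]
  exact k0_mem_even hA hc hd ha hb

theorem caseK0 (h : Cfg N 0 s t x y w) (hs : 1 ≤ s) (hxw : x ∩ w = ∅) : IndPath N 0 t x y w := by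
  have hxw' : ∀ a ∈ x, a ∉ w := by
    intro a ha hb
    have : a ∈ x ∩ w := Finset.mem_inter.2 ⟨ha, hb⟩
    rw [hxw] at this
    exact absurd this (Finset.notMem_empty a)
  obtain ⟨u1, hu1⟩ : (x ∩ y).Nonempty := Finset.card_pos.1 (Nat.pos_of_ne_zero h.nadj)
  have hxyne : (x \ y).Nonempty := by
    rw [Finset.nonempty_iff_ne_empty]
    intro h1
    rw [Finset.sdiff_eq_empty_iff_subset] at h1
    exact h.xy (Finset.eq_of_subset_of_card_le h1 (by rw [h.hx.2, h.hy.2]))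
  obtain ⟨u2, hu2⟩ := hxyne
  rw [Finset.mem_inter] at hu1
  rw [Finset.mem_sdiff] at hu2
  have h12 : u1 ≠ u2 := fun he => hu2.2 (he ▸ hu1.2)
  have hxN : x ⊆ N := h.hx.1
  have ht := h.t1
  have hd : Disjoint ({u1} : Finset α) {u2} := by
    rw [Finset.disjoint_singleton]
    exact h12
  obtain ⟨p, hp, hwp⟩ : ∃ p ∈ Kns N 0 t ∅ {u1} {u2}, (w ∩ p).card = 0 := by
    apply nbr_kns h.cN h.hw (Finset.empty_subset N) (Finset.singleton_subset_iff.2 (hxN hu1.1))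
      (Finset.singleton_subset_iff.2 (hxN hu2.1)) (Finset.disjoint_empty_left _) hd
    · rw [Finset.empty_union, Nat.le_zero, Finset.card_eq_zero, Finset.eq_empty_iff_forall_notMem]
      intro a ha
      rw [Finset.mem_inter, Finset.mem_singleton] at ha
      exact hxw' u1 hu1.1 (ha.1 ▸ ha.2)
    · rw [Finset.empty_union]
      have := Finset.card_le_card (Finset.sdiff_subset : ({u1} : Finset α) \ w ⊆ {u1})
      rw [Finset.card_singleton] at this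
      omega
    · have := Finset.card_le_card (Finset.inter_subset_left : ({u2} : Finset α) ∩ w ⊆ {u2})
      rw [Finset.card_singleton] at this
      omega
    · have := Finset.card_le_card (Finset.sdiff_subset : ({u2} : Finset α) \ w ⊆ {u2})
      rw [Finset.card_singleton] at this
      omega
  refine glue h {x} (Kns N 0 t ∅ {u1} {u2}) ?_ (fun A hA => kns_vtx hA) ?_ ?_ ?_ ?_ ?_
  · rintro A rfl
    exact h.hx
  · exact h.wx
  · rintro (hw | hw)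
    · exact hxw' u1 hu1.1 ((k0_itv_mem hw).1 u1 (by simp))
    · exact hxw' u2 hu2.1 ((k0_itv_mem hw).1 u2 (by simp))
  · rintro A rfl B hB
    rcases hB with hB | hB
    · obtain ⟨b1, b2⟩ := k0_itv_mem hB
      refine ⟨?_, ?_⟩
      · rintro rfl
        exact b2 u2 (by simp) hu2.1
      · rw [Finset.card_ne_zero]
        exact ⟨u1, Finset.mem_inter.2 ⟨hu1.1, b1 u1 (by simp)⟩⟩
    · obtain ⟨b1, b2⟩ := k0_itv_mem hB
      refine ⟨?_, ?_⟩
      · rintro rfl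
        exact b2 u1 (by simp) hu1.1
      · rw [Finset.card_ne_zero]
        exact ⟨u2, Finset.mem_inter.2 ⟨hu2.1, b1 u2 (by simp)⟩⟩
  · refine Relation.ReflTransGen.single ⟨?_, rfl⟩
    rw [Finset.inter_comm, hxw]
    rfl
  · refine (Relation.ReflTransGen.single ⟨hwp, hp⟩).trans ?_
    refine kns_reach h.cN h.t1 hs (Finset.empty_subset N)
      (Finset.singleton_subset_iff.2 (hxN hu1.1)) (Finset.singleton_subset_iff.2 (hxN hu2.1))
      (Finset.disjoint_empty_left _) (Finset.disjoint_empty_left _) hd rfl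
      (by rw [Finset.card_singleton]; exact ht) (by rw [Finset.card_singleton]; exact ht) hp ?_
    left
    refine ⟨h.hy, ?_, ?_⟩
    · rw [Finset.empty_union, Finset.singleton_subset_iff]
      exact hu1.2
    · rw [Finset.disjoint_singleton_right]
      exact hu2.2

private lemma k0_nbr (h : Cfg N 0 s t x y w) (ht : 2 ≤ t) (hs : 1 ≤ s) {z1 z2 u τ : α}
    (hz1 : z1 ∈ N) (hz2 : z2 ∈ N) (hu : u ∈ N) (hτ : τ ∈ w)
    (hz2w : z2 ∉ w) (huw : u ∉ w) (h12 : z1 ≠ z2) (h1u : z1 ≠ u) :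
    ∃ p ∈ Kns N 0 t ∅ {z1, τ} {z2, u}, (w ∩ p).card = 0 := by
  rw [kns_symm]
  have hwN : w ⊆ N := h.hw.1
  have hsub : ∀ a b : α, a ∈ N → b ∈ N → ({a, b} : Finset α) ⊆ N := by
    intro a b ha hb c hc
    rw [Finset.mem_insert, Finset.mem_singleton] at hc
    rcases hc with rfl | rfl
    · exact ha
    · exact hb
  apply nbr_kns h.cN h.hw (Finset.empty_subset N) (hsub z2 u hz2 hu) (hsub z1 τ hz1 (hwN hτ))
    (Finset.disjoint_empty_left _)
  · rw [Finset.disjoint_left]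
    intro e he he'
    rw [Finset.mem_insert, Finset.mem_singleton] at he he'
    rcases he with rfl | rfl <;> rcases he' with h1 | h1
    · exact h12 h1.symm
    · exact hz2w (h1 ▸ hτ)
    · exact h1u h1.symm
    · exact huw (h1 ▸ hτ)
  · rw [Finset.empty_union, Nat.le_zero, Finset.card_eq_zero, Finset.eq_empty_iff_forall_notMem]
    intro a ha
    rw [Finset.mem_inter, Finset.mem_insert, Finset.mem_singleton] at ha
    rcases ha with ⟨rfl | rfl, h2⟩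
    · exact hz2w h2
    · exact huw h2
  · rw [Finset.empty_union]
    exact (Finset.card_le_card Finset.sdiff_subset).trans (Finset.card_le_two.trans ht)
  · exact (Finset.card_le_card Finset.inter_subset_left).trans (Finset.card_le_two.trans ht)
  · have h1 : ({z1, τ} : Finset α) \ w ⊆ {z1} := by
      intro c hc
      rw [Finset.mem_sdiff, Finset.mem_insert, Finset.mem_singleton] at hc
      rw [Finset.mem_singleton]
      rcases hc with ⟨h1 | h1, h2⟩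
      · exact h1
      · exact absurd (h1 ▸ hτ) h2
    have := Finset.card_le_card h1
    rw [Finset.card_singleton] at this
    omega

theorem kgen0 (h : Cfg N 0 s t x y w) (ht : 2 ≤ t) (hs : 1 ≤ s) {z1 z2 u τ : α}
    (hz1 : z1 ∈ N) (hz2 : z2 ∈ N) (hu : u ∈ N) (hτ : τ ∈ w)
    (hz1w : z1 ∉ w) (hz2w : z2 ∉ w) (huw : u ∉ w) (h12 : z1 ≠ z2) (h1u : z1 ≠ u) (h2u : z2 ≠ u)
    (hx : x ∈ Kns N 0 t ∅ {z1, τ} {z2, u}) (hy : y ∈ Kns N 0 t ∅ {z2, τ} {z1, u}) :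
    IndPath N 0 t x y w := by
  have hwN : w ⊆ N := h.hw.1
  refine kgen h ht hs (Finset.empty_subset N) rfl hz1 hz2 hu (hwN hτ) (Finset.notMem_empty _)
    (Finset.notMem_empty _) (Finset.notMem_empty _) (Finset.notMem_empty _) h12 h1u
    (fun he => hz1w (he ▸ hτ)) h2u (fun he => hz2w (he ▸ hτ)) (fun he => huw (he ▸ hτ)) hx hy
    ?_ ?_ (k0_nbr h ht hs hz1 hz2 hu hτ hz2w huw h12 h1u)
    (k0_nbr h ht hs hz2 hz1 hu hτ hz1w huw h12.symm h2u)
  · rintro (hw | hw)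
    · exact hz1w ((k0_itv_mem hw).1 z1 (by simp))
    · exact hz2w ((k0_itv_mem hw).1 z2 (by simp))
  · rintro (hw | hw)
    · exact hz2w ((k0_itv_mem hw).1 z2 (by simp))
    · exact hz1w ((k0_itv_mem hw).1 z1 (by simp))

theorem caseKee (h : Cfg N 0 s t x y w) (ht : 2 ≤ t) (hs : 1 ≤ s)
    (hX : (x \ (y ∪ w)).Nonempty) (hY : (y \ (x ∪ w)).Nonempty)
    (hO : (N \ (x ∪ y ∪ w)).Nonempty) (hD : (x ∩ y ∩ w).Nonempty) : IndPath N 0 t x y w := by
  obtain ⟨z1, hz1⟩ := hX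
  obtain ⟨z2, hz2⟩ := hY
  obtain ⟨u, hu⟩ := hO
  obtain ⟨τ, hτ⟩ := hD
  simp only [Finset.mem_sdiff, Finset.mem_union, Finset.mem_inter, not_or] at hz1 hz2 hu hτ
  obtain ⟨hz1x, hz1y, hz1w⟩ := hz1
  obtain ⟨hz2y, hz2x, hz2w⟩ := hz2
  obtain ⟨huN, ⟨hux, huy⟩, huw⟩ := hu
  obtain ⟨⟨hτx, hτy⟩, hτw⟩ := hτ
  exact kgen0 h ht hs (h.hx.1 hz1x) (h.hy.1 hz2y) huN hτw hz1w hz2w huw
    (fun he => hz2x (he ▸ hz1x)) (fun he => hux (he ▸ hz1x)) (fun he => huy (he ▸ hz2y))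
    (k0_mem_even h.hx hz1x hτx hz2x hux) (k0_mem_even h.hy hz2y hτy hz1y huy)

theorem caseKoo (h : Cfg N 0 s t x y w) (ht : 2 ≤ t) (hs : 1 ≤ s)
    (hX : (x \ (y ∪ w)).Nonempty) (hY : (y \ (x ∪ w)).Nonempty)
    (hXY : ((x ∩ y) \ w).Nonempty) (hW : (w \ (x ∪ y)).Nonempty) : IndPath N 0 t x y w := by
  obtain ⟨z2, hz2⟩ := hX
  obtain ⟨z1, hz1⟩ := hY
  obtain ⟨u, hu⟩ := hXY
  obtain ⟨τ, hτ⟩ := hW
  simp only [Finset.mem_sdiff, Finset.mem_union, Finset.mem_inter, not_or] at hz1 hz2 hu hτ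
  obtain ⟨hz1y, hz1x, hz1w⟩ := hz1
  obtain ⟨hz2x, hz2y, hz2w⟩ := hz2
  obtain ⟨⟨hux, huy⟩, huw⟩ := hu
  obtain ⟨hτw, hτx, hτy⟩ := hτ
  exact kgen0 h ht hs (h.hy.1 hz1y) (h.hx.1 hz2x) (h.hx.1 hux) hτw hz1w hz2w huw
    (fun he => hz2y (he ▸ hz1y)) (fun he => hz1x (he ▸ hux)) (fun he => hz2y (he ▸ huy))
    (k0_mem_odd h.hx hz1x hτx hz2x hux) (k0_mem_odd h.hy hz2y hτy hz1y huy)

theorem caseKeo (h : Cfg N 0 s t x y w) (ht : 2 ≤ t) (hs : 1 ≤ s)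
    (hXY : ((x ∩ y) \ w).Nonempty) (hO : (N \ (x ∪ y ∪ w)).Nonempty)
    (hY : (y \ (x ∪ w)).Nonempty) (hXW : ((x ∩ w) \ y).Nonempty) : IndPath N 0 t x y w := by
  obtain ⟨z1, hz1⟩ := hXY
  obtain ⟨z2, hz2⟩ := hO
  obtain ⟨u, hu⟩ := hY
  obtain ⟨τ, hτ⟩ := hXW
  simp only [Finset.mem_sdiff, Finset.mem_union, Finset.mem_inter, not_or] at hz1 hz2 hu hτ
  obtain ⟨⟨hz1x, hz1y⟩, hz1w⟩ := hz1
  obtain ⟨hz2N, ⟨hz2x, hz2y⟩, hz2w⟩ := hz2
  obtain ⟨huy, hux, huw⟩ := hu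
  obtain ⟨⟨hτx, hτw⟩, hτy⟩ := hτ
  exact kgen0 h ht hs (h.hx.1 hz1x) hz2N (h.hy.1 huy) hτw hz1w hz2w huw
    (fun he => hz2x (he ▸ hz1x)) (fun he => hux (he ▸ hz1x)) (fun he => hz2y (he ▸ huy))
    (k0_mem_even h.hx hz1x hτx hz2x hux) (k0_mem_odd h.hy hz2y hτy hz1y huy)

end Pool.Agent.H4.Joh
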