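import Pool.Agent.H4.Joh.AdjCase

/-!
# Kneser graphs (`i = 0`): case K1

JOB.  `z1 ≠ v` in `x \ (y ∪ w)`; `z2 ≠ v2` in `y \ (x ∪ w)`; `u ∈ w \ (x ∪ y)`; `τ ∈ x ∩ y ∩ w`.
`p ⊆ N \ w` a vertex with `z2, v, v2 ∈ p`, `z1 ∉ p` (`nbr_itv` for `w` with `C = {z2, v, v2}`,
`D = {z1}`); `q ⊆ N \ w` a vertex with `z1, v, v2 ∈ q`, `z2 ∉ q`.
`S = Kns ∅ {z1, τ} {z2, u, v2}`, `T = Kns ∅ {z2, τ} {z1, u, v}` (`i = 0`, sizes `≤ 3 ≤ t`).
`glue` with `P = {p} ∪ S`, `Q = {q} ∪ T`.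
* `w → p` (disjoint), `p` has an even neighbour in `S` (`nbr_kns`: `C = {z1, τ}` is disjoint from `p`,
  as `τ ∈ w`; `|C| = 2 ≤ t`; `D = {z2, u, v2}`: `|D ∩ p| ≤ 3 ≤ t`, `D \ p = {u}`, `1 ≤ s`); `x` is an
  even member of `S`.
* `w → q`, `q` has an even neighbour in `T` (`C = {z2, τ}` disjoint from `q`; `D = {z1, u, v}`,
  `D \ q = {u}`); `y` is an even member of `T`.
* `w ∉ S, T`: `w` contains `τ` and `u`; `w ≠ p`, `w ≠ q` (disjoint, nonempty).
* separation (common point; distinguishing point): `p, q`: `v`; `z2`.  `p`, even `T`: `z2`; `τ`.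
  `p`, odd `T`: `v`; `z1`.  even `S`, `q`: `z1`; `τ`.  odd `S`, `q`: `v2`; `z2`.
  even `S`, even `T`: `τ`; `z2`.  even `S`, odd `T`: `z1`; `u`.  odd `S`, even `T`: `z2`; `τ`.
  odd `S`, odd `T`: `u`; `z1`.
-/

namespace Pool.Agent.H4.Joh

variable {α : Type*} [DecidableEq α] {N x y w : Finset α} {s t : ℕ}

private lemma card_ne_zero_of {A B : Finset α} {e : α} (h1 : e ∈ A) (h2 : e ∈ B) :
    (A ∩ B).card ≠ 0 :=
  Finset.card_ne_zero_of_mem (Finset.mem_inter.2 ⟨h1, h2⟩)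

private lemma itv0 {C D A : Finset α} (h : A ∈ Itv N 0 t (∅ ∪ C) D) :
    (∀ c ∈ C, c ∈ A) ∧ ∀ d ∈ D, d ∉ A :=
  ⟨fun _ hc => h.2.1 (Finset.mem_union_right _ hc),
    fun _ hd ha => Finset.disjoint_left.1 h.2.2 ha hd⟩

private lemma card3 (a b c : α) : ({a, b, c} : Finset α).card ≤ 3 := Finset.card_le_three

private lemma disj_of {C D : Finset α} (h : ∀ c ∈ C, c ∉ D) : Disjoint C D :=
  Finset.disjoint_left.2 (fun _ hc hd => h _ hc hd)

/-- Common part of cases K1 and K2: `P = {p} ∪ Kns ∅ {z1, τ} {z2, u, e}`,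
`Q = {q} ∪ Kns ∅ {z2, τ} {z1, u, f}` with `z1, z2, e, f ∉ w` and `u, τ ∈ w`. -/
theorem kgenP (h : Cfg N 0 s t x y w) (ht : 3 ≤ t) (hs : 1 ≤ s) {z1 z2 u τ e f : α}
    (hz1 : z1 ∈ N) (hz2 : z2 ∈ N) (he : e ∈ N) (hf : f ∈ N) (hτ : τ ∈ w) (hu : u ∈ w)
    (hz1w : z1 ∉ w) (hz2w : z2 ∉ w) (hew : e ∉ w) (hfw : f ∉ w)
    (h12 : z1 ≠ z2) (h1e : z1 ≠ e) (h1f : z1 ≠ f) (h2e : z2 ≠ e) (h2f : z2 ≠ f) (huτ : u ≠ τ)
    (hx : x ∈ Kns N 0 t ∅ {z1, τ} {z2, u, e}) (hy : y ∈ Kns N 0 t ∅ {z2, τ} {z1, u, f}) :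
    IndPath N 0 t x y w := by
  have hne : ∀ {a b : α}, a ∈ w → b ∉ w → a ≠ b := fun ha hb hab => hb (hab ▸ ha)
  have huN : u ∈ N := h.hw.1 hu
  have hτN : τ ∈ N := h.hw.1 hτ
  -- existence of `p` and `q`
  have hpq : ∀ z z' : α, z ∈ N → z' ∈ N → z ∉ w → z' ∉ w → z' ≠ z → z' ≠ e → z' ≠ f →
      ∃ p, Vtx N 0 t p ∧ (w ∩ p).card = 0 ∧ z ∈ p ∧ e ∈ p ∧ f ∈ p ∧ z' ∉ p := by
    intro z z' hz hz' hzw hz'w h1 h2 h3
    obtain ⟨p, hp, hwp⟩ := nbr_itv (C := {z, e, f}) (D := {z'}) h.cN h.hw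
      (by
        intro c hc
        simp only [Finset.mem_insert, Finset.mem_singleton] at hc
        rcases hc with rfl | rfl | rfl <;> assumption)
      (by
        intro c hc
        simp only [Finset.mem_singleton] at hc
        rw [hc]
        exact hz')
      (disj_of (by
        intro c hc
        simp only [Finset.mem_insert, Finset.mem_singleton] at hc ⊢
        rcases hc with rfl | rfl | rfl
        · exact h1.symm
        · exact h2.symm
        · exact h3.symm))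
      (by
        rw [Nat.le_zero, Finset.card_eq_zero, ← Finset.disjoint_iff_inter_eq_empty]
        apply disj_of
        intro c hc
        simp only [Finset.mem_insert, Finset.mem_singleton] at hc
        rcases hc with rfl | rfl | rfl <;> assumption)
      (((Finset.card_le_card Finset.sdiff_subset).trans (card3 _ _ _)).trans ht)
      (((Finset.card_le_card Finset.inter_subset_left).trans
        (Finset.card_singleton _).le).trans (by omega))
      (((Finset.card_le_card Finset.sdiff_subset).trans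
        (Finset.card_singleton _).le).trans hs)
    refine ⟨p, hp.1, hwp, hp.2.1 (by simp), hp.2.1 (by simp), hp.2.1 (by simp), ?_⟩
    intro hz'p
    exact Finset.disjoint_left.1 hp.2.2 hz'p (by simp)
  have hwnot : ∀ p, (w ∩ p).card = 0 → ∀ c ∈ w, c ∉ p := by
    intro p hp c hc hcp
    exact card_ne_zero_of hc hcp hp
  obtain ⟨p, hpv, hwp, hz2p, hep, hfp, hz1p⟩ := hpq z2 z1 hz2 hz1 hz2w hz1w h12 h1e h1f
  obtain ⟨q, hqv, hwq, hz1q, heq, hfq, hz2q⟩ := hpq z1 z2 hz1 hz2 hz1w hz2w h12.symm h2e h2f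
  have hτp := hwnot p hwp τ hτ
  have hup := hwnot p hwp u hu
  have hτq := hwnot q hwq τ hτ
  have huq := hwnot q hwq u hu
  -- `p` has a neighbour in `S`, `q` in `T`
  have hnb : ∀ (p : Finset α) (z z' g : α), Vtx N 0 t p → z ∈ N → z' ∈ N → g ∈ N → z ∉ w →
      z' ∉ w → g ∉ w → z ≠ z' → z ≠ g → z' ∈ p → g ∈ p → z ∉ p → τ ∉ p → u ∉ p →
      ∃ A ∈ Kns N 0 t ∅ {z, τ} {z', u, g}, (p ∩ A).card = 0 := by
    intro p z z' g hpv hz hz' hg hzw hz'w hgw h1 h2 hz'p hgp hzp hτp hup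
    have hsub1 : ({z, τ} : Finset α) ⊆ N := by
      intro c hc
      simp only [Finset.mem_insert, Finset.mem_singleton] at hc
      rcases hc with rfl | rfl <;> assumption
    have hsub2 : ({z', u, g} : Finset α) ⊆ N := by
      intro c hc
      simp only [Finset.mem_insert, Finset.mem_singleton] at hc
      rcases hc with rfl | rfl | rfl <;> assumption
    refine nbr_kns h.cN hpv (Finset.empty_subset _) hsub1 hsub2 (Finset.disjoint_empty_left _)
      ?_ ?_ ?_ ?_ ?_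
    · apply disj_of
      intro c hc
      simp only [Finset.mem_insert, Finset.mem_singleton, not_or] at hc ⊢
      rcases hc with rfl | rfl
      · exact ⟨h1, (hne hu hzw).symm, h2⟩
      · exact ⟨hne hτ hz'w, huτ.symm, hne hτ hgw⟩
    · rw [Finset.empty_union, Nat.le_zero, Finset.card_eq_zero,
        ← Finset.disjoint_iff_inter_eq_empty]
      apply disj_of
      intro c hc
      simp only [Finset.mem_insert, Finset.mem_singleton] at hc
      rcases hc with rfl | rfl <;> assumption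
    · rw [Finset.empty_union]
      exact ((Finset.card_le_card Finset.sdiff_subset).trans Finset.card_le_two).trans (by omega)
    · exact ((Finset.card_le_card Finset.inter_subset_left).trans (card3 _ _ _)).trans ht
    · have : ({z', u, g} : Finset α) \ p ⊆ {u} := by
        intro c hc
        simp only [Finset.mem_sdiff, Finset.mem_insert, Finset.mem_singleton] at hc ⊢
        obtain ⟨rfl | rfl | rfl, hcp⟩ := hc
        · exact absurd hz'p hcp
        · rfl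
        · exact absurd hgp hcp
      exact ((Finset.card_le_card this).trans (Finset.card_singleton _).le).trans hs
  obtain ⟨p1, hp1, hpp1⟩ := hnb p z1 z2 e hpv hz1 hz2 he hz1w hz2w hew h12 h1e hz2p hep hz1p
    hτp hup
  obtain ⟨q1, hq1, hqq1⟩ := hnb q z2 z1 f hqv hz2 hz1 hf hz2w hz1w hfw h12.symm h2f hz1q hfq hz2q
    hτq huq
  -- connectivity
  have hreach : ∀ (z z' g : α), z ∈ N → z' ∈ N → g ∈ N → z ∉ w → z' ∉ w → g ∉ w → z ≠ z' →
      z ≠ g → ∀ A ∈ Kns N 0 t ∅ {z, τ} {z', u, g}, ∀ B ∈ Kns N 0 t ∅ {z, τ} {z', u, g},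
      Reach 0 (Kns N 0 t ∅ {z, τ} {z', u, g}) A B := by
    intro z z' g hz hz' hg hzw hz'w hgw h1 h2 A hA B hB
    have hsub1 : ({z, τ} : Finset α) ⊆ N := by
      intro c hc
      simp only [Finset.mem_insert, Finset.mem_singleton] at hc
      rcases hc with rfl | rfl <;> assumption
    have hsub2 : ({z', u, g} : Finset α) ⊆ N := by
      intro c hc
      simp only [Finset.mem_insert, Finset.mem_singleton] at hc
      rcases hc with rfl | rfl | rfl <;> assumption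
    refine kns_reach h.cN (by omega) hs (Finset.empty_subset _) hsub1 hsub2
      (Finset.disjoint_empty_left _) (Finset.disjoint_empty_left _) ?_ Finset.card_empty
      (Finset.card_le_two.trans (by omega)) ((card3 _ _ _).trans ht) hA hB
    apply disj_of
    intro c hc
    simp only [Finset.mem_insert, Finset.mem_singleton, not_or] at hc ⊢
    rcases hc with rfl | rfl
    · exact ⟨h1, (hne hu hzw).symm, h2⟩
    · exact ⟨hne hτ hz'w, huτ.symm, hne hτ hgw⟩
  have hw0 : w.Nonempty := ⟨u, hu⟩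
  refine glue h (insert p (Kns N 0 t ∅ {z1, τ} {z2, u, e}))
    (insert q (Kns N 0 t ∅ {z2, τ} {z1, u, f})) ?_ ?_ ?_ ?_ ?_ ?_ ?_
  · rintro A (rfl | hA)
    · exact hpv
    · exact kns_vtx hA
  · rintro A (rfl | hA)
    · exact hqv
    · exact kns_vtx hA
  · rintro (hA | hA | hA)
    · exact hup (hA ▸ hu)
    · exact (itv0 hA).2 u (by simp) hu
    · exact (itv0 hA).2 τ (by simp) hτ
  · rintro (hA | hA | hA)
    · exact huq (hA ▸ hu)
    · exact (itv0 hA).2 u (by simp) hu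
    · exact (itv0 hA).2 τ (by simp) hτ
  · rintro A (rfl | hA | hA) B (rfl | hB | hB)
    · exact ⟨fun hAB => hz2q (hAB ▸ hz2p), card_ne_zero_of hep heq⟩
    · obtain ⟨b1, b2⟩ := itv0 hB
      exact ⟨fun hAB => hτp (hAB ▸ b1 τ (by simp)), card_ne_zero_of hz2p (b1 z2 (by simp))⟩
    · obtain ⟨b1, b2⟩ := itv0 hB
      exact ⟨fun hAB => hz1p (hAB ▸ b1 z1 (by simp)), card_ne_zero_of hfp (b1 f (by simp))⟩
    · obtain ⟨a1, a2⟩ := itv0 hA
      exact ⟨fun hAB => hτq (hAB ▸ a1 τ (by simp)), card_ne_zero_of (a1 z1 (by simp)) hz1q⟩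
    · obtain ⟨a1, a2⟩ := itv0 hA
      obtain ⟨b1, b2⟩ := itv0 hB
      exact ⟨fun hAB => a2 z2 (by simp) (hAB ▸ b1 z2 (by simp)),
        card_ne_zero_of (a1 τ (by simp)) (b1 τ (by simp))⟩
    · obtain ⟨a1, a2⟩ := itv0 hA
      obtain ⟨b1, b2⟩ := itv0 hB
      exact ⟨fun hAB => a2 u (by simp) (hAB ▸ b1 u (by simp)),
        card_ne_zero_of (a1 z1 (by simp)) (b1 z1 (by simp))⟩
    · obtain ⟨a1, a2⟩ := itv0 hA
      exact ⟨fun hAB => hz2q (hAB ▸ a1 z2 (by simp)), card_ne_zero_of (a1 e (by simp)) heq⟩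
    · obtain ⟨a1, a2⟩ := itv0 hA
      obtain ⟨b1, b2⟩ := itv0 hB
      exact ⟨fun hAB => a2 τ (by simp) (hAB ▸ b1 τ (by simp)),
        card_ne_zero_of (a1 z2 (by simp)) (b1 z2 (by simp))⟩
    · obtain ⟨a1, a2⟩ := itv0 hA
      obtain ⟨b1, b2⟩ := itv0 hB
      exact ⟨fun hAB => a2 z1 (by simp) (hAB ▸ b1 z1 (by simp)),
        card_ne_zero_of (a1 u (by simp)) (b1 u (by simp))⟩
  · have h1 : Reach 0 (insert p (Kns N 0 t ∅ {z1, τ} {z2, u, e})) w p :=
      Relation.ReflTransGen.single ⟨hwp, Set.mem_insert _ _⟩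
    have h2 := h1.tail ⟨hpp1, Set.mem_insert_of_mem _ hp1⟩
    exact h2.trans (Reach.mono (Set.subset_insert _ _)
      (hreach z1 z2 e hz1 hz2 he hz1w hz2w hew h12 h1e p1 hp1 x hx))
  · have h1 : Reach 0 (insert q (Kns N 0 t ∅ {z2, τ} {z1, u, f})) w q :=
      Relation.ReflTransGen.single ⟨hwq, Set.mem_insert _ _⟩
    have h2 := h1.tail ⟨hqq1, Set.mem_insert_of_mem _ hq1⟩
    exact h2.trans (Reach.mono (Set.subset_insert _ _)
      (hreach z2 z1 f hz2 hz1 hf hz2w hz1w hfw h12.symm h2f q1 hq1 y hy))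

theorem caseK1 (h : Cfg N 0 s t x y w) (ht : 3 ≤ t) (hs : 1 ≤ s)
    (hX : 2 ≤ (x \ (y ∪ w)).card) (hY : 2 ≤ (y \ (x ∪ w)).card)
    (hW : (w \ (x ∪ y)).Nonempty) (hD : (x ∩ y ∩ w).Nonempty) : IndPath N 0 t x y w := by
  obtain ⟨z1, hz1, v, hv, hz1v⟩ := Finset.one_lt_card.1 (show 1 < (x \ (y ∪ w)).card by omega)
  obtain ⟨z2, hz2, v2, hv2, hz2v⟩ := Finset.one_lt_card.1 (show 1 < (y \ (x ∪ w)).card by omega)
  obtain ⟨u, hu⟩ := hW
  obtain ⟨τ, hτ⟩ := hD
  simp only [Finset.mem_sdiff, Finset.mem_union, Finset.mem_inter, not_or] at hz1 hv hz2 hv2 hu hτ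
  have hne : ∀ {a b : α} {A : Finset α}, a ∈ A → b ∉ A → a ≠ b := fun ha hb hab => hb (hab ▸ ha)
  refine kgenP h ht hs (z1 := z1) (z2 := z2) (u := u) (τ := τ) (e := v2) (f := v)
    (h.hx.1 hz1.1) (h.hy.1 hz2.1) (h.hy.1 hv2.1) (h.hx.1 hv.1) hτ.2 hu.1 hz1.2.2 hz2.2.2 hv2.2.2
    hv.2.2 (hne hz1.1 hz2.2.1) (hne hz1.1 hv2.2.1) hz1v hz2v (hne hz2.1 hv.2.1)
    (hne hτ.1.1 hu.2.1).symm ?_ ?_
  · left
    refine ⟨h.hx, ?_, ?_⟩
    · intro c hc
      simp only [Finset.empty_union, Finset.mem_insert, Finset.mem_singleton] at hc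
      rcases hc with rfl | rfl
      · exact hz1.1
      · exact hτ.1.1
    · apply Disjoint.symm
      apply disj_of
      intro c hc
      simp only [Finset.mem_insert, Finset.mem_singleton] at hc
      rcases hc with rfl | rfl | rfl
      · exact hz2.2.1
      · exact hu.2.1
      · exact hv2.2.1
  · left
    refine ⟨h.hy, ?_, ?_⟩
    · intro c hc
      simp only [Finset.empty_union, Finset.mem_insert, Finset.mem_singleton] at hc
      rcases hc with rfl | rfl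
      · exact hz2.1
      · exact hτ.1.2
    · apply Disjoint.symm
      apply disj_of
      intro c hc
      simp only [Finset.mem_insert, Finset.mem_singleton] at hc
      rcases hc with rfl | rfl | rfl
      · exact hz1.2.1
      · exact hu.2.2
      · exact hv.2.1

end Pool.Agent.H4.Joh
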