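import Pool.Agent.H4.Joh.AdjCase

/-!
# Kneser graphs (`i = 0`): case K2

JOB.  `z1 ≠ v` in `(x ∩ y) \ w`; `z2 ≠ o1` in `N \ (x ∪ y ∪ w)`; `u ∈ (y ∩ w) \ x`;
`τ ∈ (x ∩ w) \ y`.
`p ⊆ N \ w` a vertex with `z2, v, o1 ∈ p`, `z1 ∉ p` (`nbr_itv` for `w` with `C = {z2, v, o1}`,
`D = {z1}`); `q ⊆ N \ w` a vertex with `z1, v, o1 ∈ q`, `z2 ∉ q`.
`S = Kns ∅ {z1, τ} {z2, u, o1}`, `T = Kns ∅ {z2, τ} {z1, u, v}` (`i = 0`, sizes `≤ 3 ≤ t`).
`glue` with `P = {p} ∪ S`, `Q = {q} ∪ T`.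
* `w → p` (disjoint), `p` has an even neighbour in `S` (`nbr_kns`: `C = {z1, τ}` is disjoint from `p`,
  as `τ ∈ w`; `D = {z2, u, o1}`: `|D ∩ p| ≤ 3 ≤ t`, `D \ p = {u}`, `1 ≤ s`); `x` is an even member of
  `S` (`z1, τ ∈ x`, `z2, u, o1 ∉ x`).
* `w → q`, `q` has an even neighbour in `T` (`C = {z2, τ}` disjoint from `q`; `D = {z1, u, v}`,
  `D \ q = {u}`); `y` is an odd member of `T` (`z1, u, v ∈ y`, `z2, τ ∉ y`).
* `w ∉ S, T`: `w` contains `τ` and `u`; `w ≠ p`, `w ≠ q` (disjoint, nonempty).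
* separation (common point; distinguishing point): `p, q`: `v`; `z2`.  `p`, even `T`: `z2`; `τ`.
  `p`, odd `T`: `v`; `z1`.  even `S`, `q`: `z1`; `τ`.  odd `S`, `q`: `o1`; `z2`.
  even `S`, even `T`: `τ`; `z2`.  even `S`, odd `T`: `z1`; `u`.  odd `S`, even `T`: `z2`; `τ`.
  odd `S`, odd `T`: `u`; `z1`.
-/

namespace Pool.Agent.H4.Joh

variable {α : Type*} [DecidableEq α] {N x y w : Finset α} {s t : ℕ}

private theorem k2_sep {A B : Finset α} (c : α) (hA : c ∈ A) (hB : c ∈ B)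
    (hd : ∃ d, (d ∈ A ∧ d ∉ B) ∨ (d ∈ B ∧ d ∉ A)) : A ≠ B ∧ (A ∩ B).card ≠ 0 := by
  constructor
  · rintro rfl
    obtain ⟨d, hd | hd⟩ := hd
    · exact hd.2 hd.1
    · exact hd.2 hd.1
  · rw [Ne, Finset.card_eq_zero]
    intro h
    have : c ∈ A ∩ B := Finset.mem_inter.2 ⟨hA, hB⟩
    rw [h] at this
    exact absurd this (Finset.notMem_empty c)

private theorem k2_mem {A : Finset α} {c1 c2 d1 d2 d3 : α}
    (hA : A ∈ Kns N 0 t ∅ {c1, c2} {d1, d2, d3}) :
    (c1 ∈ A ∧ c2 ∈ A ∧ d1 ∉ A ∧ d2 ∉ A ∧ d3 ∉ A) ∨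
      (d1 ∈ A ∧ d2 ∈ A ∧ d3 ∈ A ∧ c1 ∉ A ∧ c2 ∉ A) := by
  rcases hA with hA | hA
  · left
    obtain ⟨-, h1, h2⟩ := hA
    rw [Finset.disjoint_left] at h2
    refine ⟨h1 (by simp), h1 (by simp), fun h => h2 h (by simp), fun h => h2 h (by simp),
      fun h => h2 h (by simp)⟩
  · right
    obtain ⟨-, h1, h2⟩ := hA
    rw [Finset.disjoint_left] at h2
    refine ⟨h1 (by simp), h1 (by simp), h1 (by simp), fun h => h2 h (by simp),
      fun h => h2 h (by simp)⟩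

/-- a vertex `p` away from `c1, c2, d2` has an even neighbour -/
private theorem k2_nbr {p : Finset α} {c1 c2 d1 d2 d3 : α} (hN : N.card = 2 * t + 0 + s)
    (ht : 3 ≤ t) (hs : 1 ≤ s) (hp : Vtx N 0 t p) (m1 : c1 ∈ N) (m2 : c2 ∈ N) (m3 : d1 ∈ N)
    (m4 : d2 ∈ N) (m5 : d3 ∈ N) (hc1 : c1 ∉ p) (hc2 : c2 ∉ p) (hd1 : d1 ∈ p)
    (hd3 : d3 ∈ p) (e1 : c1 ≠ d1) (e2 : c1 ≠ d2) (e3 : c1 ≠ d3) (e4 : c2 ≠ d1) (e5 : c2 ≠ d2)
    (e6 : c2 ≠ d3) : ∃ q ∈ Kns N 0 t ∅ {c1, c2} {d1, d2, d3}, (p ∩ q).card = 0 := by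
  refine nbr_kns hN hp (Finset.empty_subset _) ?_ ?_ (Finset.disjoint_empty_left _) ?_ ?_ ?_ ?_ ?_
  · intro z hz
    simp only [Finset.mem_insert, Finset.mem_singleton] at hz
    rcases hz with rfl | rfl <;> assumption
  · intro z hz
    simp only [Finset.mem_insert, Finset.mem_singleton] at hz
    rcases hz with rfl | rfl | rfl <;> assumption
  · rw [Finset.disjoint_left]
    intro z hz hz'
    simp only [Finset.mem_insert, Finset.mem_singleton] at hz hz'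
    rcases hz with rfl | rfl <;> rcases hz' with rfl | rfl | rfl <;> contradiction
  · rw [Nat.le_zero, Finset.card_eq_zero, Finset.eq_empty_iff_forall_notMem]
    intro z hz
    simp only [Finset.mem_inter, Finset.empty_union, Finset.mem_insert,
      Finset.mem_singleton] at hz
    rcases hz with ⟨rfl | rfl, hz⟩ <;> contradiction
  · refine (Finset.card_le_card Finset.sdiff_subset).trans ?_
    rw [Finset.empty_union]
    exact Finset.card_le_two.trans (by omega)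
  · exact (Finset.card_le_card Finset.inter_subset_left).trans (Finset.card_le_three.trans ht)
  · have : ({d1, d2, d3} : Finset α) \ p ⊆ {d2} := by
      intro z hz
      simp only [Finset.mem_sdiff, Finset.mem_insert, Finset.mem_singleton] at hz ⊢
      rcases hz with ⟨rfl | rfl | rfl, hz⟩
      · contradiction
      · rfl
      · contradiction
    exact (Finset.card_le_card this).trans (by simpa using hs)

/-- the neighbour `p` of `w` -/
private theorem k2_p {c1 c2 c3 d : α} (hN : N.card = 2 * t + 0 + s)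
    (ht : 3 ≤ t) (hs : 1 ≤ s) (hw : Vtx N 0 t w) (m1 : c1 ∈ N) (m2 : c2 ∈ N) (m3 : c3 ∈ N)
    (m4 : d ∈ N) (h1 : c1 ∉ w) (h2 : c2 ∉ w) (h3 : c3 ∉ w) (e1 : c1 ≠ d) (e2 : c2 ≠ d)
    (e3 : c3 ≠ d) : ∃ p, Vtx N 0 t p ∧ c1 ∈ p ∧ c2 ∈ p ∧ c3 ∈ p ∧ d ∉ p ∧ (w ∩ p).card = 0 ∧
      ∀ z ∈ w, z ∉ p := by
  have hex : ∃ p ∈ Itv N 0 t {c1, c2, c3} {d}, (w ∩ p).card = 0 := by
    refine nbr_itv hN hw ?_ ?_ ?_ ?_ ?_ ?_ ?_
    · intro z hz
      simp only [Finset.mem_insert, Finset.mem_singleton] at hz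
      rcases hz with rfl | rfl | rfl <;> assumption
    · intro z hz
      simp only [Finset.mem_singleton] at hz
      subst hz
      assumption
    · rw [Finset.disjoint_left]
      intro z hz hz'
      simp only [Finset.mem_insert, Finset.mem_singleton] at hz hz'
      subst hz'
      rcases hz with rfl | rfl | rfl <;> contradiction
    · rw [Nat.le_zero, Finset.card_eq_zero, Finset.eq_empty_iff_forall_notMem]
      intro z hz
      simp only [Finset.mem_inter, Finset.mem_insert, Finset.mem_singleton] at hz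
      rcases hz with ⟨rfl | rfl | rfl, hz⟩ <;> contradiction
    · exact (Finset.card_le_card Finset.sdiff_subset).trans (Finset.card_le_three.trans ht)
    · refine (Finset.card_le_card Finset.inter_subset_left).trans ?_
      rw [Finset.card_singleton]
      omega
    · refine (Finset.card_le_card Finset.sdiff_subset).trans ?_
      rw [Finset.card_singleton]
      exact hs
  obtain ⟨p, hp, hc⟩ := hex
  obtain ⟨hv, hC, hD⟩ := hp
  refine ⟨p, hv, hC (by simp), hC (by simp), hC (by simp), ?_, hc, ?_⟩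
  · intro h
    exact (Finset.disjoint_left.1 hD) h (by simp)
  · intro z hz hzp
    rw [Finset.card_eq_zero] at hc
    have : z ∈ w ∩ p := Finset.mem_inter.2 ⟨hz, hzp⟩
    rw [hc] at this
    exact absurd this (Finset.notMem_empty z)

private theorem k2_reach {p A : Finset α} {S : Set (Finset α)}
    (hwp : (w ∩ p).card = 0) (hpS : ∃ q ∈ S, (p ∩ q).card = 0)
    (hS : ∀ U ∈ S, ∀ V ∈ S, Reach 0 S U V) (hA : A ∈ S) : Reach 0 (insert p S) w A := by
  obtain ⟨q, hq, hpq⟩ := hpS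
  refine Relation.ReflTransGen.head (b := p) ⟨hwp, Set.mem_insert p S⟩ ?_
  refine Relation.ReflTransGen.head (b := q) ⟨hpq, Set.mem_insert_of_mem p hq⟩ ?_
  exact Reach.mono (Set.subset_insert p S) (hS q hq A hA)

theorem caseK2 (h : Cfg N 0 s t x y w) (ht : 3 ≤ t) (hs : 1 ≤ s)
    (hXY : 2 ≤ ((x ∩ y) \ w).card) (hO : 2 ≤ (N \ (x ∪ y ∪ w)).card)
    (hXW : ((x ∩ w) \ y).Nonempty) (hYW : ((y ∩ w) \ x).Nonempty) : IndPath N 0 t x y w := by
  obtain ⟨z1, hz1, v, hv, hz1v⟩ := Finset.one_lt_card.1 hXY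
  obtain ⟨z2, hz2, o1, ho1, hz2o1⟩ := Finset.one_lt_card.1 hO
  obtain ⟨τ, hτ⟩ := hXW
  obtain ⟨u, hu⟩ := hYW
  simp only [Finset.mem_sdiff, Finset.mem_inter, Finset.mem_union, not_or] at hz1 hv hz2 ho1 hτ hu
  obtain ⟨⟨z1x, z1y⟩, z1w⟩ := hz1
  obtain ⟨⟨vx, vy⟩, vw⟩ := hv
  obtain ⟨z2N, ⟨z2x, z2y⟩, z2w⟩ := hz2
  obtain ⟨oN, ⟨ox, oy⟩, ow⟩ := ho1
  obtain ⟨⟨τx, τw⟩, τy⟩ := hτ
  obtain ⟨⟨uy, uw⟩, ux⟩ := hu
  have z1N := h.hx.1 z1x
  have vN := h.hx.1 vx
  have τN := h.hx.1 τx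
  have uN := h.hy.1 uy
  have n1 : z2 ≠ z1 := by rintro rfl; exact z2x z1x
  have n2 : v ≠ z2 := by rintro rfl; exact z2x vx
  have n3 : o1 ≠ z1 := by rintro rfl; exact ox z1x
  have n4 : o1 ≠ v := by rintro rfl; exact ox vx
  have n5 : z1 ≠ u := by rintro rfl; exact ux z1x
  have n6 : τ ≠ z2 := by rintro rfl; exact z2x τx
  have n7 : τ ≠ u := by rintro rfl; exact ux τx
  have n8 : τ ≠ o1 := by rintro rfl; exact ox τx
  have n9 : z2 ≠ u := by rintro rfl; exact z2y uy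
  have n10 : τ ≠ z1 := by rintro rfl; exact z1w τw
  have n11 : τ ≠ v := by rintro rfl; exact vw τw
  obtain ⟨p, hpV, p1, p2, p3, p4, hwp, hpw⟩ := k2_p (c1 := z2) (c2 := v) (c3 := o1) (d := z1)
    h.cN ht hs h.hw z2N vN oN z1N z2w vw ow n1 hz1v.symm n3
  obtain ⟨q, hqV, q1, q2, q3, q4, hwq, hqw⟩ := k2_p (c1 := z1) (c2 := v) (c3 := o1) (d := z2)
    h.cN ht hs h.hw z1N vN oN z2N z1w vw ow n1.symm n2 hz2o1.symm
  have up := hpw u uw
  have τp := hpw τ τw
  have uq := hqw u uw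
  have τq := hqw τ τw
  have hpS := k2_nbr (c1 := z1) (c2 := τ) (d1 := z2) (d2 := u) (d3 := o1) h.cN ht hs hpV z1N τN
    z2N uN oN p4 τp p1 p3 n1.symm n5 n3.symm n6 n7 n8
  have hqT := k2_nbr (c1 := z2) (c2 := τ) (d1 := z1) (d2 := u) (d3 := v) h.cN ht hs hqV z2N τN
    z1N uN vN q4 τq q1 q2 n1 n9 n2.symm n10 n7 n11
  have hSr : ∀ U ∈ Kns N 0 t ∅ {z1, τ} {z2, u, o1}, ∀ V ∈ Kns N 0 t ∅ {z1, τ} {z2, u, o1},
      Reach 0 (Kns N 0 t ∅ {z1, τ} {z2, u, o1}) U V := by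
    intro U hU V hV
    refine kns_reach h.cN (by omega) hs (Finset.empty_subset _) ?_ ?_
      (Finset.disjoint_empty_left _) (Finset.disjoint_empty_left _) ?_ rfl
      (Finset.card_le_two.trans (by omega)) (Finset.card_le_three.trans ht) hU hV
    · intro z hz
      simp only [Finset.mem_insert, Finset.mem_singleton] at hz
      rcases hz with rfl | rfl <;> assumption
    · intro z hz
      simp only [Finset.mem_insert, Finset.mem_singleton] at hz
      rcases hz with rfl | rfl | rfl <;> assumption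
    · rw [Finset.disjoint_left]
      intro z hz hz'
      simp only [Finset.mem_insert, Finset.mem_singleton] at hz hz'
      rcases hz with rfl | rfl <;> rcases hz' with rfl | rfl | rfl <;> contradiction
  have hTr : ∀ U ∈ Kns N 0 t ∅ {z2, τ} {z1, u, v}, ∀ V ∈ Kns N 0 t ∅ {z2, τ} {z1, u, v},
      Reach 0 (Kns N 0 t ∅ {z2, τ} {z1, u, v}) U V := by
    intro U hU V hV
    refine kns_reach h.cN (by omega) hs (Finset.empty_subset _) ?_ ?_
      (Finset.disjoint_empty_left _) (Finset.disjoint_empty_left _) ?_ rfl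
      (Finset.card_le_two.trans (by omega)) (Finset.card_le_three.trans ht) hU hV
    · intro z hz
      simp only [Finset.mem_insert, Finset.mem_singleton] at hz
      rcases hz with rfl | rfl <;> assumption
    · intro z hz
      simp only [Finset.mem_insert, Finset.mem_singleton] at hz
      rcases hz with rfl | rfl | rfl <;> assumption
    · rw [Finset.disjoint_left]
      intro z hz hz'
      simp only [Finset.mem_insert, Finset.mem_singleton] at hz hz'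
      rcases hz with rfl | rfl <;> rcases hz' with rfl | rfl | rfl <;> contradiction
  have hxS : x ∈ Kns N 0 t ∅ {z1, τ} {z2, u, o1} := by
    left
    refine ⟨h.hx, ?_, ?_⟩
    · intro z hz
      simp only [Finset.empty_union, Finset.mem_insert, Finset.mem_singleton] at hz
      rcases hz with rfl | rfl <;> assumption
    · rw [Finset.disjoint_left]
      intro z hz hz'
      simp only [Finset.mem_insert, Finset.mem_singleton] at hz'
      rcases hz' with rfl | rfl | rfl <;> contradiction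
  have hyT : y ∈ Kns N 0 t ∅ {z2, τ} {z1, u, v} := by
    right
    refine ⟨h.hy, ?_, ?_⟩
    · intro z hz
      simp only [Finset.empty_union, Finset.mem_insert, Finset.mem_singleton] at hz
      rcases hz with rfl | rfl | rfl <;> assumption
    · rw [Finset.disjoint_left]
      intro z hz hz'
      simp only [Finset.mem_insert, Finset.mem_singleton] at hz'
      rcases hz' with rfl | rfl <;> contradiction
  refine glue h (insert p (Kns N 0 t ∅ {z1, τ} {z2, u, o1}))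
    (insert q (Kns N 0 t ∅ {z2, τ} {z1, u, v})) ?_ ?_ ?_ ?_ ?_
    (k2_reach hwp hpS hSr hxS) (k2_reach hwq hqT hTr hyT)
  · rintro A (rfl | hA)
    · exact hpV
    · exact kns_vtx hA
  · rintro A (rfl | hA)
    · exact hqV
    · exact kns_vtx hA
  · rintro (hA | hA)
    · exact τp (hA ▸ τw)
    · rcases k2_mem hA with hA | hA
      · exact hA.2.2.2.1 uw
      · exact hA.2.2.2.2 τw
  · rintro (hA | hA)
    · exact τq (hA ▸ τw)
    · rcases k2_mem hA with hA | hA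
      · exact hA.2.2.2.1 uw
      · exact hA.2.2.2.2 τw
  · rintro A (rfl | hA) B (rfl | hB)
    · exact k2_sep v p2 q2 ⟨z2, Or.inl ⟨p1, q4⟩⟩
    · rcases k2_mem hB with hB | hB
      · exact k2_sep z2 p1 hB.1 ⟨τ, Or.inr ⟨hB.2.1, τp⟩⟩
      · exact k2_sep v p2 hB.2.2.1 ⟨z1, Or.inr ⟨hB.1, p4⟩⟩
    · rcases k2_mem hA with hA | hA
      · exact k2_sep z1 hA.1 q1 ⟨τ, Or.inl ⟨hA.2.1, τq⟩⟩
      · exact k2_sep o1 hA.2.2.1 q3 ⟨z2, Or.inl ⟨hA.1, q4⟩⟩
    · rcases k2_mem hA with hA | hA <;> rcases k2_mem hB with hB | hB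
      · exact k2_sep τ hA.2.1 hB.2.1 ⟨z2, Or.inr ⟨hB.1, hA.2.2.1⟩⟩
      · exact k2_sep z1 hA.1 hB.1 ⟨u, Or.inr ⟨hB.2.1, hA.2.2.2.1⟩⟩
      · exact k2_sep z2 hA.1 hB.1 ⟨τ, Or.inr ⟨hB.2.1, hA.2.2.2.2⟩⟩
      · exact k2_sep u hA.2.1 hB.2.1 ⟨z1, Or.inr ⟨hB.1, hA.2.2.2.1⟩⟩

end Pool.Agent.H4.Joh
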