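import Pool.Agent.H4.Joh.AdjCase

/-!
# Kneser graphs (`i = 0`): case K3

JOB.  `v ∈ (x ∩ y) \ w`; `e1 ∈ (x ∩ w) \ y`; `e2 ∈ (y ∩ w) \ x`; `τ ∈ x ∩ y ∩ w`; three different
`o1, o2, u ∈ N \ (x ∪ y ∪ w)`.
`p ⊆ N \ w` a vertex with `v, o2, u ∈ p`, `o1 ∉ p` (`nbr_itv` for `w` with `C = {v, o2, u}`,
`D = {o1}`); `q ⊆ N \ w` a vertex with `v, o1, u ∈ q`, `o2 ∉ q`.
`S = Kns ∅ {e1, τ, o1} {e2, u}`, `T = Kns ∅ {e2, τ, o2} {e1, u}` (`i = 0`, sizes `≤ 3 ≤ t`).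
`glue` with `P = {p, x} ∪ S`, `Q = {q, y} ∪ T`.
* `w → p` (disjoint), `p` has an even neighbour in `S` (`nbr_kns`: `C = {e1, τ, o1}` is disjoint from
  `p`, `|C| = 3 ≤ t`; `D = {e2, u}`: `D \ p = {e2}`), `x` has an odd neighbour in `S`
  (`C = {e2, u}` is disjoint from `x`; `D = {e1, τ, o1}`: `|D ∩ x| = 2 ≤ t`, `D \ x = {o1}`,
  `1 ≤ s`).  So `w → p → S → x` (`kns_reach`).
* same for `q`, `T`, `y` (`C = {e1, u}` is disjoint from `y`).
* `w ∉ S`: even members avoid `e2 ∈ w`, odd ones avoid `e1 ∈ w`; `w ∉ T` similarly; `w ≠ p, q`.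
* separation (common point; distinguishing point): `p, q`: `v`; `o1`.  `p, y`: `v`; `τ`.
  `p`, even `T`: `o2`; `τ`.  `p`, odd `T`: `u`; `e1`.  `x, q`: `v`; `τ`.  `x, y`: given.
  `x`, even `T`: `τ`; `e2`.  `x`, odd `T`: `e1`; `u`.  even `S`, `q`: `o1`; `τ`.
  even `S`, `y`: `τ`; `e1`.  odd `S`, `q`: `u`; `e2`.  odd `S`, `y`: `e2`; `u`.
  even `S`, even `T`: `τ`; `e2`.  even `S`, odd `T`: `e1`; `u`.  odd `S`, even `T`: `e2`; `u`.
  odd `S`, odd `T`: `u`; `e1`.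
-/

namespace Pool.Agent.H4.Joh

variable {α : Type*} [DecidableEq α] {N x y w : Finset α} {s t : ℕ}

private lemma sep_pt {A B : Finset α} {e d : α} (h1 : e ∈ A) (h2 : e ∈ B)
    (h3 : (d ∈ A ∧ d ∉ B) ∨ (d ∉ A ∧ d ∈ B)) : A ≠ B ∧ (A ∩ B).card ≠ 0 := by
  constructor
  · rintro rfl
    rcases h3 with h3 | h3
    · exact h3.2 h3.1
    · exact h3.1 h3.2
  · rw [Finset.card_ne_zero]
    exact ⟨e, Finset.mem_inter.2 ⟨h1, h2⟩⟩

private lemma inter_zero3 {a b c : α} {X : Finset α} (ha : a ∉ X) (hb : b ∉ X) (hc : c ∉ X) :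
    (({a, b, c} : Finset α) ∩ X).card ≤ 0 := by
  rw [Nat.le_zero, Finset.card_eq_zero, ← Finset.disjoint_iff_inter_eq_empty]
  simp only [Finset.disjoint_insert_left, Finset.disjoint_singleton_left]
  exact ⟨ha, hb, hc⟩

private lemma inter_zero2 {a b : α} {X : Finset α} (ha : a ∉ X) (hb : b ∉ X) :
    (({a, b} : Finset α) ∩ X).card ≤ 0 := by
  rw [Nat.le_zero, Finset.card_eq_zero, ← Finset.disjoint_iff_inter_eq_empty]
  simp only [Finset.disjoint_insert_left, Finset.disjoint_singleton_left]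
  exact ⟨ha, hb⟩

private lemma card_sdiff3 {a b c : α} {X : Finset α} :
    (({a, b, c} : Finset α) \ X).card ≤ 3 :=
  (Finset.card_le_card Finset.sdiff_subset).trans Finset.card_le_three

private lemma card_sdiff2 {a b : α} {X : Finset α} :
    (({a, b} : Finset α) \ X).card ≤ 2 :=
  (Finset.card_le_card Finset.sdiff_subset).trans Finset.card_le_two

private lemma card_inter2 {a b : α} {X : Finset α} :
    (({a, b} : Finset α) ∩ X).card ≤ 2 :=
  (Finset.card_le_card Finset.inter_subset_left).trans Finset.card_le_two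

private lemma card_inter3 {a b c : α} {X : Finset α} :
    (({a, b, c} : Finset α) ∩ X).card ≤ 3 :=
  (Finset.card_le_card Finset.inter_subset_left).trans Finset.card_le_three

private lemma mem_kns {C D A : Finset α} (h : A ∈ Kns N 0 t ∅ C D) :
    ((∀ c ∈ C, c ∈ A) ∧ ∀ d ∈ D, d ∉ A) ∨ ((∀ d ∈ D, d ∈ A) ∧ ∀ c ∈ C, c ∉ A) := by
  rcases h with h | h
  · exact Or.inl ⟨fun c hc => h.2.1 (Finset.mem_union_right _ hc),
      fun d hd ha => Finset.disjoint_left.1 h.2.2 ha hd⟩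
  · exact Or.inr ⟨fun c hc => h.2.1 (Finset.mem_union_right _ hc),
      fun d hd ha => Finset.disjoint_left.1 h.2.2 ha hd⟩

private lemma half {z : Finset α} {v e1 e2 τ o1 o2 u : α} (hN : N.card = 2 * t + 0 + s)
    (ht : 3 ≤ t) (hs : 1 ≤ s) (hw : Vtx N 0 t w) (hz : Vtx N 0 t z)
    (hvN : v ∈ N) (ho1N : o1 ∈ N) (ho2N : o2 ∈ N) (huN : u ∈ N)
    (hvw : v ∉ w) (he1w : e1 ∈ w) (he2w : e2 ∈ w) (hτw : τ ∈ w) (ho1w : o1 ∉ w) (ho2w : o2 ∉ w)
    (huw : u ∉ w) (he1z : e1 ∈ z) (hτz : τ ∈ z) (he2z : e2 ∉ z) (huz : u ∉ z)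
    (hvo : v ≠ o1) (hoo : o2 ≠ o1) (huo : u ≠ o1) :
    ∃ p, Vtx N 0 t p ∧ (w ∩ p).card = 0 ∧ v ∈ p ∧ o2 ∈ p ∧ u ∈ p ∧ o1 ∉ p ∧
      Reach 0 (insert p (insert z (Kns N 0 t ∅ {e1, τ, o1} {e2, u}))) w z := by
  have he1N : e1 ∈ N := hw.1 he1w
  have he2N : e2 ∈ N := hw.1 he2w
  have hτN : τ ∈ N := hw.1 hτw
  obtain ⟨p, ⟨hpv, hpC, hpD⟩, hwp⟩ := nbr_itv (i := 0) (C := {v, o2, u}) (D := {o1}) hN hw
    (by simp only [Finset.insert_subset_iff, Finset.singleton_subset_iff]; exact ⟨hvN, ho2N, huN⟩)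
    (by simpa using ho1N)
    (by
      simp only [Finset.disjoint_insert_left, Finset.disjoint_singleton_left,
        Finset.mem_singleton]
      exact ⟨hvo, hoo, huo⟩)
    (inter_zero3 hvw ho2w huw) (card_sdiff3.trans ht)
    (((Finset.card_le_card Finset.inter_subset_left).trans (by simp)).trans (by omega : 1 ≤ t))
    (((Finset.card_le_card Finset.sdiff_subset).trans (by simp)).trans hs)
  simp only [Finset.insert_subset_iff, Finset.singleton_subset_iff] at hpC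
  rw [Finset.disjoint_singleton_right] at hpD
  obtain ⟨hvp, ho2p, hup⟩ := hpC
  have hdis : ∀ a ∈ w, a ∉ p := by
    intro a ha ha'
    have h1 : a ∈ w ∩ p := Finset.mem_inter.2 ⟨ha, ha'⟩
    rw [Finset.card_eq_zero] at hwp
    rw [hwp] at h1
    exact absurd h1 (Finset.notMem_empty a)
  have hCN : ({e1, τ, o1} : Finset α) ⊆ N := by
    simp only [Finset.insert_subset_iff, Finset.singleton_subset_iff]
    exact ⟨he1N, hτN, ho1N⟩
  have hDN : ({e2, u} : Finset α) ⊆ N := by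
    simp only [Finset.insert_subset_iff, Finset.singleton_subset_iff]
    exact ⟨he2N, huN⟩
  have hCD : Disjoint ({e1, τ, o1} : Finset α) {e2, u} := by
    simp only [Finset.disjoint_insert_left, Finset.disjoint_singleton_left,
        Finset.mem_insert, Finset.mem_singleton, not_or]
    refine ⟨⟨?_, ?_⟩, ⟨?_, ?_⟩, ?_, ?_⟩
    · rintro rfl; exact he2z he1z
    · rintro rfl; exact huz he1z
    · rintro rfl; exact he2z hτz
    · rintro rfl; exact huz hτz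
    · rintro rfl; exact ho1w he2w
    · exact huo.symm
  obtain ⟨a, ha, hpa⟩ := nbr_kns (i := 0) (V := ∅) (C := {e1, τ, o1}) (D := {e2, u}) hN hpv
    (Finset.empty_subset _) hCN hDN (Finset.disjoint_empty_left _) hCD
    (by rw [Finset.empty_union]; exact inter_zero3 (hdis _ he1w) (hdis _ hτw) hpD)
    (by rw [Finset.empty_union]; exact card_sdiff3.trans ht)
    (card_inter2.trans (by omega))
    (by
      refine le_trans (b := ({e2} : Finset α).card) (Finset.card_le_card ?_)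
        (by simpa using hs)
      intro c hc
      simp only [Finset.mem_sdiff, Finset.mem_insert, Finset.mem_singleton] at hc ⊢
      rcases hc with ⟨rfl | rfl, hc'⟩
      · rfl
      · exact absurd hup hc')
  obtain ⟨b, hb, hzb⟩ := nbr_kns (i := 0) (V := ∅) (C := {e2, u}) (D := {e1, τ, o1}) hN hz
    (Finset.empty_subset _) hDN hCN (Finset.disjoint_empty_left _) hCD.symm
    (by rw [Finset.empty_union]; exact inter_zero2 he2z huz)
    (by rw [Finset.empty_union]; exact card_sdiff2.trans (by omega))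
    (card_inter3.trans (by omega))
    (by
      refine le_trans (b := ({o1} : Finset α).card) (Finset.card_le_card ?_)
        (by simpa using hs)
      intro c hc
      simp only [Finset.mem_sdiff, Finset.mem_insert, Finset.mem_singleton] at hc ⊢
      rcases hc with ⟨rfl | rfl | rfl, hc'⟩
      · exact absurd he1z hc'
      · exact absurd hτz hc'
      · rfl)
  rw [kns_symm] at hb
  refine ⟨p, hpv, hwp, hvp, ho2p, hup, hpD, ?_⟩
  have hab := kns_reach (i := 0) hN (by omega : 1 ≤ t) hs (Finset.empty_subset _) hCN hDN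
    (Finset.disjoint_empty_left _) (Finset.disjoint_empty_left _) hCD (Finset.card_empty)
    (Finset.card_le_three.trans ht) (Finset.card_le_two.trans (by omega)) ha hb
  have hsub : Kns N 0 t ∅ {e1, τ, o1} {e2, u} ⊆
      insert p (insert z (Kns N 0 t ∅ {e1, τ, o1} {e2, u})) :=
    fun c hc => Or.inr (Or.inr hc)
  have h1 : Reach 0 (insert p (insert z (Kns N 0 t ∅ {e1, τ, o1} {e2, u}))) w a :=
    (Relation.ReflTransGen.single ⟨hwp, Or.inl rfl⟩).tail ⟨hpa, hsub ha⟩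
  refine (h1.trans (Reach.mono hsub hab)).tail ⟨?_, Or.inr (Or.inl rfl)⟩
  rw [Finset.inter_comm]
  exact hzb

theorem caseK3 (h : Cfg N 0 s t x y w) (ht : 3 ≤ t) (hs : 1 ≤ s)
    (hXY : ((x ∩ y) \ w).Nonempty) (hO : 3 ≤ (N \ (x ∪ y ∪ w)).card)
    (hXW : ((x ∩ w) \ y).Nonempty) (hYW : ((y ∩ w) \ x).Nonempty)
    (hD : (x ∩ y ∩ w).Nonempty) : IndPath N 0 t x y w := by
  obtain ⟨v, hv⟩ := hXY
  obtain ⟨e1, he1⟩ := hXW
  obtain ⟨e2, he2⟩ := hYW
  obtain ⟨τ, hτ⟩ := hD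
  obtain ⟨o1, ho1, o2, ho2, u, hu, ho12, ho1u, ho2u⟩ := Finset.two_lt_card.1 hO
  simp only [Finset.mem_sdiff, Finset.mem_inter, Finset.mem_union, not_or] at hv he1 he2 hτ ho1 ho2 hu
  obtain ⟨⟨hvx, hvy⟩, hvw⟩ := hv
  obtain ⟨⟨he1x, he1w⟩, he1y⟩ := he1
  obtain ⟨⟨he2y, he2w⟩, he2x⟩ := he2
  obtain ⟨⟨hτx, hτy⟩, hτw⟩ := hτ
  obtain ⟨ho1N, ⟨ho1x, ho1y⟩, ho1w⟩ := ho1
  obtain ⟨ho2N, ⟨ho2x, ho2y⟩, ho2w⟩ := ho2
  obtain ⟨huN, ⟨hux, huy⟩, huw⟩ := hu
  have hvN : v ∈ N := h.hx.1 hvx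
  have hvo1 : v ≠ o1 := by rintro rfl; exact ho1x hvx
  have hvo2 : v ≠ o2 := by rintro rfl; exact ho2x hvx
  obtain ⟨p, hpv, hwp, hvp, ho2p, hup, ho1p, hxr⟩ := half (v := v) (e1 := e1) (e2 := e2) (τ := τ)
    (o1 := o1) (o2 := o2) (u := u) h.cN ht hs h.hw h.hx hvN ho1N ho2N huN hvw he1w he2w hτw
    ho1w ho2w huw he1x hτx he2x hux hvo1 ho12.symm ho1u.symm
  obtain ⟨q, hqv, hwq, hvq, ho1q, huq, ho2q, hyr⟩ := half (v := v) (e1 := e2) (e2 := e1) (τ := τ)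
    (o1 := o2) (o2 := o1) (u := u) h.cN ht hs h.hw h.hy hvN ho2N ho1N huN hvw he2w he1w hτw
    ho2w ho1w huw he2y hτy he1y huy hvo2 ho12 ho2u.symm
  have hdp : ∀ a ∈ w, a ∉ p := by
    intro a ha ha'
    have h1 : a ∈ w ∩ p := Finset.mem_inter.2 ⟨ha, ha'⟩
    rw [Finset.card_eq_zero] at hwp
    rw [hwp] at h1
    exact absurd h1 (Finset.notMem_empty a)
  have hdq : ∀ a ∈ w, a ∉ q := by
    intro a ha ha'
    have h1 : a ∈ w ∩ q := Finset.mem_inter.2 ⟨ha, ha'⟩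
    rw [Finset.card_eq_zero] at hwq
    rw [hwq] at h1
    exact absurd h1 (Finset.notMem_empty a)
  refine glue h (insert p (insert x (Kns N 0 t ∅ {e1, τ, o1} {e2, u})))
    (insert q (insert y (Kns N 0 t ∅ {e2, τ, o2} {e1, u}))) ?_ ?_ ?_ ?_ ?_ hxr hyr
  · rintro A (rfl | rfl | hA)
    · exact hpv
    · exact h.hx
    · exact kns_vtx hA
  · rintro A (rfl | rfl | hA)
    · exact hqv
    · exact h.hy
    · exact kns_vtx hA
  · rintro (hA | hA | hA)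
    · exact hdp e1 he1w (hA ▸ he1w)
    · exact h.wx hA
    · rcases mem_kns hA with ⟨-, h2⟩ | ⟨-, h2⟩
      · exact h2 e2 (by simp) he2w
      · exact h2 e1 (by simp) he1w
  · rintro (hA | hA | hA)
    · exact hdq e1 he1w (hA ▸ he1w)
    · exact h.wy hA
    · rcases mem_kns hA with ⟨-, h2⟩ | ⟨-, h2⟩
      · exact h2 e1 (by simp) he1w
      · exact h2 e2 (by simp) he2w
  · rintro A (rfl | rfl | hA) B (rfl | rfl | hB)
    · exact sep_pt (d := o1) hvp hvq (Or.inr ⟨ho1p, ho1q⟩)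
    · exact sep_pt (d := τ) hvp hvy (Or.inr ⟨hdp τ hτw, hτy⟩)
    · rcases mem_kns hB with ⟨h1, h2⟩ | ⟨h1, h2⟩
      · exact sep_pt (d := τ) ho2p (h1 o2 (by simp)) (Or.inr ⟨hdp τ hτw, h1 τ (by simp)⟩)
      · exact sep_pt (d := e1) hup (h1 u (by simp)) (Or.inr ⟨hdp e1 he1w, h1 e1 (by simp)⟩)
    · exact sep_pt (d := τ) hvx hvq (Or.inl ⟨hτx, hdq τ hτw⟩)
    · exact ⟨h.xy, h.nadj⟩
    · rcases mem_kns hB with ⟨h1, h2⟩ | ⟨h1, h2⟩
      · exact sep_pt (d := e2) hτx (h1 τ (by simp)) (Or.inr ⟨he2x, h1 e2 (by simp)⟩)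
      · exact sep_pt (d := u) he1x (h1 e1 (by simp)) (Or.inr ⟨hux, h1 u (by simp)⟩)
    · rcases mem_kns hA with ⟨h1, h2⟩ | ⟨h1, h2⟩
      · exact sep_pt (d := τ) (h1 o1 (by simp)) ho1q (Or.inl ⟨h1 τ (by simp), hdq τ hτw⟩)
      · exact sep_pt (d := e2) (h1 u (by simp)) huq (Or.inl ⟨h1 e2 (by simp), hdq e2 he2w⟩)
    · rcases mem_kns hA with ⟨h1, h2⟩ | ⟨h1, h2⟩
      · exact sep_pt (d := e1) (h1 τ (by simp)) hτy (Or.inl ⟨h1 e1 (by simp), he1y⟩)
      · exact sep_pt (d := u) (h1 e2 (by simp)) he2y (Or.inl ⟨h1 u (by simp), huy⟩)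
    · rcases mem_kns hA with ⟨h1, h2⟩ | ⟨h1, h2⟩ <;>
        rcases mem_kns hB with ⟨h3, h4⟩ | ⟨h3, h4⟩
      · exact sep_pt (d := e2) (h1 τ (by simp)) (h3 τ (by simp))
          (Or.inr ⟨h2 e2 (by simp), h3 e2 (by simp)⟩)
      · exact sep_pt (d := u) (h1 e1 (by simp)) (h3 e1 (by simp))
          (Or.inr ⟨h2 u (by simp), h3 u (by simp)⟩)
      · exact sep_pt (d := u) (h1 e2 (by simp)) (h3 e2 (by simp))
          (Or.inl ⟨h1 u (by simp), h4 u (by simp)⟩)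
      · exact sep_pt (d := e1) (h1 u (by simp)) (h3 u (by simp))
          (Or.inr ⟨h2 e1 (by simp), h3 e1 (by simp)⟩)

end Pool.Agent.H4.Joh
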