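import Pool.Agent.H4.Joh.Glue
import Pool.Agent.H4.Joh.ConnI

/-!
# Region A, close pairs: the core case

JOB.  `γ = |x \ y| ≤ t - 1`, `m = t + 1 - γ ≥ 2`.  Given disjoint `U1, U2 ⊆ x ∩ y` of size `m`.
`ZQ = (x \ y) ∪ U2`, `ZP = (y \ x) ∪ U1`, both of size `t + 1`, disjoint.  Assume
`1 ≤ |w ∩ ZQ| ≤ t` and `|w ∩ ZP| ≤ t`.
`glue_conn` with `S = Itv ZQ ZP` and `T = Itv ∅ ZQ`.
* `S` connected: `t + 1 ≤ i`, `t + 1 ≤ s`, `2t + 3 ≤ i + s`.  `T` connected: `t + 1 ≤ s`,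
  `t + 2 ≤ i + s`.
* `x` has a neighbour in `S` (`nbr_itv`): `|ZQ ∩ x| = t + 1 ≤ i`, `|ZQ \ x| = 0`,
  `|ZP ∩ x| = |U1| = m ≤ t`, `|ZP \ x| = γ ≤ s`.
* `y` has a neighbour in `T`: `|ZQ ∩ y| = m ≤ t`, `|ZQ \ y| = γ ≤ s`.
* `w` has a neighbour in `S`: `|ZQ ∩ w| ≤ t ≤ i`, `|ZQ \ w| ≤ t`, `|ZP ∩ w| ≤ t`,
  `|ZP \ w| ≤ t + 1 ≤ s`; in `T`: `|ZQ ∩ w| ≤ t`, `|ZQ \ w| ≤ t ≤ s`.
* `w ∉ S` as `|w ∩ ZQ| ≤ t < |ZQ|`; `w ∉ T` as `w ∩ ZQ ≠ ∅`.
* separation: `x ⊇ ZQ` and `B ∈ T` avoids `ZQ`: `|x ∩ B| ≤ i + t - (t + 1) < i`; `A ∈ S` avoids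
  `ZP ⊆ y`: `|A ∩ y| ≤ i - 1`; `A ∈ S` contains `ZQ`, `B ∈ T` avoids it.
-/

namespace Pool.Agent.H4.Joh

variable {α : Type*} [DecidableEq α] {N x y w : Finset α} {i s t : ℕ}

private theorem caseO1_sep {i t : ℕ} {A B Z : Finset α} (hA : A.card = i + t) (hZ : Z ⊆ A)
    (hB : Disjoint B Z) (hc : t + 1 ≤ Z.card) : A ≠ B ∧ (A ∩ B).card ≠ i := by
  have h1 : (A ∩ B) ∪ Z ⊆ A := Finset.union_subset Finset.inter_subset_left hZ
  have h2 : Disjoint (A ∩ B) Z := hB.mono_left Finset.inter_subset_right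
  have h3 := Finset.card_le_card h1
  rw [Finset.card_union_of_disjoint h2] at h3
  refine ⟨fun e => ?_, by omega⟩
  rw [e, Finset.inter_self] at h3
  rw [e] at hA
  omega

theorem caseO1 (h : Cfg N i s t x y w) (hi : t + 1 ≤ i) (hs : t + 1 ≤ s) (his : 2 * t + 3 ≤ i + s)
    (hg : (x \ y).card + 1 ≤ t) {U1 U2 : Finset α} (hU1 : U1 ⊆ x ∩ y) (hU2 : U2 ⊆ x ∩ y)
    (hU : Disjoint U1 U2) (h1 : U1.card + (x \ y).card = t + 1)
    (h2 : U2.card + (x \ y).card = t + 1)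
    (hq1 : 1 ≤ (w ∩ ((x \ y) ∪ U2)).card) (hq2 : (w ∩ ((x \ y) ∪ U2)).card ≤ t)
    (hp : (w ∩ ((y \ x) ∪ U1)).card ≤ t) :
    IndPath N i t x y w := by
  have hxc := h.hx.2
  have hyc := h.hy.2
  have hg1 : 1 ≤ (x \ y).card := by
    rw [Nat.one_le_iff_ne_zero]
    intro h0
    rw [Finset.card_eq_zero, Finset.sdiff_eq_empty_iff_subset] at h0
    exact h.xy (Finset.eq_of_subset_of_card_le h0 (by omega))
  have hyx : (y \ x).card = (x \ y).card := by
    have e1 := Finset.card_sdiff_add_card_inter x y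
    have e2 := Finset.card_sdiff_add_card_inter y x
    rw [Finset.inter_comm y x] at e2
    omega
  have hU1x : ∀ e ∈ U1, e ∈ x ∧ e ∈ y := fun e he => Finset.mem_inter.1 (hU1 he)
  have hU2x : ∀ e ∈ U2, e ∈ x ∧ e ∈ y := fun e he => Finset.mem_inter.1 (hU2 he)
  have hZQd : Disjoint (x \ y) U2 := by
    rw [Finset.disjoint_left]
    intro e he he'
    exact (Finset.mem_sdiff.1 he).2 (hU2x e he').2
  have hZPd : Disjoint (y \ x) U1 := by
    rw [Finset.disjoint_left]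
    intro e he he'
    exact (Finset.mem_sdiff.1 he).2 (hU1x e he').1
  have hZQc : ((x \ y) ∪ U2).card = t + 1 := by
    rw [Finset.card_union_of_disjoint hZQd]
    omega
  have hZPc : ((y \ x) ∪ U1).card = t + 1 := by
    rw [Finset.card_union_of_disjoint hZPd]
    omega
  have hZQx : (x \ y) ∪ U2 ⊆ x :=
    Finset.union_subset Finset.sdiff_subset fun e he => (hU2x e he).1
  have hZPy : (y \ x) ∪ U1 ⊆ y :=
    Finset.union_subset Finset.sdiff_subset fun e he => (hU1x e he).2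
  have hZQP : Disjoint ((x \ y) ∪ U2) ((y \ x) ∪ U1) := by
    rw [Finset.disjoint_left]
    intro e he he'
    rw [Finset.mem_union, Finset.mem_sdiff] at he he'
    rcases he with he | he <;> rcases he' with he' | he'
    · exact he.2 he'.1
    · exact he.2 (hU1x e he').2
    · exact he'.2 (hU2x e he).1
    · exact Finset.disjoint_left.1 hU he' he
  have hZPx : (((y \ x) ∪ U1) ∩ x).card ≤ U1.card := by
    apply Finset.card_le_card
    intro e he
    rw [Finset.mem_inter, Finset.mem_union, Finset.mem_sdiff] at he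
    rcases he.1 with h3 | h3
    · exact absurd he.2 h3.2
    · exact h3
  have hZQy : (((x \ y) ∪ U2) ∩ y).card ≤ U2.card := by
    apply Finset.card_le_card
    intro e he
    rw [Finset.mem_inter, Finset.mem_union, Finset.mem_sdiff] at he
    rcases he.1 with h3 | h3
    · exact absurd he.2 h3.2
    · exact h3
  set ZQ := (x \ y) ∪ U2 with hZQ
  set ZP := (y \ x) ∪ U1 with hZP
  have hZQN : ZQ ⊆ N := hZQx.trans h.hx.1
  have hZPN : ZP ⊆ N := hZPy.trans h.hy.1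
  have hsp : ∀ Z V : Finset α, (Z ∩ V).card ≤ Z.card := fun Z V =>
    Finset.card_le_card Finset.inter_subset_left
  have hsd : ∀ Z V : Finset α, (Z \ V).card ≤ Z.card := fun Z V =>
    Finset.card_le_card Finset.sdiff_subset
  have hsum : (ZQ \ w).card + (ZQ ∩ w).card = ZQ.card := Finset.card_sdiff_add_card_inter ZQ w
  rw [Finset.inter_comm w ZQ] at hq1 hq2
  rw [Finset.inter_comm w ZP] at hp
  have hE : (∅ : Finset α) ⊆ N := Finset.empty_subset N
  refine glue_conn h (Itv N i t ZQ ZP) (Itv N i t ∅ ZQ) (fun A hA => hA.1) (fun A hA => hA.1)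
    ?_ ?_ ?_ ?_ ?_ ?_ ?_ ?_ ?_ ?_ ?_
  · intro A hA B hB
    exact itv_reach h.cN h.t1 hZQN hZPN hZQP (by omega) (by omega) (Or.inl (by omega)) hA hB
  · intro A hA B hB
    exact itv_reach h.cN h.t1 hE hZQN (Finset.disjoint_empty_left _) (by simp) (by omega)
      (Or.inl (by rw [Finset.card_empty]; omega)) hA hB
  · rintro ⟨-, h3, -⟩
    rw [Finset.inter_eq_left.2 h3] at hq2
    omega
  · rintro ⟨-, -, h3⟩
    rw [Finset.disjoint_iff_inter_eq_empty.1 h3.symm] at hq1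
    simp at hq1
  · exact nbr_itv h.cN h.hw hZQN hZPN hZQP (by omega) (by omega) hp
      (by have := hsd ZP w; omega)
  · exact nbr_itv h.cN h.hw hE hZQN (Finset.disjoint_empty_left _) (by simp) (by simp) hq2
      (by have := hsd ZQ w; omega)
  · right
    refine nbr_itv h.cN h.hx hZQN hZPN hZQP (by have := hsp ZQ x; omega) ?_ (by omega)
      (by have := hsd ZP x; omega)
    rw [Finset.sdiff_eq_empty_iff_subset.2 hZQx]
    simp
  · right
    exact nbr_itv h.cN h.hy hE hZQN (Finset.disjoint_empty_left _) (by simp) (by simp)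
      (by omega) (by have := hsd ZQ y; omega)
  · rintro B ⟨-, -, hB⟩
    exact caseO1_sep hxc hZQx hB (by omega)
  · rintro A ⟨-, -, hA⟩
    have h3 := caseO1_sep hyc hZPy hA (by omega)
    exact ⟨h3.1.symm, by rw [Finset.inter_comm]; exact h3.2⟩
  · rintro A ⟨hA, hA', -⟩ B ⟨-, -, hB⟩
    exact caseO1_sep hA.2 hA' hB (by omega)

end Pool.Agent.H4.Joh
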