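import Pool.Agent.H4.Joh.AdjCase

/-!
# Case R1a

JOB.  `1 ≤ i < t`, `s ≥ 1`, `x ∩ y ∩ w = ∅`, `|(x ∩ w) \ y| ≥ i + 1`, `|y \ (x ∪ w)| ≥ t`.
Choose `V ⊆ (x ∩ w) \ y`, `|V| = i`, `τ ∈ ((x ∩ w) \ y) \ V`, `F ⊆ y \ (x ∪ w)`, `|F| = t`,
`z1 ≠ u` in `F`, `z ∈ x \ w`, `p = V ∪ F` (`|p| = i + t`, `p ∩ x = V`, `p ∩ w = V`,
`p ∩ y = F`).  `glue` with `P = {x, p}`, `Q = {y} ∪ K`, `K = Kns V {τ, z1} {z, u}`.
* `w → p → x`.  `K` is connected (`kns_reach`).  `w` has an odd neighbour (`nbr_kns` after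
  `kns_symm`; `C = V ∪ {z, u}`: `|C ∩ w| = i`, `|C \ w| = 2 ≤ t`; `D = {τ, z1}`: `|D ∩ w| = 1`,
  `|D \ w| = 1 ≤ s`).  `y` has an even neighbour (`C = V ∪ {τ, z1}`: `|C ∩ y| = 1 ≤ i`,
  `|C \ y| = i + 1 ≤ t`; `D = {z, u}`: `|D ∩ y| ≤ 2 ≤ t`, `|D \ y| ≤ 1 ≤ s` as `u ∈ y`).
* `w ∉ K`: `z1 ∉ w` and `u ∉ w`.
* separation: `|p ∩ y| = t ≠ i`; `p ⊇ V ∪ {z1, u}` and `x ⊇ V ∪ {τ, z}` meet even and odd members in at
  least `i + 1` elements and are not members (`p` contains `z1` and `u`; `x` contains `τ` and `z`).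
-/

namespace Pool.Agent.H4.Joh

variable {α : Type*} [DecidableEq α] {N x y w : Finset α} {i s t : ℕ}

private lemma card_ne_of_common {V A B : Finset α} {e : α} (hVi : V.card = i) (heV : e ∉ V)
    (hVA : V ⊆ A) (hVB : V ⊆ B) (heA : e ∈ A) (heB : e ∈ B) : (A ∩ B).card ≠ i := by
  have h1 : insert e V ⊆ A ∩ B := by
    intro a ha
    rw [Finset.mem_insert] at ha
    rw [Finset.mem_inter]
    rcases ha with rfl | ha
    · exact ⟨heA, heB⟩
    · exact ⟨hVA ha, hVB ha⟩
  have h2 := Finset.card_le_card h1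
  rw [Finset.card_insert_of_notMem heV] at h2
  omega

private lemma pair_disj {V : Finset α} {a b : α} (ha : a ∉ V) (hb : b ∉ V) :
    Disjoint V {a, b} := by
  rw [Finset.disjoint_right]
  intro c hc
  rw [Finset.mem_insert, Finset.mem_singleton] at hc
  rcases hc with rfl | rfl
  · exact ha
  · exact hb

private lemma pair_disj_pair {a b c d : α} (hac : a ≠ c) (had : a ≠ d) (hbc : b ≠ c)
    (hbd : b ≠ d) : Disjoint ({a, b} : Finset α) {c, d} := by
  rw [Finset.disjoint_left]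
  intro e he he'
  rw [Finset.mem_insert, Finset.mem_singleton] at he he'
  rcases he with rfl | rfl <;> rcases he' with h | h
  · exact hac h
  · exact had h
  · exact hbc h
  · exact hbd h

private lemma pair_sub {a b : α} (ha : a ∈ N) (hb : b ∈ N) : ({a, b} : Finset α) ⊆ N := by
  intro c hc
  rw [Finset.mem_insert, Finset.mem_singleton] at hc
  rcases hc with rfl | rfl
  · exact ha
  · exact hb

private lemma itv_mem {V C D A : Finset α} (h : A ∈ Itv N i t (V ∪ C) D) :
    V ⊆ A ∧ (∀ c ∈ C, c ∈ A) ∧ ∀ d ∈ D, d ∉ A :=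
  ⟨Finset.subset_union_left.trans h.2.1, fun _ hc => h.2.1 (Finset.mem_union_right _ hc),
    fun _ hd ha => Finset.disjoint_left.1 h.2.2 ha hd⟩

theorem caseR1a (h : Cfg N i s t x y w) (hi : 1 ≤ i) (hit : i + 1 ≤ t) (hs : 1 ≤ s)
    (hD : x ∩ y ∩ w = ∅) (hb : i + 1 ≤ ((x ∩ w) \ y).card) (hY : t ≤ (y \ (x ∪ w)).card) :
    IndPath N i t x y w := by
  have hxN : x ⊆ N := h.hx.1
  have hyN : y ⊆ N := h.hy.1
  have hwN : w ⊆ N := h.hw.1
  -- `V` and `τ`
  obtain ⟨V', hV', hV'c⟩ := Finset.exists_subset_card_eq hb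
  obtain ⟨τ, hτ⟩ : V'.Nonempty := Finset.card_pos.1 (by omega)
  obtain ⟨V, hVdef⟩ : ∃ V, V = V'.erase τ := ⟨_, rfl⟩
  have hVsub : V ⊆ (x ∩ w) \ y := by
    rw [hVdef]
    exact (Finset.erase_subset _ _).trans hV'
  have hVi : V.card = i := by
    rw [hVdef, Finset.card_erase_of_mem hτ]
    omega
  have hτV : τ ∉ V := by
    rw [hVdef]
    simp
  have hτ' := hV' hτ
  rw [Finset.mem_sdiff, Finset.mem_inter] at hτ'
  obtain ⟨⟨hτx, hτw⟩, hτy⟩ := hτ'
  have hVx : V ⊆ x := fun a ha => (Finset.mem_inter.1 (Finset.mem_sdiff.1 (hVsub ha)).1).1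
  have hVw : V ⊆ w := fun a ha => (Finset.mem_inter.1 (Finset.mem_sdiff.1 (hVsub ha)).1).2
  have hVy : ∀ a ∈ V, a ∉ y := fun a ha => (Finset.mem_sdiff.1 (hVsub ha)).2
  -- `F`, `z1`, `u`
  obtain ⟨F, hF, hFc⟩ := Finset.exists_subset_card_eq hY
  have hFy : F ⊆ y := fun a ha => (Finset.mem_sdiff.1 (hF ha)).1
  have hFx : ∀ a ∈ F, a ∉ x := fun a ha hx =>
    (Finset.mem_sdiff.1 (hF ha)).2 (Finset.mem_union_left _ hx)
  have hFw : ∀ a ∈ F, a ∉ w := fun a ha hx =>
    (Finset.mem_sdiff.1 (hF ha)).2 (Finset.mem_union_right _ hx)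
  obtain ⟨z1, hz1, u, hu, h1u⟩ : ∃ a ∈ F, ∃ b ∈ F, a ≠ b :=
    Finset.one_lt_card.1 (by omega)
  -- `z`
  obtain ⟨z, hz⟩ : (x \ w).Nonempty := by
    rw [Finset.nonempty_iff_ne_empty]
    intro h1
    rw [Finset.sdiff_eq_empty_iff_subset] at h1
    exact h.wx (Finset.eq_of_subset_of_card_le h1 (by rw [h.hx.2, h.hw.2])).symm
  rw [Finset.mem_sdiff] at hz
  obtain ⟨hzx, hzw⟩ := hz
  have hτz : τ ≠ z := fun he => hzw (he ▸ hτw)
  have hτz1 : τ ≠ z1 := fun he => hFx z1 hz1 (he ▸ hτx)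
  have hτu : τ ≠ u := fun he => hFx u hu (he ▸ hτx)
  have hzz1 : z1 ≠ z := fun he => hFx z1 hz1 (he ▸ hzx)
  have hzu : z ≠ u := fun he => hFx u hu (he ▸ hzx)
  have hz1V : z1 ∉ V := fun he => hFx z1 hz1 (hVx he)
  have huV : u ∉ V := fun he => hFx u hu (hVx he)
  have hzV : z ∉ V := fun he => hzw (hVw he)
  have hVN : V ⊆ N := hVx.trans hxN
  -- `p`
  have hVF : Disjoint V F := by
    rw [Finset.disjoint_left]
    intro a ha ha'
    exact hVy a ha (hFy ha')
  obtain ⟨p, hp⟩ : ∃ p, p = V ∪ F := ⟨_, rfl⟩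
  have hpv : Vtx N i t p := by
    refine ⟨?_, ?_⟩
    · rw [hp]
      exact Finset.union_subset hVN (hFy.trans hyN)
    · rw [hp, Finset.card_union_of_disjoint hVF, hVi, hFc]
  have hVp : V ⊆ p := by
    rw [hp]
    exact Finset.subset_union_left
  have hFp : F ⊆ p := by
    rw [hp]
    exact Finset.subset_union_right
  have hwp : w ∩ p = V := by
    ext a
    rw [Finset.mem_inter, hp, Finset.mem_union]
    constructor
    · rintro ⟨h1, h2 | h2⟩
      · exact h2
      · exact absurd h1 (hFw a h2)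
    · exact fun h1 => ⟨hVw h1, Or.inl h1⟩
  have hpx : p ∩ x = V := by
    ext a
    rw [Finset.mem_inter, hp, Finset.mem_union]
    constructor
    · rintro ⟨h2 | h2, h1⟩
      · exact h2
      · exact absurd h1 (hFx a h2)
    · exact fun h1 => ⟨Or.inl h1, hVx h1⟩
  have hpy : p ∩ y = F := by
    ext a
    rw [Finset.mem_inter, hp, Finset.mem_union]
    constructor
    · rintro ⟨h2 | h2, h1⟩
      · exact absurd h1 (hVy a h2)
      · exact h2
    · exact fun h1 => ⟨Or.inr h1, hFy h1⟩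
  have hVne : V.Nonempty := Finset.card_pos.1 (by omega)
  obtain ⟨v, hv⟩ := hVne
  -- neighbours in the Kneser family
  have hw' : ∃ q ∈ Kns N i t V {τ, z1} {z, u}, (w ∩ q).card = i := by
    rw [kns_symm]
    apply nbr_kns h.cN h.hw hVN (pair_sub (hxN hzx) (hyN (hFy hu)))
      (pair_sub (hxN hτx) (hyN (hFy hz1))) (pair_disj hτV hz1V)
      (pair_disj_pair hτz.symm hzz1.symm hτu.symm h1u.symm)
    · have h1 : (V ∪ {z, u}) ∩ w ⊆ V := by
        intro c hc
        rw [Finset.mem_inter, Finset.mem_union, Finset.mem_insert, Finset.mem_singleton] at hc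
        rcases hc with ⟨h1 | h1 | h1, h2⟩
        · exact h1
        · exact absurd (h1 ▸ h2) hzw
        · exact absurd (h1 ▸ h2) (hFw u hu)
      exact (Finset.card_le_card h1).trans hVi.le
    · have h1 : (V ∪ {z, u}) \ w ⊆ {z, u} := by
        intro c hc
        rw [Finset.mem_sdiff, Finset.mem_union] at hc
        rcases hc with ⟨h1 | h1, h2⟩
        · exact absurd (hVw h1) h2
        · exact h1
      have h2 := (Finset.card_le_card h1).trans Finset.card_le_two
      omega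
    · have h1 : (({τ, z1} : Finset α) ∩ w).card ≤ 2 :=
        (Finset.card_le_card Finset.inter_subset_left).trans Finset.card_le_two
      omega
    · have h1 : ({τ, z1} : Finset α) \ w ⊆ {z1} := by
        intro c hc
        rw [Finset.mem_sdiff, Finset.mem_insert, Finset.mem_singleton] at hc
        rw [Finset.mem_singleton]
        rcases hc with ⟨h1 | h1, h2⟩
        · exact absurd (h1 ▸ hτw) h2
        · exact h1
      have := Finset.card_le_card h1
      rw [Finset.card_singleton] at this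
      omega
  have hy' : ∃ q ∈ Kns N i t V {τ, z1} {z, u}, (y ∩ q).card = i := by
    apply nbr_kns h.cN h.hy hVN (pair_sub (hxN hτx) (hyN (hFy hz1)))
      (pair_sub (hxN hzx) (hyN (hFy hu))) (pair_disj hzV huV)
      (pair_disj_pair hτz hτu hzz1 h1u)
    · have h1 : (V ∪ {τ, z1}) ∩ y ⊆ {z1} := by
        intro c hc
        rw [Finset.mem_inter, Finset.mem_union, Finset.mem_insert, Finset.mem_singleton] at hc
        rw [Finset.mem_singleton]
        rcases hc with ⟨h1 | h1 | h1, h2⟩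
        · exact absurd h2 (hVy c h1)
        · exact absurd (h1 ▸ h2) hτy
        · exact h1
      have := Finset.card_le_card h1
      rw [Finset.card_singleton] at this
      omega
    · have h1 : (V ∪ {τ, z1}) \ y ⊆ insert τ V := by
        intro c hc
        rw [Finset.mem_sdiff, Finset.mem_union, Finset.mem_insert, Finset.mem_singleton] at hc
        rw [Finset.mem_insert]
        rcases hc with ⟨h1 | h1 | h1, h2⟩
        · exact Or.inr h1
        · exact Or.inl h1
        · exact absurd (h1 ▸ hFy hz1) h2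
      have := Finset.card_le_card h1
      rw [Finset.card_insert_of_notMem hτV] at this
      omega
    · have h1 : (({z, u} : Finset α) ∩ y).card ≤ 2 :=
        (Finset.card_le_card Finset.inter_subset_left).trans Finset.card_le_two
      omega
    · have h1 : ({z, u} : Finset α) \ y ⊆ {z} := by
        intro c hc
        rw [Finset.mem_sdiff, Finset.mem_insert, Finset.mem_singleton] at hc
        rw [Finset.mem_singleton]
        rcases hc with ⟨h1 | h1, h2⟩
        · exact h1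
        · exact absurd (h1 ▸ hFy hu) h2
      have := Finset.card_le_card h1
      rw [Finset.card_singleton] at this
      omega
  have hconn : ∀ A ∈ Kns N i t V {τ, z1} {z, u}, ∀ B ∈ Kns N i t V {τ, z1} {z, u},
      Reach i (Kns N i t V {τ, z1} {z, u}) A B := by
    intro A hA B hB
    exact kns_reach h.cN (by omega) hs hVN (pair_sub (hxN hτx) (hyN (hFy hz1)))
      (pair_sub (hxN hzx) (hyN (hFy hu))) (pair_disj hτV hz1V) (pair_disj hzV huV)
      (pair_disj_pair hτz hτu hzz1 h1u) hVi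
      ((Finset.card_le_two).trans (by omega)) ((Finset.card_le_two).trans (by omega)) hA hB
  refine glue h {x, p} (insert y (Kns N i t V {τ, z1} {z, u})) ?_ ?_ ?_ ?_ ?_ ?_
    (reach_via hconn hw' (Or.inr hy'))
  · rintro A (rfl | rfl)
    · exact h.hx
    · exact hpv
  · rintro A (rfl | hA)
    · exact h.hy
    · exact kns_vtx hA
  · rintro (h1 | h1)
    · exact h.wx h1
    · have h2 : w = p := h1
      exact hFw u hu (h2 ▸ hFp hu)
  · rintro (h1 | h1 | h1)
    · exact h.wy h1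
    · exact hFw z1 hz1 ((itv_mem h1).2.1 z1 (by simp))
    · exact hFw u hu ((itv_mem h1).2.1 u (by simp))
  · rintro A (rfl | rfl) B (rfl | hB)
    · exact ⟨h.xy, h.nadj⟩
    · rcases hB with hB | hB
      · obtain ⟨b1, b2, b3⟩ := itv_mem hB
        refine ⟨?_, card_ne_of_common (e := τ) hVi hτV hVx b1 hτx (b2 τ (by simp))⟩
        rintro rfl
        exact b3 z (by simp) hzx
      · obtain ⟨b1, b2, b3⟩ := itv_mem hB
        refine ⟨?_, card_ne_of_common (e := z) hVi hzV hVx b1 hzx (b2 z (by simp))⟩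
        rintro rfl
        exact b3 τ (by simp) hτx
    · refine ⟨?_, ?_⟩
      · rintro rfl
        exact hVy v hv (hVp hv)
      · rw [hpy, hFc]
        omega
    · rcases hB with hB | hB
      · obtain ⟨b1, b2, b3⟩ := itv_mem hB
        refine ⟨?_, card_ne_of_common (e := z1) hVi hz1V hVp b1 (hFp hz1) (b2 z1 (by simp))⟩
        rintro rfl
        exact b3 u (by simp) (hFp hu)
      · obtain ⟨b1, b2, b3⟩ := itv_mem hB
        refine ⟨?_, card_ne_of_common (e := u) hVi huV hVp b1 (hFp hu) (b2 u (by simp))⟩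
        rintro rfl
        exact b3 z1 (by simp) (hFp hz1)
  · refine Relation.ReflTransGen.tail (b := p) (Relation.ReflTransGen.single ⟨?_, ?_⟩) ⟨?_, ?_⟩
    · rw [hwp, hVi]
    · exact Or.inr rfl
    · rw [hpx, hVi]
    · exact Or.inl rfl

end Pool.Agent.H4.Joh
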