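import Pool.Agent.H4.Joh.AdjCase

/-!
# Case R1b

JOB.  `1 ≤ i ≤ s < t`, covering (`x ∪ y ∪ w = N`, `x ∩ y ∩ w = ∅`), `b = |(x ∩ w) \ y| = |x ∩ w|`,
`b ≥ i + 1`, `t < b + s` (`b > θ = t - s`), `b + s < i + t`.
Put `b0 = i + t - s - b` (`1 ≤ b0 ≤ i - 1`) and `b1 = b + s - t = b - θ` (`b1 + b0 = i`).
Note `|y \ (x ∪ w)| = |N| - |x ∪ w| = 2t + i + s - (2(i + t) - b) = b + s - i`, `|x \ w| = |w \ x| =
i + t - b`.
Choose `V1 ⊆ x ∩ w`, `|V1| = b1`; `V2 ⊆ w \ x`, `|V2| = b0`; `V = V1 ∪ V2` (`|V| = i`);
`S ⊆ x \ w`, `|S| = b0`; `x1 ∈ (x \ w) \ S` (room: `i + t - b ≥ b0 + 1` iff `s ≥ 1`);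
`T ⊆ (x ∩ w) \ V1`, `|T| = b0 + 1` (room: `b - b1 = t - s ≥ b0 + 1` iff `b ≥ i + 1`);
`z1 ∈ y \ (x ∪ w)`; `p = V ∪ (y \ (x ∪ w)) ∪ S`.
`|p| = i + (b + s - i) + b0 = i + t`, `p ∩ x = V1 ∪ S` (`i`), `p ∩ w = V` (`i`).
`glue` with `P = {x, p}`, `Q = {y} ∪ K`, `K = Kns V (insert z1 T) (insert x1 S)`
(sizes `b0 + 2 ≤ i + 1 ≤ t` and `b0 + 1 ≤ t`; `V`, `insert z1 T`, `insert x1 S` pairwise disjoint).
* `w → p → x`.  `w` has an odd neighbour (`nbr_kns` after `kns_symm`): `C = V ∪ S ∪ {x1}`:
  `|C ∩ w| = i`, `|C \ w| = b0 + 1 ≤ t`; `D = T ∪ {z1}`: `|D ∩ w| = b0 + 1 ≤ t`, `|D \ w| = 1 ≤ s`.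
* `y` has an even neighbour: `C = V ∪ T ∪ {z1}`; with `v = |V2 ∩ y|` (`V1`, `T` are outside `y`):
  `|C ∩ y| = v + 1 ≤ b0 + 1 ≤ i`, `|C \ y| = (i - v) + (b0 + 1) ≤ t` because
  `2i + 1 ≤ s + b + v`; `D = S ∪ {x1}`: `|D ∩ y| ≤ b0 + 1 ≤ t`, `|D \ y| ≤ b0 + 1 ≤ i ≤ s`.
* `w ∉ K` as `z1 ∉ w`, `x1 ∉ w`.
* separation: `|p ∩ y| ≥ |y \ (x ∪ w)| = b + s - i ≥ i + 1`; `p ⊇ V ∪ {z1}` and `p ⊇ V ∪ S` (`S`
  nonempty) meet even resp. odd members in at least `i + 1` elements; `x ⊇ V1 ∪ T` (`b1 + b0 + 1 =
  i + 1`) and `x ⊇ V1 ∪ S ∪ {x1}` (`i + 1`) too; `x`, `p` are not in `K` since they contain elements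
  of both `insert z1 T` and `insert x1 S`.
-/

namespace Pool.Agent.H4.Joh

variable {α : Type*} [DecidableEq α] {N x y w : Finset α} {i s t : ℕ}

private lemma card_ne_of_sub {Z A B : Finset α} (hZ : i + 1 ≤ Z.card) (h1 : Z ⊆ A) (h2 : Z ⊆ B) :
    (A ∩ B).card ≠ i := by
  have := Finset.card_le_card (Finset.subset_inter h1 h2)
  omega

private lemma itv_mem {V C D A : Finset α} (h : A ∈ Itv N i t (V ∪ C) D) :
    V ⊆ A ∧ C ⊆ A ∧ ∀ d ∈ D, d ∉ A :=
  ⟨Finset.subset_union_left.trans h.2.1, Finset.subset_union_right.trans h.2.1,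
    fun _ hd ha => Finset.disjoint_left.1 h.2.2 ha hd⟩

theorem caseR1b (h : Cfg N i s t x y w) (hi : 1 ≤ i) (his : i ≤ s) (hst : s + 1 ≤ t)
    (hD : x ∩ y ∩ w = ∅) (hO : N ⊆ x ∪ y ∪ w) (hb : i + 1 ≤ (x ∩ w).card)
    (hb1 : t + 1 ≤ (x ∩ w).card + s) (hb2 : (x ∩ w).card + s + 1 ≤ i + t) :
    IndPath N i t x y w := by
  have hxN : x ⊆ N := h.hx.1
  have hyN : y ⊆ N := h.hy.1
  have hwN : w ⊆ N := h.hw.1
  have hxc := h.hx.2
  have hyc := h.hy.2
  have hwc := h.hw.2
  have hNc := h.cN
  have hD' : ∀ a, a ∈ x → a ∈ y → a ∉ w := by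
    intro a h1 h2 h3
    have h4 : a ∈ x ∩ y ∩ w := by simp [h1, h2, h3]
    rw [hD] at h4
    simp at h4
  -- sizes
  obtain ⟨b, hbd⟩ : ∃ b, b = (x ∩ w).card := ⟨_, rfl⟩
  rw [← hbd] at hb hb1 hb2
  have hwx : (w \ x).card + b = i + t := by
    have h1 := Finset.card_sdiff_add_card_inter w x
    rw [Finset.inter_comm] at h1
    omega
  have hxw : (x \ w).card + b = i + t := by
    have h1 := Finset.card_sdiff_add_card_inter x w
    omega
  have hYc : (y \ (x ∪ w)).card + i = b + s := by
    have h1 : y \ (x ∪ w) = N \ (x ∪ w) := by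
      ext a
      have := @hO a
      have := @hyN a
      simp only [Finset.mem_sdiff, Finset.mem_union] at *
      tauto
    have h2 := Finset.card_union_add_card_inter x w
    have h3 := Finset.card_sdiff_add_card_eq_card (Finset.union_subset hxN hwN)
    rw [h1]
    omega
  -- choices
  obtain ⟨b0, hb0⟩ : ∃ b0, b0 + b + s = i + t := ⟨i + t - b - s, by omega⟩
  obtain ⟨b1, hb1'⟩ : ∃ b1, b1 + t = b + s := ⟨b + s - t, by omega⟩
  obtain ⟨V1, hV1, hV1c⟩ : ∃ V1 ⊆ x ∩ w, V1.card = b1 :=
    Finset.exists_subset_card_eq (by omega)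
  obtain ⟨V2, hV2, hV2c⟩ : ∃ V2 ⊆ w \ x, V2.card = b0 :=
    Finset.exists_subset_card_eq (by omega)
  obtain ⟨S, hS, hSc⟩ : ∃ S ⊆ x \ w, S.card = b0 :=
    Finset.exists_subset_card_eq (by omega)
  obtain ⟨x1, hx1⟩ : ((x \ w) \ S).Nonempty := by
    rw [← Finset.card_pos]
    have := Finset.card_sdiff_add_card_eq_card hS
    omega
  obtain ⟨T, hT, hTc⟩ : ∃ T ⊆ (x ∩ w) \ V1, T.card = b0 + 1 := by
    apply Finset.exists_subset_card_eq
    have := Finset.card_sdiff_add_card_eq_card hV1
    omega
  obtain ⟨z1, hz1⟩ : (y \ (x ∪ w)).Nonempty := by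
    rw [← Finset.card_pos]
    omega
  obtain ⟨V, hV⟩ : ∃ V, V = V1 ∪ V2 := ⟨_, rfl⟩
  have hVi : V.card = i := by
    rw [hV, Finset.card_union_of_disjoint]
    · omega
    · rw [Finset.disjoint_left]
      grind only [= Finset.subset_iff, = Finset.mem_union, = Finset.mem_inter, = Finset.mem_sdiff, = Finset.mem_insert, = Finset.mem_singleton]
  have hVN : V ⊆ N := by grind only [= Finset.subset_iff, = Finset.mem_union, = Finset.mem_inter, = Finset.mem_sdiff, = Finset.mem_insert, = Finset.mem_singleton]
  have hz1c : (insert z1 T).card = b0 + 2 := by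
    rw [Finset.card_insert_of_notMem (by grind only [= Finset.subset_iff, = Finset.mem_union, = Finset.mem_inter, = Finset.mem_sdiff, = Finset.mem_insert, = Finset.mem_singleton])]
    omega
  have hx1c : (insert x1 S).card = b0 + 1 := by
    rw [Finset.card_insert_of_notMem (by grind only [= Finset.subset_iff, = Finset.mem_union, = Finset.mem_inter, = Finset.mem_sdiff, = Finset.mem_insert, = Finset.mem_singleton])]
    omega
  have hdVC : Disjoint V (insert z1 T) := by
    rw [Finset.disjoint_left]
    grind only [= Finset.subset_iff, = Finset.mem_union, = Finset.mem_inter, = Finset.mem_sdiff, = Finset.mem_insert, = Finset.mem_singleton]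
  have hdVD : Disjoint V (insert x1 S) := by
    rw [Finset.disjoint_left]
    grind only [= Finset.subset_iff, = Finset.mem_union, = Finset.mem_inter, = Finset.mem_sdiff, = Finset.mem_insert, = Finset.mem_singleton]
  have hdCD : Disjoint (insert z1 T) (insert x1 S) := by
    rw [Finset.disjoint_left]
    grind only [= Finset.subset_iff, = Finset.mem_union, = Finset.mem_inter, = Finset.mem_sdiff, = Finset.mem_insert, = Finset.mem_singleton]
  have hCN : insert z1 T ⊆ N := by grind only [= Finset.subset_iff, = Finset.mem_union, = Finset.mem_inter, = Finset.mem_sdiff, = Finset.mem_insert, = Finset.mem_singleton]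
  have hDN : insert x1 S ⊆ N := by grind only [= Finset.subset_iff, = Finset.mem_union, = Finset.mem_inter, = Finset.mem_sdiff, = Finset.mem_insert, = Finset.mem_singleton]
  -- `p`
  obtain ⟨p, hp⟩ : ∃ p, p = V ∪ (y \ (x ∪ w)) ∪ S := ⟨_, rfl⟩
  have hpv : Vtx N i t p := by
    refine ⟨by grind only [= Finset.subset_iff, = Finset.mem_union, = Finset.mem_inter, = Finset.mem_sdiff, = Finset.mem_insert, = Finset.mem_singleton], ?_⟩
    rw [hp, Finset.card_union_of_disjoint, Finset.card_union_of_disjoint]
    · omega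
    · rw [Finset.disjoint_left]
      grind only [= Finset.subset_iff, = Finset.mem_union, = Finset.mem_inter, = Finset.mem_sdiff, = Finset.mem_insert, = Finset.mem_singleton]
    · rw [Finset.disjoint_left]
      grind only [= Finset.subset_iff, = Finset.mem_union, = Finset.mem_inter, = Finset.mem_sdiff, = Finset.mem_insert, = Finset.mem_singleton]
  have hwp : (w ∩ p).card = i := by
    have : w ∩ p = V := by
      ext a
      grind only [= Finset.subset_iff, = Finset.mem_union, = Finset.mem_inter, = Finset.mem_sdiff, = Finset.mem_insert, = Finset.mem_singleton]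
    rw [this, hVi]
  have hpx : (p ∩ x).card = i := by
    have : p ∩ x = V1 ∪ S := by
      ext a
      grind only [= Finset.subset_iff, = Finset.mem_union, = Finset.mem_inter, = Finset.mem_sdiff, = Finset.mem_insert, = Finset.mem_singleton]
    rw [this, Finset.card_union_of_disjoint]
    · omega
    · rw [Finset.disjoint_left]
      grind only [= Finset.subset_iff, = Finset.mem_union, = Finset.mem_inter, = Finset.mem_sdiff, = Finset.mem_insert, = Finset.mem_singleton]
  have hw' : ∃ q ∈ Kns N i t V (insert z1 T) (insert x1 S), (w ∩ q).card = i := by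
    rw [kns_symm]
    apply nbr_kns h.cN h.hw hVN hDN hCN hdVC hdCD.symm
    · have h1 : (V ∪ insert x1 S) ∩ w ⊆ V := by grind only [= Finset.subset_iff, = Finset.mem_union, = Finset.mem_inter, = Finset.mem_sdiff, = Finset.mem_insert, = Finset.mem_singleton]
      have := Finset.card_le_card h1
      omega
    · have h1 : (V ∪ insert x1 S) \ w ⊆ insert x1 S := by grind only [= Finset.subset_iff, = Finset.mem_union, = Finset.mem_inter, = Finset.mem_sdiff, = Finset.mem_insert, = Finset.mem_singleton]
      have := Finset.card_le_card h1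
      omega
    · have h1 : (insert z1 T) ∩ w ⊆ insert z1 T := Finset.inter_subset_left
      have := Finset.card_le_card h1
      omega
    · have h1 : (insert z1 T) \ w ⊆ {z1} := by grind only [= Finset.subset_iff, = Finset.mem_union, = Finset.mem_inter, = Finset.mem_sdiff, = Finset.mem_insert, = Finset.mem_singleton]
      have := Finset.card_le_card h1
      rw [Finset.card_singleton] at this
      omega
  have hy' : ∃ q ∈ Kns N i t V (insert z1 T) (insert x1 S), (y ∩ q).card = i := by
    apply nbr_kns h.cN h.hy hVN hCN hDN hdVD hdCD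
    · have h1 : (V ∪ insert z1 T) ∩ y ⊆ insert z1 V2 := by grind only [= Finset.subset_iff, = Finset.mem_union, = Finset.mem_inter, = Finset.mem_sdiff, = Finset.mem_insert, = Finset.mem_singleton]
      have := Finset.card_le_card h1
      rw [Finset.card_insert_of_notMem (by grind only [= Finset.subset_iff, = Finset.mem_union, = Finset.mem_inter, = Finset.mem_sdiff, = Finset.mem_insert, = Finset.mem_singleton])] at this
      omega
    · have h1 : (V ∪ insert z1 T) \ y ⊆ V ∪ T := by grind only [= Finset.subset_iff, = Finset.mem_union, = Finset.mem_inter, = Finset.mem_sdiff, = Finset.mem_insert, = Finset.mem_singleton]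
      have := Finset.card_le_card h1
      have h2 := Finset.card_union_le V T
      omega
    · have h1 : (insert x1 S) ∩ y ⊆ insert x1 S := Finset.inter_subset_left
      have := Finset.card_le_card h1
      omega
    · have h1 : (insert x1 S) \ y ⊆ insert x1 S := Finset.sdiff_subset
      have := Finset.card_le_card h1
      omega
  have hconn : ∀ A ∈ Kns N i t V (insert z1 T) (insert x1 S),
      ∀ B ∈ Kns N i t V (insert z1 T) (insert x1 S),
      Reach i (Kns N i t V (insert z1 T) (insert x1 S)) A B := by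
    intro A hA B hB
    exact kns_reach h.cN (by omega) (by omega) hVN hCN hDN hdVC hdVD hdCD hVi
      (by omega) (by omega) hA hB
  have hTne : T.Nonempty := Finset.card_pos.1 (by omega)
  obtain ⟨τ, hτ⟩ := hTne
  have hSne : S.Nonempty := Finset.card_pos.1 (by omega)
  obtain ⟨σ, hσ⟩ := hSne
  have hV1ne : V1.Nonempty := Finset.card_pos.1 (by omega)
  obtain ⟨v, hv⟩ := hV1ne
  refine glue h {x, p} (insert y (Kns N i t V (insert z1 T) (insert x1 S))) ?_ ?_ ?_ ?_ ?_ ?_
    (reach_via hconn hw' (Or.inr hy'))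
  · rintro A (rfl | rfl)
    · exact h.hx
    · exact hpv
  · rintro A (rfl | hA)
    · exact h.hy
    · exact kns_vtx hA
  · rintro (h1 | h1)
    · exact h.wx h1
    · have h2 : w = p := h1
      have h3 : z1 ∈ p := by grind only [= Finset.subset_iff, = Finset.mem_union, = Finset.mem_inter, = Finset.mem_sdiff, = Finset.mem_insert, = Finset.mem_singleton]
      have h4 : z1 ∉ w := by grind only [= Finset.subset_iff, = Finset.mem_union, = Finset.mem_inter, = Finset.mem_sdiff, = Finset.mem_insert, = Finset.mem_singleton]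
      exact h4 (h2 ▸ h3)
  · rintro (h1 | h1 | h1)
    · exact h.wy h1
    · have h2 := (itv_mem h1).2.1
      grind only [= Finset.subset_iff, = Finset.mem_union, = Finset.mem_inter, = Finset.mem_sdiff, = Finset.mem_insert, = Finset.mem_singleton]
    · have h2 := (itv_mem h1).2.1
      grind only [= Finset.subset_iff, = Finset.mem_union, = Finset.mem_inter, = Finset.mem_sdiff, = Finset.mem_insert, = Finset.mem_singleton]
  · rintro A (rfl | rfl) B (rfl | hB)
    · exact ⟨h.xy, h.nadj⟩
    · rcases hB with hB | hB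
      · obtain ⟨b1, b2, b3⟩ := itv_mem hB
        refine ⟨?_, card_ne_of_sub (Z := V1 ∪ T) ?_ (by grind only [= Finset.subset_iff, = Finset.mem_union, = Finset.mem_inter, = Finset.mem_sdiff, = Finset.mem_insert, = Finset.mem_singleton]) (by grind only [= Finset.subset_iff, = Finset.mem_union, = Finset.mem_inter, = Finset.mem_sdiff, = Finset.mem_insert, = Finset.mem_singleton])⟩
        · rintro rfl
          exact b3 x1 (by simp) (by grind only [= Finset.subset_iff, = Finset.mem_union, = Finset.mem_inter, = Finset.mem_sdiff, = Finset.mem_insert, = Finset.mem_singleton])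
        · rw [Finset.card_union_of_disjoint]
          · omega
          · rw [Finset.disjoint_left]
            grind only [= Finset.subset_iff, = Finset.mem_union, = Finset.mem_inter, = Finset.mem_sdiff, = Finset.mem_insert, = Finset.mem_singleton]
      · obtain ⟨b1, b2, b3⟩ := itv_mem hB
        refine ⟨?_, card_ne_of_sub (Z := V1 ∪ insert x1 S) ?_ (by grind only [= Finset.subset_iff, = Finset.mem_union, = Finset.mem_inter, = Finset.mem_sdiff, = Finset.mem_insert, = Finset.mem_singleton]) (by grind only [= Finset.subset_iff, = Finset.mem_union, = Finset.mem_inter, = Finset.mem_sdiff, = Finset.mem_insert, = Finset.mem_singleton])⟩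
        · rintro rfl
          exact b3 τ (by simp [hτ]) (by grind only [= Finset.subset_iff, = Finset.mem_union, = Finset.mem_inter, = Finset.mem_sdiff, = Finset.mem_insert, = Finset.mem_singleton])
        · rw [Finset.card_union_of_disjoint]
          · omega
          · rw [Finset.disjoint_left]
            grind only [= Finset.subset_iff, = Finset.mem_union, = Finset.mem_inter, = Finset.mem_sdiff, = Finset.mem_insert, = Finset.mem_singleton]
    · refine ⟨?_, card_ne_of_sub (Z := B \ (x ∪ w)) ?_ ?_ ?_⟩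
      · rintro rfl
        have h1 : v ∈ A := by grind only [= Finset.subset_iff, = Finset.mem_union, = Finset.mem_inter, = Finset.mem_sdiff, = Finset.mem_insert, = Finset.mem_singleton]
        grind only [= Finset.subset_iff, = Finset.mem_union, = Finset.mem_inter, = Finset.mem_sdiff, = Finset.mem_insert, = Finset.mem_singleton]
      · omega
      · grind only [= Finset.subset_iff, = Finset.mem_union, = Finset.mem_inter, = Finset.mem_sdiff, = Finset.mem_insert, = Finset.mem_singleton]
      · exact Finset.sdiff_subset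
    · rcases hB with hB | hB
      · obtain ⟨b1, b2, b3⟩ := itv_mem hB
        refine ⟨?_, card_ne_of_sub (Z := insert z1 V) ?_ (by grind only [= Finset.subset_iff, = Finset.mem_union, = Finset.mem_inter, = Finset.mem_sdiff, = Finset.mem_insert, = Finset.mem_singleton]) (by grind only [= Finset.subset_iff, = Finset.mem_union, = Finset.mem_inter, = Finset.mem_sdiff, = Finset.mem_insert, = Finset.mem_singleton])⟩
        · rintro rfl
          exact b3 σ (by simp [hσ]) (by grind only [= Finset.subset_iff, = Finset.mem_union, = Finset.mem_inter, = Finset.mem_sdiff, = Finset.mem_insert, = Finset.mem_singleton])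
        · rw [Finset.card_insert_of_notMem (by grind only [= Finset.subset_iff, = Finset.mem_union, = Finset.mem_inter, = Finset.mem_sdiff, = Finset.mem_insert, = Finset.mem_singleton])]
          omega
      · obtain ⟨b1, b2, b3⟩ := itv_mem hB
        refine ⟨?_, card_ne_of_sub (Z := V ∪ S) ?_ (by grind only [= Finset.subset_iff, = Finset.mem_union, = Finset.mem_inter, = Finset.mem_sdiff, = Finset.mem_insert, = Finset.mem_singleton]) (by grind only [= Finset.subset_iff, = Finset.mem_union, = Finset.mem_inter, = Finset.mem_sdiff, = Finset.mem_insert, = Finset.mem_singleton])⟩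
        · rintro rfl
          exact b3 z1 (by simp) (by grind only [= Finset.subset_iff, = Finset.mem_union, = Finset.mem_inter, = Finset.mem_sdiff, = Finset.mem_insert, = Finset.mem_singleton])
        · rw [Finset.card_union_of_disjoint]
          · omega
          · rw [Finset.disjoint_left]
            grind only [= Finset.subset_iff, = Finset.mem_union, = Finset.mem_inter, = Finset.mem_sdiff, = Finset.mem_insert, = Finset.mem_singleton]
  · refine Relation.ReflTransGen.tail (b := p) (Relation.ReflTransGen.single ⟨hwp, ?_⟩) ⟨hpx, ?_⟩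
    · exact Or.inr rfl
    · exact Or.inl rfl

end Pool.Agent.H4.Joh
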