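import Pool.Agent.H4.Joh.AdjCase

/-!
# Case R1c

JOB.  `1 ≤ i ≤ s < t`, covering (`x ∪ y ∪ w = N`, `x ∩ y ∩ w = ∅`), `b = |x ∩ w| = t - s`,
`b ≥ i + 1`, `|y ∩ w| ≥ i`.
`|y \ (x ∪ w)| = b + s - i = t - i`... precisely `|N| - |x ∪ w| = 2t + i + s - (2(i + t) - b) =
b + s - i = t - i`, which is `≥ i + 1` (`t = b + s ≥ 2i + 1`), `|x \ (y ∪ w)| = |y ∩ w| + s - i ≥ 1`,
`|x \ w| = i + t - b = i + s`, `t ≥ i + 2`.
Choose `Vs ⊆ x ∩ w` (`i`), `V2 ⊆ y ∩ w` (`i`; disjoint from `x`), `s1 ∈ x \ (y ∪ w)`,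
`S ⊆ x \ w` with `s1 ∈ S`, `|S| = i`, `z ∈ (x \ w).erase s1`, `F ⊆ y \ (x ∪ w)`, `|F| = i + 1`,
`p = V2 ∪ (y \ (x ∪ w)) ∪ S`: `|p| = i + (t - i) + i = i + t`, `p ∩ x = S`, `p ∩ w = V2`,
`|p ∩ y| ≥ |V2| + |F| > i`.
`glue` with `P = {x, p}`, `Q = {y} ∪ K`, `K = Kns Vs (insert s1 V2) (insert z F)`
(sizes `i + 1`, `i + 2 ≤ t`).
* `w → p → x`.  `w` has an odd neighbour: `C = Vs ∪ {z} ∪ F`: `|C ∩ w| = i`,
  `|C \ w| = i + 2 ≤ t`; `D = V2 ∪ {s1}`: `|D ∩ w| = i ≤ t`, `|D \ w| = 1 ≤ s`.
* `y` has an even neighbour: `C = Vs ∪ V2 ∪ {s1}`: `|C ∩ y| = i` (`V2`), `|C \ y| = i + 1 ≤ t`;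
  `D = {z} ∪ F`: `|D ∩ y| ≤ i + 2 ≤ t`, `|D \ y| ≤ 1 ≤ s`.
* `w ∉ K` as `s1, z ∉ w`.
* separation: `p ⊇ V2 ∪ {s1}`, `p ⊇ F`, `x ⊇ Vs ∪ {s1}`, `x ⊇ Vs ∪ {z}`: intersections with even
  resp. odd members have at least `i + 1` elements; `p` and `x` are not in `K` (`p` contains `s1` and
  `F`, `x` contains `s1` and `z`).
-/

namespace Pool.Agent.H4.Joh

variable {α : Type*} [DecidableEq α] {N x y w : Finset α} {i s t : ℕ}

/-- common part with at least `i + 1` elements and a distinguishing point -/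
theorem CaseR1c.sep {A B C : Finset α} {d : α} (hA : C ⊆ A) (hB : C ⊆ B) (hC : i + 1 ≤ C.card)
    (hd : (d ∈ A ∧ d ∉ B) ∨ (d ∉ A ∧ d ∈ B)) : A ≠ B ∧ (A ∩ B).card ≠ i := by
  have h1 := Finset.card_le_card (Finset.subset_inter hA hB)
  refine ⟨?_, by omega⟩
  rintro rfl
  tauto

theorem caseR1c (h : Cfg N i s t x y w) (hi : 1 ≤ i) (his : i ≤ s) (hst : s + 1 ≤ t)
    (hD : x ∩ y ∩ w = ∅) (hO : N ⊆ x ∪ y ∪ w) (hb : i + 1 ≤ (x ∩ w).card)
    (hb1 : (x ∩ w).card + s = t) (hc : i ≤ (y ∩ w).card) :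
    IndPath N i t x y w := by
  have hxN := h.hx.1
  have hyN := h.hy.1
  have hwN := h.hw.1
  have hxc := h.hx.2
  have hyc := h.hy.2
  have hwc := h.hw.2
  have hNc := h.cN
  have hD' : ∀ e, e ∈ x → e ∈ y → e ∈ w → False := by
    intro e h1 h2 h3
    have : e ∈ x ∩ y ∩ w := Finset.mem_inter.2 ⟨Finset.mem_inter.2 ⟨h1, h2⟩, h3⟩
    rw [hD] at this
    exact absurd this (Finset.notMem_empty _)
  -- cardinalities
  have e1 : N \ (x ∪ w) = y \ (x ∪ w) := by
    ext e
    simp only [Finset.mem_sdiff, Finset.mem_union, not_or]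
    constructor
    · rintro ⟨h1, h2, h3⟩
      have := hO h1
      simp only [Finset.mem_union] at this
      tauto
    · rintro ⟨h1, h2, h3⟩
      exact ⟨hyN h1, h2, h3⟩
  have k1 := Finset.card_sdiff_add_card_eq_card (Finset.union_subset hxN hwN)
  have k2 := Finset.card_union_add_card_inter x w
  rw [e1] at k1
  have k3 := Finset.card_sdiff_add_card_inter x w
  have kY : (y \ (x ∪ w)).card + i = t := by omega
  have kXw : (x \ w).card = i + s := by omega
  have kxy : (x ∩ y).card ≤ i := by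
    have hd1 : Disjoint (x ∩ y) (y ∩ w) := by
      rw [Finset.disjoint_left]
      intro e he he'
      rw [Finset.mem_inter] at he he'
      exact hD' e he.1 he.2 he'.2
    have hd2 : Disjoint ((x ∩ y) ∪ (y ∩ w)) (y \ (x ∪ w)) := by
      rw [Finset.disjoint_left]
      intro e he he'
      simp only [Finset.mem_union, Finset.mem_inter, Finset.mem_sdiff, not_or] at he he'
      tauto
    have hsub : ((x ∩ y) ∪ (y ∩ w)) ∪ (y \ (x ∪ w)) ⊆ y := by
      intro e he
      simp only [Finset.mem_union, Finset.mem_inter, Finset.mem_sdiff, not_or] at he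
      tauto
    have := Finset.card_le_card hsub
    rw [Finset.card_union_of_disjoint hd2, Finset.card_union_of_disjoint hd1] at this
    omega
  have hs1 : ∃ s1, s1 ∈ x ∧ s1 ∉ y ∧ s1 ∉ w := by
    by_contra hcon
    push Not at hcon
    have hsub : x \ w ⊆ x ∩ y := by
      intro e he
      rw [Finset.mem_sdiff] at he
      rw [Finset.mem_inter]
      refine ⟨he.1, ?_⟩
      by_contra hey
      exact he.2 (hcon e he.1 hey)
    have := Finset.card_le_card hsub
    omega
  obtain ⟨s1, hs1x, hs1y, hs1w⟩ := hs1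
  have hs1m : s1 ∈ x \ w := Finset.mem_sdiff.2 ⟨hs1x, hs1w⟩
  obtain ⟨z, hz⟩ : ((x \ w).erase s1).Nonempty := by
    rw [← Finset.card_pos, Finset.card_erase_of_mem hs1m]
    omega
  rw [Finset.mem_erase, Finset.mem_sdiff] at hz
  obtain ⟨hzs1, hzx, hzw⟩ := hz
  obtain ⟨Vs, hVs, hVsc⟩ := Finset.exists_subset_card_eq (s := x ∩ w) (n := i) (by omega)
  obtain ⟨V2, hV2, hV2c⟩ := Finset.exists_subset_card_eq hc
  obtain ⟨F, hF, hFc⟩ := Finset.exists_subset_card_eq (s := y \ (x ∪ w)) (n := i + 1) (by omega)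
  obtain ⟨S, hs1S, hS, hSc⟩ := Finset.exists_subsuperset_card_eq
    (Finset.singleton_subset_iff.2 hs1m) (by simpa using hi) (show i ≤ _ by omega)
  have hs1S' : s1 ∈ S := Finset.singleton_subset_iff.1 hs1S
  have lVs : ∀ e ∈ Vs, e ∈ x ∧ e ∉ y ∧ e ∈ w := by
    intro e he
    have := Finset.mem_inter.1 (hVs he)
    exact ⟨this.1, fun hy => hD' e this.1 hy this.2, this.2⟩
  have lV2 : ∀ e ∈ V2, e ∉ x ∧ e ∈ y ∧ e ∈ w := by
    intro e he
    have := Finset.mem_inter.1 (hV2 he)
    exact ⟨fun hx => hD' e hx this.1 this.2, this.1, this.2⟩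
  have lF : ∀ e ∈ F, e ∉ x ∧ e ∈ y ∧ e ∉ w := by
    intro e he
    have := hF he
    simp only [Finset.mem_sdiff, Finset.mem_union, not_or] at this
    exact ⟨this.2.1, this.1, this.2.2⟩
  have lS : ∀ e ∈ S, e ∈ x ∧ e ∉ w := fun e he => Finset.mem_sdiff.1 (hS he)
  -- the vertex p
  set p : Finset α := (V2 ∪ (y \ (x ∪ w))) ∪ S with hp
  have mp : ∀ e, e ∈ p ↔ (e ∈ V2 ∨ (e ∈ y ∧ e ∉ x ∧ e ∉ w)) ∨ e ∈ S := by
    intro e
    simp only [hp, Finset.mem_union, Finset.mem_sdiff, not_or]
  have hpV : Vtx N i t p := by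
    constructor
    · intro e he
      rcases (mp e).1 he with (he | he) | he
      · exact hyN (lV2 e he).2.1
      · exact hyN he.1
      · exact hxN (lS e he).1
    · have hd1 : Disjoint V2 (y \ (x ∪ w)) := by
        rw [Finset.disjoint_left]
        intro e he he'
        simp only [Finset.mem_sdiff, Finset.mem_union, not_or] at he'
        exact he'.2.2 (lV2 e he).2.2
      have hd2 : Disjoint (V2 ∪ (y \ (x ∪ w))) S := by
        rw [Finset.disjoint_left]
        intro e he he'
        simp only [Finset.mem_sdiff, Finset.mem_union, not_or] at he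
        rcases he with he | he
        · exact (lV2 e he).1 (lS e he').1
        · exact he.2.1 (lS e he').1
      rw [hp, Finset.card_union_of_disjoint hd2, Finset.card_union_of_disjoint hd1]
      omega
  have hwp : (w ∩ p).card = i := by
    have : w ∩ p = V2 := by
      ext e
      rw [Finset.mem_inter, mp]
      constructor
      · rintro ⟨h1, (h2 | h2) | h2⟩
        · exact h2
        · exact absurd h1 h2.2.2
        · exact absurd h1 (lS e h2).2
      · intro h2
        exact ⟨(lV2 e h2).2.2, Or.inl (Or.inl h2)⟩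
    rw [this, hV2c]
  have hpx : (p ∩ x).card = i := by
    have : p ∩ x = S := by
      ext e
      rw [Finset.mem_inter, mp]
      constructor
      · rintro ⟨(h2 | h2) | h2, h1⟩
        · exact absurd h1 (lV2 e h2).1
        · exact absurd h1 h2.2.1
        · exact h2
      · intro h2
        exact ⟨Or.inr h2, (lS e h2).1⟩
    rw [this, hSc]
  have hs1p : s1 ∈ p := (mp s1).2 (Or.inr hs1S')
  have hV2p : V2 ⊆ p := fun e he => (mp e).2 (Or.inl (Or.inl he))
  have hFp : F ⊆ p := fun e he => (mp e).2 (Or.inl (Or.inr ⟨(lF e he).2.1, (lF e he).1, (lF e he).2.2⟩))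
  -- the Kneser family
  set C : Finset α := insert s1 V2 with hC
  set D : Finset α := insert z F with hDD
  have hCN : C ⊆ N := Finset.insert_subset (hxN hs1x) fun e he => hyN (lV2 e he).2.1
  have hDN : D ⊆ N := Finset.insert_subset (hxN hzx) fun e he => hyN (lF e he).2.1
  have hVN : Vs ⊆ N := fun e he => hxN (lVs e he).1
  have hCc : C.card ≤ i + 1 := (Finset.card_insert_le _ _).trans (by omega)
  have hDc : D.card ≤ i + 2 := (Finset.card_insert_le _ _).trans (by omega)
  have dVC : Disjoint Vs C := by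
    rw [hC, Finset.disjoint_insert_right]
    refine ⟨fun he => hs1w (lVs _ he).2.2, ?_⟩
    rw [Finset.disjoint_left]
    exact fun e he he' => (lVs e he).2.1 (lV2 e he').2.1
  have dVD : Disjoint Vs D := by
    rw [hDD, Finset.disjoint_insert_right]
    refine ⟨fun he => hzw (lVs _ he).2.2, ?_⟩
    rw [Finset.disjoint_left]
    exact fun e he he' => (lVs e he).2.1 (lF e he').2.1
  have dCD : Disjoint C D := by
    rw [hC, hDD]
    simp only [Finset.disjoint_insert_right, Finset.disjoint_insert_left, Finset.mem_insert,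
      not_or]
    refine ⟨⟨hzs1, fun he => hzw (lV2 _ he).2.2⟩, fun he => (lF _ he).1 hs1x, ?_⟩
    rw [Finset.disjoint_left]
    exact fun e he he' => (lF e he').2.2 (lV2 e he).2.2
  have ht1 : 1 ≤ t := h.t1
  have hs1' : 1 ≤ s := hi.trans his
  have hKc : ∀ A ∈ Kns N i t Vs C D, ∀ B ∈ Kns N i t Vs C D, Reach i (Kns N i t Vs C D) A B :=
    fun A hA B hB => kns_reach h.cN ht1 hs1' hVN hCN hDN dVC dVD dCD hVsc (by omega) (by omega)
      hA hB
  have hwK : ∃ q ∈ Kns N i t Vs C D, (w ∩ q).card = i := by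
    rw [kns_symm]
    refine nbr_kns h.cN h.hw hVN hDN hCN dVC dCD.symm ?_ ?_ ?_ ?_
    · have : (Vs ∪ D) ∩ w ⊆ Vs := by
        intro e he
        simp only [hDD, Finset.mem_inter, Finset.mem_union, Finset.mem_insert] at he
        obtain ⟨he | rfl | he, hew⟩ := he
        · exact he
        · exact absurd hew hzw
        · exact absurd hew (lF e he).2.2
      exact (Finset.card_le_card this).trans hVsc.le
    · have : (Vs ∪ D) \ w ⊆ D := by
        intro e he
        simp only [Finset.mem_sdiff, Finset.mem_union] at he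
        obtain ⟨he | he, hew⟩ := he
        · exact absurd (lVs e he).2.2 hew
        · exact he
      exact (Finset.card_le_card this).trans (by omega)
    · exact (Finset.card_le_card Finset.inter_subset_left).trans (by omega)
    · have : C \ w ⊆ {s1} := by
        intro e he
        simp only [hC, Finset.mem_sdiff, Finset.mem_insert] at he
        rw [Finset.mem_singleton]
        obtain ⟨he | he, hew⟩ := he
        · exact he
        · exact absurd (lV2 e he).2.2 hew
      refine (Finset.card_le_card this).trans ?_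
      simpa using hs1'
  have hyK : ∃ q ∈ Kns N i t Vs C D, (y ∩ q).card = i := by
    refine nbr_kns h.cN h.hy hVN hCN hDN dVD dCD ?_ ?_ ?_ ?_
    · have : (Vs ∪ C) ∩ y ⊆ V2 := by
        intro e he
        simp only [hC, Finset.mem_inter, Finset.mem_union, Finset.mem_insert] at he
        obtain ⟨he | rfl | he, hey⟩ := he
        · exact absurd hey (lVs e he).2.1
        · exact absurd hey hs1y
        · exact he
      exact (Finset.card_le_card this).trans hV2c.le
    · have : (Vs ∪ C) \ y ⊆ insert s1 Vs := by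
        intro e he
        simp only [hC, Finset.mem_sdiff, Finset.mem_union, Finset.mem_insert] at he ⊢
        obtain ⟨he | he | he, hey⟩ := he
        · exact Or.inr he
        · exact Or.inl he
        · exact absurd (lV2 e he).2.1 hey
      refine (Finset.card_le_card this).trans ((Finset.card_insert_le _ _).trans ?_)
      omega
    · exact (Finset.card_le_card Finset.inter_subset_left).trans (by omega)
    · have : D \ y ⊆ {z} := by
        intro e he
        simp only [hDD, Finset.mem_sdiff, Finset.mem_insert] at he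
        rw [Finset.mem_singleton]
        obtain ⟨he | he, hey⟩ := he
        · exact he
        · exact absurd (lF e he).2.1 hey
      refine (Finset.card_le_card this).trans ?_
      simpa using hs1'
  have notin : ∀ {A C : Finset α} {a : α}, Disjoint A C → a ∈ C → a ∉ A :=
    fun hd ha haA => Finset.disjoint_left.1 hd haA ha
  have ci : ∀ (V : Finset α) (a : α), V.card = i → a ∉ V → i + 1 ≤ (insert a V).card := by
    intro V a hV ha
    rw [Finset.card_insert_of_notMem ha, hV]
  have hs1Vs : s1 ∉ Vs := fun he => hs1w (lVs _ he).2.2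
  have hzVs : z ∉ Vs := fun he => hzw (lVs _ he).2.2
  have hs1V2 : s1 ∉ V2 := fun he => hs1w (lV2 _ he).2.2
  obtain ⟨f, hf⟩ : F.Nonempty := by
    rw [← Finset.card_pos]
    omega
  refine glue h {x, p} (insert y (Kns N i t Vs C D)) ?_ ?_ ?_ ?_ ?_ ?_ (reach_via hKc hwK (Or.inr hyK))
  · rintro A (rfl | rfl)
    · exact h.hx
    · exact hpV
  · rintro A (rfl | hA)
    · exact h.hy
    · exact kns_vtx hA
  · rintro (hw | hw)
    · exact h.wx hw
    · exact hs1w (hw ▸ hs1p)
  · rintro (hw | hw | hw)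
    · exact h.wy hw
    · exact hs1w (hw.2.1 (Finset.mem_union_right _ (Finset.mem_insert_self _ _)))
    · exact hzw (hw.2.1 (Finset.mem_union_right _ (Finset.mem_insert_self _ _)))
  · rintro A (rfl | rfl) B (rfl | hB | hB)
    · exact ⟨h.xy, h.nadj⟩
    · refine CaseR1c.sep (C := insert s1 Vs) (d := z) ?_ ?_ (ci Vs s1 hVsc hs1Vs)
        (Or.inl ⟨hzx, notin hB.2.2 (Finset.mem_insert_self _ _)⟩)
      · exact Finset.insert_subset hs1x fun e he => (lVs e he).1
      · exact (Finset.insert_subset (Finset.mem_union_right _ (Finset.mem_insert_self _ _))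
          Finset.subset_union_left).trans hB.2.1
    · refine CaseR1c.sep (C := insert z Vs) (d := s1) ?_ ?_ (ci Vs z hVsc hzVs)
        (Or.inl ⟨hs1x, notin hB.2.2 (Finset.mem_insert_self _ _)⟩)
      · exact Finset.insert_subset hzx fun e he => (lVs e he).1
      · exact (Finset.insert_subset (Finset.mem_union_right _ (Finset.mem_insert_self _ _))
          Finset.subset_union_left).trans hB.2.1
    · refine CaseR1c.sep (C := F) (d := s1) hFp (fun e he => (lF e he).2.1) hFc.ge
        (Or.inl ⟨hs1p, hs1y⟩)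
    · refine CaseR1c.sep (C := insert s1 V2) (d := f) (Finset.insert_subset hs1p hV2p)
        (Finset.subset_union_right.trans hB.2.1) (ci V2 s1 hV2c hs1V2)
        (Or.inl ⟨hFp hf, notin hB.2.2 (Finset.mem_insert_of_mem hf)⟩)
    · refine CaseR1c.sep (C := F) (d := s1) hFp
        ((Finset.subset_insert _ _).trans (Finset.subset_union_right.trans hB.2.1)) hFc.ge
        (Or.inl ⟨hs1p, notin hB.2.2 (Finset.mem_insert_self _ _)⟩)
  · refine Relation.ReflTransGen.head (b := p) ⟨hwp, ?_⟩
      (Relation.ReflTransGen.single ⟨hpx, ?_⟩)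
    · exact Or.inr rfl
    · exact Or.inl rfl

end Pool.Agent.H4.Joh
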