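import Pool.Agent.H4.Joh.AdjCase

/-!
# Case R2

JOB.  `i ≥ 1`, `s ≥ 1`, `t ≥ 2i + 3`.  Choose `Vx ⊆ x \ (y ∪ w)` (`i`), `z2 ≠ u1` further elements of
`x \ (y ∪ w)`; `Vy ⊆ y \ (x ∪ w)` (`i`), `z1 ≠ u2` further elements of `y \ (x ∪ w)`;
`T1 ⊆ (x ∩ w) \ y` (`i`), `τ ∈ (y ∩ w) \ x`, `T = insert τ T1` (`i + 1`).
`S = Kns Vy (insert z1 T) (Vx ∪ {z2, u1, u2})`, `S' = Kns Vx (insert z2 T) (Vy ∪ {z1, u1, u2})`
(sizes `i + 2`, `i + 3`, `≤ t`).  `glue_conn` (or `glue` with `P = {x} ∪ S`, `Q = {y} ∪ S'`).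
Neighbours (`nbr_kns`, `kns_symm`):
* `x` and even `S`: `C = Vy ∪ {z1} ∪ T`: `|C ∩ x| = i` (`T1`), `|C \ x| = i + 2 ≤ t`;
  `D = Vx ∪ {z2, u1, u2}`: `|D ∩ x| = i + 2 ≤ t`, `|D \ x| = 1 ≤ s`.
* `w` and odd `S`: `C = Vy ∪ Vx ∪ {z2, u1, u2}`: `|C ∩ w| = 0`, `|C \ w| = 2i + 3 ≤ t`;
  `D = {z1} ∪ T`: `|D ∩ w| = i + 1 ≤ t`, `|D \ w| = 1 ≤ s`.
* `y` and even `S'`: `C = Vx ∪ {z2} ∪ T`: `|C ∩ y| = 1 ≤ i`, `|C \ y| = 2i + 1 ≤ t`;
  `D = Vy ∪ {z1, u1, u2}`: `|D ∩ y| = i + 2 ≤ t`, `|D \ y| = 1 ≤ s`.
* `w` and odd `S'`: as for `S`.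
`w ∉ S, S'`: `z1, z2 ∉ w`.
Separation (common parts have at least `i + 1` elements; some point distinguishes):
`x` against even `S'`: `Vx, z2` (`u1`); `x` against odd `S'`: `Vx, u1` (`z2`);
`y` against even `S`: `Vy, z1` (`u2`); against odd `S`: `Vy, u2` (`z1`);
even `S`, even `S'`: `T` (`z2`); even `S`, odd `S'`: `Vy, z1` (`u1`); odd `S`, even `S'`: `Vx, z2`
(`u1`, contained in odd `S`, avoided by even `S'`); odd `S`, odd `S'`: `u1` and `Vx` (`z1`).
-/

namespace Pool.Agent.H4.Joh

variable {α : Type*} [DecidableEq α] {N x y w : Finset α} {i s t : ℕ}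

/-- common part with at least `i + 1` elements and a distinguishing point -/
theorem CaseR2.sep {A B C : Finset α} {d : α} (hA : C ⊆ A) (hB : C ⊆ B) (hC : i + 1 ≤ C.card)
    (hd : (d ∈ A ∧ d ∉ B) ∨ (d ∉ A ∧ d ∈ B)) : A ≠ B ∧ (A ∩ B).card ≠ i := by
  have h1 := Finset.card_le_card (Finset.subset_inter hA hB)
  refine ⟨?_, by omega⟩
  rintro rfl
  tauto

/-- choice of a set of size `k` and two further elements -/
theorem CaseR2.pick {X : Finset α} {k : ℕ} (h : k + 2 ≤ X.card) :
    ∃ (V : Finset α) (z u : α), V ⊆ X ∧ V.card = k ∧ z ∈ X ∧ u ∈ X ∧ z ∉ V ∧ u ∉ V ∧ z ≠ u := by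
  obtain ⟨z, hz⟩ : X.Nonempty := by
    rw [← Finset.card_pos]
    omega
  have h1 : (X.erase z).card = X.card - 1 := Finset.card_erase_of_mem hz
  obtain ⟨u, hu⟩ : (X.erase z).Nonempty := by
    rw [← Finset.card_pos]
    omega
  have h2 : ((X.erase z).erase u).card = (X.erase z).card - 1 := Finset.card_erase_of_mem hu
  obtain ⟨V, hV, hVc⟩ := Finset.exists_subset_card_eq (s := (X.erase z).erase u) (n := k) (by omega)
  have hu' := Finset.mem_erase.1 hu
  refine ⟨V, z, u, hV.trans ((Finset.erase_subset _ _).trans (Finset.erase_subset _ _)), hVc, hz,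
    hu'.2, ?_, ?_, hu'.1.symm⟩
  · intro hzV
    have := hV hzV
    simp at this
  · intro huV
    have := hV huV
    simp at this

theorem caseR2 (h : Cfg N i s t x y w) (hi : 1 ≤ i) (hs : 1 ≤ s) (ht : 2 * i + 3 ≤ t)
    (hXW : i ≤ ((x ∩ w) \ y).card) (hYW : ((y ∩ w) \ x).Nonempty)
    (hX : i + 2 ≤ (x \ (y ∪ w)).card) (hY : i + 2 ≤ (y \ (x ∪ w)).card) :
    IndPath N i t x y w := by
  obtain ⟨Vx, z2, u1, hVx, hVxc, hz2, hu1, hz2V, hu1V, hzu⟩ := CaseR2.pick hX
  obtain ⟨Vy, z1, u2, hVy, hVyc, hz1, hu2, hz1V, hu2V, hzu'⟩ := CaseR2.pick hY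
  obtain ⟨T1, hT1, hT1c⟩ := Finset.exists_subset_card_eq hXW
  obtain ⟨τ, hτ⟩ := hYW
  have hxN := h.hx.1
  have hyN := h.hy.1
  have hwN := h.hw.1
  -- locations of the elements
  have lVx : ∀ e ∈ Vx, e ∈ x ∧ e ∉ y ∧ e ∉ w := by
    intro e he
    have := hVx he
    simp only [Finset.mem_sdiff, Finset.mem_union, not_or] at this
    exact this
  have lVy : ∀ e ∈ Vy, e ∉ x ∧ e ∈ y ∧ e ∉ w := by
    intro e he
    have := hVy he
    simp only [Finset.mem_sdiff, Finset.mem_union, not_or] at this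
    exact ⟨this.2.1, this.1, this.2.2⟩
  have lT : ∀ e ∈ T1, e ∈ x ∧ e ∉ y ∧ e ∈ w := by
    intro e he
    have := hT1 he
    simp only [Finset.mem_sdiff, Finset.mem_inter] at this
    exact ⟨this.1.1, this.2, this.1.2⟩
  simp only [Finset.mem_sdiff, Finset.mem_union, Finset.mem_inter, not_or] at hz2 hu1 hz1 hu2 hτ
  obtain ⟨hz2x, hz2y, hz2w⟩ := hz2
  obtain ⟨hu1x, hu1y, hu1w⟩ := hu1
  obtain ⟨hz1y, hz1x, hz1w⟩ := hz1
  obtain ⟨hu2y, hu2x, hu2w⟩ := hu2
  obtain ⟨⟨hτy, hτw⟩, hτx⟩ := hτ
  clear hVx hVy hT1 hX hY hXW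
  have hz2T : z2 ∉ T1 := fun he => hz2w (lT _ he).2.2
  have hu1T : u1 ∉ T1 := fun he => hu1w (lT _ he).2.2
  have hz1T : z1 ∉ T1 := fun he => hz1w (lT _ he).2.2
  have hu2T : u2 ∉ T1 := fun he => hu2w (lT _ he).2.2
  have hτT : τ ∉ T1 := fun he => hτx (lT _ he).1
  have hτVx : τ ∉ Vx := fun he => hτx (lVx _ he).1
  have hτVy : τ ∉ Vy := fun he => (lVy _ he).2.2 hτw
  have hz2Vy : z2 ∉ Vy := fun he => (lVy _ he).1 hz2x
  have hu1Vy : u1 ∉ Vy := fun he => (lVy _ he).1 hu1x
  have hz1Vx : z1 ∉ Vx := fun he => (lVx _ he).2.1 hz1y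
  have hu2Vx : u2 ∉ Vx := fun he => (lVx _ he).2.1 hu2y
  have n1 : z1 ≠ z2 := fun he => hz1x (he ▸ hz2x)
  have n2 : z1 ≠ u1 := fun he => hz1x (he ▸ hu1x)
  have n3 : z2 ≠ u2 := fun he => hu2x (he ▸ hz2x)
  have n4 : u1 ≠ u2 := fun he => hu2x (he ▸ hu1x)
  have n5 : τ ≠ z1 := fun he => hz1w (he ▸ hτw)
  have n6 : τ ≠ z2 := fun he => hz2w (he ▸ hτw)
  have n7 : τ ≠ u1 := fun he => hu1w (he ▸ hτw)
  have n8 : τ ≠ u2 := fun he => hu2w (he ▸ hτw)
  have dVxVy : Disjoint Vx Vy := Finset.disjoint_left.2 fun e he he' => (lVx e he).2.1 (lVy e he').2.1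
  have dVxT : Disjoint Vx T1 := Finset.disjoint_left.2 fun e he he' => (lVx e he).2.2 (lT e he').2.2
  have dVyT : Disjoint Vy T1 := Finset.disjoint_left.2 fun e he he' => (lVy e he).2.2 (lT e he').2.2
  -- cardinalities of small unions
  have c1 : ∀ (V : Finset α) (a b : α), V.card = i → (insert a (insert b V)).card ≤ i + 2 :=
    fun V a b hV => (Finset.card_insert_le _ _).trans (by
      have := Finset.card_insert_le b V
      omega)
  have c2 : ∀ (V : Finset α) (a b c : α), V.card = i →
      (insert a (insert b (insert c V))).card ≤ i + 3 :=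
    fun V a b c hV => (Finset.card_insert_le _ _).trans (by
      have := c1 V b c hV
      omega)
  set C1 : Finset α := insert z1 (insert τ T1) with hC1
  set D1 : Finset α := insert z2 (insert u1 (insert u2 Vx)) with hD1
  set C2 : Finset α := insert z2 (insert τ T1) with hC2
  set D2 : Finset α := insert z1 (insert u1 (insert u2 Vy)) with hD2
  have hC1N : C1 ⊆ N := by
    intro e he
    simp only [hC1, Finset.mem_insert] at he
    rcases he with rfl | rfl | he
    · exact hyN hz1y
    · exact hyN hτy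
    · exact hxN (lT e he).1
  have hC2N : C2 ⊆ N := by
    intro e he
    simp only [hC2, Finset.mem_insert] at he
    rcases he with rfl | rfl | he
    · exact hxN hz2x
    · exact hyN hτy
    · exact hxN (lT e he).1
  have hD1N : D1 ⊆ N := by
    intro e he
    simp only [hD1, Finset.mem_insert] at he
    rcases he with rfl | rfl | rfl | he
    · exact hxN hz2x
    · exact hxN hu1x
    · exact hyN hu2y
    · exact hxN (lVx e he).1
  have hD2N : D2 ⊆ N := by
    intro e he
    simp only [hD2, Finset.mem_insert] at he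
    rcases he with rfl | rfl | rfl | he
    · exact hyN hz1y
    · exact hxN hu1x
    · exact hyN hu2y
    · exact hyN (lVy e he).2.1
  have hVxN : Vx ⊆ N := fun e he => hxN (lVx e he).1
  have hVyN : Vy ⊆ N := fun e he => hyN (lVy e he).2.1
  have hC1c : C1.card ≤ i + 2 := c1 T1 z1 τ hT1c
  have hC2c : C2.card ≤ i + 2 := c1 T1 z2 τ hT1c
  have hD1c : D1.card ≤ i + 3 := c2 Vx z2 u1 u2 hVxc
  have hD2c : D2.card ≤ i + 3 := c2 Vy z1 u1 u2 hVyc
  have dV1C : Disjoint Vy C1 := by
    rw [hC1, Finset.disjoint_insert_right, Finset.disjoint_insert_right]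
    exact ⟨hz1V, hτVy, dVyT⟩
  have dV1D : Disjoint Vy D1 := by
    rw [hD1, Finset.disjoint_insert_right, Finset.disjoint_insert_right,
      Finset.disjoint_insert_right]
    exact ⟨hz2Vy, hu1Vy, hu2V, dVxVy.symm⟩
  have dV2C : Disjoint Vx C2 := by
    rw [hC2, Finset.disjoint_insert_right, Finset.disjoint_insert_right]
    exact ⟨hz2V, hτVx, dVxT⟩
  have dV2D : Disjoint Vx D2 := by
    rw [hD2, Finset.disjoint_insert_right, Finset.disjoint_insert_right,
      Finset.disjoint_insert_right]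
    exact ⟨hz1Vx, hu1V, hu2Vx, dVxVy⟩
  have dCD1 : Disjoint C1 D1 := by
    rw [hC1, hD1]
    simp only [Finset.disjoint_insert_right, Finset.disjoint_insert_left, Finset.mem_insert,
      not_or]
    refine ⟨⟨n1.symm, n6.symm, hz2T⟩, ⟨n2.symm, n7.symm, hu1T⟩, ⟨hzu'.symm, n8.symm, hu2T⟩,
      hz1Vx, hτVx, dVxT.symm⟩
  have dCD2 : Disjoint C2 D2 := by
    rw [hC2, hD2]
    simp only [Finset.disjoint_insert_right, Finset.disjoint_insert_left, Finset.mem_insert,
      not_or]
    refine ⟨⟨n1, n5.symm, hz1T⟩, ⟨hzu.symm, n7.symm, hu1T⟩, ⟨n3.symm, n8.symm, hu2T⟩,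
      hz2Vy, hτVy, dVyT.symm⟩
  have mz1C1 : z1 ∈ C1 := by simp [hC1]
  have mTC1 : T1 ⊆ C1 := by
    intro e he
    simp [hC1, he]
  have mτC1 : τ ∈ C1 := by simp [hC1]
  have mz2C2 : z2 ∈ C2 := by simp [hC2]
  have mτC2 : τ ∈ C2 := by simp [hC2]
  have mTC2 : T1 ⊆ C2 := by
    intro e he
    simp [hC2, he]
  have mz2D1 : z2 ∈ D1 := by simp [hD1]
  have mu1D1 : u1 ∈ D1 := by simp [hD1]
  have mu2D1 : u2 ∈ D1 := by simp [hD1]
  have mVD1 : Vx ⊆ D1 := by
    intro e he
    simp [hD1, he]
  have mz1D2 : z1 ∈ D2 := by simp [hD2]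
  have mu1D2 : u1 ∈ D2 := by simp [hD2]
  have mu2D2 : u2 ∈ D2 := by simp [hD2]
  have mVD2 : Vy ⊆ D2 := by
    intro e he
    simp [hD2, he]
  have ht1 : 1 ≤ t := h.t1
  have ci : ∀ (V : Finset α) (a : α), V.card = i → a ∉ V → i + 1 ≤ (insert a V).card := by
    intro V a hV ha
    rw [Finset.card_insert_of_notMem ha, hV]
  have notin : ∀ {A C : Finset α} {a : α}, Disjoint A C → a ∈ C → a ∉ A :=
    fun hd ha haA => Finset.disjoint_left.1 hd haA ha
  refine glue_conn h (Kns N i t Vy C1 D1) (Kns N i t Vx C2 D2)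
    (fun A hA => kns_vtx hA) (fun A hA => kns_vtx hA)
    (fun A hA B hB => kns_reach h.cN ht1 hs hVyN hC1N hD1N dV1C dV1D dCD1 hVyc (by omega)
      (by omega) hA hB)
    (fun A hA B hB => kns_reach h.cN ht1 hs hVxN hC2N hD2N dV2C dV2D dCD2 hVxc (by omega)
      (by omega) hA hB) ?_ ?_ ?_ ?_ (Or.inr ?_) (Or.inr ?_) ?_ ?_ ?_
  · -- w not in S
    rintro (hw | hw)
    · exact hz1w (hw.2.1 (Finset.mem_union_right _ mz1C1))
    · exact hz2w (hw.2.1 (Finset.mem_union_right _ mz2D1))
  · rintro (hw | hw)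
    · exact hz2w (hw.2.1 (Finset.mem_union_right _ mz2C2))
    · exact hz1w (hw.2.1 (Finset.mem_union_right _ mz1D2))
  · -- w has a neighbour in S
    rw [kns_symm]
    refine nbr_kns h.cN h.hw hVyN hD1N hC1N dV1C dCD1.symm ?_ ?_ ?_ ?_
    · have : (Vy ∪ D1) ∩ w ⊆ ∅ := by
        intro e he
        simp only [hD1, Finset.mem_inter, Finset.mem_union, Finset.mem_insert] at he
        obtain ⟨he | rfl | rfl | rfl | he, hew⟩ := he
        · exact absurd hew (lVy e he).2.2
        · exact absurd hew hz2w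
        · exact absurd hew hu1w
        · exact absurd hew hu2w
        · exact absurd hew (lVx e he).2.2
      exact (Finset.card_le_card this).trans (by simp)
    · refine (Finset.card_le_card Finset.sdiff_subset).trans ((Finset.card_union_le _ _).trans ?_)
      omega
    · have : C1 ∩ w ⊆ insert τ T1 := by
        intro e he
        simp only [hC1, Finset.mem_inter, Finset.mem_insert] at he ⊢
        obtain ⟨rfl | he | he, hew⟩ := he
        · exact absurd hew hz1w
        · exact Or.inl he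
        · exact Or.inr he
      refine (Finset.card_le_card this).trans ((Finset.card_insert_le _ _).trans ?_)
      omega
    · have : C1 \ w ⊆ {z1} := by
        intro e he
        simp only [hC1, Finset.mem_sdiff, Finset.mem_insert] at he
        rw [Finset.mem_singleton]
        obtain ⟨he | rfl | he, hew⟩ := he
        · exact he
        · exact absurd hτw hew
        · exact absurd (lT e he).2.2 hew
      refine (Finset.card_le_card this).trans ?_
      simpa using hs
  · rw [kns_symm]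
    refine nbr_kns h.cN h.hw hVxN hD2N hC2N dV2C dCD2.symm ?_ ?_ ?_ ?_
    · have : (Vx ∪ D2) ∩ w ⊆ ∅ := by
        intro e he
        simp only [hD2, Finset.mem_inter, Finset.mem_union, Finset.mem_insert] at he
        obtain ⟨he | rfl | rfl | rfl | he, hew⟩ := he
        · exact absurd hew (lVx e he).2.2
        · exact absurd hew hz1w
        · exact absurd hew hu1w
        · exact absurd hew hu2w
        · exact absurd hew (lVy e he).2.2
      exact (Finset.card_le_card this).trans (by simp)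
    · refine (Finset.card_le_card Finset.sdiff_subset).trans ((Finset.card_union_le _ _).trans ?_)
      omega
    · have : C2 ∩ w ⊆ insert τ T1 := by
        intro e he
        simp only [hC2, Finset.mem_inter, Finset.mem_insert] at he ⊢
        obtain ⟨rfl | he | he, hew⟩ := he
        · exact absurd hew hz2w
        · exact Or.inl he
        · exact Or.inr he
      refine (Finset.card_le_card this).trans ((Finset.card_insert_le _ _).trans ?_)
      omega
    · have : C2 \ w ⊆ {z2} := by
        intro e he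
        simp only [hC2, Finset.mem_sdiff, Finset.mem_insert] at he
        rw [Finset.mem_singleton]
        obtain ⟨he | rfl | he, hew⟩ := he
        · exact he
        · exact absurd hτw hew
        · exact absurd (lT e he).2.2 hew
      refine (Finset.card_le_card this).trans ?_
      simpa using hs
  · -- x has a neighbour in S
    refine nbr_kns h.cN h.hx hVyN hC1N hD1N dV1D dCD1 ?_ ?_ ?_ ?_
    · have : (Vy ∪ C1) ∩ x ⊆ T1 := by
        intro e he
        simp only [hC1, Finset.mem_inter, Finset.mem_union, Finset.mem_insert] at he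
        obtain ⟨he | rfl | rfl | he, hex⟩ := he
        · exact absurd hex (lVy e he).1
        · exact absurd hex hz1x
        · exact absurd hex hτx
        · exact he
      exact (Finset.card_le_card this).trans hT1c.le
    · refine (Finset.card_le_card Finset.sdiff_subset).trans ((Finset.card_union_le _ _).trans ?_)
      omega
    · exact (Finset.card_le_card Finset.inter_subset_left).trans (by omega)
    · have : D1 \ x ⊆ {u2} := by
        intro e he
        simp only [hD1, Finset.mem_sdiff, Finset.mem_insert] at he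
        rw [Finset.mem_singleton]
        obtain ⟨rfl | rfl | he | he, hex⟩ := he
        · exact absurd hz2x hex
        · exact absurd hu1x hex
        · exact he
        · exact absurd (lVx e he).1 hex
      refine (Finset.card_le_card this).trans ?_
      simpa using hs
  · -- y has a neighbour in S'
    refine nbr_kns h.cN h.hy hVxN hC2N hD2N dV2D dCD2 ?_ ?_ ?_ ?_
    · have : (Vx ∪ C2) ∩ y ⊆ {τ} := by
        intro e he
        simp only [hC2, Finset.mem_inter, Finset.mem_union, Finset.mem_insert] at he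
        rw [Finset.mem_singleton]
        obtain ⟨he | rfl | he | he, hey⟩ := he
        · exact absurd hey (lVx e he).2.1
        · exact absurd hey hz2y
        · exact he
        · exact absurd hey (lT e he).2.1
      refine (Finset.card_le_card this).trans ?_
      simpa using hi
    · refine (Finset.card_le_card Finset.sdiff_subset).trans ((Finset.card_union_le _ _).trans ?_)
      omega
    · exact (Finset.card_le_card Finset.inter_subset_left).trans (by omega)
    · have : D2 \ y ⊆ {u1} := by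
        intro e he
        simp only [hD2, Finset.mem_sdiff, Finset.mem_insert] at he
        rw [Finset.mem_singleton]
        obtain ⟨rfl | he | rfl | he, hey⟩ := he
        · exact absurd hz1y hey
        · exact he
        · exact absurd hu2y hey
        · exact absurd (lVy e he).2.1 hey
      refine (Finset.card_le_card this).trans ?_
      simpa using hs
  · -- x against S'
    rintro B (hB | hB)
    · refine CaseR2.sep (C := insert z2 Vx) (d := u1) ?_ ?_ (ci Vx z2 hVxc hz2V)
        (Or.inl ⟨hu1x, notin hB.2.2 mu1D2⟩)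
      · exact Finset.insert_subset hz2x fun e he => (lVx e he).1
      · exact (Finset.insert_subset (Finset.mem_union_right _ mz2C2)
          Finset.subset_union_left).trans hB.2.1
    · refine CaseR2.sep (C := insert u1 Vx) (d := z2) ?_ ?_ (ci Vx u1 hVxc hu1V)
        (Or.inl ⟨hz2x, notin hB.2.2 mz2C2⟩)
      · exact Finset.insert_subset hu1x fun e he => (lVx e he).1
      · exact (Finset.insert_subset (Finset.mem_union_right _ mu1D2)
          Finset.subset_union_left).trans hB.2.1
  · -- S against y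
    rintro A (hA | hA)
    · refine CaseR2.sep (C := insert z1 Vy) (d := u2) ?_ ?_ (ci Vy z1 hVyc hz1V)
        (Or.inr ⟨notin hA.2.2 mu2D1, hu2y⟩)
      · exact (Finset.insert_subset (Finset.mem_union_right _ mz1C1)
          Finset.subset_union_left).trans hA.2.1
      · exact Finset.insert_subset hz1y fun e he => (lVy e he).2.1
    · refine CaseR2.sep (C := insert u2 Vy) (d := z1) ?_ ?_ (ci Vy u2 hVyc hu2V)
        (Or.inr ⟨notin hA.2.2 mz1C1, hz1y⟩)
      · exact (Finset.insert_subset (Finset.mem_union_right _ mu2D1)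
          Finset.subset_union_left).trans hA.2.1
      · exact Finset.insert_subset hu2y fun e he => (lVy e he).2.1
  · -- S against S'
    rintro A (hA | hA) B (hB | hB)
    · refine CaseR2.sep (C := insert τ T1) (d := z2) ?_ ?_ (ci T1 τ hT1c hτT)
        (Or.inr ⟨notin hA.2.2 mz2D1, hB.2.1 (Finset.mem_union_right _ mz2C2)⟩)
      · exact (Finset.insert_subset mτC1 mTC1).trans (Finset.subset_union_right.trans hA.2.1)
      · exact (Finset.insert_subset mτC2 mTC2).trans (Finset.subset_union_right.trans hB.2.1)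
    · refine CaseR2.sep (C := insert z1 Vy) (d := u1) ?_ ?_ (ci Vy z1 hVyc hz1V)
        (Or.inr ⟨notin hA.2.2 mu1D1, hB.2.1 (Finset.mem_union_right _ mu1D2)⟩)
      · exact (Finset.insert_subset (Finset.mem_union_right _ mz1C1)
          Finset.subset_union_left).trans hA.2.1
      · exact (Finset.insert_subset mz1D2 mVD2).trans (Finset.subset_union_right.trans hB.2.1)
    · refine CaseR2.sep (C := insert z2 Vx) (d := u1) ?_ ?_ (ci Vx z2 hVxc hz2V)
        (Or.inl ⟨hA.2.1 (Finset.mem_union_right _ mu1D1), notin hB.2.2 mu1D2⟩)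
      · exact (Finset.insert_subset mz2D1 mVD1).trans (Finset.subset_union_right.trans hA.2.1)
      · exact (Finset.insert_subset (Finset.mem_union_right _ mz2C2)
          Finset.subset_union_left).trans hB.2.1
    · refine CaseR2.sep (C := insert u1 Vx) (d := z1) ?_ ?_ (ci Vx u1 hVxc hu1V)
        (Or.inr ⟨notin hA.2.2 mz1C1, hB.2.1 (Finset.mem_union_right _ mz1D2)⟩)
      · exact (Finset.insert_subset mu1D1 mVD1).trans (Finset.subset_union_right.trans hA.2.1)
      · exact (Finset.insert_subset (Finset.mem_union_right _ mu1D2)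
          Finset.subset_union_left).trans hB.2.1

end Pool.Agent.H4.Joh
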