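import Mathlib

/-!
# MP_785afb_co: generalized Johnson graphs are strongly 2-monophonic. Definitions

Notation.  `N` is the ground set, `r = i + t`, `|N| = 2t + i + s`; vertices are the `r`-subsets of
`N`, two vertices are adjacent iff their intersection has exactly `i` elements (for `t ≥ 1` such
vertices are distinct).  Complementation exchanges `i` and `s`.
-/

namespace Pool.Agent.H4.Joh

variable {α : Type*} [DecidableEq α]

/-- `A` is a vertex: an `(i+t)`-subset of `N`. -/
def Vtx (N : Finset α) (i t : ℕ) (A : Finset α) : Prop := A ⊆ N ∧ A.card = i + t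

/-- The situation: `x ≠ y` non-adjacent vertices, `w` a third vertex. -/
structure Cfg (N : Finset α) (i s t : ℕ) (x y w : Finset α) : Prop where
  cN : N.card = 2 * t + i + s
  t1 : 1 ≤ t
  hx : Vtx N i t x
  hy : Vtx N i t y
  hw : Vtx N i t w
  xy : x ≠ y
  wx : w ≠ x
  wy : w ≠ y
  nadj : (x ∩ y).card ≠ i

/-- There is an induced path from `x` to `y` through `w`. -/
def IndPath (N : Finset α) (i t : ℕ) (x y w : Finset α) : Prop :=
  ∃ (k j : ℕ) (f : ℕ → Finset α), j ≤ k ∧ f 0 = x ∧ f j = w ∧ f k = y ∧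
    (∀ a, a ≤ k → Vtx N i t (f a)) ∧
    (∀ a b, a < b → b ≤ k → f a ≠ f b) ∧
    (∀ a b, a < b → b ≤ k → ((f a ∩ f b).card = i ↔ b = a + 1))

/-- All triples for the parameters `i s t` are fine. -/
def Good (α : Type*) [DecidableEq α] (i s t : ℕ) : Prop :=
  ∀ (N x y w : Finset α), Cfg N i s t x y w → IndPath N i t x y w

/-- `B` can be reached from `A` by a walk all of whose vertices after `A` lie in `S`. -/
def Reach (i : ℕ) (S : Set (Finset α)) (A B : Finset α) : Prop :=
  Relation.ReflTransGen (fun U V => (U ∩ V).card = i ∧ V ∈ S) A B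

/-- The interval family: vertices containing `C` and avoiding `D`. -/
def Itv (N : Finset α) (i t : ℕ) (C D : Finset α) : Set (Finset α) :=
  {A | Vtx N i t A ∧ C ⊆ A ∧ Disjoint A D}

/-- The Kneser family: vertices containing `V` and `C` and avoiding `D`, and vertices containing `V`
and `D` and avoiding `C`. -/
def Kns (N : Finset α) (i t : ℕ) (V C D : Finset α) : Set (Finset α) :=
  Itv N i t (V ∪ C) D ∪ Itv N i t (V ∪ D) C

/-- Two families are separated: disjoint and no edges between them. -/
def Sep (i : ℕ) (P Q : Set (Finset α)) : Prop :=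
  ∀ A ∈ P, ∀ B ∈ Q, A ≠ B ∧ (A ∩ B).card ≠ i

/-- The sizes of the eight Venn cells of `x, y, w` in `N`:
`a` = in `x` and `y` only, `b` = in `x` and `w` only, `c` = in `y` and `w` only,
`X`, `Y`, `W` = in one of the sets only, `d` = in all three, `o` = in none. -/
structure Cells (N x y w : Finset α) (a b c X Y W d o : ℕ) : Prop where
  ha : ((x ∩ y) \ w).card = a
  hb : ((x ∩ w) \ y).card = b
  hc : ((y ∩ w) \ x).card = c
  hX : (x \ (y ∪ w)).card = X
  hY : (y \ (x ∪ w)).card = Y
  hW : (w \ (x ∪ y)).card = W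
  hd : (x ∩ y ∩ w).card = d
  ho : (N \ (x ∪ y ∪ w)).card = o

end Pool.Agent.H4.Joh
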