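import Pool.Agent.H4.Joh.ExcDef

/-!
# Exceptional graphs: perfect matchings and twins; complement

JOB.
`Bad.compl`: use `IndPath.compl'` (an induced path through `w` gives one through `N \ w` in the
complementary parameters) for `N \ a`, `N \ b`; `N \ (N \ w) = w`.

`exc_match` (`i = s = 0`, `|N| = 2t`, `t ≥ 2`): two vertices are adjacent iff they are complementary.
A vertex `w ≠ a, b` exists: `N \ a` if `N \ a ≠ b`; if `b = N \ a` exchange one element of `a` for one
of `b` (the result meets both `a` and `b` as `t ≥ 2`).  On an induced path `f` with `f j = w`,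
`0 < j < k`, both `f (j - 1)` and `f (j + 1)` are equal to `N \ w`, contradiction.

`exc_twin` (`i = s = t ≥ 2`, `|N| = 4t`, `r = 2t`): `|C ∩ (N \ a)| = 2t - |C ∩ a|`, so `C` is adjacent to
`N \ a` iff it is adjacent to `a`.
(1) `b ≠ N \ a`: `w = N \ a`.  On an induced path `f 0 = a`, `f j = w`, `f k = b` we have `0 < j < k`;
`j ≠ 1` as `|a ∩ w| = 0 ≠ t`; `f 1` is adjacent to `a`, hence to `w = f j`, so `j = 2`;
`f 3` is adjacent to `f 2 = w`, hence to `a = f 0`, contradiction.
(2) `b = N \ a`: `w` with `|w ∩ a| = 1`, `|w \ a| = 2t - 1`.  On an induced path: `k ≥ 2`, `f 1` is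
adjacent to `a`, hence to `b = f k`, so `k = 2`, `j = 1`, and `|a ∩ w| = t`, but `|a ∩ w| = 1`.
-/

namespace Pool.Agent.H4.Joh

variable {α : Type*} [DecidableEq α] {i s t : ℕ}

theorem Bad.compl (h : Bad α i s t) : Bad α s i t := by
  intro N a b hN ha hb hab
  have hN' : N.card = 2 * t + i + s := by omega
  have ha' : Vtx N i t (N \ a) := SymA.vtx_compl hN ha
  have hb' : Vtx N i t (N \ b) := SymA.vtx_compl hN hb
  obtain ⟨w, hw, hwa, hwb, hp⟩ := h N (N \ a) (N \ b) hN' ha' hb'
    (fun he => hab (SymA.sdiff_inj ha.1 hb.1 he))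
  have hw' : Vtx N s t (N \ w) := SymA.vtx_compl hN' hw
  refine ⟨N \ w, hw', ?_, ?_, fun hq => hp ?_⟩
  · intro he
    apply hwa
    rw [← he, Finset.sdiff_sdiff_eq_self hw.1]
  · intro he
    apply hwb
    rw [← he, Finset.sdiff_sdiff_eq_self hw.1]
  · have h1 := IndPath.compl' hN ha hb hw' hq
    rwa [Finset.sdiff_sdiff_eq_self hw.1] at h1

/-- inner vertices of a path -/
lemma ExcA.inner {k j : ℕ} {f : ℕ → Finset α} {a b w : Finset α} (hj : j ≤ k) (h0 : f 0 = a)
    (hjw : f j = w) (hk : f k = b) (hwa : w ≠ a) (hwb : w ≠ b) : 0 < j ∧ j < k := by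
  constructor
  · rcases Nat.eq_zero_or_pos j with h | h
    · rw [h, h0] at hjw
      exact absurd hjw.symm hwa
    · exact h
  · rcases Nat.lt_or_ge j k with h | h
    · exact h
    · have h1 : j = k := le_antisymm hj h
      rw [h1, hk] at hjw
      exact absurd hjw.symm hwb

/-- disjoint halves are complementary -/
lemma ExcA.eq_compl {N : Finset α} (hN : N.card = 2 * t + 0 + 0) {A B : Finset α}
    (hA : Vtx N 0 t A) (hB : Vtx N 0 t B) (h : (A ∩ B).card = 0) : A = N \ B := by
  have h1 := Finset.card_sdiff_add_card_eq_card hB.1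
  have h2 := hA.2
  have h3 := hB.2
  refine Finset.eq_of_subset_of_card_le (fun e he => Finset.mem_sdiff.2 ⟨hA.1 he, fun he' => ?_⟩)
    (by omega)
  rw [Finset.card_eq_zero] at h
  have h4 : e ∈ A ∩ B := Finset.mem_inter.2 ⟨he, he'⟩
  rw [h] at h4
  exact Finset.notMem_empty e h4

theorem exc_match (ht : 2 ≤ t) : Bad α 0 0 t := by
  intro N a b hN ha hb hab
  have h1 : ({a, b} : Finset (Finset α)).card < (N.powersetCard t).card := by
    rw [Finset.card_powersetCard]
    have h2 : N.card = 2 * t := by omega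
    have h3 := Nat.choose_le_centralBinom 1 t
    rw [Nat.choose_one_right, Nat.centralBinom_eq_two_mul_choose] at h3
    have h4 : ({a, b} : Finset (Finset α)).card ≤ 2 := Finset.card_le_two
    rw [h2]
    omega
  obtain ⟨w, hw, hwn⟩ := Finset.exists_mem_notMem_of_card_lt_card h1
  rw [Finset.mem_powersetCard] at hw
  rw [Finset.mem_insert, Finset.mem_singleton, not_or] at hwn
  refine ⟨w, ⟨hw.1, by omega⟩, hwn.1, hwn.2, ?_⟩
  rintro ⟨k, j, f, hj, h0, hjw, hk, hv, hne, hadj⟩
  obtain ⟨hj0, hjk⟩ := ExcA.inner hj h0 hjw hk hwn.1 hwn.2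
  have e1 : (f (j - 1) ∩ f j).card = 0 := (hadj (j - 1) j (by omega) hj).2 (by omega)
  have e2 : (f j ∩ f (j + 1)).card = 0 := (hadj j (j + 1) (by omega) (by omega)).2 rfl
  rw [Finset.inter_comm] at e2
  have h5 := ExcA.eq_compl hN (hv (j - 1) (by omega)) (hv j hj) e1
  have h6 := ExcA.eq_compl hN (hv (j + 1) (by omega)) (hv j hj) e2
  exact hne (j - 1) (j + 1) (by omega) (by omega) (h5.trans h6.symm)

/-- intersection with the complement -/
lemma ExcA.card_inter_compl {N : Finset α} {A a : Finset α} (hA : A ⊆ N) :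
    (A ∩ (N \ a)).card + (A ∩ a).card = A.card := by
  have h1 : A ∩ (N \ a) = A \ a := by
    ext e
    simp only [Finset.mem_inter, Finset.mem_sdiff]
    exact ⟨fun h => ⟨h.1, h.2.2⟩, fun h => ⟨h.1, hA h.1, h.2⟩⟩
  rw [h1]
  exact Finset.card_sdiff_add_card_inter A a

theorem exc_twin (ht : 2 ≤ t) : Bad α t t t := by
  intro N a b hN ha hb hab
  have hca := ha.2
  have hcb := hb.2
  by_cases hba : b = N \ a
  · -- complementary vertices
    have hane : a.Nonempty := by rw [← Finset.card_pos]; omega
    have hbne : b.Nonempty := by rw [← Finset.card_pos]; omega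
    obtain ⟨e, he⟩ := hane
    obtain ⟨e', he'⟩ := hbne
    have hdis : ∀ x ∈ b, x ∉ a := by
      intro x hx
      rw [hba, Finset.mem_sdiff] at hx
      exact hx.2
    have heb : e ∉ b.erase e' := fun h => hdis e (Finset.mem_of_mem_erase h) he
    have hcw : (insert e (b.erase e')).card = t + t := by
      rw [Finset.card_insert_of_notMem heb, Finset.card_erase_of_mem he']
      omega
    have hint : a ∩ insert e (b.erase e') = {e} := by
      ext x
      rw [Finset.mem_inter, Finset.mem_insert, Finset.mem_singleton]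
      constructor
      · rintro ⟨h1, h2 | h2⟩
        · exact h2
        · exact absurd h1 (hdis x (Finset.mem_of_mem_erase h2))
      · rintro rfl
        exact ⟨he, Or.inl rfl⟩
    have hwa : insert e (b.erase e') ≠ a := by
      intro h
      rw [h, Finset.inter_self] at hint
      rw [hint, Finset.card_singleton] at hca
      omega
    have hwb : insert e (b.erase e') ≠ b := by
      intro h
      exact hdis e (by rw [← h]; exact Finset.mem_insert_self _ _) he
    refine ⟨insert e (b.erase e'), ⟨?_, hcw⟩, hwa, hwb, ?_⟩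
    · intro x hx
      rw [Finset.mem_insert] at hx
      rcases hx with rfl | hx
      · exact ha.1 he
      · exact hb.1 (Finset.mem_of_mem_erase hx)
    · rintro ⟨k, j, f, hj, h0, hjw, hk, hv, hne, hadj⟩
      obtain ⟨hj0, hjk⟩ := ExcA.inner hj h0 hjw hk hwa hwb
      have h1 : (f 0 ∩ f 1).card = t := (hadj 0 1 (by omega) (by omega)).2 rfl
      have hv1 := hv 1 (by omega)
      have h2 := ExcA.card_inter_compl (a := a) hv1.1
      rw [← hba, hv1.2, Finset.inter_comm (f 1) a] at h2
      rw [h0] at h1
      have h3 : (f 1 ∩ f k).card = t := by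
        rw [hk]
        omega
      have h4 := (hadj 1 k (by omega) le_rfl).1 h3
      have h5 : j = 1 := by omega
      rw [h5] at hjw
      rw [hjw, hint, Finset.card_singleton] at h1
      omega
  · -- the twin of `a`
    have hca' := Finset.card_sdiff_add_card_eq_card ha.1
    have hwa : N \ a ≠ a := by
      intro h
      have h1 : a ∩ a = ∅ := by
        conv_lhs => rw [← h]
        rw [h]
        ext x
        simp only [Finset.mem_inter, Finset.notMem_empty, iff_false, not_and]
        intro hx
        rw [← h] at hx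
        exact fun _ => (Finset.mem_sdiff.1 hx).2 (by rw [← h]; exact hx)
      rw [Finset.inter_self] at h1
      rw [h1, Finset.card_empty] at hca
      omega
    have hwb : N \ a ≠ b := fun h => hba h.symm
    refine ⟨N \ a, ⟨Finset.sdiff_subset, by omega⟩, hwa, hwb, ?_⟩
    rintro ⟨k, j, f, hj, h0, hjw, hk, hv, hne, hadj⟩
    obtain ⟨hj0, hjk⟩ := ExcA.inner hj h0 hjw hk hwa hwb
    have htw : ∀ A : Finset α, Vtx N t t A → ((A ∩ (N \ a)).card = t ↔ (A ∩ a).card = t) := by
      intro A hA
      have h1 := ExcA.card_inter_compl (a := a) hA.1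
      have h2 := hA.2
      omega
    have h1 : (f 0 ∩ f 1).card = t := (hadj 0 1 (by omega) (by omega)).2 rfl
    rw [h0, Finset.inter_comm] at h1
    have h2 := (htw _ (hv 1 (by omega))).2 h1
    have hj1 : j ≠ 1 := by
      intro h
      rw [h] at hjw
      rw [hjw, Finset.inter_self] at h2
      omega
    have h3 : j = 1 + 1 := (hadj 1 j (by omega) hj).1 (by rw [hjw]; exact h2)
    have h4 : (f j ∩ f (j + 1)).card = t := (hadj j (j + 1) (by omega) (by omega)).2 rfl
    rw [hjw, Finset.inter_comm] at h4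
    have h5 := (htw _ (hv (j + 1) (by omega))).1 h4
    have h6 := (hadj 0 (j + 1) (by omega) (by omega)).1 (by rw [h0, Finset.inter_comm]; exact h5)
    omega

end Pool.Agent.H4.Joh
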