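import Pool.Agent.H4.Joh.ExcDef

/-!
# Exceptional graphs: `K(n, 2)`, `n ≥ 5`

JOB.  `i = 0`, `t = 2`, `|N| = 4 + s ≥ 5`; vertices are 2-subsets, adjacent = disjoint.
(1) `a ∩ b = ∅` (adjacent): take any vertex `w ≠ a, b` (e.g. one point of `a` and a point outside
`a ∪ b`).  On an induced path from `a = f 0` to `b = f k`: `f 0` and `f k` are adjacent so `k = 1`,
and `w = f j` is `a` or `b`.
(2) `a = {1, 2}`, `b = {1, 3}`: take `w = {2, 3}`.  Suppose there is an induced path, `f 0 = a`,
`f j = w`, `f k = b`, `0 < j < k`.  `u = f (j - 1)`, `u' = f (j + 1)` are disjoint from `w`,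
different, and not adjacent (`u ∩ u' ≠ ∅`).  `u ≠ a` and `u' ≠ b` (`a`, `b` meet `w`), so
`j - 1 ≥ 1`, `j + 1 ≤ k - 1`.
* `1 ∈ u`: otherwise `u` is disjoint from `a` and `b`, so adjacent to `f 0` and to `f k`:
  `j - 1 = 1` and `k = j`, contradiction.  Similarly `1 ∈ u'`.  So `u = {1, q}`, `u' = {1, q'}`,
  `q ≠ q'`, `q, q' ∉ {1, 2, 3}`; `u` is not adjacent to `a`, so `j - 1 ≥ 2`, and `j + 1 ≤ k - 2`.
* `v = f 1` is disjoint from `a`, not adjacent to `b` (`k ≥ 3`) so `3 ∈ v`; not adjacent to `u'`
  (`j + 1 ≥ 4`), so it meets `u'`: `v = {3, q'}`.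
* `v' = f (k - 1)` is disjoint from `b`, not adjacent to `a` so `2 ∈ v'`; not adjacent to `u`
  (`j - 1 ≤ k - 5`): `v' = {2, q}`.
* `v ∩ v' = ∅`, so `f 1` and `f (k - 1)` are adjacent, `k - 1 = 2`, contradiction.
-/

namespace Pool.Agent.H4.Joh

variable {α : Type*} [DecidableEq α] {s : ℕ}

private lemma exb_pair {u : Finset α} {x : α} (hu : u.card = 2) (hx : x ∈ u) :
    ∃ q, q ≠ x ∧ u = {x, q} := by
  obtain ⟨p, q, hpq, rfl⟩ := Finset.card_eq_two.1 hu
  rcases Finset.mem_insert.1 hx with h | h
  · exact ⟨q, by rw [h]; exact hpq.symm, by rw [h]⟩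
  · rw [Finset.mem_singleton] at h
    exact ⟨p, by rw [h]; exact hpq, by rw [h, Finset.pair_comm]⟩

private lemma exb_ne {u v : Finset α} {x : α} (h1 : x ∈ u) (h2 : x ∈ v) : (u ∩ v).card ≠ 0 :=
  Finset.card_ne_zero_of_mem (Finset.mem_inter.2 ⟨h1, h2⟩)

private lemma exb_zero {u v : Finset α} (h : ∀ x ∈ u, x ∉ v) : (u ∩ v).card = 0 := by
  rw [Finset.card_eq_zero, Finset.eq_empty_iff_forall_notMem]
  intro x hx
  exact h x (Finset.mem_inter.1 hx).1 (Finset.mem_inter.1 hx).2

private lemma exb_notMem {u v : Finset α} (h : (u ∩ v).card = 0) {x : α} (h1 : x ∈ u) : x ∉ v :=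
  fun h2 => exb_ne h1 h2 h

private lemma exb_exists {u v : Finset α} (h : (u ∩ v).card ≠ 0) : ∃ x, x ∈ u ∧ x ∈ v := by
  obtain ⟨x, hx⟩ := Finset.card_ne_zero.1 h
  exact ⟨x, Finset.mem_inter.1 hx⟩

theorem exc_kn2 (hs : 1 ≤ s) : Bad α 0 s 2 := by
  intro N a b hN ha hb hab
  obtain ⟨haN, ha2⟩ := ha
  obtain ⟨hbN, hb2⟩ := hb
  rw [zero_add] at ha2 hb2
  by_cases hadj : (a ∩ b).card = 0
  · have h1 : (N \ (a ∪ b)).Nonempty := by
      rw [← Finset.card_pos]
      have h2 := Finset.le_card_sdiff (a ∪ b) N
      have h3 := Finset.card_union_le a b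
      omega
    obtain ⟨p, hp⟩ := h1
    obtain ⟨hpN, hpab⟩ := Finset.mem_sdiff.1 hp
    rw [Finset.mem_union, not_or] at hpab
    obtain ⟨c, hc⟩ : a.Nonempty := Finset.card_pos.1 (by omega)
    have hcp : c ≠ p := fun h => hpab.1 (h ▸ hc)
    refine ⟨{c, p}, ⟨?_, ?_⟩, ?_, ?_, ?_⟩
    · intro z hz
      rcases Finset.mem_insert.1 hz with h | h
      · rw [h]; exact haN hc
      · rw [Finset.mem_singleton.1 h]; exact hpN
    · rw [Finset.card_pair hcp]
    · intro h
      apply hpab.1
      rw [← h]
      simp
    · intro h
      apply hpab.2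
      rw [← h]
      simp
    · rintro ⟨k, j, f, hjk, h0, hj, hk, hv, hinj, hadj'⟩
      have hk0 : k ≠ 0 := by
        intro h
        rw [h, h0] at hk
        exact hab hk
      have h2 := hadj' 0 k (by omega) le_rfl
      rw [h0, hk] at h2
      have hk1 : k = 1 := h2.1 hadj
      have : j = 0 ∨ j = k := by omega
      rcases this with h | h
      · rw [h, h0] at hj
        apply hpab.1
        rw [hj]
        simp
      · rw [h, hk] at hj
        apply hpab.2
        rw [hj]
        simp
  · obtain ⟨x, hxa, hxb⟩ := exb_exists hadj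
    obtain ⟨y, hyx, rfl⟩ := exb_pair ha2 hxa
    obtain ⟨z, hzx, rfl⟩ := exb_pair hb2 hxb
    have hyz : y ≠ z := fun h => hab (by rw [h])
    have hyN : y ∈ N := haN (by simp)
    have hzN : z ∈ N := hbN (by simp)
    refine ⟨{y, z}, ⟨?_, ?_⟩, ?_, ?_, ?_⟩
    · intro c hc
      rcases Finset.mem_insert.1 hc with h | h
      · rw [h]; exact hyN
      · rw [Finset.mem_singleton.1 h]; exact hzN
    · rw [Finset.card_pair hyz]
    · intro h
      have : x ∈ ({y, z} : Finset α) := by rw [h]; simp
      simp only [Finset.mem_insert, Finset.mem_singleton] at this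
      rcases this with h | h
      · exact hyx h.symm
      · exact hzx h.symm
    · intro h
      have : x ∈ ({y, z} : Finset α) := by rw [h]; simp
      simp only [Finset.mem_insert, Finset.mem_singleton] at this
      rcases this with h | h
      · exact hyx h.symm
      · exact hzx h.symm
    · rintro ⟨k, j, f, hjk, h0, hj, hk, hv, hinj, hadj'⟩
      have hwa : ({y, z} : Finset α) ≠ {x, y} := by
        intro h
        have : x ∈ ({y, z} : Finset α) := by rw [h]; simp
        simp only [Finset.mem_insert, Finset.mem_singleton] at this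
        rcases this with h | h
        · exact hyx h.symm
        · exact hzx h.symm
      have hwb : ({y, z} : Finset α) ≠ {x, z} := by
        intro h
        have : x ∈ ({y, z} : Finset α) := by rw [h]; simp
        simp only [Finset.mem_insert, Finset.mem_singleton] at this
        rcases this with h | h
        · exact hyx h.symm
        · exact hzx h.symm
      have hj0 : j ≠ 0 := by
        intro h
        rw [h, h0] at hj
        exact hwa hj.symm
      have hjk' : j ≠ k := by
        intro h
        rw [h, hk] at hj
        exact hwb hj.symm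
      have m1 : y ∈ f 0 := by rw [h0]; simp
      have m2 : x ∈ f 0 := by rw [h0]; simp
      have m3 : z ∈ f k := by rw [hk]; simp
      have m4 : x ∈ f k := by rw [hk]; simp
      have m5 : y ∈ f j := by rw [hj]; simp
      have m6 : z ∈ f j := by rw [hj]; simp
      have adj1 : (f (j - 1) ∩ f j).card = 0 := (hadj' (j - 1) j (by omega) (by omega)).2 (by omega)
      have adj2 : (f j ∩ f (j + 1)).card = 0 := (hadj' j (j + 1) (by omega) (by omega)).2 rfl
      have hj1 : j ≠ 1 := by
        intro h
        rw [h] at adj1
        rw [h] at m5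
        exact exb_ne m1 m5 adj1
      have hjk1 : k ≠ j + 1 := by
        intro h
        rw [← h] at adj2
        exact exb_ne m6 m3 adj2
      -- `y, z` are not in `u`, `u'`
      have yu : y ∉ f (j - 1) := fun h => exb_ne h m5 adj1
      have zu : z ∉ f (j - 1) := fun h => exb_ne h m6 adj1
      have yu' : y ∉ f (j + 1) := exb_notMem adj2 m5
      have zu' : z ∉ f (j + 1) := exb_notMem adj2 m6
      have xu : x ∈ f (j - 1) := by
        by_contra hx
        have h1 : (f (j - 1) ∩ f k).card = 0 := by
          apply exb_zero
          intro c hc hck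
          rw [hk] at hck
          simp only [Finset.mem_insert, Finset.mem_singleton] at hck
          rcases hck with h | h
          · exact hx (h ▸ hc)
          · exact zu (h ▸ hc)
        have h2 := (hadj' (j - 1) k (by omega) le_rfl).1 h1
        omega
      have xu' : x ∈ f (j + 1) := by
        by_contra hx
        have h1 : (f 0 ∩ f (j + 1)).card = 0 := by
          apply exb_zero
          intro c hc hck
          rw [h0] at hc
          simp only [Finset.mem_insert, Finset.mem_singleton] at hc
          rcases hc with h | h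
          · exact hx (h ▸ hck)
          · exact yu' (h ▸ hck)
        have h2 := (hadj' 0 (j + 1) (by omega) (by omega)).1 h1
        omega
      obtain ⟨q, hqx, hu⟩ := exb_pair (by have := (hv (j - 1) (by omega)).2; omega) xu
      obtain ⟨q', hqx', hu'⟩ := exb_pair (by have := (hv (j + 1) (by omega)).2; omega) xu'
      have hqq : q ≠ q' := by
        intro h
        apply hinj (j - 1) (j + 1) (by omega) (by omega)
        rw [hu, hu', h]
      have hqy : q ≠ y := by
        intro h
        apply yu
        rw [hu, ← h]
        simp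
      have hqz : q ≠ z := by
        intro h
        apply zu
        rw [hu, ← h]
        simp
      have hqy' : q' ≠ y := by
        intro h
        apply yu'
        rw [hu', ← h]
        simp
      have hqz' : q' ≠ z := by
        intro h
        apply zu'
        rw [hu', ← h]
        simp
      have hj3 : 3 ≤ j := by
        by_contra hcon
        have h2 := (hadj' 0 (j - 1) (by omega) (by omega)).2 (by omega)
        exact exb_ne m2 xu h2
      have hk3 : j + 3 ≤ k := by
        by_contra hcon
        have h2 := (hadj' (j + 1) k (by omega) le_rfl).2 (by omega)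
        exact exb_ne xu' m4 h2
      -- the vertex `f 1`
      have a01 : (f 0 ∩ f 1).card = 0 := (hadj' 0 1 (by omega) (by omega)).2 rfl
      have xv : x ∉ f 1 := exb_notMem a01 m2
      have zv : z ∈ f 1 := by
        have h1 : (f 1 ∩ f k).card ≠ 0 := by
          intro h
          have := (hadj' 1 k (by omega) le_rfl).1 h
          omega
        obtain ⟨c, hc1, hc2⟩ := exb_exists h1
        rw [hk] at hc2
        simp only [Finset.mem_insert, Finset.mem_singleton] at hc2
        rcases hc2 with h | h
        · exact absurd (h ▸ hc1) xv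
        · exact h ▸ hc1
      have qv : q' ∈ f 1 := by
        have h1 : (f 1 ∩ f (j + 1)).card ≠ 0 := by
          intro h
          have := (hadj' 1 (j + 1) (by omega) (by omega)).1 h
          omega
        obtain ⟨c, hc1, hc2⟩ := exb_exists h1
        rw [hu'] at hc2
        simp only [Finset.mem_insert, Finset.mem_singleton] at hc2
        rcases hc2 with h | h
        · exact absurd (h ▸ hc1) xv
        · exact h ▸ hc1
      -- the vertex `f (k - 1)`
      have ak : (f (k - 1) ∩ f k).card = 0 := (hadj' (k - 1) k (by omega) le_rfl).2 (by omega)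
      have xv' : x ∉ f (k - 1) := fun h => exb_ne h m4 ak
      have yv' : y ∈ f (k - 1) := by
        have h1 : (f 0 ∩ f (k - 1)).card ≠ 0 := by
          intro h
          have := (hadj' 0 (k - 1) (by omega) (by omega)).1 h
          omega
        obtain ⟨c, hc1, hc2⟩ := exb_exists h1
        rw [h0] at hc1
        simp only [Finset.mem_insert, Finset.mem_singleton] at hc1
        rcases hc1 with h | h
        · exact absurd (h ▸ hc2) xv'
        · exact h ▸ hc2
      have qv' : q ∈ f (k - 1) := by
        have h1 : (f (j - 1) ∩ f (k - 1)).card ≠ 0 := by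
          intro h
          have := (hadj' (j - 1) (k - 1) (by omega) (by omega)).1 h
          omega
        obtain ⟨c, hc1, hc2⟩ := exb_exists h1
        rw [hu] at hc1
        simp only [Finset.mem_insert, Finset.mem_singleton] at hc1
        rcases hc1 with h | h
        · exact absurd (h ▸ hc2) xv'
        · exact h ▸ hc2
      obtain ⟨r, hr, hv1⟩ := exb_pair (by have := (hv 1 (by omega)).2; omega) zv
      obtain ⟨r', hr', hvk⟩ := exb_pair (by have := (hv (k - 1) (by omega)).2; omega) yv'
      have e1 : q' = r := by
        rw [hv1] at qv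
        simp only [Finset.mem_insert, Finset.mem_singleton] at qv
        rcases qv with h | h
        · exact absurd h hqz'
        · exact h
      have e2 : q = r' := by
        rw [hvk] at qv'
        simp only [Finset.mem_insert, Finset.mem_singleton] at qv'
        rcases qv' with h | h
        · exact absurd h hqy
        · exact h
      have hfin : (f 1 ∩ f (k - 1)).card = 0 := by
        apply exb_zero
        intro c hc hc'
        rw [hv1, ← e1] at hc
        rw [hvk, ← e2] at hc'
        simp only [Finset.mem_insert, Finset.mem_singleton] at hc hc'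
        rcases hc with h | h <;> rcases hc' with h' | h'
        · exact hyz (h'.symm.trans h)
        · exact hqz (h'.symm.trans h)
        · exact hqy' (h.symm.trans h')
        · exact hqq (h'.symm.trans h)
      have := (hadj' 1 (k - 1) (by omega) (by omega)).1 hfin
      omega

end Pool.Agent.H4.Joh
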