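import Pool.Agent.H4.Joh.SymA

/-!
# The exceptional parameters: definition
-/

namespace Pool.Agent.H4.Joh

/-- For any two distinct vertices `a`, `b` some third vertex lies on no induced `a,b`-path. -/
def Bad (α : Type*) [DecidableEq α] (i s t : ℕ) : Prop :=
  ∀ N a b : Finset α, N.card = 2 * t + i + s → Vtx N i t a → Vtx N i t b → a ≠ b →
    ∃ w, Vtx N i t w ∧ w ≠ a ∧ w ≠ b ∧ ¬ IndPath N i t a b w

end Pool.Agent.H4.Joh
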