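import Pool.Agent.H4.Joh.Defs

/-!
# Cell counts

JOB.  `exists_pair`: two subsets of `S` with prescribed sizes and prescribed overlap (choose `P`, then
`R ⊆ P` of size `r`, then `Q' ⊆ S \ P` of size `q - r`, `Q = R ∪ Q'`).

`Cells.sums`, `Cells.inters`: the linear relations between the cell sizes.

`exists_pq`: choose in each of the eight cells (they are pairwise disjoint with union `N`) a pair of
subsets `P_e, Q_e` by `exists_pair`; `p`, `q` are the unions.  Then `|p ∩ x|` is the sum of the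
counts over the four cells in `x`, etc., and `|p ∩ q|` is the sum of the `r`-counts.
-/

namespace Pool.Agent.H4.Joh

variable {α : Type*} [DecidableEq α] {N x y w : Finset α} {i s t : ℕ}
  {a b c X Y W d o : ℕ}

theorem exists_pair (S : Finset α) (p q r : ℕ) (h1 : r ≤ p) (h2 : r ≤ q)
    (h3 : p + q ≤ S.card + r) :
    ∃ P Q : Finset α, P ⊆ S ∧ Q ⊆ S ∧ P.card = p ∧ Q.card = q ∧ (P ∩ Q).card = r := by
  obtain ⟨P, hPS, hP⟩ := Finset.exists_subset_card_eq (s := S) (n := p) (by omega)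
  obtain ⟨R, hRP, hR⟩ := Finset.exists_subset_card_eq (s := P) (n := r) (by omega)
  have hSP : (S \ P).card = S.card - p := by
    rw [Finset.card_sdiff_of_subset hPS, hP]
  obtain ⟨Q', hQS, hQ'⟩ := Finset.exists_subset_card_eq (s := S \ P) (n := q - r) (by omega)
  have hdis : Disjoint R Q' := by
    rw [Finset.disjoint_left]
    intro u hu hu'
    exact (Finset.mem_sdiff.1 (hQS hu')).2 (hRP hu)
  refine ⟨P, R ∪ Q', hPS, ?_, hP, ?_, ?_⟩
  · exact Finset.union_subset (hRP.trans hPS) (hQS.trans Finset.sdiff_subset)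
  · rw [Finset.card_union_of_disjoint hdis, hR, hQ']
    omega
  · have : P ∩ (R ∪ Q') = R := by
      ext u
      simp only [Finset.mem_inter, Finset.mem_union]
      constructor
      · rintro ⟨h, h' | h'⟩
        · exact h'
        · exact absurd h (Finset.mem_sdiff.1 (hQS h')).2
      · intro h
        exact ⟨hRP h, Or.inl h⟩
    rw [this, hR]

theorem Cfg.cells (N x y w : Finset α) :
    ∃ a b c X Y W d o : ℕ, Cells N x y w a b c X Y W d o :=
  ⟨_, _, _, _, _, _, _, _, rfl, rfl, rfl, rfl, rfl, rfl, rfl, rfl⟩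

/-- the cells inside one set -/
theorem card_four (x y w : Finset α) :
    x.card = ((x ∩ y) \ w).card + ((x ∩ w) \ y).card + (x \ (y ∪ w)).card + (x ∩ y ∩ w).card := by
  have h1 := Finset.card_inter_add_card_sdiff x y
  have h2 := Finset.card_inter_add_card_sdiff (x ∩ y) w
  have h3 := Finset.card_inter_add_card_sdiff (x \ y) w
  have h4 : (x \ y) ∩ w = (x ∩ w) \ y := by
    ext u; simp only [Finset.mem_inter, Finset.mem_sdiff]; tauto
  have h5 : (x \ y) \ w = x \ (y ∪ w) := by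
    ext u; simp only [Finset.mem_union, Finset.mem_sdiff]; tauto
  rw [h4, h5] at h3
  omega

/-- the eight cells partition `N` -/
theorem card_eight (hx : x ⊆ N) (hy : y ⊆ N) (hw : w ⊆ N) {q : Finset α} (hq : q ⊆ N) :
    q.card = (q ∩ ((x ∩ y) \ w)).card + (q ∩ ((x ∩ w) \ y)).card + (q ∩ ((y ∩ w) \ x)).card +
      (q ∩ (x \ (y ∪ w))).card + (q ∩ (y \ (x ∪ w))).card + (q ∩ (w \ (x ∪ y))).card +
      (q ∩ (x ∩ y ∩ w)).card + (q ∩ (N \ (x ∪ y ∪ w))).card := by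
  have e1 := Finset.card_inter_add_card_sdiff q x
  have e2 := Finset.card_inter_add_card_sdiff (q ∩ x) y
  have e3 := Finset.card_inter_add_card_sdiff (q \ x) y
  have e4 := Finset.card_inter_add_card_sdiff (q ∩ x ∩ y) w
  have e5 := Finset.card_inter_add_card_sdiff ((q ∩ x) \ y) w
  have e6 := Finset.card_inter_add_card_sdiff ((q \ x) ∩ y) w
  have e7 := Finset.card_inter_add_card_sdiff ((q \ x) \ y) w
  have c1 : q ∩ x ∩ y ∩ w = q ∩ (x ∩ y ∩ w) := by
    ext u; simp only [Finset.mem_inter]; tauto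
  have c2 : (q ∩ x ∩ y) \ w = q ∩ ((x ∩ y) \ w) := by
    ext u; simp only [Finset.mem_inter, Finset.mem_sdiff]; tauto
  have c3 : ((q ∩ x) \ y) ∩ w = q ∩ ((x ∩ w) \ y) := by
    ext u; simp only [Finset.mem_inter, Finset.mem_sdiff]; tauto
  have c4 : ((q ∩ x) \ y) \ w = q ∩ (x \ (y ∪ w)) := by
    ext u; simp only [Finset.mem_inter, Finset.mem_sdiff, Finset.mem_union]; tauto
  have c5 : ((q \ x) ∩ y) ∩ w = q ∩ ((y ∩ w) \ x) := by
    ext u; simp only [Finset.mem_inter, Finset.mem_sdiff]; tauto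
  have c6 : ((q \ x) ∩ y) \ w = q ∩ (y \ (x ∪ w)) := by
    ext u; simp only [Finset.mem_inter, Finset.mem_sdiff, Finset.mem_union]; tauto
  have c7 : ((q \ x) \ y) ∩ w = q ∩ (w \ (x ∪ y)) := by
    ext u; simp only [Finset.mem_inter, Finset.mem_sdiff, Finset.mem_union]; tauto
  have c8 : ((q \ x) \ y) \ w = q ∩ (N \ (x ∪ y ∪ w)) := by
    ext u
    have := @hq u
    simp only [Finset.mem_inter, Finset.mem_sdiff, Finset.mem_union]; tauto
  rw [c1, c2] at e4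
  rw [c3, c4] at e5
  rw [c5, c6] at e6
  rw [c7, c8] at e7
  omega

/-- relations between cell sizes -/
theorem Cells.sums (hc : Cells N x y w a b c X Y W d o) (h : Cfg N i s t x y w) :
    a + b + X + d = i + t ∧ a + c + Y + d = i + t ∧ b + c + W + d = i + t ∧
    a + b + c + X + Y + W + d + o = 2 * t + i + s ∧ a + d ≠ i ∧ 1 ≤ t ∧
    a + d < i + t ∧ b + d < i + t ∧ c + d < i + t := by
  obtain ⟨h1, h2, h3, h4, h5, h6, h7, h8⟩ := hc
  have hxy := Finset.card_inter_add_card_sdiff (x ∩ y) w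
  have hxw := Finset.card_inter_add_card_sdiff (x ∩ w) y
  have hyw := Finset.card_inter_add_card_sdiff (y ∩ w) x
  have i1 : x ∩ w ∩ y = x ∩ y ∩ w := by
    ext u; simp only [Finset.mem_inter]; tauto
  have i2 : y ∩ w ∩ x = x ∩ y ∩ w := by
    ext u; simp only [Finset.mem_inter]; tauto
  rw [i1] at hxw
  rw [i2] at hyw
  have fx := card_four x y w
  have fy := card_four y x w
  have fw := card_four w x y
  have j1 : y ∩ x = x ∩ y := Finset.inter_comm _ _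
  have j2 : w ∩ x = x ∩ w := Finset.inter_comm _ _
  have j3 : w ∩ y = y ∩ w := Finset.inter_comm _ _
  rw [j1] at fy
  rw [j2, j3, i1] at fw
  have hN : N.card = (x ∪ y ∪ w).card + (N \ (x ∪ y ∪ w)).card := by
    rw [← Finset.card_union_of_disjoint Finset.disjoint_sdiff]
    congr 1
    rw [Finset.union_sdiff_of_subset]
    exact Finset.union_subset (Finset.union_subset h.hx.1 h.hy.1) h.hw.1
  have hu1 := Finset.card_union_add_card_inter (x ∪ y) w
  have hu2 := Finset.card_union_add_card_inter x y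
  have hu3 : (x ∪ y) ∩ w = (x ∩ w) ∪ (y ∩ w) := Finset.union_inter_distrib_right _ _ _
  have hu4 := Finset.card_union_add_card_inter (x ∩ w) (y ∩ w)
  have hu5 : x ∩ w ∩ (y ∩ w) = x ∩ y ∩ w := by
    ext u; simp only [Finset.mem_inter]; tauto
  rw [hu5] at hu4
  rw [hu3] at hu1
  have kx := h.hx.2
  have ky := h.hy.2
  have kw := h.hw.2
  have cN := h.cN
  have t1 := h.t1
  have nadj := h.nadj
  have lt_of : ∀ u v : Finset α, u ≠ v → u.card = v.card → (u ∩ v).card < u.card := by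
    intro u v huv hcard
    refine lt_of_le_of_ne (Finset.card_le_card Finset.inter_subset_left) ?_
    intro he
    have h1 : u ∩ v = u := Finset.eq_of_subset_of_card_le Finset.inter_subset_left he.ge
    have h2 : u ⊆ v := Finset.inter_eq_left.1 h1
    exact huv (Finset.eq_of_subset_of_card_le h2 hcard.ge)
  have lxy := lt_of x y h.xy (by omega)
  have lxw := lt_of x w h.wx.symm (by omega)
  have lyw := lt_of y w h.wy.symm (by omega)
  rw [h1] at hxy fx fy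
  rw [h2] at hxw fx fw
  rw [h3] at hyw fy fw
  rw [h4] at fx
  rw [h5] at fy
  rw [h6] at fw
  rw [h7] at *
  rw [h8] at hN
  refine ⟨?_, ?_, ?_, ?_, ?_, ?_, ?_, ?_, ?_⟩ <;> omega

/-- intersections in terms of cell sizes -/
theorem Cells.inters (hc : Cells N x y w a b c X Y W d o) :
    (x ∩ y).card = a + d ∧ (x ∩ w).card = b + d ∧ (y ∩ w).card = c + d := by
  obtain ⟨h1, h2, h3, h4, h5, h6, h7, h8⟩ := hc
  have hxy := Finset.card_inter_add_card_sdiff (x ∩ y) w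
  have hxw := Finset.card_inter_add_card_sdiff (x ∩ w) y
  have hyw := Finset.card_inter_add_card_sdiff (y ∩ w) x
  have i1 : x ∩ w ∩ y = x ∩ y ∩ w := by
    ext u; simp only [Finset.mem_inter]; tauto
  have i2 : y ∩ w ∩ x = x ∩ y ∩ w := by
    ext u; simp only [Finset.mem_inter]; tauto
  rw [i1] at hxw
  rw [i2] at hyw
  refine ⟨?_, ?_, ?_⟩ <;> omega

/-- a union of eight pieces lying in pairwise disjoint cells, intersected with one cell -/
theorem piece_aux {P R C D : Finset α} (hP : P ⊆ C) (hR : R ⊆ D) (hCD : Disjoint C D) :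
    (P ∪ R) ∩ C = P := by
  rw [Finset.union_inter_distrib_right, Finset.inter_eq_left.2 hP,
    Finset.disjoint_iff_inter_eq_empty.1 ((hCD.mono_right hR).symm), Finset.union_empty]

/-- choice of one set with prescribed pieces in the eight cells -/
theorem pieces (hx : x ⊆ N) (hy : y ⊆ N) (hw : w ⊆ N)
    {Pa Pb Pc PX PY PW Pd Po : Finset α}
    (ka : Pa ⊆ (x ∩ y) \ w) (kb : Pb ⊆ (x ∩ w) \ y) (kc : Pc ⊆ (y ∩ w) \ x)
    (kX : PX ⊆ x \ (y ∪ w)) (kY : PY ⊆ y \ (x ∪ w)) (kW : PW ⊆ w \ (x ∪ y))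
    (kd : Pd ⊆ x ∩ y ∩ w) (ko : Po ⊆ N \ (x ∪ y ∪ w)) :
    ∃ p : Finset α, p ⊆ N ∧
      p ∩ ((x ∩ y) \ w) = Pa ∧ p ∩ ((x ∩ w) \ y) = Pb ∧ p ∩ ((y ∩ w) \ x) = Pc ∧
      p ∩ (x \ (y ∪ w)) = PX ∧ p ∩ (y \ (x ∪ w)) = PY ∧ p ∩ (w \ (x ∪ y)) = PW ∧
      p ∩ (x ∩ y ∩ w) = Pd ∧ p ∩ (N \ (x ∪ y ∪ w)) = Po := by
  have iN : (x ∩ y) \ w ⊆ N := fun u hu => hx (Finset.mem_inter.1 (Finset.mem_sdiff.1 hu).1).1
  have iN2 : (x ∩ w) \ y ⊆ N := fun u hu => hx (Finset.mem_inter.1 (Finset.mem_sdiff.1 hu).1).1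
  have iN3 : (y ∩ w) \ x ⊆ N := fun u hu => hy (Finset.mem_inter.1 (Finset.mem_sdiff.1 hu).1).1
  have iN4 : x \ (y ∪ w) ⊆ N := Finset.sdiff_subset.trans hx
  have iN5 : y \ (x ∪ w) ⊆ N := Finset.sdiff_subset.trans hy
  have iN6 : w \ (x ∪ y) ⊆ N := Finset.sdiff_subset.trans hw
  have iN7 : x ∩ y ∩ w ⊆ N := Finset.inter_subset_right.trans hw
  have iN8 : N \ (x ∪ y ∪ w) ⊆ N := Finset.sdiff_subset
  refine ⟨Pa ∪ Pb ∪ Pc ∪ PX ∪ PY ∪ PW ∪ Pd ∪ Po, ?_, ?_, ?_, ?_, ?_, ?_, ?_, ?_, ?_⟩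
  · exact Finset.union_subset (Finset.union_subset (Finset.union_subset (Finset.union_subset
      (Finset.union_subset (Finset.union_subset (Finset.union_subset (ka.trans iN) (kb.trans iN2))
      (kc.trans iN3)) (kX.trans iN4)) (kY.trans iN5)) (kW.trans iN6)) (kd.trans iN7)) (ko.trans iN8)
  · have e : Pa ∪ Pb ∪ Pc ∪ PX ∪ PY ∪ PW ∪ Pd ∪ Po =
        Pa ∪ (Pb ∪ Pc ∪ PX ∪ PY ∪ PW ∪ Pd ∪ Po) := by
      simp only [Finset.union_assoc]
    rw [e]
    refine piece_aux ka (Finset.union_subset_union (Finset.union_subset_union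
      (Finset.union_subset_union (Finset.union_subset_union (Finset.union_subset_union
      (Finset.union_subset_union kb kc) kX) kY) kW) kd) ko) ?_
    rw [Finset.disjoint_left]
    intro u h1 h2
    simp only [Finset.mem_inter, Finset.mem_sdiff, Finset.mem_union] at h1 h2
    obtain ⟨⟨a1, a2⟩, a3⟩ := h1
    simp [a1, a2, a3] at h2
  · have e : Pa ∪ Pb ∪ Pc ∪ PX ∪ PY ∪ PW ∪ Pd ∪ Po =
        Pb ∪ (Pa ∪ Pc ∪ PX ∪ PY ∪ PW ∪ Pd ∪ Po) := by
      rw [Finset.union_comm Pa Pb]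
      simp only [Finset.union_assoc]
    rw [e]
    refine piece_aux kb (Finset.union_subset_union (Finset.union_subset_union
      (Finset.union_subset_union (Finset.union_subset_union (Finset.union_subset_union
      (Finset.union_subset_union ka kc) kX) kY) kW) kd) ko) ?_
    rw [Finset.disjoint_left]
    intro u h1 h2
    simp only [Finset.mem_inter, Finset.mem_sdiff, Finset.mem_union] at h1 h2
    obtain ⟨⟨a1, a2⟩, a3⟩ := h1
    simp [a1, a2, a3] at h2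
  · have e : Pa ∪ Pb ∪ Pc ∪ PX ∪ PY ∪ PW ∪ Pd ∪ Po =
        Pc ∪ (Pa ∪ Pb ∪ PX ∪ PY ∪ PW ∪ Pd ∪ Po) := by
      rw [Finset.union_comm (Pa ∪ Pb) Pc]
      simp only [Finset.union_assoc]
    rw [e]
    refine piece_aux kc (Finset.union_subset_union (Finset.union_subset_union
      (Finset.union_subset_union (Finset.union_subset_union (Finset.union_subset_union
      (Finset.union_subset_union ka kb) kX) kY) kW) kd) ko) ?_
    rw [Finset.disjoint_left]
    intro u h1 h2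
    simp only [Finset.mem_inter, Finset.mem_sdiff, Finset.mem_union] at h1 h2
    obtain ⟨⟨a1, a2⟩, a3⟩ := h1
    simp [a1, a2, a3] at h2
  · have e : Pa ∪ Pb ∪ Pc ∪ PX ∪ PY ∪ PW ∪ Pd ∪ Po =
        PX ∪ (Pa ∪ Pb ∪ Pc ∪ PY ∪ PW ∪ Pd ∪ Po) := by
      rw [Finset.union_comm (Pa ∪ Pb ∪ Pc) PX]
      simp only [Finset.union_assoc]
    rw [e]
    refine piece_aux kX (Finset.union_subset_union (Finset.union_subset_union
      (Finset.union_subset_union (Finset.union_subset_union (Finset.union_subset_union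
      (Finset.union_subset_union ka kb) kc) kY) kW) kd) ko) ?_
    rw [Finset.disjoint_left]
    intro u h1 h2
    simp only [Finset.mem_inter, Finset.mem_sdiff, Finset.mem_union, not_or] at h1 h2
    obtain ⟨a1, a2, a3⟩ := h1
    simp [a1, a2, a3] at h2
  · have e : Pa ∪ Pb ∪ Pc ∪ PX ∪ PY ∪ PW ∪ Pd ∪ Po =
        PY ∪ (Pa ∪ Pb ∪ Pc ∪ PX ∪ PW ∪ Pd ∪ Po) := by
      rw [Finset.union_comm (Pa ∪ Pb ∪ Pc ∪ PX) PY]
      simp only [Finset.union_assoc]
    rw [e]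
    refine piece_aux kY (Finset.union_subset_union (Finset.union_subset_union
      (Finset.union_subset_union (Finset.union_subset_union (Finset.union_subset_union
      (Finset.union_subset_union ka kb) kc) kX) kW) kd) ko) ?_
    rw [Finset.disjoint_left]
    intro u h1 h2
    simp only [Finset.mem_inter, Finset.mem_sdiff, Finset.mem_union, not_or] at h1 h2
    obtain ⟨a1, a2, a3⟩ := h1
    simp [a1, a2, a3] at h2
  · have e : Pa ∪ Pb ∪ Pc ∪ PX ∪ PY ∪ PW ∪ Pd ∪ Po =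
        PW ∪ (Pa ∪ Pb ∪ Pc ∪ PX ∪ PY ∪ Pd ∪ Po) := by
      rw [Finset.union_comm (Pa ∪ Pb ∪ Pc ∪ PX ∪ PY) PW]
      simp only [Finset.union_assoc]
    rw [e]
    refine piece_aux kW (Finset.union_subset_union (Finset.union_subset_union
      (Finset.union_subset_union (Finset.union_subset_union (Finset.union_subset_union
      (Finset.union_subset_union ka kb) kc) kX) kY) kd) ko) ?_
    rw [Finset.disjoint_left]
    intro u h1 h2
    simp only [Finset.mem_inter, Finset.mem_sdiff, Finset.mem_union, not_or] at h1 h2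
    obtain ⟨a1, a2, a3⟩ := h1
    simp [a1, a2, a3] at h2
  · have e : Pa ∪ Pb ∪ Pc ∪ PX ∪ PY ∪ PW ∪ Pd ∪ Po =
        Pd ∪ (Pa ∪ Pb ∪ Pc ∪ PX ∪ PY ∪ PW ∪ Po) := by
      rw [Finset.union_comm (Pa ∪ Pb ∪ Pc ∪ PX ∪ PY ∪ PW) Pd]
      simp only [Finset.union_assoc]
    rw [e]
    refine piece_aux kd (Finset.union_subset_union (Finset.union_subset_union
      (Finset.union_subset_union (Finset.union_subset_union (Finset.union_subset_union
      (Finset.union_subset_union ka kb) kc) kX) kY) kW) ko) ?_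
    rw [Finset.disjoint_left]
    intro u h1 h2
    simp only [Finset.mem_inter, Finset.mem_sdiff, Finset.mem_union] at h1 h2
    obtain ⟨⟨a1, a2⟩, a3⟩ := h1
    simp [a1, a2, a3] at h2
  · have e : Pa ∪ Pb ∪ Pc ∪ PX ∪ PY ∪ PW ∪ Pd ∪ Po =
        Po ∪ (Pa ∪ Pb ∪ Pc ∪ PX ∪ PY ∪ PW ∪ Pd) := by
      rw [Finset.union_comm (Pa ∪ Pb ∪ Pc ∪ PX ∪ PY ∪ PW ∪ Pd) Po]
    rw [e]
    refine piece_aux ko (Finset.union_subset_union (Finset.union_subset_union
      (Finset.union_subset_union (Finset.union_subset_union (Finset.union_subset_union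
      (Finset.union_subset_union ka kb) kc) kX) kY) kW) kd) ?_
    rw [Finset.disjoint_left]
    intro u h1 h2
    simp only [Finset.mem_inter, Finset.mem_sdiff, Finset.mem_union, not_or] at h1 h2
    obtain ⟨a0, ⟨a1, a2⟩, a3⟩ := h1
    simp [a1, a2, a3] at h2

/-- counts of a set given by pieces -/
theorem counts (hx : x ⊆ N) (hy : y ⊆ N) (hw : w ⊆ N) {p : Finset α} (hp : p ⊆ N) :
    (x ∩ p).card = (p ∩ ((x ∩ y) \ w)).card + (p ∩ ((x ∩ w) \ y)).card +
      (p ∩ (x \ (y ∪ w))).card + (p ∩ (x ∩ y ∩ w)).card ∧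
    (y ∩ p).card = (p ∩ ((x ∩ y) \ w)).card + (p ∩ ((y ∩ w) \ x)).card +
      (p ∩ (y \ (x ∪ w))).card + (p ∩ (x ∩ y ∩ w)).card ∧
    (w ∩ p).card = (p ∩ ((x ∩ w) \ y)).card + (p ∩ ((y ∩ w) \ x)).card +
      (p ∩ (w \ (x ∪ y))).card + (p ∩ (x ∩ y ∩ w)).card := by
  refine ⟨?_, ?_, ?_⟩
  · have h1 := Finset.card_inter_add_card_sdiff (x ∩ p) y
    have h2 := Finset.card_inter_add_card_sdiff (x ∩ p ∩ y) w
    have h3 := Finset.card_inter_add_card_sdiff ((x ∩ p) \ y) w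
    have c1 : x ∩ p ∩ y ∩ w = p ∩ (x ∩ y ∩ w) := by
      ext u; simp only [Finset.mem_inter]; tauto
    have c2 : (x ∩ p ∩ y) \ w = p ∩ ((x ∩ y) \ w) := by
      ext u; simp only [Finset.mem_inter, Finset.mem_sdiff]; tauto
    have c3 : ((x ∩ p) \ y) ∩ w = p ∩ ((x ∩ w) \ y) := by
      ext u; simp only [Finset.mem_inter, Finset.mem_sdiff]; tauto
    have c4 : ((x ∩ p) \ y) \ w = p ∩ (x \ (y ∪ w)) := by
      ext u; simp only [Finset.mem_inter, Finset.mem_sdiff, Finset.mem_union]; tauto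
    rw [c1, c2] at h2
    rw [c3, c4] at h3
    omega
  · have h1 := Finset.card_inter_add_card_sdiff (y ∩ p) x
    have h2 := Finset.card_inter_add_card_sdiff (y ∩ p ∩ x) w
    have h3 := Finset.card_inter_add_card_sdiff ((y ∩ p) \ x) w
    have c1 : y ∩ p ∩ x ∩ w = p ∩ (x ∩ y ∩ w) := by
      ext u; simp only [Finset.mem_inter]; tauto
    have c2 : (y ∩ p ∩ x) \ w = p ∩ ((x ∩ y) \ w) := by
      ext u; simp only [Finset.mem_inter, Finset.mem_sdiff]; tauto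
    have c3 : ((y ∩ p) \ x) ∩ w = p ∩ ((y ∩ w) \ x) := by
      ext u; simp only [Finset.mem_inter, Finset.mem_sdiff]; tauto
    have c4 : ((y ∩ p) \ x) \ w = p ∩ (y \ (x ∪ w)) := by
      ext u; simp only [Finset.mem_inter, Finset.mem_sdiff, Finset.mem_union]; tauto
    rw [c1, c2] at h2
    rw [c3, c4] at h3
    omega
  · have h1 := Finset.card_inter_add_card_sdiff (w ∩ p) x
    have h2 := Finset.card_inter_add_card_sdiff (w ∩ p ∩ x) y
    have h3 := Finset.card_inter_add_card_sdiff ((w ∩ p) \ x) y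
    have c1 : w ∩ p ∩ x ∩ y = p ∩ (x ∩ y ∩ w) := by
      ext u; simp only [Finset.mem_inter]; tauto
    have c2 : (w ∩ p ∩ x) \ y = p ∩ ((x ∩ w) \ y) := by
      ext u; simp only [Finset.mem_inter, Finset.mem_sdiff]; tauto
    have c3 : ((w ∩ p) \ x) ∩ y = p ∩ ((y ∩ w) \ x) := by
      ext u; simp only [Finset.mem_inter, Finset.mem_sdiff]; tauto
    have c4 : ((w ∩ p) \ x) \ y = p ∩ (w \ (x ∪ y)) := by
      ext u; simp only [Finset.mem_inter, Finset.mem_sdiff, Finset.mem_union]; tauto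
    rw [c1, c2] at h2
    rw [c3, c4] at h3
    omega

theorem exists_pq (hx : x ⊆ N) (hy : y ⊆ N) (hw : w ⊆ N) (hc : Cells N x y w a b c X Y W d o)
    (pa pb pc pX pY pW pd po qa qb qc qX qY qW qd qo ra rb rc rX rY rW rd ro : ℕ)
    (ha : ra ≤ pa ∧ ra ≤ qa ∧ pa + qa ≤ a + ra)
    (hb : rb ≤ pb ∧ rb ≤ qb ∧ pb + qb ≤ b + rb)
    (hcc : rc ≤ pc ∧ rc ≤ qc ∧ pc + qc ≤ c + rc)
    (hX : rX ≤ pX ∧ rX ≤ qX ∧ pX + qX ≤ X + rX)
    (hY : rY ≤ pY ∧ rY ≤ qY ∧ pY + qY ≤ Y + rY)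
    (hW : rW ≤ pW ∧ rW ≤ qW ∧ pW + qW ≤ W + rW)
    (hd : rd ≤ pd ∧ rd ≤ qd ∧ pd + qd ≤ d + rd)
    (ho : ro ≤ po ∧ ro ≤ qo ∧ po + qo ≤ o + ro) :
    ∃ p q : Finset α, p ⊆ N ∧ q ⊆ N ∧
      p.card = pa + pb + pc + pX + pY + pW + pd + po ∧
      q.card = qa + qb + qc + qX + qY + qW + qd + qo ∧
      (x ∩ p).card = pa + pb + pX + pd ∧ (y ∩ p).card = pa + pc + pY + pd ∧
      (w ∩ p).card = pb + pc + pW + pd ∧
      (x ∩ q).card = qa + qb + qX + qd ∧ (y ∩ q).card = qa + qc + qY + qd ∧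
      (w ∩ q).card = qb + qc + qW + qd ∧
      (p ∩ q).card = ra + rb + rc + rX + rY + rW + rd + ro := by
  obtain ⟨h1, h2, h3, h4, h5, h6, h7, h8⟩ := hc
  rw [← h1] at ha
  rw [← h2] at hb
  rw [← h3] at hcc
  rw [← h4] at hX
  rw [← h5] at hY
  rw [← h6] at hW
  rw [← h7] at hd
  rw [← h8] at ho
  obtain ⟨Pa, Qa, ka1, ka2, ka3, ka4, ka5⟩ := exists_pair _ pa qa ra ha.1 ha.2.1 ha.2.2
  obtain ⟨Pb, Qb, kb1, kb2, kb3, kb4, kb5⟩ := exists_pair _ pb qb rb hb.1 hb.2.1 hb.2.2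
  obtain ⟨Pc, Qc, kc1, kc2, kc3, kc4, kc5⟩ := exists_pair _ pc qc rc hcc.1 hcc.2.1 hcc.2.2
  obtain ⟨PX, QX, kX1, kX2, kX3, kX4, kX5⟩ := exists_pair _ pX qX rX hX.1 hX.2.1 hX.2.2
  obtain ⟨PY, QY, kY1, kY2, kY3, kY4, kY5⟩ := exists_pair _ pY qY rY hY.1 hY.2.1 hY.2.2
  obtain ⟨PW, QW, kW1, kW2, kW3, kW4, kW5⟩ := exists_pair _ pW qW rW hW.1 hW.2.1 hW.2.2
  obtain ⟨Pd, Qd, kd1, kd2, kd3, kd4, kd5⟩ := exists_pair _ pd qd rd hd.1 hd.2.1 hd.2.2
  obtain ⟨Po, Qo, ko1, ko2, ko3, ko4, ko5⟩ := exists_pair _ po qo ro ho.1 ho.2.1 ho.2.2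
  obtain ⟨p, pN, p1, p2, p3, p4, p5, p6, p7, p8⟩ :=
    pieces hx hy hw ka1 kb1 kc1 kX1 kY1 kW1 kd1 ko1
  obtain ⟨q, qN, q1, q2, q3, q4, q5, q6, q7, q8⟩ :=
    pieces hx hy hw ka2 kb2 kc2 kX2 kY2 kW2 kd2 ko2
  have cp := card_eight hx hy hw pN
  have cq := card_eight hx hy hw qN
  have cpq := card_eight hx hy hw (q := p ∩ q) (Finset.inter_subset_left.trans pN)
  obtain ⟨mp1, mp2, mp3⟩ := counts hx hy hw pN
  obtain ⟨mq1, mq2, mq3⟩ := counts hx hy hw qN
  have aux : ∀ C : Finset α, p ∩ q ∩ C = (p ∩ C) ∩ (q ∩ C) := by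
    intro C; ext u; simp only [Finset.mem_inter]; tauto
  rw [aux, aux, aux, aux, aux, aux, aux, aux] at cpq
  rw [p1, p2, p3, p4, p5, p6, p7, p8, q1, q2, q3, q4, q5, q6, q7, q8] at cpq
  rw [p1, p2, p3, p4, p5, p6, p7, p8] at cp
  rw [q1, q2, q3, q4, q5, q6, q7, q8] at cq
  rw [p1, p2, p4, p7] at mp1
  rw [p1, p3, p5, p7] at mp2
  rw [p2, p3, p6, p7] at mp3
  rw [q1, q2, q4, q7] at mq1
  rw [q1, q3, q5, q7] at mq2
  rw [q2, q3, q6, q7] at mq3
  refine ⟨p, q, pN, qN, ?_, ?_, ?_, ?_, ?_, ?_, ?_, ?_, ?_⟩ <;> omega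

end Pool.Agent.H4.Joh
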