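import Pool.Agent.H4.Joh.Glue
import Pool.Agent.H4.Joh.FiveA

/-!
# Explicit short paths from cell counts

JOB.  `five_path`: take `p`, `q` from `exists_pq` (in `FiveA`) and apply `glue` with
`P = {x, p}`, `Q = {y, q}`: `w → p → x`, `w → q → y`.  Distinctness: `w ≠ p` as
`|w ∩ p| = i < i + t`, `p ≠ q` and `p ≠ y`: `|p ∩ y| ≠ i = |q ∩ y|`, `|x ∩ p| = i ≠ |x ∩ y|`;
same for `q ≠ x`.
`four_path` (`w` adjacent to `x`, `Cells.inters`): `P = {x}`, `Q = {y, q}`.
`three_path`: `P = {x}`, `Q = {y}`.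
-/

namespace Pool.Agent.H4.Joh

variable {α : Type*} [DecidableEq α] {N x y w : Finset α} {i s t : ℕ}
  {a b c X Y W d o : ℕ}

/-- glue for `w → p → x`, `w → q → y` -/
private theorem five_aux (h : Cfg N i s t x y w) (p q : Finset α) (hp : p ⊆ N) (hq : q ⊆ N)
    (hpc : p.card = i + t) (hqc : q.card = i + t)
    (hxp : (x ∩ p).card = i) (hwp : (w ∩ p).card = i)
    (hyq : (y ∩ q).card = i) (hwq : (w ∩ q).card = i)
    (hyp : (y ∩ p).card ≠ i) (hxq : (x ∩ q).card ≠ i) (hpq : (p ∩ q).card ≠ i) :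
    IndPath N i t x y w := by
  have ht := h.t1
  have hwc : w.card = i + t := h.hw.2
  refine glue h {x, p} {y, q} ?_ ?_ ?_ ?_ ?_ ?_ ?_
  · rintro A (rfl | rfl)
    · exact h.hx
    · exact ⟨hp, hpc⟩
  · rintro A (rfl | rfl)
    · exact h.hy
    · exact ⟨hq, hqc⟩
  · rintro (h1 | h1)
    · exact h.wx h1
    · have h2 : w = p := h1
      subst h2
      rw [Finset.inter_self] at hwp
      omega
  · rintro (h1 | h1)
    · exact h.wy h1
    · have h2 : w = q := h1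
      subst h2
      rw [Finset.inter_self] at hwq
      omega
  · rintro A (rfl | rfl) B (rfl | rfl)
    · exact ⟨h.xy, h.nadj⟩
    · refine ⟨?_, hxq⟩
      rintro rfl
      apply h.nadj
      rw [Finset.inter_comm]
      exact hyq
    · refine ⟨?_, ?_⟩
      · rintro rfl
        exact h.nadj hxp
      · rw [Finset.inter_comm]
        exact hyp
    · refine ⟨?_, hpq⟩
      rintro rfl
      exact hyp hyq
  · refine Relation.ReflTransGen.head (b := p) ⟨hwp, Or.inr rfl⟩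
      (Relation.ReflTransGen.single ⟨?_, Or.inl rfl⟩)
    rw [Finset.inter_comm]
    exact hxp
  · refine Relation.ReflTransGen.head (b := q) ⟨hwq, Or.inr rfl⟩
      (Relation.ReflTransGen.single ⟨?_, Or.inl rfl⟩)
    rw [Finset.inter_comm]
    exact hyq

private theorem four_aux (h : Cfg N i s t x y w) (q : Finset α) (hq : q ⊆ N)
    (hqc : q.card = i + t) (hxw : (x ∩ w).card = i)
    (hyq : (y ∩ q).card = i) (hwq : (w ∩ q).card = i) (hxq : (x ∩ q).card ≠ i) :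
    IndPath N i t x y w := by
  have ht := h.t1
  have hwc : w.card = i + t := h.hw.2
  refine glue h {x} {y, q} ?_ ?_ ?_ ?_ ?_ ?_ ?_
  · rintro A rfl
    exact h.hx
  · rintro A (rfl | rfl)
    · exact h.hy
    · exact ⟨hq, hqc⟩
  · intro h1
    exact h.wx h1
  · rintro (h1 | h1)
    · exact h.wy h1
    · have h2 : w = q := h1
      subst h2
      rw [Finset.inter_self] at hwq
      omega
  · rintro A rfl B (rfl | rfl)
    · exact ⟨h.xy, h.nadj⟩
    · refine ⟨?_, hxq⟩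
      rintro rfl
      apply h.nadj
      rw [Finset.inter_comm]
      exact hyq
  · refine Relation.ReflTransGen.single ⟨?_, rfl⟩
    rw [Finset.inter_comm]
    exact hxw
  · refine Relation.ReflTransGen.head (b := q) ⟨hwq, Or.inr rfl⟩
      (Relation.ReflTransGen.single ⟨?_, Or.inl rfl⟩)
    rw [Finset.inter_comm]
    exact hyq

private theorem four_aux' (h : Cfg N i s t x y w) (p : Finset α) (hp : p ⊆ N)
    (hpc : p.card = i + t) (hyw : (y ∩ w).card = i)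
    (hxp : (x ∩ p).card = i) (hwp : (w ∩ p).card = i) (hyp : (y ∩ p).card ≠ i) :
    IndPath N i t x y w := by
  have ht := h.t1
  have hwc : w.card = i + t := h.hw.2
  refine glue h {x, p} {y} ?_ ?_ ?_ ?_ ?_ ?_ ?_
  · rintro A (rfl | rfl)
    · exact h.hx
    · exact ⟨hp, hpc⟩
  · rintro A rfl
    exact h.hy
  · rintro (h1 | h1)
    · exact h.wx h1
    · have h2 : w = p := h1
      subst h2
      rw [Finset.inter_self] at hwp
      omega
  · intro h1
    exact h.wy h1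
  · rintro A (rfl | rfl) B rfl
    · exact ⟨h.xy, h.nadj⟩
    · refine ⟨?_, ?_⟩
      · rintro rfl
        exact h.nadj hxp
      · rw [Finset.inter_comm]
        exact hyp
  · refine Relation.ReflTransGen.head (b := p) ⟨hwp, Or.inr rfl⟩
      (Relation.ReflTransGen.single ⟨?_, Or.inl rfl⟩)
    rw [Finset.inter_comm]
    exact hxp
  · refine Relation.ReflTransGen.single ⟨?_, rfl⟩
    rw [Finset.inter_comm]
    exact hyw

theorem five_path (h : Cfg N i s t x y w) (hc : Cells N x y w a b c X Y W d o)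
    (pa pb pc pX pY pW pd po qa qb qc qX qY qW qd qo ra rb rc rX rY rW rd ro : ℕ)
    (ha : ra ≤ pa ∧ ra ≤ qa ∧ pa + qa ≤ a + ra)
    (hb : rb ≤ pb ∧ rb ≤ qb ∧ pb + qb ≤ b + rb)
    (hcc : rc ≤ pc ∧ rc ≤ qc ∧ pc + qc ≤ c + rc)
    (hX : rX ≤ pX ∧ rX ≤ qX ∧ pX + qX ≤ X + rX)
    (hY : rY ≤ pY ∧ rY ≤ qY ∧ pY + qY ≤ Y + rY)
    (hW : rW ≤ pW ∧ rW ≤ qW ∧ pW + qW ≤ W + rW)
    (hd : rd ≤ pd ∧ rd ≤ qd ∧ pd + qd ≤ d + rd)
    (ho : ro ≤ po ∧ ro ≤ qo ∧ po + qo ≤ o + ro)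
    (hps : pa + pb + pc + pX + pY + pW + pd + po = i + t)
    (hqs : qa + qb + qc + qX + qY + qW + qd + qo = i + t)
    (hxp : pa + pb + pX + pd = i) (hwp : pb + pc + pW + pd = i)
    (hyq : qa + qc + qY + qd = i) (hwq : qb + qc + qW + qd = i)
    (hyp : pa + pc + pY + pd ≠ i) (hxq : qa + qb + qX + qd ≠ i)
    (hpq : ra + rb + rc + rX + rY + rW + rd + ro ≠ i) :
    IndPath N i t x y w := by
  obtain ⟨p, q, hp, hq, hpc, hqc, h1, h2, h3, h4, h5, h6, h7⟩ :=
    exists_pq h.hx.1 h.hy.1 h.hw.1 hc pa pb pc pX pY pW pd po qa qb qc qX qY qW qd qo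
      ra rb rc rX rY rW rd ro ha hb hcc hX hY hW hd ho
  exact five_aux h p q hp hq (hpc.trans hps) (hqc.trans hqs) (h1.trans hxp) (h3.trans hwp)
    (h5.trans hyq) (h6.trans hwq) (by rw [h2]; exact hyp) (by rw [h4]; exact hxq)
    (by rw [h7]; exact hpq)

/-- `w` adjacent to `x` -/
theorem four_path (h : Cfg N i s t x y w) (hc : Cells N x y w a b c X Y W d o)
    (hxw : b + d = i)
    (qa qb qc qX qY qW qd qo : ℕ)
    (hle : qa ≤ a ∧ qb ≤ b ∧ qc ≤ c ∧ qX ≤ X ∧ qY ≤ Y ∧ qW ≤ W ∧ qd ≤ d ∧ qo ≤ o)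
    (hqs : qa + qb + qc + qX + qY + qW + qd + qo = i + t)
    (hyq : qa + qc + qY + qd = i) (hwq : qb + qc + qW + qd = i)
    (hxq : qa + qb + qX + qd ≠ i) :
    IndPath N i t x y w := by
  obtain ⟨g1, g2, g3, g4, g5, g6, g7, g8⟩ := hle
  obtain ⟨p, q, hp, hq, hpc, hqc, h1, h2, h3, h4, h5, h6, h7⟩ :=
    exists_pq h.hx.1 h.hy.1 h.hw.1 hc 0 0 0 0 0 0 0 0 qa qb qc qX qY qW qd qo
      0 0 0 0 0 0 0 0 (by omega) (by omega) (by omega) (by omega) (by omega) (by omega)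
      (by omega) (by omega)
  obtain ⟨e1, e2, e3⟩ := hc.inters
  exact four_aux h q hq (hqc.trans hqs) (e2.trans hxw)
    (h5.trans hyq) (h6.trans hwq) (by rw [h4]; exact hxq)

/-- `w` adjacent to `y` -/
theorem four_path' (h : Cfg N i s t x y w) (hc : Cells N x y w a b c X Y W d o)
    (hyw : c + d = i)
    (pa pb pc pX pY pW pd po : ℕ)
    (hle : pa ≤ a ∧ pb ≤ b ∧ pc ≤ c ∧ pX ≤ X ∧ pY ≤ Y ∧ pW ≤ W ∧ pd ≤ d ∧ po ≤ o)
    (hps : pa + pb + pc + pX + pY + pW + pd + po = i + t)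
    (hxp : pa + pb + pX + pd = i) (hwp : pb + pc + pW + pd = i)
    (hyp : pa + pc + pY + pd ≠ i) :
    IndPath N i t x y w := by
  obtain ⟨g1, g2, g3, g4, g5, g6, g7, g8⟩ := hle
  obtain ⟨p, q, hp, hq, hpc, hqc, h1, h2, h3, h4, h5, h6, h7⟩ :=
    exists_pq h.hx.1 h.hy.1 h.hw.1 hc pa pb pc pX pY pW pd po 0 0 0 0 0 0 0 0
      0 0 0 0 0 0 0 0 (by omega) (by omega) (by omega) (by omega) (by omega) (by omega)
      (by omega) (by omega)
  obtain ⟨e1, e2, e3⟩ := hc.inters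
  exact four_aux' h p hp (hpc.trans hps) (e3.trans hyw)
    (h1.trans hxp) (h3.trans hwp) (by rw [h2]; exact hyp)

theorem three_path (h : Cfg N i s t x y w) (hc : Cells N x y w a b c X Y W d o)
    (hxw : b + d = i) (hyw : c + d = i) : IndPath N i t x y w := by
  obtain ⟨e1, e2, e3⟩ := hc.inters
  refine glue h {x} {y} ?_ ?_ ?_ ?_ ?_ ?_ ?_
  · rintro A rfl
    exact h.hx
  · rintro A rfl
    exact h.hy
  · intro h1
    exact h.wx h1
  · intro h1
    exact h.wy h1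
  · rintro A rfl B rfl
    exact ⟨h.xy, h.nadj⟩
  · refine Relation.ReflTransGen.single ⟨?_, rfl⟩
    rw [Finset.inter_comm, e2]
    exact hxw
  · refine Relation.ReflTransGen.single ⟨?_, rfl⟩
    rw [Finset.inter_comm, e3]
    exact hyw

end Pool.Agent.H4.Joh
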