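import Pool.Agent.H4.Joh.Defs

/-!
# The glue lemma

JOB.  `w` lies on an induced `x,y`-path as soon as there are two separated families `P`, `Q` of
vertices, `x` reachable from `w` inside `P` and `y` reachable from `w` inside `Q`.

Proof.  Turn `Reach i P w x` into: there are `a` and `u : ℕ → Finset α` with `u 0 = w`, `u a = x`,
and for all `k < a`: `(u k ∩ u (k+1)).card = i` and `u (k+1) ∈ P` (induction on
`Relation.ReflTransGen`).  Take `a` minimal (`Nat.find`).  Then for `p < q ≤ a`: `u p ≠ u q` and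
(`(u p ∩ u q).card = i` iff `q = p + 1`): otherwise skip the part between (`u' k = u k` for `k ≤ p`
and `u' k = u (k + q - p)` for `k > p` if `u p = u q`, resp. `u' k = u (k + q - p - 1)` for `k > p`
if `u p`, `u q` are adjacent and `q > p + 1`), which gives a shorter sequence.  Same for
`v : ℕ → Finset α` from `w` to `y` in `Q`, length `b`.  The path is `f k = u (a - k)` for `k ≤ a` and
`f k = v (k - a)` for `k ≥ a`; `j = a`, total length `a + b`.  Pairs `p < a < q`: `f p ∈ P`,
`f q ∈ Q`, use `Sep`; all other pairs lie in one of the two sequences (use `Finset.inter_comm`).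
-/

namespace Pool.Agent.H4.Joh

variable {α : Type*} [DecidableEq α] {N x y w : Finset α} {i s t : ℕ}

/-- a walk of length `n` from `A` to `B` in `S` -/
def GWalk (i : ℕ) (S : Set (Finset α)) (A B : Finset α) (n : ℕ) (u : ℕ → Finset α) : Prop :=
  u 0 = A ∧ u n = B ∧ ∀ k < n, (u k ∩ u (k + 1)).card = i ∧ u (k + 1) ∈ S

theorem exists_gwalk {S : Set (Finset α)} {A B : Finset α} (h : Reach i S A B) :
    ∃ n u, GWalk i S A B n u := by
  induction h with
  | refl => exact ⟨0, fun _ => A, rfl, rfl, fun k hk => absurd hk (Nat.not_lt_zero k)⟩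
  | @tail b c _ hbc ih =>
    obtain ⟨n, u, h0, hn, hu⟩ := ih
    refine ⟨n + 1, fun k => if k ≤ n then u k else c, ?_, ?_, ?_⟩
    · simpa using h0
    · simp
    · intro k hk
      by_cases hkn : k + 1 ≤ n
      · have h1 : k ≤ n := by omega
        simp only [hkn, h1, if_true]
        exact hu k (by omega)
      · have h1 : k = n := by omega
        subst h1
        simp only [hkn, le_refl, if_true, if_false, hn]
        exact hbc

theorem gwalk_skip {S : Set (Finset α)} {A B : Finset α} {n : ℕ} {u : ℕ → Finset α}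
    (h : GWalk i S A B n u) (p d : ℕ) (hpd : p + d ≤ n)
    (hc : (p + d < n ∧ (u p ∩ u (p + d + 1)).card = i) ∨ (p + d = n ∧ u p = B)) :
    GWalk i S A B (n - d) (fun k => if k ≤ p then u k else u (k + d)) := by
  obtain ⟨h0, hn, hu⟩ := h
  refine ⟨?_, ?_, ?_⟩
  · simpa using h0
  · rcases hc with ⟨h1, -⟩ | ⟨h1, h2⟩
    · have e1 : ¬ (n - d ≤ p) := by omega
      have e2 : n - d + d = n := by omega
      simp only [e1, if_false, e2]
      exact hn
    · have e1 : n - d = p := by omega
      simp only [e1, le_refl, if_true]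
      exact h2
  · intro k hk
    rcases Nat.lt_trichotomy k p with hkp | hkp | hkp
    · have e1 : k ≤ p := by omega
      have e2 : k + 1 ≤ p := by omega
      simp only [e1, e2, if_true]
      exact hu k (by omega)
    · subst hkp
      have e1 : ¬ (k + 1 ≤ k) := by omega
      have e2 : k + 1 + d = k + d + 1 := by omega
      simp only [le_refl, if_true, e1, if_false, e2]
      rcases hc with ⟨h1, h2⟩ | ⟨h1, -⟩
      · exact ⟨h2, (hu (k + d) h1).2⟩
      · omega
    · have e1 : ¬ (k ≤ p) := by omega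
      have e2 : ¬ (k + 1 ≤ p) := by omega
      have e3 : k + 1 + d = k + d + 1 := by omega
      simp only [e1, e2, if_false, e3]
      exact hu (k + d) (by omega)

/-- a shortest walk is an induced path -/
theorem exists_min_gwalk {S : Set (Finset α)} {A B : Finset α} (h : Reach i S A B) :
    ∃ n u, GWalk i S A B n u ∧ ∀ p q, p < q → q ≤ n →
      u p ≠ u q ∧ ((u p ∩ u q).card = i ↔ q = p + 1) := by
  classical
  have hex : ∃ n, ∃ u, GWalk i S A B n u := exists_gwalk h
  obtain ⟨u, hu⟩ := Nat.find_spec hex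
  have hmin : ∀ m, m < Nat.find hex → ∀ u, ¬ GWalk i S A B m u := by
    intro m hm u' hu'
    exact Nat.find_min hex hm ⟨u', hu'⟩
  refine ⟨Nat.find hex, u, hu, ?_⟩
  generalize Nat.find hex = n at hu hmin
  intro p q hpq hqn
  obtain ⟨h0, hn, hst⟩ := hu
  constructor
  · intro he
    refine hmin (n - (q - p)) (by omega) _ (gwalk_skip ⟨h0, hn, hst⟩ p (q - p) (by omega) ?_)
    have e1 : p + (q - p) = q := by omega
    rw [e1]
    rcases Nat.lt_or_ge q n with hq | hq
    · left
      refine ⟨hq, ?_⟩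
      rw [he]
      exact (hst q hq).1
    · right
      have e2 : q = n := by omega
      exact ⟨e2, by rw [he, e2, hn]⟩
  · constructor
    · intro hc
      by_contra hne
      refine hmin (n - (q - p - 1)) (by omega) _
        (gwalk_skip ⟨h0, hn, hst⟩ p (q - p - 1) (by omega) ?_)
      have e1 : p + (q - p - 1) + 1 = q := by omega
      left
      rw [e1]
      exact ⟨by omega, hc⟩
    · rintro rfl
      exact (hst p (by omega)).1

theorem glue (h : Cfg N i s t x y w) (P Q : Set (Finset α))
    (hP : ∀ A ∈ P, Vtx N i t A) (hQ : ∀ A ∈ Q, Vtx N i t A)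
    (hwP : w ∉ P) (hwQ : w ∉ Q) (hS : Sep i P Q)
    (hx : Reach i P w x) (hy : Reach i Q w y) : IndPath N i t x y w := by
  obtain ⟨a, u, ⟨hu0, hua, hu⟩, hu'⟩ := exists_min_gwalk hx
  obtain ⟨b, v, ⟨hv0, hvb, hv⟩, hv'⟩ := exists_min_gwalk hy
  have huP : ∀ k, 1 ≤ k → k ≤ a → u k ∈ P := by
    intro k h1 h2
    have := (hu (k - 1) (by omega)).2
    rwa [Nat.sub_add_cancel h1] at this
  have hvQ : ∀ k, 1 ≤ k → k ≤ b → v k ∈ Q := by
    intro k h1 h2
    have := (hv (k - 1) (by omega)).2
    rwa [Nat.sub_add_cancel h1] at this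
  have huV : ∀ k, k ≤ a → Vtx N i t (u k) := by
    intro k hk
    rcases Nat.eq_zero_or_pos k with h0 | h0
    · rw [h0, hu0]
      exact h.hw
    · exact hP _ (huP k h0 hk)
  have hvV : ∀ k, k ≤ b → Vtx N i t (v k) := by
    intro k hk
    rcases Nat.eq_zero_or_pos k with h0 | h0
    · rw [h0, hv0]
      exact h.hw
    · exact hQ _ (hvQ k h0 hk)
  let f : ℕ → Finset α := fun k => if k ≤ a then u (a - k) else v (k - a)
  have hf1 : ∀ k, k ≤ a → f k = u (a - k) := fun k hk => by simp only [f, hk, if_true]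
  have hf2 : ∀ k, a ≤ k → f k = v (k - a) := by
    intro k hk
    rcases Nat.lt_or_ge a k with h1 | h1
    · have e1 : ¬ (k ≤ a) := by omega
      simp only [f, e1, if_false]
    · have e1 : k = a := by omega
      subst e1
      rw [hf1 k le_rfl, Nat.sub_self, hu0, hv0]
  refine ⟨a + b, a, f, Nat.le_add_right a b, ?_, ?_, ?_, ?_, ?_, ?_⟩
  · rw [hf1 0 (Nat.zero_le a), Nat.sub_zero, hua]
  · rw [hf1 a le_rfl, Nat.sub_self, hu0]
  · rw [hf2 (a + b) (Nat.le_add_right a b), Nat.add_sub_cancel_left, hvb]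
  · intro k hk
    rcases Nat.le_total k a with h1 | h1
    · rw [hf1 k h1]
      exact huV _ (Nat.sub_le a k)
    · rw [hf2 k h1]
      exact hvV _ (by omega)
  · intro p q hpq hq
    rcases Nat.le_total q a with h1 | h1
    · rw [hf1 p (by omega), hf1 q h1]
      exact (hu' (a - q) (a - p) (by omega) (Nat.sub_le a p)).1.symm
    · rcases Nat.le_total a p with h2 | h2
      · rw [hf2 p h2, hf2 q h1]
        exact (hv' (p - a) (q - a) (by omega) (by omega)).1
      · rcases Nat.eq_or_lt_of_le h2 with h3 | h3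
        · rw [hf2 p (by omega), hf2 q h1]
          exact (hv' (p - a) (q - a) (by omega) (by omega)).1
        · rcases Nat.eq_or_lt_of_le h1 with h4 | h4
          · rw [hf1 p (by omega), hf1 q (by omega)]
            exact (hu' (a - q) (a - p) (by omega) (Nat.sub_le a p)).1.symm
          · rw [hf1 p (by omega), hf2 q h1]
            exact (hS _ (huP (a - p) (by omega) (Nat.sub_le a p)) _
              (hvQ (q - a) (by omega) (by omega))).1
  · intro p q hpq hq
    have hcase1 : q ≤ a → ((f p ∩ f q).card = i ↔ q = p + 1) := by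
      intro h1
      rw [hf1 p (by omega), hf1 q h1, Finset.inter_comm]
      have h5 := (hu' (a - q) (a - p) (by omega) (Nat.sub_le a p)).2
      rw [h5]
      omega
    have hcase2 : a ≤ p → ((f p ∩ f q).card = i ↔ q = p + 1) := by
      intro h1
      rw [hf2 p h1, hf2 q (by omega)]
      have h5 := (hv' (p - a) (q - a) (by omega) (by omega)).2
      rw [h5]
      omega
    by_cases h1 : q ≤ a
    · exact hcase1 h1
    · by_cases h2 : a ≤ p
      · exact hcase2 h2
      · rw [hf1 p (by omega), hf2 q (by omega)]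
        have h5 := (hS _ (huP (a - p) (by omega) (Nat.sub_le a p)) _
              (hvQ (q - a) (by omega) (by omega))).2
        constructor
        · intro h6
          exact absurd h6 h5
        · intro h6
          omega

/-- monotonicity (easy) -/
theorem Reach.mono {S T : Set (Finset α)} {A B : Finset α} (hST : S ⊆ T) (h : Reach i S A B) :
    Reach i T A B := by
  induction h with
  | refl => exact Relation.ReflTransGen.refl
  | tail _ hbc ih => exact ih.tail ⟨hbc.1, hST hbc.2⟩

/-- A connected family `S` with a neighbour of `w`; `x` is in `S` or has a neighbour in `S`: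
then `x` is reachable from `w` in `insert x S`. -/
theorem reach_via {S : Set (Finset α)} (hS : ∀ A ∈ S, ∀ B ∈ S, Reach i S A B)
    (hw : ∃ p ∈ S, (w ∩ p).card = i) (hx : x ∈ S ∨ ∃ p ∈ S, (x ∩ p).card = i) :
    Reach i (insert x S) w x := by
  obtain ⟨p, hp, hwp⟩ := hw
  have h1 : Reach i (insert x S) w p :=
    Relation.ReflTransGen.single ⟨hwp, Set.mem_insert_of_mem x hp⟩
  rcases hx with hx | ⟨p', hp', hxp⟩
  · exact h1.trans (Reach.mono (Set.subset_insert x S) (hS p hp x hx))
  · refine (h1.trans (Reach.mono (Set.subset_insert x S) (hS p hp p' hp'))).tail ?_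
    refine ⟨?_, Set.mem_insert x S⟩
    rw [Finset.inter_comm]
    exact hxp

/-- Version of `glue` with two connected families `S`, `T`. -/
theorem glue_conn (h : Cfg N i s t x y w) (S T : Set (Finset α))
    (hSv : ∀ A ∈ S, Vtx N i t A) (hTv : ∀ A ∈ T, Vtx N i t A)
    (hSc : ∀ A ∈ S, ∀ B ∈ S, Reach i S A B) (hTc : ∀ A ∈ T, ∀ B ∈ T, Reach i T A B)
    (hwS : w ∉ S) (hwT : w ∉ T)
    (hwS' : ∃ p ∈ S, (w ∩ p).card = i) (hwT' : ∃ p ∈ T, (w ∩ p).card = i)
    (hx : x ∈ S ∨ ∃ p ∈ S, (x ∩ p).card = i) (hy : y ∈ T ∨ ∃ p ∈ T, (y ∩ p).card = i)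
    (hxT : ∀ B ∈ T, x ≠ B ∧ (x ∩ B).card ≠ i) (hyS : ∀ A ∈ S, A ≠ y ∧ (A ∩ y).card ≠ i)
    (hST : Sep i S T) : IndPath N i t x y w := by
  refine glue h (insert x S) (insert y T) ?_ ?_ ?_ ?_ ?_ (reach_via hSc hwS' hx)
    (reach_via hTc hwT' hy)
  · rintro A (rfl | hA)
    · exact h.hx
    · exact hSv A hA
  · rintro A (rfl | hA)
    · exact h.hy
    · exact hTv A hA
  · rintro (hA | hA)
    · exact h.wx hA
    · exact hwS hA
  · rintro (hA | hA)
    · exact h.wy hA
    · exact hwT hA
  · rintro A (rfl | hA) B (rfl | hB)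
    · exact ⟨h.xy, h.nadj⟩
    · exact hxT B hB
    · exact hyS A hA
    · exact hST A hA B hB

end Pool.Agent.H4.Joh
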