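import Pool.Agent.H4.Joh.Defs

/-!
# Generalized Johnson graphs and monophonic sets; translation

JOB.  `mem_interval_of_indPath`: from the function `f` build the walk `f 0, f 1, ..., f k` in
`genJohnson n r i` (a walk along `Fin`/`ℕ` steps; e.g. by induction on `k` a walk `p` from `f 0` to
`f k` with `p.getVert a = f a` for `a ≤ k` and `p.length = k`), it is a path as the `f a` are distinct,
and adjacent vertices `f a`, `f b` have `|a - b| = 1`, so `s(f a, f b)` is an edge of the walk.
Adjacent means distinct with intersection of size `i`; since `r = i + t`, `t ≥ 1`, intersection of size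
`i` implies distinct.
`indPath_of_mem_interval`: for a path `p` take `f a = p.getVert a`, `k = p.length`, `j` the index of `w`;
distinctness is injectivity of `getVert` on a path; if `f a`, `f b` (`a < b ≤ k`) are adjacent then
`s(f a, f b) ∈ p.edges`, which for a path forces `b = a + 1`.
-/

namespace Pool.Agent.H4.Joh

/-- The monophonic interval `J_G(u,v)`: all vertices on induced `u,v`-paths. -/
def monoInterval {V : Type*} (G : SimpleGraph V) (u v : V) : Set V :=
  {w | ∃ p : G.Walk u v, p.IsPath ∧
    (∀ a ∈ p.support, ∀ b ∈ p.support, G.Adj a b → s(a, b) ∈ p.edges) ∧ w ∈ p.support}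

/-- `S` is a monophonic set of `G`. -/
def IsMonophonic {V : Type*} (G : SimpleGraph V) (S : Set V) : Prop :=
  ∀ w, ∃ x ∈ S, ∃ y ∈ S, w ∈ monoInterval G x y

/-- The monophonic number: the smallest size of a monophonic set. -/
noncomputable def monophonicNumber {V : Type*} (G : SimpleGraph V) : ℕ :=
  sInf {k | ∃ S : Finset V, S.card = k ∧ IsMonophonic G (S : Set V)}

/-- The generalized Johnson graph `J(n,r,i)`: vertices are the `r`-subsets of an `n`-set, distinct
vertices are adjacent iff they meet in exactly `i` elements. -/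
def genJohnson (n r i : ℕ) : SimpleGraph {A : Finset (Fin n) // A.card = r} where
  Adj A B := A ≠ B ∧ (A.1 ∩ B.1).card = i
  symm := ⟨fun _ _ h => ⟨h.1.symm, by rw [Finset.inter_comm]; exact h.2⟩⟩
  loopless := ⟨fun _ h => h.1 rfl⟩

theorem Graph.exists_walk_fun {V : Type*} (G : SimpleGraph V) (g : ℕ → V) (k : ℕ)
    (h : ∀ a, a < k → G.Adj (g a) (g (a + 1))) :
    ∃ p : G.Walk (g 0) (g k), p.support = (List.range (k + 1)).map g ∧
      p.edges = (List.range k).map (fun a => s(g a, g (a + 1))) := by
  induction k with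
  | zero => exact ⟨SimpleGraph.Walk.nil, by simp, by simp⟩
  | succ m ih =>
    obtain ⟨p, hp1, hp2⟩ := ih (fun a ha => h a (by omega))
    refine ⟨p.concat (h m (by omega)), ?_, ?_⟩
    · rw [SimpleGraph.Walk.support_concat, hp1, List.range_succ (n := m + 1)]
      simp
    · rw [SimpleGraph.Walk.edges_concat, hp2, List.range_succ (n := m)]
      simp

theorem Graph.mem_edges_getVert {V : Type*} {G : SimpleGraph V} {u v : V} (p : G.Walk u v)
    (e : Sym2 V) (he : e ∈ p.edges) :
    ∃ m, m < p.length ∧ e = s(p.getVert m, p.getVert (m + 1)) := by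
  induction p with
  | nil => simp at he
  | cons h q ih =>
    rw [SimpleGraph.Walk.edges_cons, List.mem_cons] at he
    rcases he with he | he
    · exact ⟨0, by simp, by simp [he]⟩
    · obtain ⟨m, hm, hm2⟩ := ih he
      exact ⟨m + 1, by simp [hm], by simpa using hm2⟩

theorem mem_interval_of_indPath {n r i t : ℕ} (hr : r = i + t) (ht : 1 ≤ t)
    (x y w : {A : Finset (Fin n) // A.card = r})
    (h : IndPath Finset.univ i t x.1 y.1 w.1) : w ∈ monoInterval (genJohnson n r i) x y := by
  classical
  obtain ⟨k, j, f, hjk, h0, hj, hk, hV, hne, hadj⟩ := h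
  have hcard : ∀ a, a ≤ k → (f a).card = r := fun a ha => by rw [(hV a ha).2, hr]
  obtain ⟨g, hg⟩ : ∃ g : ℕ → {A : Finset (Fin n) // A.card = r}, ∀ a, a ≤ k → (g a).1 = f a :=
    ⟨fun a => if h : (f a).card = r then ⟨f a, h⟩ else x, fun a ha => by simp [hcard a ha]⟩
  have g0 : g 0 = x := Subtype.ext (by rw [hg 0 (Nat.zero_le _), h0])
  have gk : g k = y := Subtype.ext (by rw [hg k le_rfl, hk])
  have gj : g j = w := Subtype.ext (by rw [hg j hjk, hj])
  have ginj : ∀ a b, a ≤ k → b ≤ k → g a = g b → a = b := by
    intro a b ha hb hab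
    by_contra hc
    have hab' : f a = f b := by rw [← hg a ha, ← hg b hb, hab]
    rcases Nat.lt_or_gt_of_ne hc with hlt | hlt
    · exact hne a b hlt hb hab'
    · exact hne b a hlt ha hab'.symm
  have hadj' : ∀ a, a < k → (genJohnson n r i).Adj (g a) (g (a + 1)) := by
    intro a ha
    refine ⟨fun hc => ?_, ?_⟩
    · have := ginj a (a + 1) (by omega) (by omega) hc
      omega
    · rw [hg a (by omega), hg (a + 1) (by omega)]
      exact (hadj a (a + 1) (by omega) (by omega)).2 rfl
  obtain ⟨p, hp1, hp2⟩ := Graph.exists_walk_fun (genJohnson n r i) g k hadj'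
  subst g0 gk gj
  have hmem : ∀ A, A ∈ p.support → ∃ a, a ≤ k ∧ g a = A := by
    intro A hA
    rw [hp1, List.mem_map] at hA
    obtain ⟨a, ha, ha2⟩ := hA
    exact ⟨a, by rw [List.mem_range] at ha; omega, ha2⟩
  refine ⟨p, ?_, ?_, ?_⟩
  · rw [SimpleGraph.Walk.isPath_def, hp1]
    refine List.Nodup.map_on ?_ List.nodup_range
    intro a ha b hb hab
    rw [List.mem_range] at ha hb
    exact ginj a b (by omega) (by omega) hab
  · have key : ∀ a b, a < b → b ≤ k → (genJohnson n r i).Adj (g a) (g b) →
        s(g a, g b) ∈ p.edges := by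
      intro a b hab hb hA
      have h2 := hA.2
      rw [hg a (by omega), hg b hb] at h2
      have hb' := (hadj a b hab hb).1 h2
      subst hb'
      rw [hp2, List.mem_map]
      exact ⟨a, by rw [List.mem_range]; omega, rfl⟩
    intro A hA B hB hAB
    obtain ⟨a, ha, rfl⟩ := hmem A hA
    obtain ⟨b, hb, rfl⟩ := hmem B hB
    rcases lt_trichotomy a b with hlt | heq | hlt
    · exact key a b hlt hb hAB
    · subst heq
      exact absurd rfl hAB.1
    · rw [Sym2.eq_swap]
      exact key b a hlt ha hAB.symm
  · rw [hp1, List.mem_map]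
    exact ⟨j, by rw [List.mem_range]; omega, rfl⟩

theorem indPath_of_mem_interval {n r i t : ℕ} (hr : r = i + t) (ht : 1 ≤ t)
    (x y w : {A : Finset (Fin n) // A.card = r})
    (h : w ∈ monoInterval (genJohnson n r i) x y) : IndPath Finset.univ i t x.1 y.1 w.1 := by
  classical
  obtain ⟨p, hp, hch, hw⟩ := h
  obtain ⟨j, hj, hjl⟩ := SimpleGraph.Walk.mem_support_iff_exists_getVert.1 hw
  have hinj : ∀ a b, a ≤ p.length → b ≤ p.length → p.getVert a = p.getVert b → a = b :=
    fun a b ha hb hab => hp.getVert_injOn (by simpa using ha) (by simpa using hb) hab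
  refine ⟨p.length, j, fun a => (p.getVert a).1, hjl, by simp, by simp only [hj], by simp,
    fun a _ => ⟨Finset.subset_univ _, by rw [(p.getVert a).2, hr]⟩, ?_, ?_⟩
  · intro a b hab hb hc
    have := hinj a b (by omega) hb (Subtype.ext hc)
    omega
  · intro a b hab hb
    have hne : p.getVert a ≠ p.getVert b := by
      intro hc
      have := hinj a b (by omega) hb hc
      omega
    constructor
    · intro hcard
      have hA : (genJohnson n r i).Adj (p.getVert a) (p.getVert b) := ⟨hne, hcard⟩
      have he := hch _ (p.getVert_mem_support a) _ (p.getVert_mem_support b) hA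
      obtain ⟨m, hm, hm2⟩ := Graph.mem_edges_getVert p _ he
      rw [Sym2.eq_iff] at hm2
      rcases hm2 with ⟨h1, h2⟩ | ⟨h1, h2⟩
      · have e1 := hinj a m (by omega) (by omega) h1
        have e2 := hinj b (m + 1) (by omega) (by omega) h2
        omega
      · have e1 := hinj a (m + 1) (by omega) (by omega) h1
        have e2 := hinj b m (by omega) (by omega) h2
        omega
    · intro hb'
      subst hb'
      exact (p.adj_getVert_succ (by omega)).2

end Pool.Agent.H4.Joh
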