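import Pool.Agent.H4.Joh.NumB

/-!
# Case B1y: covering, `1 ≤ i < t < s`, all of `a, b, c < i`
-/

namespace Pool.Agent.H4.Joh

variable {α : Type*} [DecidableEq α] {N x y w : Finset α} {i s t : ℕ}
  {a b c X Y W d o : ℕ}

theorem caseB1y (h : Cfg N i s t x y w) (hc : Cells N x y w a b c X Y W d o)
    (hi : 1 ≤ i) (hit : i + 1 ≤ t) (hts : t + 1 ≤ s) (hd : d = 0) (ho : o = 0)
    (ha : a < i) (hb : b < i) (hcc : c < i) (hex : ¬ (a = 0 ∧ b = 0 ∧ c = 0 ∧ t = 2 * i)) :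
    IndPath N i t x y w := by
  obtain ⟨s1, s2, s3, s4, s5, s6, s7, s8, s9⟩ := hc.sums h
  subst hd ho
  have h1 : (b + t ≠ 2 * i) ∨ ((b + t = 2 * i) ∧ 1 ≤ c) ∨ ((b + t = 2 * i) ∧ c = 0 ∧ 1 ≤ a) ∨
    ((b + t = 2 * i) ∧ c = 0 ∧ a = 0) := by omega
  have h2 : (c + t ≠ 2 * i) ∨ ((c + t = 2 * i) ∧ 1 ≤ b) ∨ ((c + t = 2 * i) ∧ b = 0 ∧ 1 ≤ a) ∨
    ((c + t = 2 * i) ∧ b = 0 ∧ a = 0) := by omega
  rcases h1 with h1 | h1 | h1 | h1 <;> rcases h2 with h2 | h2 | h2 | h2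
  · refine five_min h hc 0 b 0 (i - b) (t + b - i) (i - b) 0 0 0 c (t + c - i) (i - c) (i - c) 0 ?_ ?_ ?_ ?_ ?_ ?_ ?_ ?_ ?_ ?_
      (Or.inr (Or.inl ⟨?_, ?_⟩)) <;> omega
  · refine five_min h hc 0 b 0 (i - b) (t + b - i) (i - b) 0 0 1 c (t + c - i) (i - c) (i - c - 1) 0 ?_ ?_ ?_ ?_ ?_ ?_ ?_ ?_ ?_ ?_
      (Or.inr (Or.inr (Or.inr (Or.inl ⟨?_, ?_⟩)))) <;> omega
  · refine five_min h hc 0 b 0 (i - b) (t + b - i) (i - b) 0 1 0 c (t + c - i) (i - c - 1) (i - c) 0 ?_ ?_ ?_ ?_ ?_ ?_ ?_ ?_ ?_ ?_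
      (Or.inr (Or.inl ⟨?_, ?_⟩)) <;> omega
  · refine five_min h hc 0 b 0 (i - b) (t + b - i) (i - b) 0 0 0 (c - 1) (t + c - i - 1) (i - c + 1) (i - c + 1) 0 ?_ ?_ ?_ ?_ ?_ ?_ ?_ ?_ ?_ ?_
      (Or.inr (Or.inl ⟨?_, ?_⟩)) <;> omega
  · refine five_min h hc 0 b 1 (i - b) (t + b - i) (i - b - 1) 0 0 0 c (t + c - i) (i - c) (i - c) 0 ?_ ?_ ?_ ?_ ?_ ?_ ?_ ?_ ?_ ?_
      (Or.inr (Or.inr (Or.inl ⟨?_, ?_⟩))) <;> omega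
  · refine five_min h hc 0 b 1 (i - b) (t + b - i) (i - b - 1) 0 0 1 c (t + c - i) (i - c) (i - c - 1) 0 ?_ ?_ ?_ ?_ ?_ ?_ ?_ ?_ ?_ ?_
      (Or.inr (Or.inr (Or.inl ⟨?_, ?_⟩))) <;> omega
  · exfalso; omega
  · exfalso; omega
  · refine five_min h hc 1 b 0 (i - b - 1) (t + b - i) (i - b) 0 0 0 c (t + c - i) (i - c) (i - c) 0 ?_ ?_ ?_ ?_ ?_ ?_ ?_ ?_ ?_ ?_
      (Or.inr (Or.inl ⟨?_, ?_⟩)) <;> omega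
  · exfalso; omega
  · refine five_min h hc 1 b 0 (i - b - 1) (t + b - i) (i - b) 0 1 0 c (t + c - i) (i - c - 1) (i - c) 0 ?_ ?_ ?_ ?_ ?_ ?_ ?_ ?_ ?_ ?_
      (Or.inr (Or.inl ⟨?_, ?_⟩)) <;> omega
  · exfalso; omega
  · refine five_min h hc 0 (b - 1) 0 (i - b + 1) (t + b - i - 1) (i - b + 1) 0 0 0 c (t + c - i) (i - c) (i - c) 0 ?_ ?_ ?_ ?_ ?_ ?_ ?_ ?_ ?_ ?_
      (Or.inr (Or.inl ⟨?_, ?_⟩)) <;> omega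
  · exfalso; omega
  · exfalso; omega
  · exfalso; omega

end Pool.Agent.H4.Joh
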