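import Pool.Agent.H4.Joh.NumB

/-!
# Cases B2 (`i = t < s`, covering) and S1 (`i = t`, `s = t + 1`, `d = 0`)
-/

namespace Pool.Agent.H4.Joh

variable {α : Type*} [DecidableEq α] {N x y w : Finset α} {i s t : ℕ}
  {a b c X Y W d o : ℕ}

/-- B2: `i = t`, `s ≥ t + 1`, covering -/
theorem caseB2 (h : Cfg N t s t x y w) (hc : Cells N x y w a b c X Y W d o)
    (hts : t + 1 ≤ s) (hd : d = 0) (ho : o = 0) : IndPath N t t x y w := by
  obtain ⟨s1, s2, s3, s4, s5, s6, s7, s8, s9⟩ := hc.sums h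
  subst hd ho
  by_cases hb : b = t
  · by_cases hcc : c = t
    · exact three_path h hc (by omega) (by omega)
    · obtain ⟨e, he1, he2⟩ : ∃ e, 1 ≤ e ∧ ((e = t - c ∧ c < t) ∨ (e = 1 ∧ t < c)) := by
        rcases Nat.lt_or_gt_of_ne hcc with h1 | h1
        · exact ⟨t - c, by omega, Or.inl ⟨rfl, h1⟩⟩
        · exact ⟨1, by omega, Or.inr ⟨rfl, h1⟩⟩
      refine four_path h hc (by omega) (e - Y) (e - W) (t - e) (t - e) (e - (e - Y)) (e - (e - W)) 0 0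
        ?_ ?_ ?_ ?_ ?_ <;> omega
  · by_cases hcc : c = t
    · obtain ⟨e, he1, he2⟩ : ∃ e, 1 ≤ e ∧ ((e = t - b ∧ b < t) ∨ (e = 1 ∧ t < b)) := by
        rcases Nat.lt_or_gt_of_ne hb with h1 | h1
        · exact ⟨t - b, by omega, Or.inl ⟨rfl, h1⟩⟩
        · exact ⟨1, by omega, Or.inr ⟨rfl, h1⟩⟩
      refine four_path' h hc (by omega) (e - X) (t - e) (e - W) (e - (e - X)) (t - e) (e - (e - W)) 0 0
        ?_ ?_ ?_ ?_ ?_ <;> omega
    · obtain ⟨e, he1, he2⟩ : ∃ e, 1 ≤ e ∧ ((e = t - b ∧ b < t) ∨ (e = 1 ∧ t < b)) := by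
        rcases Nat.lt_or_gt_of_ne hb with h1 | h1
        · exact ⟨t - b, by omega, Or.inl ⟨rfl, h1⟩⟩
        · exact ⟨1, by omega, Or.inr ⟨rfl, h1⟩⟩
      obtain ⟨f, hf1, hf2⟩ : ∃ e, 1 ≤ e ∧ ((e = t - c ∧ c < t) ∨ (e = 1 ∧ t < c)) := by
        rcases Nat.lt_or_gt_of_ne hcc with h1 | h1
        · exact ⟨t - c, by omega, Or.inl ⟨rfl, h1⟩⟩
        · exact ⟨1, by omega, Or.inr ⟨rfl, h1⟩⟩
      by_cases hfl : b < t ∧ c < t
      · refine five_min h hc (e - X) (t - e) (e - W) (e - (e - X)) (t - e) (e - (e - W)) 0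
          (f - Y) (f - W) (t - f) (t - f) (f - (f - Y)) (f - (f - W)) 0
          ?_ ?_ ?_ ?_ ?_ ?_ ?_ ?_ ?_ ?_ (Or.inr (Or.inl ⟨?_, ?_⟩)) <;> omega
      · by_cases hbt : t < b
        · refine five_min h hc (e - X) (t - e) (e - W) (e - (e - X)) (t - e) (e - (e - W)) 0
            (f - Y) (f - W) (t - f) (t - f) (f - (f - Y)) (f - (f - W)) 0
            ?_ ?_ ?_ ?_ ?_ ?_ ?_ ?_ ?_ ?_ (Or.inr (Or.inr (Or.inr (Or.inr (Or.inl ⟨?_, ?_⟩))))) <;> omega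
        · refine five_min h hc (e - X) (t - e) (e - W) (e - (e - X)) (t - e) (e - (e - W)) 0
            (f - Y) (f - W) (t - f) (t - f) (f - (f - Y)) (f - (f - W)) 0
            ?_ ?_ ?_ ?_ ?_ ?_ ?_ ?_ ?_ ?_
            (Or.inr (Or.inr (Or.inr (Or.inr (Or.inr (Or.inl ⟨?_, ?_⟩)))))) <;> omega

end Pool.Agent.H4.Joh
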