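import Pool.Agent.H4.Joh.NumB

/-!
# Case S1 (`i = t`, `s = t + 1`, `d = 0`, `o ≥ 1`)
-/

namespace Pool.Agent.H4.Joh

variable {α : Type*} [DecidableEq α] {N x y w : Finset α} {i s t : ℕ}
  {a b c X Y W d o : ℕ}

/-- S1: `i = t`, `s = t + 1`, `d = 0`, `o ≥ 1` -/
theorem caseS1 (h : Cfg N t (t + 1) t x y w) (hc : Cells N x y w a b c X Y W d o)
    (hd : d = 0) (ho : 1 ≤ o) : IndPath N t t x y w := by
  obtain ⟨s1, s2, s3, s4, s5, s6, s7, s8, s9⟩ := hc.sums h
  subst hd
  by_cases hb : b = t
  · by_cases hcc : c = t
    · exact three_path h hc (by omega) (by omega)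
    · obtain ⟨e, he2⟩ : ∃ e, ((e = t - c ∧ c < t) ∨ (e = 0 ∧ t < c)) := by
        rcases Nat.lt_or_gt_of_ne hcc with h1 | h1
        · exact ⟨t - c, Or.inl ⟨rfl, h1⟩⟩
        · exact ⟨0, Or.inr ⟨rfl, h1⟩⟩
      refine four_path h hc (by omega) (e - Y) (e - W) (t - e) (t - e - min o (t - e)) (e - (e - Y))
        (e - (e - W)) 0 (min o (t - e))
        ?_ ?_ ?_ ?_ ?_ <;> omega
  · by_cases hcc : c = t
    · obtain ⟨e, he2⟩ : ∃ e, ((e = t - b ∧ b < t) ∨ (e = 0 ∧ t < b)) := by
        rcases Nat.lt_or_gt_of_ne hb with h1 | h1
        · exact ⟨t - b, Or.inl ⟨rfl, h1⟩⟩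
        · exact ⟨0, Or.inr ⟨rfl, h1⟩⟩
      refine four_path' h hc (by omega) (e - X) (t - e) (e - W) (e - (e - X))
        (t - e - min o (t - e)) (e - (e - W)) 0 (min o (t - e))
        ?_ ?_ ?_ ?_ ?_ <;> omega
    · obtain ⟨e, he2⟩ : ∃ e, ((e = t - b ∧ b < t) ∨ (e = 0 ∧ t < b)) := by
        rcases Nat.lt_or_gt_of_ne hb with h1 | h1
        · exact ⟨t - b, Or.inl ⟨rfl, h1⟩⟩
        · exact ⟨0, Or.inr ⟨rfl, h1⟩⟩
      obtain ⟨f, hf2⟩ : ∃ e, ((e = t - c ∧ c < t) ∨ (e = 0 ∧ t < c)) := by
        rcases Nat.lt_or_gt_of_ne hcc with h1 | h1
        · exact ⟨t - c, Or.inl ⟨rfl, h1⟩⟩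
        · exact ⟨0, Or.inr ⟨rfl, h1⟩⟩
      refine five_min h hc (e - X) (t - e) (e - W) (e - (e - X)) (t - e - min o (t - e))
          (e - (e - W)) (min o (t - e))
          (f - Y) (f - W) (t - f) (t - f - min o (t - f)) (f - (f - Y)) (f - (f - W)) (min o (t - f))
          ?_ ?_ ?_ ?_ ?_ ?_ ?_ ?_ ?_ ?_ (Or.inl ?_)
      · omega
      · omega
      · omega
      · omega
      · omega
      · omega
      · omega
      · omega
      · omega
      · omega
      · have hat : a < t ∨ t < a := by omega
        have x1 : X + o = c + 1 := by omega
        have x2 : Y + o = b + 1 := by omega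
        have x3 : W + o = a + 1 := by omega
        have x4 : a + b + c + 1 = 2 * t + o := by omega
        clear s1 s2 s3 s4 s5 s6 s7 s8 s9 hc h
        rcases he2 with ⟨he, hbt⟩ | ⟨he, hbt⟩
        · rcases hf2 with ⟨hf, hct⟩ | ⟨hf, hct⟩
          · subst he hf
            have e1 : (t - b) - W = 0 := by omega
            have e2 : (t - c) - W = 0 := by omega
            have e3 : t - (t - b) = b := by omega
            have e4 : t - (t - c) = c := by omega
            rw [e1, e2, e3, e4]
            have r1 : (t - b - X + (t - c - Y) - a) = 0 := by omega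
            have r2 : b + 0 - b = 0 := by omega
            have r3 : 0 + c - c = 0 := by omega
            have r6 : (t - b - 0 + (t - c - 0) - W) = 0 := by omega
            rw [r1, r2, r3, r6]
            rcases hat with hat | hat
            · have e5 : (t - b) - X = 0 := by omega
              have e6 : (t - c) - Y = 0 := by omega
              have e7 : min o b = o := by omega
              have e8 : min o c = o := by omega
              rw [e5, e6, e7, e8]
              omega
            · have e5 : (t - b) - X = a - t := by omega
              have e6 : (t - c) - Y = a - t := by omega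
              have e9 : t - b - (a - t) = X := by omega
              have e10 : t - c - (a - t) = Y := by omega
              rw [e5, e6, e9, e10]
              rcases Nat.lt_or_ge b o with h1 | h1
              · rcases Nat.lt_or_ge c o with h2 | h2
                · rw [min_eq_right h1.le, min_eq_right h2.le]; omega
                · rw [min_eq_right h1.le, min_eq_left h2]; omega
              · rcases Nat.lt_or_ge c o with h2 | h2
                · rw [min_eq_left h1, min_eq_right h2.le]; omega
                · rw [min_eq_left h1, min_eq_left h2]; omega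
          · -- b < t < c
            subst he hf
            have hat : a < t := by omega
            have e1 : (t - b) - W = c - t := by omega
            have e3 : t - (t - b) = b := by omega
            have e5 : (t - b) - X = 0 := by omega
            have e9 : t - b - (c - t) = W := by omega
            rw [e1, e3, e5, e9]
            simp only [Nat.zero_sub, Nat.sub_zero, Nat.zero_add, Nat.add_zero, Nat.sub_self]
            have r3 : c - t + t - c = 0 := by omega
            have r5 : (b - min o b - Y) = 0 := by omega
            rw [r3, r5]
            rcases Nat.lt_or_ge b o with h1 | h1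
            · rcases Nat.lt_or_ge t o with h2 | h2
              · rw [min_eq_right h1.le, min_eq_right h2.le]; omega
              · rw [min_eq_right h1.le, min_eq_left h2]; omega
            · rcases Nat.lt_or_ge t o with h2 | h2
              · rw [min_eq_left h1, min_eq_right h2.le]; omega
              · rw [min_eq_left h1, min_eq_left h2]; omega
        · rcases hf2 with ⟨hf, hct⟩ | ⟨hf, hct⟩
          · -- c < t < b
            subst he hf
            have hat : a < t := by omega
            have e1 : (t - c) - W = b - t := by omega
            have e3 : t - (t - c) = c := by omega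
            have e5 : (t - c) - Y = 0 := by omega
            have e9 : t - c - (b - t) = W := by omega
            rw [e1, e3, e5, e9]
            simp only [Nat.zero_sub, Nat.sub_zero, Nat.zero_add, Nat.add_zero, Nat.sub_self]
            have r3 : t + (b - t) - b = 0 := by omega
            have r5 : (c - min o c - X) = 0 := by omega
            rw [r3, r5]
            rcases Nat.lt_or_ge c o with h1 | h1
            · rcases Nat.lt_or_ge t o with h2 | h2
              · rw [min_eq_right h1.le, min_eq_right h2.le]; omega
              · rw [min_eq_right h1.le, min_eq_left h2]; omega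
            · rcases Nat.lt_or_ge t o with h2 | h2
              · rw [min_eq_left h1, min_eq_right h2.le]; omega
              · rw [min_eq_left h1, min_eq_left h2]; omega
          · omega

end Pool.Agent.H4.Joh
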