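import Pool.Agent.H4.Joh.NumB

/-!
# Cases S2 (`i = 1`, `t = 2`, `s ≥ 2`, `d ≥ 1`) and `(i, s, t) = (1, 1, 2)`, `(1, 1, 1)`
-/

namespace Pool.Agent.H4.Joh

variable {α : Type*} [DecidableEq α] {N x y w : Finset α} {i s t : ℕ}
  {a b c X Y W d o : ℕ}

theorem caseS2 (h : Cfg N 1 s 2 x y w) (hc : Cells N x y w a b c X Y W d o)
    (hs2 : 2 ≤ s) (hd : 1 ≤ d) : IndPath N 1 2 x y w := by
  obtain ⟨s1, s2, s3, s4, s5, s6, s7, s8, s9⟩ := hc.sums h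
  have hcases : (d = 2 ∧ a = 0 ∧ b = 0 ∧ c = 0) ∨ (d = 1 ∧ a = 1 ∧ b = 0 ∧ c = 0) ∨
      (d = 1 ∧ a = 1 ∧ b = 1 ∧ c = 0) ∨ (d = 1 ∧ a = 1 ∧ b = 0 ∧ c = 1) ∨
      (d = 1 ∧ a = 1 ∧ b = 1 ∧ c = 1) := by omega
  rcases hcases with ⟨h1, h2, h3, h4⟩ | ⟨h1, h2, h3, h4⟩ | ⟨h1, h2, h3, h4⟩ | ⟨h1, h2, h3, h4⟩ |
    ⟨h1, h2, h3, h4⟩
  · refine five_path h hc 0 0 0 0 1 0 1 1 0 0 0 1 0 0 1 1 0 0 0 0 0 0 1 1
      ?_ ?_ ?_ ?_ ?_ ?_ ?_ ?_ ?_ ?_ ?_ ?_ ?_ ?_ ?_ ?_ ?_ <;> omega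
  · exact three_path h hc (by omega) (by omega)
  · refine four_path' h hc (by omega) 0 0 0 0 1 0 1 1 ?_ ?_ ?_ ?_ ?_ <;> omega
  · refine four_path h hc (by omega) 0 0 0 1 0 0 1 1 ?_ ?_ ?_ ?_ ?_ <;> omega
  · refine five_path h hc 0 1 0 0 0 0 0 2 0 0 1 0 0 0 0 2 0 0 0 0 0 0 0 2
      ?_ ?_ ?_ ?_ ?_ ?_ ?_ ?_ ?_ ?_ ?_ ?_ ?_ ?_ ?_ ?_ ?_ <;> omega

/-- the case `w ~ x` in `J(6,3,1)` with a longer path -/
theorem caseT7 (h : Cfg N 1 1 2 x y w) (hc : Cells N x y w a b c X Y W d o)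
    (ha : a = 2) (hb : b = 1) (hW : W = 2) (hd : d = 0) :
    IndPath N 1 2 x y w := by
  obtain ⟨s1, s2, s3, s4, s5, s6, s7, s8, s9⟩ := hc.sums h
  obtain ⟨p, q, hp, hq, cp, cq, xp, yp, wp, xq, yq, wq, pq⟩ :=
    exists_pq h.hx.1 h.hy.1 h.hw.1 hc 2 0 0 0 0 1 0 0 1 1 0 0 0 1 0 0 1 0 0 0 0 0 0 0
      (by omega) (by omega) (by omega) (by omega) (by omega) (by omega) (by omega) (by omega)
  have hin := hc.inters
  have hxw : (x ∩ w).card = 1 := by omega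
  have hvp : Vtx N 1 2 p := ⟨hp, by omega⟩
  have hvq : Vtx N 1 2 q := ⟨hq, by omega⟩
  have hself : ∀ A : Finset α, Vtx N 1 2 A → (A ∩ A).card = 3 := by
    intro A hA; rw [Finset.inter_self]; exact hA.2
  refine glue h {x} {p, q, y} ?_ ?_ ?_ ?_ ?_ ?_ ?_
  · rintro A rfl; exact h.hx
  · rintro A (rfl | rfl | rfl)
    · exact hvp
    · exact hvq
    · exact h.hy
  · exact h.wx
  · rintro (hh | hh | hh)
    · have := hself w h.hw
      rw [← hh] at wp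
      omega
    · have := hself w h.hw
      rw [← hh] at wq
      omega
    · exact h.wy hh
  · rintro A rfl B (rfl | rfl | rfl)
    · refine ⟨?_, by omega⟩
      rintro rfl
      have := hself A h.hx
      omega
    · refine ⟨?_, by omega⟩
      rintro rfl
      have := hself A h.hx
      omega
    · exact ⟨h.xy, h.nadj⟩
  · refine Relation.ReflTransGen.single ⟨?_, rfl⟩
    rw [Finset.inter_comm]; exact hxw
  · refine Relation.ReflTransGen.head (b := p) ⟨by omega, Or.inl rfl⟩ ?_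
    refine Relation.ReflTransGen.head (b := q) ⟨by omega, Or.inr (Or.inl rfl)⟩ ?_
    refine Relation.ReflTransGen.single ⟨?_, Or.inr (Or.inr rfl)⟩
    rw [Finset.inter_comm]; omega

theorem good_112 : Good α 1 1 2 := by
  intro N x y w h
  obtain ⟨a, b, c, X, Y, W, d, o, hc⟩ := Cfg.cells N x y w
  obtain ⟨s1, s2, s3, s4, s5, s6, s7, s8, s9⟩ := hc.sums h
  have hda : (d = 2 ∧ a = 0) ∨ (d = 1 ∧ a = 1) ∨ (d = 0 ∧ a = 2) ∨ (d = 0 ∧ a = 0) := by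
    omega
  rcases hda with ⟨h1, h2⟩ | ⟨h1, h2⟩ | ⟨h1, h2⟩ | ⟨h1, h2⟩
  · subst h1 h2
    have h3 : b = 0 := by omega
    have h4 : c = 0 := by omega
    subst h3 h4
    refine five_path h hc 0 0 0 0 1 0 1 1 0 0 0 1 0 0 1 1 0 0 0 0 0 0 1 1
      ?_ ?_ ?_ ?_ ?_ ?_ ?_ ?_ ?_ ?_ ?_ ?_ ?_ ?_ ?_ ?_ ?_ <;> omega
  · subst h1 h2
    have h3 : b = 0 ∨ b = 1 := by omega
    have h4 : c = 0 ∨ c = 1 := by omega
    rcases h3 with h3 | h3 <;> rcases h4 with h4 | h4 <;> subst h3 h4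
    · exact three_path h hc (by omega) (by omega)
    · refine four_path h hc (by omega) 0 0 0 1 0 0 1 1 ?_ ?_ ?_ ?_ ?_ <;> omega
    · refine four_path' h hc (by omega) 0 0 0 0 1 0 1 1 ?_ ?_ ?_ ?_ ?_ <;> omega
    · refine five_path h hc 1 0 1 0 0 0 0 1 1 1 0 0 0 0 0 1 1 0 0 0 0 0 0 1
        ?_ ?_ ?_ ?_ ?_ ?_ ?_ ?_ ?_ ?_ ?_ ?_ ?_ ?_ ?_ ?_ ?_ <;> omega
  · subst h1 h2
    have h3 : b = 0 ∨ b = 1 := by omega
    have h4 : c = 0 ∨ c = 1 := by omega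
    rcases h3 with h3 | h3 <;> rcases h4 with h4 | h4 <;> subst h3 h4
    · exfalso; omega
    · exact (caseT7 h.swap hc.swap (by omega) (by omega) (by omega) (by omega)).swap
    · exact caseT7 h hc (by omega) (by omega) (by omega) (by omega)
    · exact three_path h hc (by omega) (by omega)
  · subst h1 h2
    have h3 : b = 1 ∨ b = 2 := by omega
    rcases h3 with h3 | h3
    · have h4 : c = 2 := by omega
      subst h3 h4
      refine four_path h hc (by omega) 0 1 0 1 1 0 0 0 ?_ ?_ ?_ ?_ ?_ <;> omega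
    · have h4 : c = 1 := by omega
      subst h3 h4
      refine four_path' h hc (by omega) 0 1 0 0 2 0 0 0 ?_ ?_ ?_ ?_ ?_ <;> omega

theorem good_111 : Good α 1 1 1 := by
  intro N x y w h
  obtain ⟨a, b, c, X, Y, W, d, o, hc⟩ := Cfg.cells N x y w
  obtain ⟨s1, s2, s3, s4, s5, s6, s7, s8, s9⟩ := hc.sums h
  exact three_path h hc (by omega) (by omega)

theorem good_0s1 : Good α 0 s 1 := by
  intro N x y w h
  exfalso
  obtain ⟨a, b, c, X, Y, W, d, o, hc⟩ := Cfg.cells N x y w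
  obtain ⟨s1, s2, s3, s4, s5, s6, s7, s8, s9⟩ := hc.sums h
  omega

end Pool.Agent.H4.Joh
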