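import Pool.Agent.H4.Joh.MainC
import Pool.Agent.H4.Joh.NumC
import Pool.Agent.H4.Joh.NumD
import Pool.Agent.H4.Joh.NumE
import Pool.Agent.H4.Joh.NumF

/-!
# Assembly: region B
-/

namespace Pool.Agent.H4.Joh

variable {α : Type*} [DecidableEq α] {N x y w : Finset α} {i s t : ℕ}
  {a b c X Y W d o : ℕ}

open Finset

/-! ## Region B1 -/

theorem regB1_cov (h : Cfg N i s t x y w) (hc : Cells N x y w a b c X Y W d o)
    (hi : 1 ≤ i) (hit : i + 1 ≤ t) (hts : t ≤ s) (hd : d = 0) (ho : o = 0) :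
    IndPath N i t x y w := by
  obtain ⟨hD, hO⟩ := cov_sets hc hd ho
  have hD' : y ∩ x ∩ w = ∅ := by rw [inter_comm y x]; exact hD
  obtain ⟨s1, s2, s3, s4, s5, s6, s7, s8, s9⟩ := hc.sums h
  have hxy : (x ∩ y).card = a := by rw [hc.inters.1, hd]; rfl
  have hxw : (x ∩ w).card = b := by rw [hc.inters.2.1, hd]; rfl
  have hyw : (y ∩ w).card = c := by rw [hc.inters.2.2, hd]; rfl
  have hs1 : 1 ≤ s := by omega
  rw [hd] at s5
  have s5' : a ≠ i := s5
  clear s1 s2 s3 s4 s5 s6 s7 s8 s9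
  by_cases c1 : b = i
  · exact adjCase h hi hit hs1 hD (by rw [hxw]; exact c1)
  by_cases c2 : c = i
  · exact (adjCase h.swap hi hit hs1 hD' (by rw [hyw]; exact c2)).swap
  by_cases c3 : i + 1 ≤ b
  · exact caseB1b h hc hi hit hts hd ho c3
  by_cases c4 : i + 1 ≤ c
  · exact (caseB1b h.swap hc.swap hi hit hts hd ho c4).swap
  by_cases c5 : i + 1 ≤ a
  · exact caseB1a h hc hi hit hts hd ho c5
  have hb : b < i := by omega
  have hcc : c < i := by omega
  have ha : a < i := by omega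
  by_cases c6 : t = s
  · exact caseB1z h hc hi hit c6 hd ho ha hb hcc
  have hts' : t + 1 ≤ s := by omega
  by_cases c7 : a = 0 ∧ b = 0 ∧ c = 0 ∧ t = 2 * i
  · obtain ⟨q1, q2, q3, q4⟩ := c7
    subst q4
    exact caseB1ex h hi (card_eq_zero.mp (by rw [hxy]; exact q1))
      (card_eq_zero.mp (by rw [hxw]; exact q2)) (card_eq_zero.mp (by rw [hyw]; exact q3))
  · exact caseB1y h hc hi hit hts' hd ho ha hb hcc c7

/-- the graphs with `t = 2`, `i = 1` -/
theorem good_12 : ∀ s : ℕ, 1 ≤ s → Good α 1 s 2 := by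
  intro s
  induction s with
  | zero => intro h; omega
  | succ s ih =>
    intro _
    rcases Nat.eq_zero_or_pos s with hs | hs
    · subst hs; exact good_112
    · intro N x y w h
      by_cases hO : (N \ (x ∪ y ∪ w)).Nonempty
      · exact red_out (ih hs) h hO
      obtain ⟨a, b, c, X, Y, W, d, o, hc⟩ := Cfg.cells N x y w
      by_cases hD : 1 ≤ d
      · exact caseS2 h hc (by omega) hD
      · refine regB1_cov h hc (by omega) (by omega) (by omega) (by omega) ?_
        rw [← hc.ho]; exact card_eq_zero.mpr (not_nonempty_iff_eq_empty.mp hO)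

/-- region B1 for `t ≥ 3` -/
theorem good_B1 (ht : 3 ≤ t) : ∀ m i s : ℕ, i + s = m → i + 1 ≤ t → t ≤ s → Good α i s t := by
  intro m
  induction m using Nat.strong_induction_on with
  | _ m ih =>
    intro i s hm hit hts
    rcases Nat.eq_zero_or_pos i with hi | hi
    · subst hi
      exact good_K ht (by omega)
    · intro N x y w h
      obtain ⟨s', rfl⟩ : ∃ s', s = s' + 1 := ⟨s - 1, by omega⟩
      obtain ⟨i', rfl⟩ : ∃ i', i = i' + 1 := ⟨i - 1, by omega⟩
      by_cases hO : (N \ (x ∪ y ∪ w)).Nonempty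
      · rcases Nat.lt_or_ge s' t with h1 | h1
        · exact red_out (good_C ht (i' + 1 + s') (i' + 1) s' rfl hit (by omega) (by omega)) h hO
        · exact red_out (ih (i' + 1 + s') (by omega) (i' + 1) s' rfl (by omega) h1) h hO
      by_cases hD : (x ∩ y ∩ w).Nonempty
      · exact red_in (ih (i' + (s' + 1)) (by omega) i' (s' + 1) rfl (by omega) (by omega)) h hD
      obtain ⟨a, b, c, X, Y, W, d, o, hc⟩ := Cfg.cells N x y w
      refine regB1_cov h hc (by omega) hit hts ?_ ?_
      · rw [← hc.hd]; exact card_eq_zero.mpr (not_nonempty_iff_eq_empty.mp hD)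
      · rw [← hc.ho]; exact card_eq_zero.mpr (not_nonempty_iff_eq_empty.mp hO)

/-! ## Region B2 -/

/-- the graphs just below the diagonal of region B2 -/
theorem good_B2_pred (ht : 1 ≤ t) (hs : t + 1 ≤ s) : Good α (t - 1) s t := by
  rcases Nat.lt_or_ge t 3 with h3 | h3
  · have h : t = 1 ∨ t = 2 := by omega
    rcases h with rfl | rfl
    · exact good_0s1
    · exact good_12 s (by omega)
  · exact good_B1 h3 (t - 1 + s) (t - 1) s rfl (by omega) (by omega)

theorem good_B2 (ht : 1 ≤ t) : ∀ k : ℕ, Good α t (t + 1 + k) t := by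
  intro k
  induction k with
  | zero =>
    intro N x y w h
    obtain ⟨a, b, c, X, Y, W, d, o, hc⟩ := Cfg.cells N x y w
    by_cases hD : (x ∩ y ∩ w).Nonempty
    · obtain ⟨t', rfl⟩ : ∃ t', t = t' + 1 := ⟨t - 1, by omega⟩
      exact red_in (good_B2_pred ht (by omega)) h hD
    have hd : d = 0 := by rw [← hc.hd]; exact card_eq_zero.mpr (not_nonempty_iff_eq_empty.mp hD)
    rcases Nat.eq_zero_or_pos o with ho | ho
    · exact caseB2 h hc (by omega) hd ho
    · exact caseS1 h hc hd ho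
  | succ k ih =>
    intro N x y w h
    by_cases hO : (N \ (x ∪ y ∪ w)).Nonempty
    · exact red_out ih h hO
    by_cases hD : (x ∩ y ∩ w).Nonempty
    · obtain ⟨t', rfl⟩ : ∃ t', t = t' + 1 := ⟨t - 1, by omega⟩
      exact red_in (good_B2_pred ht (by omega)) h hD
    obtain ⟨a, b, c, X, Y, W, d, o, hc⟩ := Cfg.cells N x y w
    refine caseB2 h hc (by omega) ?_ ?_
    · rw [← hc.hd]; exact card_eq_zero.mpr (not_nonempty_iff_eq_empty.mp hD)
    · rw [← hc.ho]; exact card_eq_zero.mpr (not_nonempty_iff_eq_empty.mp hO)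

end Pool.Agent.H4.Joh
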