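import Pool.Agent.H4.Joh.MainA
import Pool.Agent.H4.Joh.MainB

/-!
# Assembly: main theorem
-/

namespace Pool.Agent.H4.Joh

variable {α : Type*} [DecidableEq α] {N x y w : Finset α} {i s t : ℕ}
  {a b c X Y W d o : ℕ}

open Finset

/-! ## The main theorem -/

/-- The exceptional parameters (`t ≥ 1`). -/
def Exc (i s t : ℕ) : Prop :=
  2 ≤ t ∧ ((i = 0 ∧ s = 0) ∨ (i = t ∧ s = t) ∨ (t = 2 ∧ (i = 0 ∨ s = 0)))

theorem good_main (ht : 1 ≤ t) (he : ¬ Exc i s t) : Good α i s t := by
  have key : ∀ i s : ℕ, i ≤ s → ¬ Exc i s t → Good α i s t := by
    intro i s his he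
    unfold Exc at he
    rcases Nat.lt_or_ge i t with h1 | h1
    · -- `i < t`
      rcases Nat.lt_or_ge t 3 with h3 | h3
      · have h : t = 1 ∨ t = 2 := by omega
        rcases h with rfl | rfl
        · have : i = 0 := by omega
          subst this
          exact good_0s1
        · have : i = 1 := by omega
          subst this
          exact good_12 s (by omega)
      · rcases Nat.lt_or_ge s t with h2 | h2
        · exact good_C h3 (i + s) i s rfl (by omega) (by omega) (by omega)
        · exact good_B1 h3 (i + s) i s rfl (by omega) h2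
    · rcases Nat.eq_or_lt_of_le h1 with h2 | h2
      · subst h2
        rcases Nat.eq_or_lt_of_le his with h3 | h3
        · subst h3
          have : t = 1 := by omega
          subst this
          exact good_111
        · obtain ⟨k, rfl⟩ : ∃ k, s = t + 1 + k := ⟨s - t - 1, by omega⟩
          exact good_B2 ht k
      · exact good_A (good_B2 ht 0) (by omega) (by omega)
  rcases Nat.le_total i s with h | h
  · exact key i s h he
  · refine (key s i h ?_).compl
    unfold Exc at he ⊢
    omega

end Pool.Agent.H4.Joh
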