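import Pool.Agent.H4.Joh.Defs

/-!
# Reductions: dropping a point outside `x ∪ y ∪ w`, dropping a point common to `x`, `y`, `w`

JOB.
* `erase_out`: the path in `N.erase e` is a path in `N`.
* `erase_in`: `f' a = insert e (f a)` (`e ∉ f a` as `f a ⊆ N.erase e`).
-/

namespace Pool.Agent.H4.Joh

variable {α : Type*} [DecidableEq α] {N x y w : Finset α} {i s t : ℕ}

theorem Cfg.erase_out (h : Cfg N i (s + 1) t x y w) {e : α} (he : e ∈ N)
    (hex : e ∉ x) (hey : e ∉ y) (hew : e ∉ w) : Cfg (N.erase e) i s t x y w where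
  cN := by rw [Finset.card_erase_of_mem he, h.cN]; omega
  t1 := h.t1
  hx := ⟨Finset.subset_erase.2 ⟨h.hx.1, hex⟩, h.hx.2⟩
  hy := ⟨Finset.subset_erase.2 ⟨h.hy.1, hey⟩, h.hy.2⟩
  hw := ⟨Finset.subset_erase.2 ⟨h.hw.1, hew⟩, h.hw.2⟩
  xy := h.xy
  wx := h.wx
  wy := h.wy
  nadj := h.nadj

theorem IndPath.erase_out {e : α} (h : IndPath (N.erase e) i t x y w) : IndPath N i t x y w := by
  obtain ⟨k, j, f, h1, h2, h3, h4, h5, h6, h7⟩ := h
  exact ⟨k, j, f, h1, h2, h3, h4,
    fun a ha => ⟨(h5 a ha).1.trans (Finset.erase_subset _ _), (h5 a ha).2⟩, h6, h7⟩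

theorem Cfg.erase_in (h : Cfg N (i + 1) s t x y w) {e : α}
    (hex : e ∈ x) (hey : e ∈ y) (hew : e ∈ w) :
    Cfg (N.erase e) i s t (x.erase e) (y.erase e) (w.erase e) where
  cN := by rw [Finset.card_erase_of_mem (h.hx.1 hex), h.cN]; omega
  t1 := h.t1
  hx := ⟨Finset.erase_subset_erase _ h.hx.1, by
    rw [Finset.card_erase_of_mem hex, h.hx.2]; omega⟩
  hy := ⟨Finset.erase_subset_erase _ h.hy.1, by
    rw [Finset.card_erase_of_mem hey, h.hy.2]; omega⟩
  hw := ⟨Finset.erase_subset_erase _ h.hw.1, by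
    rw [Finset.card_erase_of_mem hew, h.hw.2]; omega⟩
  xy := fun hh => h.xy (by rw [← Finset.insert_erase hex, ← Finset.insert_erase hey, hh])
  wx := fun hh => h.wx (by rw [← Finset.insert_erase hew, ← Finset.insert_erase hex, hh])
  wy := fun hh => h.wy (by rw [← Finset.insert_erase hew, ← Finset.insert_erase hey, hh])
  nadj := by
    have he : e ∈ x ∩ y := Finset.mem_inter.2 ⟨hex, hey⟩
    have h1 : x.erase e ∩ y.erase e = (x ∩ y).erase e := by
      ext a; simp only [Finset.mem_inter, Finset.mem_erase]; tauto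
    rw [h1, Finset.card_erase_of_mem he]
    have h2 : 0 < (x ∩ y).card := Finset.card_pos.2 ⟨e, he⟩
    have h3 := h.nadj
    omega

theorem IndPath.erase_in {e : α} (he : e ∈ N) (hex : e ∈ x) (hey : e ∈ y) (hew : e ∈ w)
    (h : IndPath (N.erase e) i t (x.erase e) (y.erase e) (w.erase e)) :
    IndPath N (i + 1) t x y w := by
  obtain ⟨k, j, f, h1, h2, h3, h4, h5, h6, h7⟩ := h
  have hef : ∀ a, a ≤ k → e ∉ f a := fun a ha hh => Finset.notMem_erase e N ((h5 a ha).1 hh)
  refine ⟨k, j, fun a => insert e (f a), h1, ?_, ?_, ?_, ?_, ?_, ?_⟩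
  · change insert e (f 0) = x
    rw [h2, Finset.insert_erase hex]
  · change insert e (f j) = w
    rw [h3, Finset.insert_erase hew]
  · change insert e (f k) = y
    rw [h4, Finset.insert_erase hey]
  · intro a ha
    refine ⟨Finset.insert_subset he ((h5 a ha).1.trans (Finset.erase_subset _ _)), ?_⟩
    change (insert e (f a)).card = i + 1 + t
    rw [Finset.card_insert_of_notMem (hef a ha), (h5 a ha).2]; omega
  · intro a b hab hb hh
    change insert e (f a) = insert e (f b) at hh
    apply h6 a b hab hb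
    rw [← Finset.erase_insert (hef a (by omega)), hh, Finset.erase_insert (hef b hb)]
  · intro a b hab hb
    change (insert e (f a) ∩ insert e (f b)).card = i + 1 ↔ b = a + 1
    have h8 : insert e (f a) ∩ insert e (f b) = insert e (f a ∩ f b) := by
      ext c; simp only [Finset.mem_inter, Finset.mem_insert]; tauto
    rw [h8, Finset.card_insert_of_notMem (by
      rw [Finset.mem_inter]; exact fun hh => hef b hb hh.2), ← h7 a b hab hb]
    omega

/-- reduction to covering triples, part 1 -/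
theorem red_out (hG : Good α i s t) (h : Cfg N i (s + 1) t x y w) (ho : (N \ (x ∪ y ∪ w)).Nonempty) :
    IndPath N i t x y w := by
  obtain ⟨e, he⟩ := ho
  simp only [Finset.mem_sdiff, Finset.mem_union, not_or] at he
  exact (hG _ _ _ _ (h.erase_out he.1 he.2.1.1 he.2.1.2 he.2.2)).erase_out

/-- reduction to covering triples, part 2 -/
theorem red_in (hG : Good α i s t) (h : Cfg N (i + 1) s t x y w) (hd : (x ∩ y ∩ w).Nonempty) :
    IndPath N (i + 1) t x y w := by
  obtain ⟨e, he⟩ := hd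
  simp only [Finset.mem_inter] at he
  exact (hG _ _ _ _ (h.erase_in he.1.1 he.1.2 he.2)).erase_in (h.hx.1 he.1.1) he.1.1 he.1.2 he.2

end Pool.Agent.H4.Joh
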