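import Pool.Agent.H4.Joh.CaseA12
import Pool.Agent.H4.Joh.CaseA3
import Pool.Agent.H4.Joh.CaseA4
import Pool.Agent.H4.Joh.CaseA4c
import Pool.Agent.H4.Joh.SymB

/-!
# Assembly: region A
-/

namespace Pool.Agent.H4.Joh

variable {α : Type*} [DecidableEq α] {N x y w : Finset α} {i s t : ℕ}
  {a b c X Y W d o : ℕ}

open Finset

/-! ## Region A -/

theorem regA_far (h : Cfg N i s t x y w) (hi : t + 1 ≤ i) (hs : t + 1 ≤ s)
    (hg : t + 1 ≤ (x \ y).card) : IndPath N i t x y w := by
  have hg' : t + 1 ≤ (y \ x).card := by
    have e1 := card_sdiff_add_card_inter x y
    have e2 := card_sdiff_add_card_inter y x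
    rw [inter_comm y x] at e2
    have e3 := h.hx.2
    have e4 := h.hy.2
    omega
  by_cases h1 : ((x \ y) ∩ w).Nonempty
  · by_cases h2 : ((x \ y) \ w).Nonempty
    · exact caseA1 h hi hs hg h1 h2
    · have h2' : x \ y ⊆ w := by
        rw [not_nonempty_iff_eq_empty, sdiff_eq_empty_iff_subset] at h2; exact h2
      by_cases h3 : ((y \ x) ∩ w).Nonempty
      · by_cases h4 : ((y \ x) \ w).Nonempty
        · exact (caseA1 h.swap hi hs hg' h3 h4).swap
        · have h4' : y \ x ⊆ w := by
            rw [not_nonempty_iff_eq_empty, sdiff_eq_empty_iff_subset] at h4; exact h4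
          -- both contained in w: complement of A2
          refine IndPath.compl h (caseA2 h.compl hs hi ?_ ?_ ?_)
          · have : (N \ x) \ (N \ y) = y \ x := by
              ext e; simp only [mem_sdiff]
              have := @h.hy.1 e
              tauto
            rw [this]; exact hg'
          · rw [disjoint_left]
            intro e he
            simp only [mem_sdiff] at he ⊢
            have : e ∈ w := h4' (by simp only [mem_sdiff]; tauto)
            tauto
          · rw [disjoint_left]
            intro e he
            simp only [mem_sdiff] at he ⊢
            have : e ∈ w := h2' (by simp only [mem_sdiff]; tauto)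
            tauto
      · have h3' : Disjoint (y \ x) w := by
          rw [disjoint_iff_inter_eq_empty]; exact not_nonempty_iff_eq_empty.mp h3
        by_cases hi2 : t + 2 ≤ i
        · exact caseA3a h hi2 hs hg h2' h3'
        · by_cases hs2 : t + 2 ≤ s
          · refine IndPath.compl h (caseA3a h.compl hs2 hi ?_ ?_ ?_)
            · have : (N \ x) \ (N \ y) = y \ x := by
                ext e; simp only [mem_sdiff]
                have := @h.hy.1 e
                tauto
              rw [this]; exact hg'
            · intro e he
              simp only [mem_sdiff] at he ⊢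
              refine ⟨he.1.1, fun hew => ?_⟩
              exact disjoint_left.mp h3' (mem_sdiff.mpr ⟨by tauto, he.1.2⟩) hew
            · rw [disjoint_left]
              intro e he
              simp only [mem_sdiff] at he ⊢
              have : e ∈ w := h2' (by simp only [mem_sdiff]; tauto)
              tauto
          · have e1 : i = t + 1 := by omega
            have e2 : s = t + 1 := by omega
            subst e1 e2
            exact caseA3c h hg h2' h3'
  · have h1' : Disjoint (x \ y) w := by
      rw [disjoint_iff_inter_eq_empty]; exact not_nonempty_iff_eq_empty.mp h1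
    by_cases h3 : ((y \ x) ∩ w).Nonempty
    · by_cases h4 : ((y \ x) \ w).Nonempty
      · exact (caseA1 h.swap hi hs hg' h3 h4).swap
      · have h4' : y \ x ⊆ w := by
          rw [not_nonempty_iff_eq_empty, sdiff_eq_empty_iff_subset] at h4; exact h4
        refine IndPath.swap ?_
        by_cases hi2 : t + 2 ≤ i
        · exact caseA3a h.swap hi2 hs hg' h4' h1'
        · by_cases hs2 : t + 2 ≤ s
          · refine IndPath.compl h.swap (caseA3a h.swap.compl hs2 hi ?_ ?_ ?_)
            · have : (N \ y) \ (N \ x) = x \ y := by
                ext e; simp only [mem_sdiff]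
                have := @h.hx.1 e
                tauto
              rw [this]; exact hg
            · intro e he
              simp only [mem_sdiff] at he ⊢
              refine ⟨he.1.1, fun hew => ?_⟩
              exact disjoint_left.mp h1' (mem_sdiff.mpr ⟨by tauto, he.1.2⟩) hew
            · rw [disjoint_left]
              intro e he
              simp only [mem_sdiff] at he ⊢
              have : e ∈ w := h4' (by simp only [mem_sdiff]; tauto)
              tauto
          · have e1 : i = t + 1 := by omega
            have e2 : s = t + 1 := by omega
            subst e1 e2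
            exact caseA3c h.swap hg' h4' h1'
    · have h3' : Disjoint (y \ x) w := by
        rw [disjoint_iff_inter_eq_empty]; exact not_nonempty_iff_eq_empty.mp h3
      exact caseA2 h hi hs hg h1' h3'

/-- region A, given the case `(t, t + 1, t)` -/
theorem good_A (h0 : Good α t (t + 1) t) (hi : t + 1 ≤ i) (hs : t + 1 ≤ s) : Good α i s t := by
  intro N x y w h
  have e1 := card_sdiff_add_card_inter x y
  have e3 := h.hx.2
  have e4 := h.nadj
  by_cases hg : t + 1 ≤ (x \ y).card
  · exact regA_far h hi hs hg
  · have hg' : (x \ y).card + 1 ≤ t := by omega
    by_cases his : 2 * t + 3 ≤ i + s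
    · exact caseA4 h hi hs his hg'
    · have e1 : i = t + 1 := by omega
      have e2 : s = t + 1 := by omega
      subst e1 e2
      by_cases hD : (x ∩ y ∩ w).Nonempty
      · exact red_in h0 h hD
      by_cases hO : (N \ (x ∪ y ∪ w)).Nonempty
      · exact red_out h0.compl h hO
      refine caseA4c h hg' (not_nonempty_iff_eq_empty.mp hD) ?_
      rw [← sdiff_eq_empty_iff_subset]
      exact not_nonempty_iff_eq_empty.mp hO

end Pool.Agent.H4.Joh
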