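import Pool.Agent.H4.Joh.Five
import Pool.Agent.H4.Joh.SymA
import Pool.Agent.H4.Joh.CaseB1ex

/-!
# The cases solved by explicit four- and five-vertex paths
-/

namespace Pool.Agent.H4.Joh

variable {α : Type*} [DecidableEq α] {N x y w : Finset α} {i s t : ℕ}
  {a b c X Y W d o : ℕ}

/-- swapping `x` and `y` in the cell sizes -/
theorem Cells.swap (hc : Cells N x y w a b c X Y W d o) : Cells N y x w a c b Y X W d o := by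
  obtain ⟨ha, hb, hcc, hX, hY, hW, hd, ho⟩ := hc
  refine ⟨?_, hcc, hb, hY, hX, ?_, ?_, ?_⟩
  · rw [Finset.inter_comm]; exact ha
  · rw [Finset.union_comm]; exact hW
  · rw [Finset.inter_comm y x]; exact hd
  · rw [Finset.union_comm y x]; exact ho

/-- C3: covering, `i ≤ s < t`, all of `a, b, c < i` -/
theorem caseC3 (h : Cfg N i s t x y w) (hc : Cells N x y w a b c X Y W d o)
    (his : i ≤ s) (hst : s + 1 ≤ t) (hd : d = 0) (ho : o = 0)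
    (ha : a < i) (hb : b < i) (hcc : c < i) : IndPath N i t x y w := by
  have hs := hc.sums h
  refine five_path h hc (a + c - i) (2 * i - a - c) (a + c - i) 0 Y 0 0 0
    (a + b - i) (a + b - i) (2 * i - a - b) X 0 0 0 0
    (t - s) (i - c) (i - b) 0 0 0 0 0 ?_ ?_ ?_ ?_ ?_ ?_ ?_ ?_ ?_ ?_ ?_ ?_ ?_ ?_ ?_ ?_ ?_ <;> omega

/-- B1b: covering, `1 ≤ i < t ≤ s`, `b ≥ i + 1` -/
theorem caseB1b (h : Cfg N i s t x y w) (hc : Cells N x y w a b c X Y W d o)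
    (hi : 1 ≤ i) (hit : i + 1 ≤ t) (hts : t ≤ s) (hd : d = 0) (ho : o = 0)
    (hb : i + 1 ≤ b) : IndPath N i t x y w := by
  have hs := hc.sums h
  by_cases hf : a + (2 * i - c - b) = i
  · refine five_path h hc 0 i 0 0 t 0 0 0
      0 (i - c) c (t - i + c) (i - c) 0 0 0
      0 (2 * i - c - b + 1) 0 0 a 0 0 0 ?_ ?_ ?_ ?_ ?_ ?_ ?_ ?_ ?_ ?_ ?_ ?_ ?_ ?_ ?_ ?_ ?_ <;> omega
  · refine five_path h hc 0 i 0 0 t 0 0 0
      0 (i - c) c (t - i + c) (i - c) 0 0 0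
      0 (2 * i - c - b) 0 0 a 0 0 0 ?_ ?_ ?_ ?_ ?_ ?_ ?_ ?_ ?_ ?_ ?_ ?_ ?_ ?_ ?_ ?_ ?_ <;> omega

/-- B1a: covering, `1 ≤ i < t ≤ s`, `a ≥ i + 1` -/
theorem caseB1a (h : Cfg N i s t x y w) (hc : Cells N x y w a b c X Y W d o)
    (hi : 1 ≤ i) (hit : i + 1 ≤ t) (hts : t ≤ s) (hd : d = 0) (ho : o = 0)
    (ha : i + 1 ≤ a) : IndPath N i t x y w := by
  have hs := hc.sums h
  refine five_path h hc (i - b) b 0 0 (t - i + b) (i - b) 0 0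
      (i - c) 0 c (t - i + c) 0 (i - c) 0 0
      (s - t) 0 0 0 0 0 0 0 ?_ ?_ ?_ ?_ ?_ ?_ ?_ ?_ ?_ ?_ ?_ ?_ ?_ ?_ ?_ ?_ ?_ <;> omega

/-- B1z: covering, `1 ≤ i < t = s`, `a, b, c < i` -/
theorem caseB1z (h : Cfg N i s t x y w) (hc : Cells N x y w a b c X Y W d o)
    (hi : 1 ≤ i) (hit : i + 1 ≤ t) (hts : t = s) (hd : d = 0) (ho : o = 0)
    (ha : a < i) (hb : b < i) (hcc : c < i) : IndPath N i t x y w := by
  have hs := hc.sums h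
  refine five_path h hc (i - b) b (i - b) 0 (t - i + b) 0 0 0
      (i - c) (i - c) c (t - i + c) 0 0 0 0
      0 (i - c) (i - b) 0 0 0 0 0 ?_ ?_ ?_ ?_ ?_ ?_ ?_ ?_ ?_ ?_ ?_ ?_ ?_ ?_ ?_ ?_ ?_ <;> omega

/-- `five_path` with minimal overlaps, or minimal overlaps except in one cell, where it is
one more. -/
theorem five_min (h : Cfg N i s t x y w) (hc : Cells N x y w a b c X Y W d o)
    (pa pb pc pX pY pW po qa qb qc qX qY qW qo : ℕ)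
    (hle : pa ≤ a ∧ pb ≤ b ∧ pc ≤ c ∧ pX ≤ X ∧ pY ≤ Y ∧ pW ≤ W ∧ po ≤ o)
    (hle' : qa ≤ a ∧ qb ≤ b ∧ qc ≤ c ∧ qX ≤ X ∧ qY ≤ Y ∧ qW ≤ W ∧ qo ≤ o)
    (hps : pa + pb + pc + pX + pY + pW + po = i + t)
    (hqs : qa + qb + qc + qX + qY + qW + qo = i + t)
    (hxp : pa + pb + pX = i) (hwp : pb + pc + pW = i)
    (hyq : qa + qc + qY = i) (hwq : qb + qc + qW = i)
    (hyp : pa + pc + pY ≠ i) (hxq : qa + qb + qX ≠ i)
    (hfl : (pa + qa - a) + (pb + qb - b) + (pc + qc - c) + (pX + qX - X) + (pY + qY - Y)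
        + (pW + qW - W) + (po + qo - o) ≠ i ∨ (pW + qW - W + 1 ≤ pW ∧ pW + qW - W + 1 ≤ qW) ∨
        (pX + qX - X + 1 ≤ pX ∧ pX + qX - X + 1 ≤ qX) ∨
        (pY + qY - Y + 1 ≤ pY ∧ pY + qY - Y + 1 ≤ qY) ∨
        (pb + qb - b + 1 ≤ pb ∧ pb + qb - b + 1 ≤ qb) ∨
        (pc + qc - c + 1 ≤ pc ∧ pc + qc - c + 1 ≤ qc) ∨
        (po + qo - o + 1 ≤ po ∧ po + qo - o + 1 ≤ qo)) :
    IndPath N i t x y w := by
  by_cases hm : (pa + qa - a) + (pb + qb - b) + (pc + qc - c) + (pX + qX - X) + (pY + qY - Y)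
        + (pW + qW - W) + (po + qo - o) = i
  · rcases hfl with hfl | hfl | hfl | hfl | hfl | hfl | hfl
    · exact absurd hm hfl
    · refine five_path h hc pa pb pc pX pY pW 0 po qa qb qc qX qY qW 0 qo
        (pa + qa - a) (pb + qb - b) (pc + qc - c) (pX + qX - X) (pY + qY - Y)
        (pW + qW - W + 1) 0 (po + qo - o)
        ?_ ?_ ?_ ?_ ?_ ?_ ?_ ?_ ?_ ?_ ?_ ?_ ?_ ?_ ?_ ?_ ?_ <;> omega
    · refine five_path h hc pa pb pc pX pY pW 0 po qa qb qc qX qY qW 0 qo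
        (pa + qa - a) (pb + qb - b) (pc + qc - c) (pX + qX - X + 1) (pY + qY - Y)
        (pW + qW - W) 0 (po + qo - o)
        ?_ ?_ ?_ ?_ ?_ ?_ ?_ ?_ ?_ ?_ ?_ ?_ ?_ ?_ ?_ ?_ ?_ <;> omega
    · refine five_path h hc pa pb pc pX pY pW 0 po qa qb qc qX qY qW 0 qo
        (pa + qa - a) (pb + qb - b) (pc + qc - c) (pX + qX - X) (pY + qY - Y + 1)
        (pW + qW - W) 0 (po + qo - o)
        ?_ ?_ ?_ ?_ ?_ ?_ ?_ ?_ ?_ ?_ ?_ ?_ ?_ ?_ ?_ ?_ ?_ <;> omega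
    · refine five_path h hc pa pb pc pX pY pW 0 po qa qb qc qX qY qW 0 qo
        (pa + qa - a) (pb + qb - b + 1) (pc + qc - c) (pX + qX - X) (pY + qY - Y)
        (pW + qW - W) 0 (po + qo - o)
        ?_ ?_ ?_ ?_ ?_ ?_ ?_ ?_ ?_ ?_ ?_ ?_ ?_ ?_ ?_ ?_ ?_ <;> omega
    · refine five_path h hc pa pb pc pX pY pW 0 po qa qb qc qX qY qW 0 qo
        (pa + qa - a) (pb + qb - b) (pc + qc - c + 1) (pX + qX - X) (pY + qY - Y)
        (pW + qW - W) 0 (po + qo - o)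
        ?_ ?_ ?_ ?_ ?_ ?_ ?_ ?_ ?_ ?_ ?_ ?_ ?_ ?_ ?_ ?_ ?_ <;> omega
    · refine five_path h hc pa pb pc pX pY pW 0 po qa qb qc qX qY qW 0 qo
        (pa + qa - a) (pb + qb - b) (pc + qc - c) (pX + qX - X) (pY + qY - Y)
        (pW + qW - W) 0 (po + qo - o + 1)
        ?_ ?_ ?_ ?_ ?_ ?_ ?_ ?_ ?_ ?_ ?_ ?_ ?_ ?_ ?_ ?_ ?_ <;> omega
  · refine five_path h hc pa pb pc pX pY pW 0 po qa qb qc qX qY qW 0 qo
        (pa + qa - a) (pb + qb - b) (pc + qc - c) (pX + qX - X) (pY + qY - Y)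
        (pW + qW - W) 0 (po + qo - o)
        ?_ ?_ ?_ ?_ ?_ ?_ ?_ ?_ ?_ ?_ ?_ ?_ ?_ ?_ ?_ ?_ ?_ <;> omega

end Pool.Agent.H4.Joh
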