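import Pool.Agent.H4.Joh.MainK
import Pool.Agent.H4.Joh.CaseC1
import Pool.Agent.H4.Joh.CaseC1p
import Pool.Agent.H4.Joh.CaseR1a
import Pool.Agent.H4.Joh.CaseR1b
import Pool.Agent.H4.Joh.CaseR1c
import Pool.Agent.H4.Joh.CaseR2
import Pool.Agent.H4.Joh.NumB

/-!
# Assembly: region C
-/

namespace Pool.Agent.H4.Joh

variable {α : Type*} [DecidableEq α] {N x y w : Finset α} {i s t : ℕ}
  {a b c X Y W d o : ℕ}

open Finset

/-! ## Region C -/

/-- covering triples: set form of `d = 0`, `o = 0` -/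
theorem cov_sets (hc : Cells N x y w a b c X Y W d o) (hd : d = 0) (ho : o = 0) :
    x ∩ y ∩ w = ∅ ∧ N ⊆ x ∪ y ∪ w := by
  refine ⟨card_eq_zero.mp (by rw [hc.hd]; exact hd), ?_⟩
  rw [← sdiff_eq_empty_iff_subset]; exact card_eq_zero.mp (by rw [hc.ho]; exact ho)

theorem regC_b (h : Cfg N i s t x y w) (hc : Cells N x y w a b c X Y W d o)
    (hi : 1 ≤ i) (his : i ≤ s) (hst : s + 1 ≤ t) (hd : d = 0) (ho : o = 0)
    (ha : a < i) (hb : i + 1 ≤ b) (hb2 : t ≤ b + s) : IndPath N i t x y w := by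
  obtain ⟨hD, hO⟩ := cov_sets hc hd ho
  obtain ⟨s1, s2, s3, s4, s5, s6, s7, s8, s9⟩ := hc.sums h
  clear s5 s7 s8 s9
  have hxw : (x ∩ w).card = b := by rw [hc.inters.2.1, hd]; rfl
  have hyw : (y ∩ w).card = c := by rw [hc.inters.2.2, hd]; rfl
  have hb' := hc.hb
  have hY' := hc.hY
  subst hd ho
  have hYv : Y + i = b + s := by omega
  have hcv : i ≤ c ∨ t < b + s := by omega
  by_cases c1 : i + t ≤ b + s
  · refine caseR1a h hi (by omega) (by omega) hD (by rw [hb']; exact hb) ?_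
    rw [hY']; omega
  by_cases c2 : t + 1 ≤ b + s
  · refine caseR1b h hi his hst hD hO ?_ ?_ ?_ <;> rw [hxw] <;> omega
  · refine caseR1c h hi his hst hD hO ?_ ?_ ?_
    · rw [hxw]; exact hb
    · rw [hxw]; omega
    · rw [hyw]; omega

theorem regC_cov (h : Cfg N i s t x y w) (hc : Cells N x y w a b c X Y W d o)
    (hi : 1 ≤ i) (his : i ≤ s) (hst : s + 1 ≤ t) (ht : 3 ≤ t) (hd : d = 0) (ho : o = 0) :
    IndPath N i t x y w := by
  obtain ⟨hD, hO⟩ := cov_sets hc hd ho
  have hD' : y ∩ x ∩ w = ∅ := by rw [inter_comm y x]; exact hD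
  have hO' : N ⊆ y ∪ x ∪ w := by rw [union_comm y x]; exact hO
  obtain ⟨s1, s2, s3, s4, s5, s6, s7, s8, s9⟩ := hc.sums h
  have hxw : (x ∩ w).card = b := by rw [hc.inters.2.1, hd]; rfl
  have hyw : (y ∩ w).card = c := by rw [hc.inters.2.2, hd]; rfl
  have hit : i + 1 ≤ t := by omega
  have hs1 : 1 ≤ s := by omega
  rw [hd] at s5
  have s5' : a ≠ i := s5
  have hXv : X + i = c + s := by clear s5 s5' s7 s8 s9; omega
  have hYv : Y + i = b + s := by clear s5 s5' s7 s8 s9; omega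
  have hWv : W + i = a + s := by clear s5 s5' s7 s8 s9; omega
  have hsum : a + b + c + s = t + 2 * i := by clear s5 s5' s7 s8 s9; omega
  clear s1 s2 s3 s4 s5 s7 s8 s9
  by_cases c1 : b = i
  · exact adjCase h hi hit hs1 hD (by rw [hxw]; exact c1)
  by_cases c2 : c = i
  · exact (adjCase h.swap hi hit hs1 hD' (by rw [hyw]; exact c2)).swap
  by_cases c3 : i + 1 ≤ a
  · have ha3 : i + 1 ≤ ((x ∩ y) \ w).card := by rw [hc.ha]; exact c3
    have ha3' : i + 1 ≤ ((y ∩ x) \ w).card := by rw [inter_comm y x, hc.ha]; exact c3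
    by_cases c4 : i + 2 ≤ t ∨ (1 ≤ b ∧ 1 ≤ c)
    · refine caseC1 h hi hit hs1 ha3 (nonempty_of hc.hW (by omega)) ?_
      rcases c4 with c4 | c4
      · exact Or.inl c4
      · exact Or.inr ⟨nonempty_of hc.hb c4.1, nonempty_of hc.hc c4.2⟩
    · have e1 : t = i + 1 := by omega
      have e2 : s = i := by omega
      have e3 : b = 0 ∨ c = 0 := by omega
      subst e1 e2
      rcases e3 with e3 | e3
      · exact caseC1p h hi hD hO (card_eq_zero.mp (by rw [hc.hb]; exact e3)) ha3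
      · exact (caseC1p h.swap hi hD' hO' (card_eq_zero.mp (by rw [hc.hc]; exact e3)) ha3').swap
  have ha4 : a < i := by omega
  by_cases c6 : b < i ∧ c < i
  · exact caseC3 h hc his hst hd ho ha4 c6.1 c6.2
  by_cases c7 : i + 1 ≤ b ∧ t ≤ b + s
  · exact regC_b h hc hi his hst hd ho ha4 c7.1 c7.2
  by_cases c8 : i + 1 ≤ c ∧ t ≤ c + s
  · exact (regC_b h.swap hc.swap hi his hst hd ho ha4 c8.1 c8.2).swap
  have f : (i + 1 ≤ b ∧ i + 1 ≤ c ∧ b + s < t ∧ c + s < t) := by
    have g1 : i + 1 ≤ b ∨ b < i := by omega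
    have g2 : i + 1 ≤ c ∨ c < i := by omega
    clear c1 c2 c3 s5'
    rcases g1 with g1 | g1 <;> rcases g2 with g2 | g2
    · exact ⟨g1, g2, by omega, by omega⟩
    · exfalso; omega
    · exfalso; omega
    · exfalso; exact c6 ⟨g1, g2⟩
  clear c6 c7 c8 c3 c1 c2 s5'
  refine caseR2 h hi hs1 (by omega) ?_ (nonempty_of hc.hc (by omega)) ?_ ?_
  · rw [hc.hb]; omega
  · rw [hc.hX]; omega
  · rw [hc.hY]; omega

/-- region C -/
theorem good_C (ht : 3 ≤ t) : ∀ m i s : ℕ, i + s = m → i + 1 ≤ t → s + 1 ≤ t → 1 ≤ i + s →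
    Good α i s t := by
  intro m
  induction m using Nat.strong_induction_on with
  | _ m ih =>
    intro i s hm hit hst h1
    -- it is enough to treat `i ≤ s`
    have key : ∀ i s : ℕ, i + s = m → i + 1 ≤ t → s + 1 ≤ t → 1 ≤ i + s → i ≤ s →
        Good α i s t := by
      intro i s hm hit hst h1 his
      rcases Nat.eq_zero_or_pos i with hi | hi
      · subst hi
        exact good_K ht (by omega)
      · intro N x y w h
        obtain ⟨s', rfl⟩ : ∃ s', s = s' + 1 := ⟨s - 1, by omega⟩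
        obtain ⟨i', rfl⟩ : ∃ i', i = i' + 1 := ⟨i - 1, by omega⟩
        by_cases hO : (N \ (x ∪ y ∪ w)).Nonempty
        · exact red_out (ih (i' + 1 + s') (by omega) (i' + 1) s' rfl (by omega) (by omega)
            (by omega)) h hO
        by_cases hD : (x ∩ y ∩ w).Nonempty
        · exact red_in (ih (i' + (s' + 1)) (by omega) i' (s' + 1) rfl (by omega) (by omega)
            (by omega)) h hD
        obtain ⟨a, b, c, X, Y, W, d, o, hc⟩ := Cfg.cells N x y w
        refine regC_cov h hc (by omega) his (by omega) ht ?_ ?_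
        · rw [← hc.hd]; exact card_eq_zero.mpr (not_nonempty_iff_eq_empty.mp hD)
        · rw [← hc.ho]; exact card_eq_zero.mpr (not_nonempty_iff_eq_empty.mp hO)
    rcases Nat.le_total i s with h2 | h2
    · exact key i s hm hit hst h1 h2
    · exact (key s i (by omega) hst hit (by omega) h2).compl

end Pool.Agent.H4.Joh
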