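import Pool.Agent.H4.Joh.CaseK0
import Pool.Agent.H4.Joh.CaseK1
import Pool.Agent.H4.Joh.CaseK2
import Pool.Agent.H4.Joh.CaseK3
import Pool.Agent.H4.Joh.SymB
import Pool.Agent.H4.Joh.NumB

/-!
# Assembly: Kneser graphs
-/

namespace Pool.Agent.H4.Joh

variable {α : Type*} [DecidableEq α] {N x y w : Finset α} {i s t : ℕ}
  {a b c X Y W d o : ℕ}

open Finset

/-! ## Kneser graphs -/

theorem nonempty_of {A : Finset α} {k : ℕ} (h : A.card = k) (hk : 1 ≤ k) : A.Nonempty :=
  card_pos.mp (by rw [h]; exact hk)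

theorem good_K (ht : 3 ≤ t) (hs : 1 ≤ s) : Good α 0 s t := by
  intro N x y w h
  obtain ⟨a, b, c, X, Y, W, d, o, hc⟩ := Cfg.cells N x y w
  obtain ⟨s1, s2, s3, s4, s5, s6, s7, s8, s9⟩ := hc.sums h
  have x1 : X + o = c + s + d := by clear s5 s7 s8 s9; omega
  have x2 : Y + o = b + s + d := by clear s5 s7 s8 s9; omega
  have x3 : W + o = a + s + d := by clear s5 s7 s8 s9; omega
  obtain ⟨i1, i2, i3⟩ := hc.inters
  obtain ⟨ha, hb, hcc, hX, hY, hW, hd, ho⟩ := hc
  by_cases c1 : b + d = 0
  · exact caseK0 h hs (card_eq_zero.mp (by rw [i2]; exact c1))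
  by_cases c2 : c + d = 0
  · exact (caseK0 h.swap hs (card_eq_zero.mp (by rw [i3]; exact c2))).swap
  have s5' : 1 ≤ a + d := Nat.pos_of_ne_zero s5
  have c1' : 1 ≤ b + d := Nat.pos_of_ne_zero c1
  have c2' : 1 ≤ c + d := Nat.pos_of_ne_zero c2
  have ht2 : 2 ≤ t := by clear s5 c1 c2; omega
  clear s4 s5 c1 c2 i1 i2 i3
  rcases Nat.eq_zero_or_pos X with e1 | e1
  · rcases Nat.eq_zero_or_pos Y with e2 | e2
    · have f1 : 1 ≤ b := by omega
      have f2 : 1 ≤ c := by omega
      rcases Nat.eq_zero_or_pos d with e3 | e3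
      · have f3 : 2 ≤ a := by omega
        have f4 : 2 ≤ o := by omega
        exact caseK2 h ht hs (by rw [ha]; exact f3) (by rw [ho]; exact f4) (nonempty_of hb f1) (nonempty_of hcc f2)
      · have f3 : 1 ≤ a := by omega
        have f4 : 3 ≤ o := by omega
        exact caseK3 h ht hs (nonempty_of ha f3) (by rw [ho]; exact f4) (nonempty_of hb f1) (nonempty_of hcc f2) (nonempty_of hd e3)
    · have f1 : 1 ≤ o := by omega
      have f2 : 1 ≤ b := by omega
      have f3 : 1 ≤ a := by omega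
      exact caseKeo h ht2 hs (nonempty_of ha f3) (nonempty_of ho f1) (nonempty_of hY e2) (nonempty_of hb f2)
  · rcases Nat.eq_zero_or_pos Y with e2 | e2
    · have f1 : 1 ≤ o := by omega
      have f2 : 1 ≤ c := by omega
      have f3 : 1 ≤ a := by omega
      refine (caseKeo h.swap ht2 hs ?_ ?_ (nonempty_of hX e1) (nonempty_of hcc f2)).swap
      · rw [inter_comm]; exact nonempty_of ha f3
      · rw [union_comm y x]; exact nonempty_of ho f1
    · rcases Nat.eq_zero_or_pos d with e3 | e3
      · have f1 : 1 ≤ a := by omega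
        have f2 : 1 ≤ b := by omega
        rcases Nat.eq_zero_or_pos W with e4 | e4
        · exact caseKeo h ht2 hs (nonempty_of ha f1) (nonempty_of ho (by omega)) (nonempty_of hY e2) (nonempty_of hb f2)
        · exact caseKoo h ht2 hs (nonempty_of hX e1) (nonempty_of hY e2) (nonempty_of ha f1) (nonempty_of hW e4)
      · rcases Nat.eq_zero_or_pos o with e4 | e4
        · have f1 : 2 ≤ X := by omega
          have f2 : 2 ≤ Y := by omega
          have f3 : 1 ≤ W := by omega
          exact caseK1 h ht hs (by rw [hX]; exact f1) (by rw [hY]; exact f2) (nonempty_of hW f3) (nonempty_of hd e3)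
        · exact caseKee h ht2 hs (nonempty_of hX e1) (nonempty_of hY e2) (nonempty_of ho e4) (nonempty_of hd e3)

end Pool.Agent.H4.Joh
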